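import Pool.Agent.Lib.P5q.Hyp

/-!
# Attainable diagonal matrices in the regular case (any infinite field)
-/

open Finset Matrix

namespace Pool.Agent.P5q

open Pool.Agent.P5m

variable {r : ℕ} {K : Type*} [Field K] {l : ℕ}

/-- the matrix of the linear map -/
private def aoM (α : Equiv.Perm (Fin (r + 1)) → K) (a : Fin (r + 1) → ZMod l)
    (w : Fin (r + 1) → ZMod l → K) : Matrix (ZMod l) (ZMod l) K :=
  fun i j => Psi α a (Function.update w 0 (Pi.single j 1)) i

private theorem ao_LK_iff [NeZero l] (α : Equiv.Perm (Fin (r + 1)) → K) (a : Fin (r + 1) → ZMod l)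
    (w : Fin (r + 1) → ZMod l → K) (y : ZMod l → K) : LK α a w y ↔ y ᵥ* aoM α a w = 0 := by
  constructor
  · intro h
    funext j
    exact h (Pi.single j 1)
  · intro h x
    have h1 : TBAux.F α a w x = ∑ j, x j • TBAux.F α a w (Pi.single j 1) := by
      conv_lhs => rw [← Finset.univ_sum_single x, map_sum]
      refine sum_congr rfl fun j _ => ?_
      have : (Pi.single j (x j) : ZMod l → K) = x j • Pi.single j 1 := by
        rw [← Pi.single_smul, smul_eq_mul, mul_one]
      rw [this, map_smul]
    have h2 : ∀ i, Psi α a (Function.update w 0 x) i = ∑ j, x j * aoM α a w i j := by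
      intro i
      have := congrFun h1 i
      rw [Finset.sum_apply] at this
      exact this
    calc ∑ i, y i * Psi α a (Function.update w 0 x) i = ∑ i, ∑ j, x j * (y i * aoM α a w i j) := by
          refine sum_congr rfl fun i _ => ?_
          rw [h2, mul_sum]
          refine sum_congr rfl fun j _ => ?_
          ring
      _ = ∑ j, x j * ∑ i, y i * aoM α a w i j := by
          rw [sum_comm]
          refine sum_congr rfl fun j _ => ?_
          rw [mul_sum]
      _ = 0 := by
          refine sum_eq_zero fun j _ => ?_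
          have h3 := congrFun h j
          change ∑ i, y i * aoM α a w i j = 0 at h3
          rw [h3, mul_zero]

private theorem ao_det [NeZero l] (α : Equiv.Perm (Fin (r + 1)) → K) (a : Fin (r + 1) → ZMod l)
    (w : Fin (r + 1) → ZMod l → K) : (aoM α a w).det ≠ 0 ↔ ∀ y, LK α a w y → y = 0 := by
  constructor
  · intro h y hy
    exact Matrix.eq_zero_of_vecMul_eq_zero h ((ao_LK_iff α a w y).1 hy)
  · intro h h0
    obtain ⟨v, hv, hv0⟩ := Matrix.exists_vecMul_eq_zero_iff.2 h0
    exact hv (h v ((ao_LK_iff α a w v).2 hv0))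

private theorem ao_pl [NeZero l] (α : Equiv.Perm (Fin (r + 1)) → K) (a : Fin (r + 1) → ZMod l) :
    Pl fun w : Fin (r + 1) → ZMod l → K => (aoM α a w).det := by
  refine Pl.det fun i j => ?_
  have h : (fun w : Fin (r + 1) → ZMod l → K => aoM α a w i j) = fun w =>
      ∑ σ, α σ * ((Pi.single j 1 : ZMod l → K) (i + pre σ a 0) *
        ∏ k ∈ univ.erase 0, w k (i + pre σ a k)) := by
    funext w
    exact TBAux.psi_update α a w _ i
  rw [h]
  exact Pl.sum _ fun σ _ => (Pl.const _).mul ((Pl.const _).mul (Pl.prod _ fun k _ => Pl.coord _ _))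

theorem att_free2 [Infinite K] [NeZero l] (α : Equiv.Perm (Fin (r + 1)) → K)
    (hα : α 1 ≠ 0) (a b : Fin (r + 1) → ZMod l) (hab : Gpt l a b)
    (hS : ∃ w : Fin (r + 1) → ZMod l → K, ∀ y, LK α a w y → y = 0) (D : Fin l → K) :
    Att α l D := by
  obtain ⟨w₁, h1⟩ := hS
  have g1 := (ao_pl α a).gn ((ao_det α a w₁).2 h1)
  have g2 : Gn fun w : Fin (r + 1) → ZMod l → K => ∀ i, gvec α a w i ≠ 0 :=
    gvec_poly α hα a b hab
  obtain ⟨w, hw1, hw2⟩ := (g1.and g2).exists
  set e : ZMod l ≃ Fin l := (ZMod.finEquiv l).symm.toEquiv with he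
  obtain ⟨x, hx⟩ := solve_zero α a w ((ao_det α a w).1 hw1) (fun i => D (e i))
  exact att_of_x α a hab.sum w hw2 x e D hx

end Pool.Agent.P5q
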