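import Mathlib

/-!
# Each coefficient condition excludes few primes
-/

open Finset

namespace Pool.Agent.P5q

variable {Ω : Type*} [Field Ω]

/-- Roots of unity of coprime orders. -/
theorem eq_one_of_two {l l' : ℕ} (hl : l.Prime) (hl' : l'.Prime) (hne : l ≠ l') (k k' : ℕ) (z : Ω)
    (h : z ^ l ^ k = 1) (h' : z ^ l' ^ k' = 1) : z = 1 := by
  have h1 : orderOf z ∣ l ^ k := orderOf_dvd_of_pow_eq_one h
  have h2 : orderOf z ∣ l' ^ k' := orderOf_dvd_of_pow_eq_one h'
  have h3 : Nat.Coprime (l ^ k) (l' ^ k') := Nat.Coprime.pow _ _ ((Nat.coprime_primes hl hl').2 hne)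
  have h4 : orderOf z ∣ 1 := by
    rw [← h3]
    exact Nat.dvd_gcd h1 h2
  exact orderOf_eq_one_iff.1 (Nat.dvd_one.1 h4)

theorem bad_pair (u v : Ω) (hu : u ≠ 0) (P : Finset ℕ)
    (hP : ∀ l ∈ P, l.Prime ∧ ∃ (k : ℕ) (z : Ω), z ^ l ^ k = 1 ∧ z ≠ 1 ∧ u + v * z = 0) :
    P.card ≤ 1 := by
  by_contra hcon
  push Not at hcon
  obtain ⟨l, hl, l', hl', hne⟩ := Finset.one_lt_card.1 hcon
  obtain ⟨hp, k, z, hz, hz1, hz2⟩ := hP l hl
  obtain ⟨hp', k', z', hz', hz1', hz2'⟩ := hP l' hl'
  have hv : v ≠ 0 := by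
    rintro rfl
    rw [zero_mul, add_zero] at hz2
    exact hu hz2
  have h1 : z = z' := by
    apply mul_left_cancel₀ hv
    linear_combination hz2 - hz2'
  subst h1
  exact hz1 (eq_one_of_two hp hp' hne k k' z hz hz')

theorem bad_poly {k : ℕ} (c : Fin k → Ω) (S : Fin k → ℤ) (hS : Function.Injective S) (B : ℕ)
    (hB : ∀ i, |S i| ≤ B) (hc : ∃ i, c i ≠ 0) (P : Finset ℕ)
    (hP : ∀ l ∈ P, l.Prime ∧ ∃ (k : ℕ) (z : Ω), z ^ l ^ k = 1 ∧ z ≠ 1 ∧
      ∑ i, c i * z ^ S i = 0) :
    P.card ≤ 2 * B := by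
  classical
  have hT : ∀ i, (((S i + B).toNat : ℕ) : ℤ) = S i + B := by
    intro i
    have := abs_le.1 (hB i)
    rw [Int.toNat_of_nonneg (by omega)]
  set f : Polynomial Ω := ∑ i, Polynomial.monomial (S i + B).toNat (c i) with hf
  have hinj : Function.Injective fun i => (S i + B).toNat := by
    intro i j hij
    apply hS
    have h1 := hT i
    have h2 := hT j
    simp only at hij
    rw [hij] at h1
    omega
  have hfne : f ≠ 0 := by
    obtain ⟨i, hi⟩ := hc
    intro h0
    apply hi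
    have h1 := congrArg (fun g => Polynomial.coeff g (S i + B).toNat) h0
    simp only [hf, Polynomial.finsetSum_coeff, Polynomial.coeff_monomial,
      Polynomial.coeff_zero] at h1
    rw [Finset.sum_eq_single i] at h1
    · rw [if_pos rfl] at h1
      exact h1
    · intro j _ hj
      rw [if_neg fun h2 => hj (hinj h2)]
    · intro h2
      exact absurd (mem_univ i) h2
  have hdeg : f.natDegree ≤ 2 * B := by
    refine Polynomial.natDegree_sum_le_of_forall_le _ _ fun i _ => ?_
    refine le_trans (Polynomial.natDegree_monomial_le _) ?_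
    have := abs_le.1 (hB i)
    have := hT i
    omega
  have hz : ∀ l : P, ∃ (k : ℕ) (z : Ω), z ^ (l : ℕ) ^ k = 1 ∧ z ≠ 1 ∧ ∑ i, c i * z ^ S i = 0 :=
    fun l => (hP l l.2).2
  choose k z hz1 hz2 hz3 using hz
  have hzinj : Function.Injective z := by
    intro l l' h
    by_contra hne
    refine hz2 l (eq_one_of_two (hP l l.2).1 (hP l' l'.2).1 (fun h2 => hne (Subtype.ext h2)) (k l)
      (k l') (z l) (hz1 l) ?_)
    rw [h]
    exact hz1 l'
  have hroot : ∀ l, z l ∈ f.roots.toFinset := by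
    intro l
    rw [Multiset.mem_toFinset, Polynomial.mem_roots hfne, Polynomial.IsRoot.def]
    have hz0 : z l ≠ 0 := by
      intro h0
      have := hz1 l
      rw [h0, zero_pow (pow_ne_zero _ (hP l l.2).1.ne_zero)] at this
      exact zero_ne_one this
    have h1 : Polynomial.eval (z l) f = z l ^ B * ∑ i, c i * z l ^ S i := by
      rw [hf, Polynomial.eval_finsetSum, mul_sum]
      refine sum_congr rfl fun i _ => ?_
      rw [Polynomial.eval_monomial]
      have h2 : z l ^ (S i + B).toNat = z l ^ S i * z l ^ B := by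
        rw [← zpow_natCast, hT, zpow_add₀ hz0, zpow_natCast]
      rw [h2]
      ring
    rw [h1, hz3, mul_zero]
  have h1 : P.card ≤ f.roots.toFinset.card := by
    rw [← Fintype.card_coe P]
    have := Finset.card_le_card_of_injOn (s := (univ : Finset P)) (t := f.roots.toFinset) z
      (fun l _ => hroot l) (fun a _ b _ h => hzinj h)
    simpa using this
  exact le_trans h1 (le_trans (Multiset.toFinset_card_le _) (le_trans (Polynomial.card_roots' f)
    hdeg))

end Pool.Agent.P5q
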