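import Pool.Agent.Lib.P5q.Two2

/-!
# Two diagonal blocks of trace zero in characteristic two

`K` infinite of characteristic `2`, `T` not scalar, of trace zero, on a space of dimension `2 s`,
`s ≥ 5` odd. PROOF of `base_two`.

(0) GENERAL TOOL. Let `v : ι → V` be a basis, `κ : ι → Fin 2` a colouring with `s` indices of each
colour, such that `v.repr (T (v j)) i = 0` for `i ≠ j` of the same colour. Then `Blk T (fun _ => s) D`
with `D a p` the diagonal entry `v.repr (T (v j)) j` at the index `j` numbered by `(a, p)`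
(reindex by a bijection `ι ≃ Σ _ : Fin 2, Fin s` compatible with `κ`), and the sum of `D 0` is
the sum of the diagonal entries of colour `0`. The other tool is `blk_ch` (`P5m/Two.lean`) for a
chain structure `IsCh T k d t` numbered alternately (`num_exists`): it needs only that the values
`δ i j` of the same colour in the same chain are different.

(1) Take a decomposition `Pk T (Fin k) q x` (`ChAux.exists_pk`, `P5m/Chains.lean`) with `k` MINIMAL.
Then no two of the `q i` are coprime: otherwise `x i + x j` generates the sum of the two cyclic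
spaces with `q i * q j` and `k` could be decreased (compare the proof of `ChAux.exists_pk_two`,
which does this for two different linear polynomials). `T` is not scalar, so some `q i` has degree
`≥ 2` (if all have degree one they are equal, and `T` is scalar). `Pk.isCh` gives the chain structure
with `d i = natDegree (q i)`, `t i = - coeff (q i) (d i - 1)`; `∑ t i = trace T = 0`. Number the
positions alternately (`num_exists`); let `c₀ i, c₁ i` be the numbers of positions of
colour `0`, `1` in chain `i`, `|c₀ i - c₁ i| ≤ 1`, `c₀ i + c₁ i = d i`.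

(2) REALISATION. Let `d i ≥ 2`, `σ ≠ 0`, `t i - σ ≠ 0`. Then there are values `δ i ·` with sum `t i`, sum
`σ` over colour `0`, different on positions of the same colour: apply `pick` to each of the
two classes (class of size one: the value is the sum; size two: the sum is not zero; size `≥ 3`: no
condition). More generally a class of size `≠ 2` may have any sum.

(3) CASE A: two different chains `i₀, i₁` have length `≥ 2`. For all other chains of length `≥ 2`
choose `σ i ∉ {0, t i}` and realise it. Then choose `σ i₁` outside of a finite set such that it is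
realised and such that the remaining sum `σ i₀ := -(all other values of colour 0)` satisfies
`σ i₀ ≠ 0`, `σ i₀ ≠ t i₀`. Realise it. The sum over colour `0` is zero. `blk_ch`.

(4) CASE B: exactly one chain `i₀` of length `d ≥ 2`. The other `q i` are linear and equal (not
coprime): `X - μ`. Required class sums for `i₀`: `-(s - c₀) μ` and `-(s - c₁) μ` (their sum is `t i₀`
because the trace is zero). If `μ ≠ 0` and a class has size two then its sum is
`-(s - 2) μ = μ ≠ 0` (`s` odd, `2 = 0`), so the values exist as in (2). The same if `μ = 0` and no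
class has size two, that is `d = 2` or `d ≥ 6`.

(5) CASE C: `μ = 0`, `d ∈ {3, 4, 5}`, all other `q i = X`. As `2 s ≥ 10 > d` there are other
chains, so `q := q i₀` is not coprime to `X`: `X ∣ q`. Let `u = x i₀`, so `q(T) u = 0`, and `t i₀ = 0`.
`V` has the basis `T^j u` (`j < d`) and the `x i` (`i ≠ i₀`), `T (x i) = 0`.
`d = 3`: `q = X^3 - c X`. Basis `u, T u, T^2 u`, `x i`: `T (T^2 u) = c T u`. Give `u, T^2 u` the colour
`0`, `T u` the colour `1`, distribute the `x i` so that both colours have `s` vectors. All entries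
between vectors of the same colour are zero, `D = 0`. Use (0).
`d = 4` or `5`: choose different `a j`, `j < d - 1`, with sum `0` (`pick`, `d - 1 ≥ 3`). Let
`P = ∏ j, (X - a j)`, `L j = P / (X - a j)`, `v j = L j (T) u`, `v' = P (T) u`. These `d` vectors are a
basis of the chain (Lagrange: the `L j` span the polynomials of degree `< d - 1`, `P` is monic of
degree `d - 1`). `T v j = a j • v j + v'`, and `T v' = (X P)(T) u = (X P - q)(T) u` is a combination
of the `v j` because `X P - q` has degree `< d - 1` (the coefficients of `X^(d-1)` are `-∑ a j = 0` and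
`-t i₀ = 0`). Give the `v j` the colour `0` (`d - 1 ≤ 4 ≤ s`), `v'` the colour `1`, and distribute
the `x i`. Entries of colour `0`: the `a j` (sum zero) and zeros. Use (0).
-/

open Finset

namespace Pool.Agent.P5q

open Pool.Agent.P5m

variable {K V : Type*} [Field K] [AddCommGroup V] [Module K V]

namespace BaseTwoAux

open Polynomial ChAux TwoAux Two2Aux

/-- two coprime summands can be merged -/
theorem merge {T : V →ₗ[K] V} {k : ℕ} {q : Fin k → K[X]} {x : Fin k → V}
    (h : Pk T (Fin k) q x) {i i' : Fin k} (hne : i ≠ i') (hco : IsCoprime (q i) (q i')) :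
    ∃ (k' : ℕ) (q' : Fin k' → K[X]) (x' : Fin k' → V), k' < k ∧ Pk T (Fin k') q' x' := by
  classical
  let κ := {j : Fin k // j ≠ i'}
  let q' : κ → K[X] := fun j => if j.1 = i then q i * q i' else q j.1
  let x' : κ → V := fun j => if j.1 = i then x i + x i' else x j.1
  let i₀ : κ := ⟨i, hne⟩
  -- sums over all indices
  have hsum : ∀ F : Fin k → V, ∑ j, F j = F i' + ∑ j : κ, F j.1 := by
    intro F
    rw [← Finset.add_sum_erase _ _ (Finset.mem_univ i')]
    congr 1
    rw [← Finset.sum_coe_sort]
    refine Fintype.sum_equiv (Equiv.subtypeEquivRight fun j => by simp) _ _ fun j => rfl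
  have hterm : ∀ (g : κ → K[X]) (j : κ), aeval T (g j) (x' j) =
      (if j = i₀ then aeval T (g i₀) (x i') else 0) + aeval T (g j) (x j.1) := by
    intro g j
    by_cases hj : j = i₀
    · subst hj
      simp only [x', i₀]
      rw [if_pos trivial, if_pos trivial, map_add, add_comm]
    · have hj' : j.1 ≠ i := fun e => hj (Subtype.ext e)
      simp only [x']
      rw [if_neg hj', if_neg hj, zero_add]
  have hsum2 : ∀ g : κ → K[X], ∑ j, aeval T (g j) (x' j) =
      aeval T (g i₀) (x i') + ∑ j : κ, aeval T (g j) (x j.1) := by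
    intro g
    simp only [hterm g]
    rw [Finset.sum_add_distrib, Finset.sum_ite_eq' Finset.univ i₀, if_pos (Finset.mem_univ _)]
  -- congruent polynomials
  have hcong : ∀ (l : Fin k) (f g : K[X]), q l ∣ f - g → aeval T f (x l) = aeval T g (x l) := by
    intro l f g hfg
    obtain ⟨r, hr⟩ := hfg
    have h1 : f = g + r * q l := by
      rw [mul_comm, ← hr]
      ring
    rw [h1, map_add, LinearMap.add_apply, aeval_mul_apply, h.zero l, map_zero, add_zero]
  have hPk : Pk T κ q' x' := by
    refine ⟨?_, ?_, ?_, ?_, ?_⟩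
    · intro j
      simp only [q']
      split_ifs
      · exact (h.monic i).mul (h.monic i')
      · exact h.monic _
    · intro j
      simp only [q']
      split_ifs
      · rw [(h.monic i).natDegree_mul (h.monic i')]
        have := h.deg i
        omega
      · exact h.deg _
    · intro j
      simp only [q', x']
      split_ifs
      · rw [map_add]
        rw [aeval_mul_apply T _ _ (x i'), h.zero i', map_zero, add_zero, mul_comm,
          aeval_mul_apply, h.zero i, map_zero]
      · exact h.zero _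
    · intro v
      obtain ⟨g, hg⟩ := h.span v
      obtain ⟨a, c, hac⟩ := hco
      let m : K[X] := g i * (c * q i') + g i' * (a * q i)
      have hm1 : q i ∣ m - g i := by
        refine ⟨a * (g i' - g i), ?_⟩
        simp only [m]
        linear_combination (g i) * hac
      have hm2 : q i' ∣ m - g i' := by
        refine ⟨c * (g i - g i'), ?_⟩
        simp only [m]
        linear_combination (g i') * hac
      refine ⟨fun j => if j = i₀ then m else g j.1, ?_⟩
      rw [hsum2, hg, hsum]
      simp only [if_true]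
      rw [hcong i' m _ hm2]
      congr 1
      refine Finset.sum_congr rfl fun j _ => ?_
      by_cases hj : j = i₀
      · rw [if_pos hj, hj]
        simp only [i₀]
        rw [hcong i m _ hm1]
      · rw [if_neg hj]
    · intro g hg j
      rw [hsum2] at hg
      let g' : Fin k → K[X] := fun l => if hl : l ≠ i' then g ⟨l, hl⟩ else g i₀
      have h1 : ∑ l, aeval T (g' l) (x l) = 0 := by
        rw [hsum, ← hg]
        congr 1
        · simp only [g']
          rw [dif_neg (by simp)]
        · refine Finset.sum_congr rfl fun j _ => ?_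
          simp only [g']
          rw [dif_pos j.2]
      have h2 := h.ind g' h1
      by_cases hj : j = i₀
      · subst hj
        have h3 := h2 i
        have h4 := h2 i'
        simp only [g'] at h3 h4
        rw [dif_pos hne] at h3
        rw [dif_neg (by simp)] at h4
        simp only [q', i₀]
        rw [if_pos trivial]
        exact hco.mul_dvd h3 h4
      · have hj' : j.1 ≠ i := fun e => hj (Subtype.ext e)
        have h3 := h2 j.1
        simp only [g'] at h3
        rw [dif_pos j.2] at h3
        simp only [q']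
        rw [if_neg hj']
        exact h3
  let τ : Fin (Fintype.card κ) ≃ κ := (Fintype.equivFin κ).symm
  refine ⟨_, _, _, ?_, hPk.reindex τ⟩
  have h5 := Fintype.card_subtype_lt (p := fun j : Fin k => j ≠ i') (x := i') (by simp)
  rwa [Fintype.card_fin] at h5

/-- a decomposition without coprime pairs -/
theorem exists_min [FiniteDimensional K V] (T : V →ₗ[K] V) :
    ∃ (k : ℕ) (q : Fin k → K[X]) (x : Fin k → V), Pk T (Fin k) q x ∧
      ∀ i i', i ≠ i' → ¬ IsCoprime (q i) (q i') := by
  classical
  have hex : ∃ k : ℕ, ∃ (q : Fin k → K[X]) (x : Fin k → V), Pk T (Fin k) q x := exists_pk T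
  obtain ⟨q, x, h⟩ := Nat.find_spec hex
  refine ⟨Nat.find hex, q, x, h, fun i i' hii hco => ?_⟩
  obtain ⟨k', q', x', hk, h'⟩ := merge h hii hco
  exact Nat.find_min hex hk ⟨q', x', h'⟩

theorem trace_ch {T : V →ₗ[K] V} {k : ℕ} {d : Fin k → ℕ} {t : Fin k → K} (hc : IsCh T k d t) :
    LinearMap.trace K V T = ∑ i, t i := by
  obtain ⟨b, -, hb, -⟩ := hc.2 (fun i j => if (j : ℕ) = 0 then t i else 0) (fun i => by
    have h1 := hc.1 i
    rw [Finset.sum_eq_single (⟨0, h1⟩ : Fin (d i))]
    · simp
    · intro b _ hb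
      exact if_neg fun e => hb (Fin.ext e)
    · intro h
      exact absurd (Finset.mem_univ _) h)
  rw [LinearMap.trace_eq_matrix_trace K b, Matrix.trace, Fintype.sum_sigma]
  refine Finset.sum_congr rfl fun i _ => ?_
  have h1 := hc.1 i
  rw [Finset.sum_eq_single (⟨0, h1⟩ : Fin (d i))]
  · rw [Matrix.diag_apply, LinearMap.toMatrix_apply, hb]
    simp
  · intro j _ hj
    rw [Matrix.diag_apply, LinearMap.toMatrix_apply, hb]
    exact if_neg fun e => hj (Fin.ext e)
  · intro h
    exact absurd (Finset.mem_univ _) h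

/-- different values on a finite non-empty type -/
theorem pick_ty [Infinite K] {ι : Type*} [Fintype ι] [Nonempty ι] (s : K)
    (h : Fintype.card ι = 2 → s ≠ 0) :
    ∃ x : ι → K, Function.Injective x ∧ ∑ i, x i = s := by
  classical
  by_cases h1 : Fintype.card ι = 1
  · obtain ⟨i0, hi0⟩ := Fintype.card_eq_one_iff.1 h1
    refine ⟨fun _ => s, fun i j _ => by rw [hi0 i, hi0 j], ?_⟩
    rw [Finset.sum_const, Finset.card_univ, h1, one_smul]
  · have h3 : 2 ≤ Fintype.card ι := by
      have := Fintype.card_pos (α := ι)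
      omega
    obtain ⟨x, h4, h5, -⟩ := pick (Fintype.card ι) h3 s ∅ (fun e => Or.inr (h e))
    refine ⟨fun i => x (Fintype.equivFin ι i), h4.comp (Fintype.equivFin ι).injective, ?_⟩
    rw [← h5]
    exact Equiv.sum_comp (Fintype.equivFin ι) x

/-- values in a chain with a prescribed sum over the colour `0` -/
theorem pick_col [Infinite K] {c : ℕ} (col : Fin c → Fin 2)
    (hcol : ∀ a, ∃ j, col j = a) (t σ : K)
    (h0 : Fintype.card {j // col j = 0} = 2 → σ ≠ 0)
    (h1 : Fintype.card {j // col j = 1} = 2 → t - σ ≠ 0) :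
    ∃ x : Fin c → K, (∀ j j', j ≠ j' → col j = col j' → x j ≠ x j') ∧ ∑ j, x j = t ∧
      ∑ j, (if col j = 0 then x j else 0) = σ := by
  classical
  have hn : ∀ a, Nonempty {j // col j = a} := fun a => by
    obtain ⟨j, hj⟩ := hcol a
    exact ⟨⟨j, hj⟩⟩
  have h : ∀ a : Fin 2, ∃ x : {j // col j = a} → K, Function.Injective x ∧
      ∑ i, x i = if a = 0 then σ else t - σ := fun a => by
    have := hn a
    refine pick_ty _ ?_
    rcases Fin.exists_fin_two.1 ⟨a, rfl⟩ with e | e
    · subst e
      rw [if_pos rfl]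
      exact h0
    · subst e
      rw [if_neg (by decide)]
      exact h1
  choose x hx1 hx2 using h
  let y : Fin c → K := fun j => x (col j) ⟨j, rfl⟩
  have hy : ∀ (a : Fin 2) (j : {j // col j = a}), y j = x a j := by
    rintro a ⟨j, rfl⟩
    rfl
  have hsum : ∀ a : Fin 2, ∑ j, (if col j = a then y j else 0) = if a = 0 then σ else t - σ := by
    intro a
    rw [← hx2 a, ← Finset.sum_filter, ← Finset.sum_subtype_eq_sum_filter]
    rw [Finset.subtype_univ]
    exact Finset.sum_congr rfl fun j _ => hy a j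
  refine ⟨y, ?_, ?_, ?_⟩
  · intro j j' hj hc e
    have e1 := hy (col j) ⟨j, rfl⟩
    have e2 := hy (col j) ⟨j', hc.symm⟩
    simp only at e1 e2
    rw [e1, e2] at e
    have := hx1 _ e
    exact hj (congrArg Subtype.val this)
  · have h0 := hsum 0
    have h1 := hsum 1
    rw [if_pos rfl] at h0
    rw [if_neg (by decide)] at h1
    have : ∑ j, y j = ∑ j, (if col j = 0 then y j else 0) + ∑ j, (if col j = 1 then y j else 0) := by
      rw [← Finset.sum_add_distrib]
      refine Finset.sum_congr rfl fun j _ => ?_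
      rcases Fin.exists_fin_two.1 ⟨col j, rfl⟩ with e | e
      · rw [if_pos e, if_neg (by rw [e]; decide), add_zero]
      · rw [if_neg (by rw [e]; decide), if_pos e, zero_add]
    rw [this, h0, h1]
    ring
  · rw [hsum 0, if_pos rfl]

/-- a coloured basis -/
theorem blk_col {T : V →ₗ[K] V} {ι : Type*} [Fintype ι] (b : Module.Basis ι K V)
    (κ : ι → Fin 2) {s : ℕ} (hs : ∀ a, Fintype.card {i // κ i = a} = s)
    (hoff : ∀ i j, i ≠ j → κ i = κ j → b.repr (T (b j)) i = 0) :
    ∃ D : Fin 2 → Fin s → K, Blk T (fun _ => s) D ∧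
      ∑ i, D 0 i = ∑ i : {i // κ i = 0}, b.repr (T (b i.1)) i.1 := by
  classical
  let e : ∀ a : Fin 2, {i // κ i = a} ≃ Fin s := fun a => Fintype.equivFinOfCardEq (hs a)
  let E : ι ≃ Σ _ : Fin 2, Fin s := (Equiv.sigmaFiberEquiv κ).symm.trans (Equiv.sigmaCongrRight e)
  have hE : ∀ a p, E.symm ⟨a, p⟩ = ((e a).symm p).1 := fun a p => rfl
  refine ⟨fun a p => b.repr (T (b (E.symm ⟨a, p⟩))) (E.symm ⟨a, p⟩), ⟨b.reindex E, ?_⟩, ?_⟩
  · intro a i j
    rw [Module.Basis.repr_reindex_apply, Module.Basis.reindex_apply]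
    by_cases hij : i = j
    · subst hij
      rw [if_pos rfl]
    · rw [if_neg hij]
      refine hoff _ _ ?_ ?_
      · intro h
        have h1 := E.symm.injective h
        exact hij (eq_of_heq (Sigma.mk.inj h1).2)
      · rw [hE, hE, ((e a).symm i).2, ((e a).symm j).2]
  · rw [← Equiv.sum_comp (e 0).symm]
    rfl

theorem card_col {J : Type*} [Fintype J] (col : J → Fin 2) :
    Fintype.card {j // col j = 0} + Fintype.card {j // col j = 1} = Fintype.card J := by
  classical
  rw [Fintype.card_subtype, Fintype.card_subtype]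
  have h2 := Finset.card_eq_sum_card_fiberwise (f := col) (s := (univ : Finset J))
    (t := (univ : Finset (Fin 2))) (fun _ _ => Finset.mem_coe.2 (Finset.mem_univ _))
  rw [Fin.sum_univ_two, Finset.card_univ] at h2
  exact h2.symm

/-- the last step in the case of many kernel vectors -/
theorem finish {T : V →ₗ[K] V} {J I : Type*} [Fintype J] [Fintype I]
    (b : Module.Basis (J ⊕ I) K V) {s : ℕ} (hcard : Fintype.card (J ⊕ I) = 2 * s)
    (col : J → Fin 2) (h0 : Fintype.card {j // col j = 0} ≤ s)
    (h1 : Fintype.card {j // col j = 1} ≤ s)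
    (hI : ∀ i, T (b (Sum.inr i)) = 0)
    (hJI : ∀ j i, b.repr (T (b (Sum.inl j))) (Sum.inr i) = 0)
    (hJJ : ∀ j j', j ≠ j' → col j = col j' → b.repr (T (b (Sum.inl j'))) (Sum.inl j) = 0)
    (hd : ∑ j, (if col j = 0 then b.repr (T (b (Sum.inl j))) (Sum.inl j) else 0) = 0) :
    ∃ D : Fin 2 → Fin s → K, Blk T (fun _ => s) D ∧ ∑ i, D 0 i = 0 := by
  classical
  have hJ : Fintype.card {j // col j = 0} + Fintype.card {j // col j = 1} = Fintype.card J := by
    rw [Fintype.card_subtype, Fintype.card_subtype]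
    have h2 := Finset.card_eq_sum_card_fiberwise (f := col) (s := (univ : Finset J))
      (t := (univ : Finset (Fin 2))) (fun _ _ => Finset.mem_coe.2 (Finset.mem_univ _))
    rw [Fin.sum_univ_two, Finset.card_univ] at h2
    exact h2.symm
  rw [Fintype.card_sum] at hcard
  obtain ⟨S, -, hS⟩ := Finset.exists_subset_card_eq (s := (univ : Finset I))
    (n := s - Fintype.card {j // col j = 0}) (by rw [Finset.card_univ]; omega)
  let κ : J ⊕ I → Fin 2 := Sum.elim col (fun i => if i ∈ S then 0 else 1)
  have hk0 : Fintype.card {i // κ i = 0} = s := by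
    rw [Fintype.card_congr (Equiv.subtypeSum (p := fun x => κ x = 0)), Fintype.card_sum]
    have e1 : Fintype.card {j : J // κ (Sum.inl j) = 0} = Fintype.card {j // col j = 0} := rfl
    have e2 : (univ.filter fun i : I => κ (Sum.inr i) = 0) = S := by
      ext i
      rw [Finset.mem_filter]
      simp only [κ, Sum.elim_inr, Finset.mem_univ, true_and]
      constructor
      · intro h
        by_contra hc
        rw [if_neg hc] at h
        exact absurd h (by decide)
      · intro h
        rw [if_pos h]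
    rw [e1, Fintype.card_subtype (fun i : I => κ (Sum.inr i) = 0), e2, hS]
    omega
  have hk : ∀ a, Fintype.card {i // κ i = a} = s := by
    intro a
    rcases Fin.exists_fin_two.1 ⟨a, rfl⟩ with e | e
    · subst e
      exact hk0
    · subst e
      have h2 := Finset.card_eq_sum_card_fiberwise (f := κ) (s := (univ : Finset (J ⊕ I)))
        (t := (univ : Finset (Fin 2))) (fun _ _ => Finset.mem_coe.2 (Finset.mem_univ _))
      rw [Fin.sum_univ_two, Finset.card_univ, Fintype.card_sum] at h2
      rw [Fintype.card_subtype] at hk0 ⊢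
      omega
  obtain ⟨D, hD, hsum⟩ := blk_col (T := T) b κ hk (by
    rintro (j | i) (j' | i') hne hcol
    · exact hJJ j j' (fun e => hne (by rw [e])) hcol
    · rw [hI]
      simp
    · exact hJI j' i
    · rw [hI]
      simp)
  refine ⟨D, hD, ?_⟩
  rw [hsum]
  have e1 : ∑ i : {i // κ i = 0}, b.repr (T (b i.1)) i.1 =
      ∑ i, (if κ i = 0 then b.repr (T (b i)) i else 0) := by
    rw [← Finset.sum_filter, ← Finset.sum_subtype_eq_sum_filter, Finset.subtype_univ]
  rw [e1, Fintype.sum_sum_type]
  have e2 : ∑ i : I, (if κ (Sum.inr i) = 0 then b.repr (T (b (Sum.inr i))) (Sum.inr i) else 0) = 0 := by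
    refine Finset.sum_eq_zero fun i _ => ?_
    rw [hI]
    simp
  rw [e2, add_zero]
  exact hd

/-- a basis adapted to one long chain -/
theorem basis_J [FiniteDimensional K V] {T : V →ₗ[K] V} {k : ℕ} {q : Fin k → K[X]}
    {x : Fin k → V} (h : Pk T (Fin k) q x) (i₀ : Fin k) (hX : ∀ i, i ≠ i₀ → q i = X)
    {J : Type} [Fintype J] (hJ : Fintype.card J = (q i₀).natDegree) (F : J → K[X])
    (hdeg : ∀ j, (F j).degree < (q i₀).degree)
    (hind : ∀ c : J → K, ∑ j, C (c j) * F j = 0 → ∀ j, c j = 0) :
    ∃ b : Module.Basis (J ⊕ {i // i ≠ i₀}) K V,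
      (∀ j, b (Sum.inl j) = aeval T (F j) (x i₀)) ∧ ∀ i, b (Sum.inr i) = x i.1 := by
  classical
  let w : J ⊕ {i // i ≠ i₀} → V := Sum.elim (fun j => aeval T (F j) (x i₀)) (fun i => x i.1)
  have hsum : ∀ G : Fin k → V, ∑ j, G j = G i₀ + ∑ j : {i // i ≠ i₀}, G j.1 := by
    intro G
    rw [← Finset.add_sum_erase _ _ (Finset.mem_univ i₀)]
    congr 1
    rw [← Finset.sum_coe_sort]
    refine Fintype.sum_equiv (Equiv.subtypeEquivRight fun j => by simp) _ _ fun j => rfl
  have hli : LinearIndependent K w := by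
    rw [Fintype.linearIndependent_iff]
    intro c hc
    rw [Fintype.sum_sum_type] at hc
    let g : Fin k → K[X] := fun i =>
      if hi : i ≠ i₀ then C (c (Sum.inr ⟨i, hi⟩)) else ∑ j, C (c (Sum.inl j)) * F j
    have h1 : ∑ i, aeval T (g i) (x i) = 0 := by
      rw [hsum, ← hc]
      congr 1
      · simp only [g]
        rw [dif_neg (by simp), aeval_sum_apply]
        exact Finset.sum_congr rfl fun j _ => aeval_C_mul_apply _ _ _ _
      · refine Finset.sum_congr rfl fun i _ => ?_
        simp only [g]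
        rw [dif_pos i.2, aeval_C]
        simp [w]
    have h2 := h.ind g h1
    have h3 : ∑ j, C (c (Sum.inl j)) * F j = 0 := by
      have h4 := h2 i₀
      simp only [g] at h4
      rw [dif_neg (by simp)] at h4
      refine eq_zero_of_dvd_of_degree_lt h4 ?_
      refine lt_of_le_of_lt (degree_sum_le _ _) ?_
      rw [Finset.sup_lt_iff (by
        rw [bot_lt_iff_ne_bot, Ne, degree_eq_bot]
        exact (h.monic i₀).ne_zero)]
      intro j _
      refine lt_of_le_of_lt (degree_mul_le _ _) ?_
      refine lt_of_le_of_lt (add_le_add_left degree_C_le _) ?_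
      rw [zero_add]
      exact hdeg j
    rintro (j | i)
    · exact hind (fun j => c (Sum.inl j)) h3 j
    · have h4 := h2 i.1
      simp only [g] at h4
      rw [dif_pos i.2, hX i.1 i.2, X_dvd_iff, coeff_C_zero] at h4
      exact h4
  have hcard : Fintype.card (J ⊕ {i // i ≠ i₀}) = Module.finrank K V := by
    rw [← dim_ch h.isCh, Fintype.card_sum, hJ, ← Finset.add_sum_erase _ _ (Finset.mem_univ i₀)]
    congr 1
    rw [Finset.sum_congr rfl (g := fun _ => 1) fun i hi => by
      rw [hX i (Finset.ne_of_mem_erase hi), natDegree_X]]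
    rw [Finset.sum_const, smul_eq_mul, mul_one, Finset.card_erase_of_mem (Finset.mem_univ _),
      Finset.card_univ, Fintype.card_subtype_compl, Fintype.card_subtype_eq]
  rcases isEmpty_or_nonempty (J ⊕ {i // i ≠ i₀}) with he | hne
  · exfalso
    have h5 : Fintype.card J = 0 := by
      rw [Fintype.card_eq_zero_iff]
      exact ⟨fun j => he.elim (Sum.inl j)⟩
    have h6 := h.deg i₀
    omega
  · let b := basisOfLinearIndependentOfCardEqFinrank hli hcard
    have hb : ∀ i, b i = w i := fun i => by
      simp only [b]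
      rw [coe_basisOfLinearIndependentOfCardEqFinrank]
    exact ⟨b, fun j => hb _, fun i => hb _⟩

/-- the sum over the colour `0` for modified values -/
theorem sum_upd {k : ℕ} {d : Fin k → ℕ} (c : (i : Fin k) → Fin (d i) → Prop)
    [∀ i j, Decidable (c i j)] (δ' : (i : Fin k) → Fin (d i) → K) (i₀ : Fin k)
    (x : Fin (d i₀) → K) :
    ∑ i, ∑ j, (if c i j then Function.update δ' i₀ x i j else 0) =
      ∑ j, (if c i₀ j then x j else 0) +
        ∑ i ∈ univ.erase i₀, ∑ j, (if c i j then δ' i j else 0) := by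
  classical
  rw [← Finset.add_sum_erase univ _ (Finset.mem_univ i₀), Function.update_self]
  congr 1
  refine Finset.sum_congr rfl fun i hi => ?_
  rw [Function.update_of_ne (Finset.ne_of_mem_erase hi)]

/-- two long chains -/
theorem case_a [Infinite K] {T : V →ₗ[K] V} {k : ℕ} {d : Fin k → ℕ} {t : Fin k → K}
    (hc : IsCh T k d t) {s : ℕ} {E : (Σ i, Fin (d i)) ≃ Σ _ : Fin 2, Fin s} {β : Fin k → ℕ}
    (hE : ∀ i j, ((E ⟨i, j⟩).1 : ℕ) + 2 * ((E ⟨i, j⟩).2 : ℕ) = β i + j)
    {i₀ i₁ : Fin k} (hne : i₁ ≠ i₀) (h₀ : 2 ≤ d i₀) (h₁ : 2 ≤ d i₁) :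
    ∃ D : Fin 2 → Fin s → K, Blk T (fun _ => s) D ∧ ∑ i, D 0 i = 0 := by
  classical
  choose δ' hδ1 hδ2 using fun i => pick_chain (K := K) (hc.1 i) (t i)
  set R := ∑ i ∈ (univ.erase i₀).erase i₁, ∑ j, (if (E ⟨i, j⟩).1 = 0 then δ' i j else 0) with hR
  obtain ⟨σ, hσ⟩ := Infinite.exists_notMem_finset ({0, t i₁, -R, -R - t i₀} : Finset K)
  simp only [Finset.mem_insert, Finset.mem_singleton, not_or] at hσ
  obtain ⟨hσ1, hσ2, hσ3, hσ4⟩ := hσ
  obtain ⟨x1, a1, a2, a3⟩ := pick_col (fun j : Fin (d i₁) => (E ⟨i₁, j⟩).1)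
    (fun a => cnt_pos hE h₁ a) (t i₁) σ (fun _ => hσ1) (fun _ => sub_ne_zero.2 (Ne.symm hσ2))
  obtain ⟨x0, c1, c2, c3⟩ := pick_col (fun j : Fin (d i₀) => (E ⟨i₀, j⟩).1)
    (fun a => cnt_pos hE h₀ a) (t i₀) (-R - σ)
    (fun _ e => hσ3 (by linear_combination -e))
    (fun _ e => hσ4 (by linear_combination e))
  set δ1 : (i : Fin k) → Fin (d i) → K := Function.update δ' i₁ x1 with hδ1'
  set δ : (i : Fin k) → Fin (d i) → K := Function.update δ1 i₀ x0 with hδ
  have e0 : δ i₀ = x0 := Function.update_self _ _ _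
  have e1 : δ i₁ = x1 := by
    rw [hδ, Function.update_of_ne hne, hδ1', Function.update_self]
  have e2 : ∀ i, i ≠ i₀ → i ≠ i₁ → δ i = δ' i := fun i hi hi' => by
    rw [hδ, Function.update_of_ne hi, hδ1', Function.update_of_ne hi']
  refine ⟨_, blk_ch hc hE δ ?_ ?_, ?_⟩
  · intro i
    by_cases hi : i = i₀
    · subst hi
      rw [e0, c2]
    · by_cases hi' : i = i₁
      · subst hi'
        rw [e1, a2]
      · rw [e2 i hi hi', hδ2]
  · intro i j j' hj hcj
    by_cases hi : i = i₀
    · subst hi
      rw [e0]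
      exact c1 j j' hj hcj
    · by_cases hi' : i = i₁
      · subst hi'
        rw [e1]
        exact a1 j j' hj hcj
      · rw [e2 i hi hi']
        exact fun e => hj (hδ1 i (len_ne_two hE hj hcj) e)
  · rw [sum_col, ← Finset.add_sum_erase univ _ (Finset.mem_univ i₀), e0, c3,
      ← Finset.add_sum_erase (univ.erase i₀) _ (Finset.mem_erase.2 ⟨hne, Finset.mem_univ i₁⟩),
      e1, a3]
    have : ∑ i ∈ (univ.erase i₀).erase i₁, ∑ j, (if (E ⟨i, j⟩).1 = 0 then δ i j else 0) = R := by
      rw [hR]
      refine Finset.sum_congr rfl fun i hi => ?_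
      have h5 := Finset.mem_erase.1 hi
      rw [e2 i (Finset.ne_of_mem_erase h5.2) h5.1]
    rw [this]
    ring

/-- one long chain -/
theorem case_b [Infinite K] {T : V →ₗ[K] V} {k : ℕ} {d : Fin k → ℕ} {t : Fin k → K}
    (hc : IsCh T k d t) {s : ℕ} {E : (Σ i, Fin (d i)) ≃ Σ _ : Fin 2, Fin s} {β : Fin k → ℕ}
    (hE : ∀ i j, ((E ⟨i, j⟩).1 : ℕ) + 2 * ((E ⟨i, j⟩).2 : ℕ) = β i + j)
    {i₀ : Fin k} (h₀ : 2 ≤ d i₀) (h1 : ∀ i, i ≠ i₀ → d i = 1) (ht : ∑ i, t i = 0)
    (hR : ∀ a : Fin 2, Fintype.card {j : Fin (d i₀) // (E ⟨i₀, j⟩).1 = a} = 2 →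
      ∑ i ∈ univ.erase i₀, ∑ j, (if (E ⟨i, j⟩).1 = a then t i else 0) ≠ 0) :
    ∃ D : Fin 2 → Fin s → K, Blk T (fun _ => s) D ∧ ∑ i, D 0 i = 0 := by
  classical
  set R : Fin 2 → K := fun a =>
    ∑ i ∈ univ.erase i₀, ∑ j, (if (E ⟨i, j⟩).1 = a then t i else 0) with hRdef
  have hR01 : R 0 + R 1 = -t i₀ := by
    have e1 : R 0 + R 1 = ∑ i ∈ univ.erase i₀, t i := by
      simp only [hRdef]
      rw [← Finset.sum_add_distrib]
      refine Finset.sum_congr rfl fun i hi => ?_
      rw [← Finset.sum_add_distrib]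
      have e2 : ∀ j : Fin (d i), (if (E ⟨i, j⟩).1 = 0 then t i else 0) +
          (if (E ⟨i, j⟩).1 = 1 then t i else 0) = t i := by
        intro j
        rcases Fin.exists_fin_two.1 ⟨(E ⟨i, j⟩).1, rfl⟩ with e | e
        · rw [if_pos e, if_neg (by rw [e]; decide), add_zero]
        · rw [if_neg (by rw [e]; decide), if_pos e, zero_add]
      rw [Finset.sum_congr rfl fun j _ => e2 j, Finset.sum_const, Finset.card_univ,
        Fintype.card_fin, h1 i (Finset.ne_of_mem_erase hi), one_smul]
    rw [e1, eq_neg_iff_add_eq_zero, add_comm, Finset.add_sum_erase _ _ (Finset.mem_univ _), ht]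
  obtain ⟨x, c1, c2, c3⟩ := pick_col (fun j : Fin (d i₀) => (E ⟨i₀, j⟩).1)
    (fun a => cnt_pos hE h₀ a) (t i₀) (-R 0)
    (fun h => neg_ne_zero.2 (hR 0 h))
    (fun h e => hR 1 h (by
      have : R 1 = 0 := by linear_combination hR01 - e
      exact this))
  set δ' : (i : Fin k) → Fin (d i) → K := fun i _ => t i with hδ'
  set δ : (i : Fin k) → Fin (d i) → K := Function.update δ' i₀ x with hδ
  have e0 : δ i₀ = x := Function.update_self _ _ _
  have e1 : ∀ i, i ≠ i₀ → δ i = δ' i := fun i hi => Function.update_of_ne hi _ _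
  refine ⟨_, blk_ch hc hE δ ?_ ?_, ?_⟩
  · intro i
    by_cases hi : i = i₀
    · subst hi
      rw [e0, c2]
    · rw [e1 i hi]
      simp only [hδ']
      rw [Finset.sum_const, Finset.card_univ, Fintype.card_fin, h1 i hi, one_smul]
  · intro i j j' hj hcj
    by_cases hi : i = i₀
    · subst hi
      rw [e0]
      exact c1 j j' hj hcj
    · exfalso
      have h3 := h1 i hi
      have h4 := j.2
      have h5 := j'.2
      exact hj (Fin.ext (by omega))
  · rw [sum_col, ← Finset.add_sum_erase univ _ (Finset.mem_univ i₀), e0, c3]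
    have : ∑ i ∈ univ.erase i₀, ∑ j, (if (E ⟨i, j⟩).1 = 0 then δ i j else 0) = R 0 := by
      simp only [hRdef]
      refine Finset.sum_congr rfl fun i hi => ?_
      rw [e1 i (Finset.ne_of_mem_erase hi)]
    rw [this]
    ring

/-- the number of other positions of a colour -/
theorem rest_sum {k : ℕ} {d : Fin k → ℕ} {s : ℕ} (E : (Σ i, Fin (d i)) ≃ Σ _ : Fin 2, Fin s)
    (i₀ : Fin k) (a : Fin 2) (μ : K) :
    ∑ i ∈ univ.erase i₀, ∑ j, (if (E ⟨i, j⟩).1 = a then μ else 0) =
      ((s : K) - (Fintype.card {j : Fin (d i₀) // (E ⟨i₀, j⟩).1 = a} : K)) * μ := by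
  classical
  have h1 := sum_col (K := K) E (fun _ _ => μ) a
  rw [Finset.sum_const, Finset.card_univ, Fintype.card_fin, nsmul_eq_mul,
    ← Finset.add_sum_erase univ _ (Finset.mem_univ i₀)] at h1
  have h2 : ∑ j : Fin (d i₀), (if (E ⟨i₀, j⟩).1 = a then μ else 0) =
      (Fintype.card {j : Fin (d i₀) // (E ⟨i₀, j⟩).1 = a} : K) * μ := by
    rw [← Finset.sum_filter, Finset.sum_const, nsmul_eq_mul, Fintype.card_subtype]
  rw [h2] at h1
  linear_combination -h1

/-- long chains have large classes -/
theorem three_le {k s : ℕ} {d : Fin k → ℕ} {E : (Σ i, Fin (d i)) ≃ Σ _ : Fin 2, Fin s}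
    {β : Fin k → ℕ} (hE : ∀ i j, ((E ⟨i, j⟩).1 : ℕ) + 2 * ((E ⟨i, j⟩).2 : ℕ) = β i + j)
    {i : Fin k} (hi : 6 ≤ d i) (a : Fin 2) :
    3 ≤ Fintype.card {j : Fin (d i) // (E ⟨i, j⟩).1 = a} := by
  obtain ⟨j0, hj0, hc0⟩ : ∃ j0 : ℕ, ∃ h : j0 < 2, (E ⟨i, ⟨j0, by omega⟩⟩).1 = a := by
    have h0 := hE i ⟨0, by omega⟩
    have h1 := hE i ⟨1, by omega⟩
    simp only at h0 h1
    have ha := a.2
    have b0 := (E ⟨i, ⟨0, by omega⟩⟩).1.2
    have b1 := (E ⟨i, ⟨1, by omega⟩⟩).1.2
    by_cases h : ((E ⟨i, ⟨0, by omega⟩⟩).1 : ℕ) = a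
    · exact ⟨0, by omega, Fin.ext h⟩
    · exact ⟨1, by omega, Fin.ext (by omega)⟩
  have hm : ∀ m : Fin 3, (E ⟨i, ⟨j0 + 2 * m, by omega⟩⟩).1 = a := by
    intro m
    have h0 := hE i ⟨j0, by omega⟩
    have h1 := hE i ⟨j0 + 2 * m, by omega⟩
    simp only at h0 h1
    rw [hc0] at h0
    have ha := a.2
    have b1 := (E ⟨i, ⟨j0 + 2 * m, by omega⟩⟩).1.2
    refine Fin.ext ?_
    omega
  have h5 := Fintype.card_le_of_injective
    (fun m : Fin 3 => (⟨⟨j0 + 2 * m, by omega⟩, hm m⟩ : {j : Fin (d i) // (E ⟨i, j⟩).1 = a})) (by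
      intro m m' h
      have h6 := congrArg (fun z : {j : Fin (d i) // (E ⟨i, j⟩).1 = a} => ((z : Fin (d i)) : ℕ)) h
      simp only at h6
      exact Fin.ext (by omega))
  rwa [Fintype.card_fin] at h5

/-- chain of length three and kernel vectors -/
theorem case_three [FiniteDimensional K V] {T : V →ₗ[K] V} {k : ℕ} {q : Fin k → K[X]}
    {x : Fin k → V} (h : Pk T (Fin k) q x) (i₀ : Fin k) (hX : ∀ i, i ≠ i₀ → q i = X)
    (hd : (q i₀).natDegree = 3) (h0 : (q i₀).coeff 0 = 0) (h2 : (q i₀).coeff 2 = 0) {s : ℕ}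
    (hs : Module.finrank K V = 2 * s) (hs5 : 5 ≤ s) :
    ∃ D : Fin 2 → Fin s → K, Blk T (fun _ => s) D ∧ ∑ i, D 0 i = 0 := by
  classical
  have hq : q i₀ = X ^ 3 + C ((q i₀).coeff 1) * X := by
    have h3 : (q i₀).coeff 3 = 1 := by
      have := (h.monic i₀).coeff_natDegree
      rwa [hd] at this
    ext n
    rw [coeff_add, coeff_X_pow, coeff_C_mul, coeff_X]
    rcases Nat.lt_or_ge n 4 with hn | hn
    · interval_cases n
      · rw [h0]; simp
      · simp
      · rw [h2]; simp
      · rw [h3]; simp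
    · rw [coeff_eq_zero_of_natDegree_lt (by omega), if_neg (by omega), if_neg (by omega)]
      ring
  obtain ⟨b, hb1, hb2⟩ := basis_J h i₀ hX (J := Fin 3) (by rw [hd, Fintype.card_fin])
    (fun j => X ^ (j : ℕ)) (by
      intro j
      rw [degree_X_pow, degree_eq_natDegree (h.monic i₀).ne_zero, hd]
      exact_mod_cast j.2) (by
      intro c hc j
      have h3 := congrArg (fun f => coeff f (j : ℕ)) hc
      simp only [finsetSum_coeff, coeff_C_mul, coeff_X_pow, coeff_zero] at h3
      rw [Finset.sum_eq_single j] at h3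
      · simpa using h3
      · intro j' _ hj'
        rw [if_neg (fun e => hj' (Fin.ext e.symm)), mul_zero]
      · intro h4
        exact absurd (Finset.mem_univ _) h4)
  have hT0 : T (b (Sum.inl 0)) = b (Sum.inl 1) := by
    rw [hb1, hb1]
    have : aeval T (X ^ ((1 : Fin 3) : ℕ) : K[X]) = T * aeval T (X ^ ((0 : Fin 3) : ℕ) : K[X]) := by
      simp
    rw [this]
    rfl
  have hT1 : T (b (Sum.inl 1)) = b (Sum.inl 2) := by
    rw [hb1, hb1]
    have : aeval T (X ^ ((2 : Fin 3) : ℕ) : K[X]) = T * aeval T (X ^ ((1 : Fin 3) : ℕ) : K[X]) := by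
      simp [pow_two]
    rw [this]
    rfl
  have hT2 : T (b (Sum.inl 2)) = (-(q i₀).coeff 1) • b (Sum.inl 1) := by
    rw [hb1, hb1]
    have h3 : aeval T (q i₀) (x i₀) = 0 := h.zero i₀
    rw [hq, map_add, LinearMap.add_apply, aeval_C_mul_apply] at h3
    have h4 : T (aeval T (X ^ ((2 : Fin 3) : ℕ) : K[X]) (x i₀)) = aeval T (X ^ 3 : K[X]) (x i₀) := by
      have : (X ^ 3 : K[X]) = X * X ^ ((2 : Fin 3) : ℕ) := by
        change (X ^ 3 : K[X]) = X * X ^ 2
        ring
      rw [this, aeval_mul_apply, aeval_X]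
    have h5 : aeval T (X ^ ((1 : Fin 3) : ℕ) : K[X]) = aeval T (X : K[X]) := by
      change aeval T (X ^ 1 : K[X]) = aeval T (X : K[X])
      rw [pow_one]
    rw [h4, h5, neg_smul]
    exact eq_neg_of_add_eq_zero_left h3
  refine finish b (by rw [← Module.finrank_eq_card_basis b, hs]) ![0, 1, 0] ?_ ?_ ?_ ?_ ?_ ?_
  · refine le_trans (Fintype.card_subtype_le _) ?_
    rw [Fintype.card_fin]
    omega
  · refine le_trans (Fintype.card_subtype_le _) ?_
    rw [Fintype.card_fin]
    omega
  · intro i
    rw [hb2]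
    have h3 := h.zero i.1
    rw [hX i.1 i.2, aeval_X] at h3
    exact h3
  · intro j i
    fin_cases j
    · change b.repr (T (b (Sum.inl 0))) (Sum.inr i) = 0
      rw [hT0, b.repr_self, Finsupp.single_apply, if_neg (by simp)]
    · change b.repr (T (b (Sum.inl 1))) (Sum.inr i) = 0
      rw [hT1, b.repr_self, Finsupp.single_apply, if_neg (by simp)]
    · change b.repr (T (b (Sum.inl 2))) (Sum.inr i) = 0
      rw [hT2, map_smul, Finsupp.smul_apply, b.repr_self, Finsupp.single_apply, if_neg (by simp),
        smul_zero]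
  · intro j j' hj hcj
    fin_cases j <;> fin_cases j' <;> first | exact absurd rfl hj | exact absurd hcj (by decide) | skip
    · change b.repr (T (b (Sum.inl 2))) (Sum.inl 0) = 0
      rw [hT2, map_smul, Finsupp.smul_apply, b.repr_self, Finsupp.single_apply, if_neg (by simp),
        smul_zero]
    · change b.repr (T (b (Sum.inl 0))) (Sum.inl 2) = 0
      rw [hT0, b.repr_self, Finsupp.single_apply, if_neg (by simp)]
  · rw [Fin.sum_univ_three]
    have e0 : b.repr (T (b (Sum.inl 0))) (Sum.inl 0) = 0 := by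
      rw [hT0, b.repr_self, Finsupp.single_apply, if_neg (by simp)]
    have e1 : b.repr (T (b (Sum.inl 1))) (Sum.inl 1) = 0 := by
      rw [hT1, b.repr_self, Finsupp.single_apply, if_neg (by simp)]
    have e2 : b.repr (T (b (Sum.inl 2))) (Sum.inl 2) = 0 := by
      rw [hT2, map_smul, Finsupp.smul_apply, b.repr_self, Finsupp.single_apply, if_neg (by simp),
        smul_zero]
    rw [e0, e1, e2]
    simp

/-- longer chain and kernel vectors -/
theorem case_more [Infinite K] [FiniteDimensional K V] {T : V →ₗ[K] V} {k : ℕ} {q : Fin k → K[X]}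
    {x : Fin k → V} (h : Pk T (Fin k) q x) (i₀ : Fin k) (hX : ∀ i, i ≠ i₀ → q i = X)
    {n : ℕ} (hn : 3 ≤ n) (hd : (q i₀).natDegree = n + 1) (h2 : (q i₀).coeff n = 0) {s : ℕ}
    (hs : Module.finrank K V = 2 * s) (hns : n ≤ s) :
    ∃ D : Fin 2 → Fin s → K, Blk T (fun _ => s) D ∧ ∑ i, D 0 i = 0 := by
  classical
  obtain ⟨a, ha, hsum, -⟩ := pick (K := K) n (by omega) 0 ∅ (fun e => by omega)
  set P : K[X] := ∏ l, (X - C (a l)) with hP
  set L : Fin n → K[X] := fun j => ∏ l ∈ univ.erase j, (X - C (a l)) with hL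
  have hPL : ∀ j, P = (X - C (a j)) * L j := fun j =>
    (Finset.mul_prod_erase univ (fun l => X - C (a l)) (Finset.mem_univ j)).symm
  have hPm : P.Monic := monic_prod_of_monic _ _ fun _ _ => monic_X_sub_C _
  have hPd : P.natDegree = n := by
    rw [hP, natDegree_prod_of_monic _ _ fun _ _ => monic_X_sub_C _]
    simp
  have hLm : ∀ j, (L j).Monic := fun j => monic_prod_of_monic _ _ fun _ _ => monic_X_sub_C _
  have hLd : ∀ j, (L j).natDegree = n - 1 := by
    intro j
    simp only [hL]
    rw [natDegree_prod_of_monic _ _ fun _ _ => monic_X_sub_C _]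
    simp
  have hPa : ∀ j, P.eval (a j) = 0 := by
    intro j
    rw [hPL j]
    simp
  have hLa : ∀ j j', j ≠ j' → (L j).eval (a j') = 0 := by
    intro j j' hj
    simp only [hL]
    rw [eval_prod]
    exact Finset.prod_eq_zero (Finset.mem_erase.2 ⟨hj.symm, Finset.mem_univ j'⟩) (by simp)
  have hLn : ∀ j, (L j).eval (a j) ≠ 0 := by
    intro j
    simp only [hL]
    rw [eval_prod, Finset.prod_ne_zero_iff]
    intro l hl
    rw [eval_sub, eval_X, eval_C]
    exact sub_ne_zero.2 fun e => (Finset.ne_of_mem_erase hl) (ha e).symm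
  let F : Option (Fin n) → K[X] := fun o => o.elim P L
  obtain ⟨b, hb1, hb2⟩ := basis_J h i₀ hX (J := Option (Fin n))
    (by rw [hd, Fintype.card_option, Fintype.card_fin]) F (by
      rintro (_ | j)
      · change P.degree < _
        rw [degree_eq_natDegree hPm.ne_zero, degree_eq_natDegree (h.monic i₀).ne_zero, hd, hPd]
        exact_mod_cast Nat.lt_succ_self n
      · change (L j).degree < _
        rw [degree_eq_natDegree (hLm j).ne_zero, degree_eq_natDegree (h.monic i₀).ne_zero, hd,
          hLd]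
        exact_mod_cast (by omega : n - 1 < n + 1)) (by
      intro c hc
      rw [Fintype.sum_option] at hc
      have hc' : C (c none) * P + ∑ j, C (c (some j)) * L j = 0 := hc
      have h3 : ∀ j, c (some j) = 0 := by
        intro j
        have h4 := congrArg (eval (a j)) hc'
        rw [eval_add, eval_mul, hPa, mul_zero, zero_add, eval_finsetSum, eval_zero,
          Finset.sum_eq_single j] at h4
        · rw [eval_mul, eval_C] at h4
          exact (mul_eq_zero.1 h4).resolve_right (hLn j)
        · intro j' _ hj'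
          rw [eval_mul, hLa j' j hj', mul_zero]
        · intro h5
          exact absurd (Finset.mem_univ _) h5
      rintro (_ | j)
      · rw [Finset.sum_eq_zero (fun j _ => by rw [h3 j, C_0, zero_mul]), add_zero] at hc'
        have h4 := (mul_eq_zero.1 hc').resolve_right hPm.ne_zero
        exact C_eq_zero.1 h4
      · exact h3 j)
  have hbn : b (Sum.inl none) = aeval T P (x i₀) := hb1 none
  have hbs : ∀ j, b (Sum.inl (some j)) = aeval T (L j) (x i₀) := fun j => hb1 (some j)
  have hTs : ∀ j, T (b (Sum.inl (some j))) = a j • b (Sum.inl (some j)) + b (Sum.inl none) := by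
    intro j
    rw [hbn, hbs]
    have h3 : T (aeval T (L j) (x i₀)) = aeval T (X * L j) (x i₀) := by
      rw [aeval_mul_apply, aeval_X]
    have h4 : X * L j = C (a j) * L j + P := by
      rw [hPL j]
      ring
    rw [h3, h4, map_add, LinearMap.add_apply, aeval_C_mul_apply]
  obtain ⟨r, hr⟩ : ∃ r : Fin n → K, T (b (Sum.inl none)) = ∑ j, r j • b (Sum.inl (some j)) := by
    set Q : K[X] := X * P - q i₀ with hQ
    have hQd : Q.degree < n := by
      rw [degree_lt_iff_coeff_zero]
      intro m hm
      rw [hQ, coeff_sub]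
      obtain ⟨m', rfl⟩ : ∃ m', m = m' + 1 := ⟨m - 1, by omega⟩
      rw [coeff_X_mul]
      rcases lt_trichotomy (m' + 1) (n + 1) with h3 | h3 | h3
      · have h4 : m' + 1 = n := by omega
        rw [h4, h2, sub_zero]
        have h5 := prod_X_sub_C_coeff_card_pred (univ : Finset (Fin n)) a (by simp; omega)
        rw [Finset.card_univ, Fintype.card_fin, hsum, neg_zero] at h5
        have h6 : m' = n - 1 := by omega
        rw [h6]
        exact h5
      · have h4 : m' = n := by omega
        have h5 := hPm.coeff_natDegree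
        have h6 := (h.monic i₀).coeff_natDegree
        rw [hPd] at h5
        rw [hd] at h6
        rw [h4, h5, h6, sub_self]
      · rw [coeff_eq_zero_of_natDegree_lt (by omega), coeff_eq_zero_of_natDegree_lt (by omega),
          sub_self]
    refine ⟨fun j => Q.eval (a j) / (L j).eval (a j), ?_⟩
    have h3 : T (b (Sum.inl none)) = aeval T Q (x i₀) := by
      rw [hbn, hQ, map_sub, LinearMap.sub_apply, h.zero i₀, sub_zero, aeval_mul_apply, aeval_X]
    have h4 : Q = ∑ j, C (Q.eval (a j) / (L j).eval (a j)) * L j := by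
      refine eq_of_degrees_lt_of_eval_index_eq (univ : Finset (Fin n)) (v := a)
        (fun i _ j _ e => ha e) ?_ ?_ ?_
      · rw [Finset.card_univ, Fintype.card_fin]
        exact hQd
      · rw [Finset.card_univ, Fintype.card_fin]
        refine lt_of_le_of_lt (degree_sum_le _ _) ?_
        rw [Finset.sup_lt_iff (by
          rw [bot_lt_iff_ne_bot]
          exact WithBot.coe_ne_bot)]
        intro j _
        refine lt_of_le_of_lt (degree_mul_le _ _) ?_
        refine lt_of_le_of_lt (add_le_add_left degree_C_le _) ?_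
        rw [zero_add, degree_eq_natDegree (hLm j).ne_zero, hLd]
        exact_mod_cast (by omega : n - 1 < n)
      · intro j _
        rw [eval_finsetSum, Finset.sum_eq_single j]
        · rw [eval_mul, eval_C, div_mul_cancel₀ _ (hLn j)]
        · intro j' _ hj'
          rw [eval_mul, hLa j' j hj', mul_zero]
        · intro h5
          exact absurd (Finset.mem_univ _) h5
    rw [h3]
    conv_lhs => rw [h4]
    rw [aeval_sum_apply]
    refine Finset.sum_congr rfl fun j _ => ?_
    rw [aeval_C_mul_apply, hbs]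
  have hrn : ∀ y, (∀ j, y ≠ Sum.inl (some j)) → b.repr (T (b (Sum.inl none))) y = 0 := by
    intro y hy
    rw [hr, map_sum, Finsupp.finsetSum_apply]
    refine Finset.sum_eq_zero fun j _ => ?_
    rw [map_smul, Finsupp.smul_apply, b.repr_self, Finsupp.single_apply, if_neg (hy j).symm,
      smul_zero]
  have hrs : ∀ j y, y ≠ Sum.inl none → b.repr (T (b (Sum.inl (some j)))) y =
      if y = Sum.inl (some j) then a j else 0 := by
    intro j y hy
    rw [hTs, map_add, Finsupp.add_apply, map_smul, Finsupp.smul_apply, b.repr_self, b.repr_self,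
      Finsupp.single_apply, Finsupp.single_apply, if_neg hy.symm, add_zero]
    by_cases h3 : y = Sum.inl (some j)
    · rw [if_pos h3, if_pos h3.symm, smul_eq_mul, mul_one]
    · rw [if_neg h3, if_neg (Ne.symm h3), smul_zero]
  refine finish b (by rw [← Module.finrank_eq_card_basis b, hs])
    (fun o => o.elim 1 (fun _ => 0)) ?_ ?_ ?_ ?_ ?_ ?_
  · rw [Fintype.card_subtype]
    have h3 : (univ.filter fun o : Option (Fin n) => o.elim (1 : Fin 2) (fun _ => 0) = 0) ⊆
        univ.image some := by
      rintro (_ | j) ho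
      · rw [Finset.mem_filter] at ho
        exact absurd ho.2 (by simp)
      · exact Finset.mem_image_of_mem _ (Finset.mem_univ j)
    refine (Finset.card_le_card h3).trans (Finset.card_image_le.trans ?_)
    rw [Finset.card_univ, Fintype.card_fin]
    exact hns
  · rw [Fintype.card_subtype]
    have h3 : (univ.filter fun o : Option (Fin n) => o.elim (1 : Fin 2) (fun _ => 0) = 1) ⊆
        {none} := by
      rintro (_ | j) ho
      · simp
      · rw [Finset.mem_filter] at ho
        exact absurd ho.2 (by simp)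
    refine (Finset.card_le_card h3).trans ?_
    rw [Finset.card_singleton]
    omega
  · intro i
    rw [hb2]
    have h3 := h.zero i.1
    rw [hX i.1 i.2, aeval_X] at h3
    exact h3
  · rintro (_ | j) i
    · exact hrn _ (fun j => by simp)
    · rw [hrs j _ (by simp), if_neg (by simp)]
  · rintro (_ | j) (_ | j') hj hcj
    · exact absurd rfl hj
    · exact absurd hcj (by simp)
    · exact absurd hcj (by simp)
    · rw [hrs j' _ (by simp), if_neg]
      intro e
      exact hj (Sum.inl.inj e)
  · rw [Fintype.sum_option]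
    have e1 : (if (none : Option (Fin n)).elim (1 : Fin 2) (fun _ => 0) = 0 then
        b.repr (T (b (Sum.inl none))) (Sum.inl none) else 0) = 0 := if_neg (by simp)
    rw [e1, zero_add, ← hsum]
    refine Finset.sum_congr rfl fun j _ => ?_
    rw [hrs j _ (by simp), if_pos rfl]
    exact if_pos rfl

end BaseTwoAux

open Polynomial ChAux TwoAux Two2Aux BaseTwoAux

theorem base_two [Infinite K] (h2 : (2 : K) = 0) [FiniteDimensional K V] (T : V →ₗ[K] V)
    (hT : ∀ μ : K, T ≠ μ • LinearMap.id) (hT0 : LinearMap.trace K V T = 0) (s : ℕ)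
    (hs : Module.finrank K V = 2 * s) (hs5 : 5 ≤ s) (hodd : Odd s) :
    ∃ D : Fin 2 → Fin s → K, Blk T (fun _ => s) D ∧ ∑ i, D 0 i = 0 := by
  classical
  obtain ⟨k, q, x, h, hco⟩ := exists_min T
  have hc := h.isCh
  obtain ⟨E, β, hE⟩ := num_exists (fun i => (q i).natDegree) s (by rw [dim_ch hc, hs])
  have ht : ∑ i, (-(q i).coeff ((q i).natDegree - 1)) = 0 := by
    rw [← trace_ch hc, hT0]
  -- different eigenvalues give coprime polynomials
  have hlin : ∀ i i', (q i).natDegree = 1 → (q i').natDegree = 1 →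
      (q i).coeff 0 = (q i').coeff 0 := by
    intro i i' hi hi'
    by_contra hne
    apply hco i i' (by rintro rfl; exact hne rfl)
    rw [(h.monic i).eq_X_add_C hi, (h.monic i').eq_X_add_C hi']
    have h3 : IsCoprime (X - C (-(q i).coeff 0)) (X - C (-(q i').coeff 0)) :=
      isCoprime_X_sub_C_of_isUnit_sub (isUnit_iff_ne_zero.2 (by
        intro e
        exact hne (by linear_combination -e)))
    simpa using h3
  -- a long chain
  obtain ⟨i₀, h₀⟩ : ∃ i, 2 ≤ (q i).natDegree := by
    by_contra hcon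
    push Not at hcon
    have hdeg : ∀ i, (q i).natDegree = 1 := fun i => by
      have h3 := hcon i
      have h4 := h.deg i
      omega
    have hTx : ∀ i, T (x i) = (-(q i).coeff 0) • x i := by
      intro i
      have h3 := h.zero i
      rw [(h.monic i).eq_X_add_C (hdeg i), map_add, LinearMap.add_apply, aeval_X, aeval_C] at h3
      rw [neg_smul]
      exact eq_neg_of_add_eq_zero_left h3
    rcases isEmpty_or_nonempty (Fin k) with he | ⟨⟨i⟩⟩
    · refine hT 0 (LinearMap.ext fun v => ?_)
      obtain ⟨g, hg⟩ := h.span v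
      rw [hg]
      simp
    · refine hT (-(q i).coeff 0) (LinearMap.ext fun v => ?_)
      obtain ⟨g, rfl⟩ := h.span v
      rw [map_sum, LinearMap.smul_apply, LinearMap.id_apply, Finset.smul_sum]
      refine Finset.sum_congr rfl fun j _ => ?_
      have h1 : T (aeval T (g j) (x j)) = aeval T (g j) (T (x j)) := by
        have h2 := aeval_mul_apply T X (g j) (x j)
        rw [mul_comm, aeval_mul_apply, aeval_X] at h2
        exact h2.symm
      rw [h1, hTx, map_smul, hlin j i (hdeg j) (hdeg i)]
  by_cases hA : ∃ i₁, i₁ ≠ i₀ ∧ 2 ≤ (q i₁).natDegree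
  · obtain ⟨i₁, hne, h₁⟩ := hA
    exact case_a hc hE hne h₀ h₁
  push Not at hA
  have h1 : ∀ i, i ≠ i₀ → (q i).natDegree = 1 := fun i hi => by
    have h3 := hA i hi
    have h4 := h.deg i
    omega
  have htc : ∀ i, i ≠ i₀ → -(q i).coeff ((q i).natDegree - 1) = -(q i).coeff 0 := by
    intro i hi
    rw [h1 i hi]
  obtain ⟨μ, hμ⟩ : ∃ μ : K, ∀ i, i ≠ i₀ → -(q i).coeff 0 = μ := by
    by_cases hex : ∃ i₁, i₁ ≠ i₀
    · obtain ⟨i₁, hi₁⟩ := hex
      exact ⟨-(q i₁).coeff 0, fun i hi => by rw [hlin i i₁ (h1 i hi) (h1 i₁ hi₁)]⟩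
    · push Not at hex
      exact ⟨0, fun i hi => absurd (hex i) hi⟩
  by_cases hR : ∀ a : Fin 2,
      Fintype.card {j : Fin (q i₀).natDegree // (E ⟨i₀, j⟩).1 = a} = 2 → μ ≠ 0
  · refine case_b hc hE h₀ h1 ht (fun a ha => ?_)
    have e1 : ∑ i ∈ univ.erase i₀, ∑ j : Fin (q i).natDegree,
        (if (E ⟨i, j⟩).1 = a then -(q i).coeff ((q i).natDegree - 1) else 0) =
        ∑ i ∈ univ.erase i₀, ∑ j : Fin (q i).natDegree, (if (E ⟨i, j⟩).1 = a then μ else 0) := by
      refine Finset.sum_congr rfl fun i hi => ?_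
      have hi' := Finset.ne_of_mem_erase hi
      rw [htc i hi', hμ i hi']
    rw [e1, rest_sum E i₀ a μ, ha]
    have e2 : (s : K) - ((2 : ℕ) : K) = 1 := by
      obtain ⟨m, hm⟩ := hodd
      rw [hm]
      push_cast
      linear_combination ((m : K) - 1) * h2
    rw [e2, one_mul]
    exact hR a ha
  push Not at hR
  obtain ⟨a, ha, hμ0⟩ := hR
  have hd6 : (q i₀).natDegree < 6 := by
    by_contra hcon
    have h3 := three_le hE (i := i₀) (by omega) a
    omega
  have hd3 : 3 ≤ (q i₀).natDegree := by
    have h3 := card_col (fun j : Fin (q i₀).natDegree => (E ⟨i₀, j⟩).1)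
    rw [Fintype.card_fin] at h3
    have h4 : ∀ c : Fin 2, 1 ≤ Fintype.card {j : Fin (q i₀).natDegree // (E ⟨i₀, j⟩).1 = c} := by
      intro c
      obtain ⟨j, hj⟩ := cnt_pos hE h₀ c
      exact Fintype.card_pos_iff.2 ⟨⟨j, hj⟩⟩
    have h5 := h4 0
    have h6 := h4 1
    rcases Fin.exists_fin_two.1 ⟨a, rfl⟩ with e | e
    · subst e
      omega
    · subst e
      omega
  have hX : ∀ i, i ≠ i₀ → q i = X := by
    intro i hi
    have h3 := hμ i hi
    rw [hμ0, neg_eq_zero] at h3
    rw [(h.monic i).eq_X_add_C (h1 i hi), h3, C_0, add_zero]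
  have ht0 : (q i₀).coeff ((q i₀).natDegree - 1) = 0 := by
    rw [← Finset.add_sum_erase _ _ (Finset.mem_univ i₀), Finset.sum_eq_zero (s := univ.erase i₀)
      (fun i hi => by
        have hi' := Finset.ne_of_mem_erase hi
        rw [htc i hi', hμ i hi', hμ0]), add_zero, neg_eq_zero] at ht
    exact ht
  obtain ⟨i₁, hi₁⟩ : ∃ i₁, i₁ ≠ i₀ := by
    by_contra hcon
    push Not at hcon
    have h3 : ∑ i, (q i).natDegree = 2 * s := by rw [dim_ch hc, hs]
    rw [Finset.sum_eq_single i₀ (fun i _ hi => absurd (hcon i) hi)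
      (fun h4 => absurd (Finset.mem_univ _) h4)] at h3
    omega
  have h0 : (q i₀).coeff 0 = 0 := by
    by_contra hne
    apply hco i₁ i₀ hi₁
    rw [hX i₁ hi₁]
    exact (irreducible_X.coprime_iff_not_dvd).2 (by rw [X_dvd_iff]; exact hne)
  rcases (by omega : (q i₀).natDegree = 3 ∨ (q i₀).natDegree = 4 ∨ (q i₀).natDegree = 5)
    with e | e | e
  · exact case_three h i₀ hX e h0 (by rw [e] at ht0; exact ht0) hs hs5
  · exact case_more h i₀ hX (n := 3) le_rfl e (by rw [e] at ht0; exact ht0) hs (by omega)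
  · exact case_more h i₀ hX (n := 4) (by omega) e (by rw [e] at ht0; exact ht0) hs (by omega)

end Pool.Agent.P5q
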