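import Pool.Agent.Lib.P5q.Zer2

/-!
# Scalar matrices of good size (any characteristic)
-/

open Finset Matrix

namespace Pool.Agent.P5q

open Pool.Agent.P5m

variable {r : ℕ}

/-- The special frequencies: the sum is zero. -/
def bs {n : ℕ} (b : Fin (r + 1) → ZMod n) : Fin (r + 1) → ZMod n := Function.update b 0 (-bt b)

theorem bs_eq {n : ℕ} (b : Fin (r + 1) → ZMod n) :
    bs b = fun k => if k = 0 then - bt b else b k := by
  funext k
  unfold bs
  by_cases h : k = 0
  · subst h
    rw [Function.update_self, if_pos rfl]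
  · rw [Function.update_of_ne h, if_neg h]

theorem bs_sum {n : ℕ} (b : Fin (r + 1) → ZMod n) : ∑ k, bs b k = 0 := by
  unfold bs
  rw [bt_upd, neg_add_cancel]

private theorem addChar_sum {B M ι : Type*} [AddCommMonoid B] [CommMonoid M] (ψ : AddChar B M)
    (s : Finset ι) (f : ι → B) : ψ (∑ i ∈ s, f i) = ∏ i ∈ s, ψ (f i) := by
  classical
  induction s using Finset.induction_on with
  | empty => simp
  | insert i s hi ih => rw [sum_insert hi, prod_insert hi, AddChar.map_add_eq_mul, ih]

private theorem mval_algHom_scal {K : Type*} [Field K] {ι ι' : Type*} [Fintype ι] [DecidableEq ι]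
    [Fintype ι'] [DecidableEq ι']
    {m : ℕ} (α : Equiv.Perm (Fin m) → K) (Ψ : Matrix ι ι K →ₐ[K] Matrix ι' ι' K)
    (A : Fin m → Matrix ι ι K) : P5e96.mval α (fun q => Ψ (A q)) = Ψ (P5e96.mval α A) := by
  rw [P5e96.mval, P5e96.mval, map_sum]
  refine Finset.sum_congr rfl fun σ _ => ?_
  rw [map_smul, map_list_prod, List.map_ofFn]
  rfl

/-- The character sum at the special frequency is not zero. -/
theorem e_ne {K : Type*} [Field K] {l : ℕ}
    (α : Equiv.Perm (Fin (r + 1)) → K) (hg : Good l α) (hc : ¬ Cs α)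
    (a b : Fin (r + 1) → ZMod l) (hab : Gpt l a b) (ψ : AddChar (ZMod l) K) (hψ1 : ψ 1 ≠ 1) :
    ∑ σ, α σ * ψ (ex σ a (bs b)) ≠ 0 := by
  classical
  rw [bs_eq]
  set c : Fin (r + 1) → ZMod l := fun k => if k = 0 then - bt b else b k with hcd
  have hcs : ∑ k, c k = 0 := by
    rw [← add_sum_erase _ c (mem_univ 0)]
    have h1 : ∑ k ∈ univ.erase 0, c k = bt b := by
      unfold bt
      refine sum_congr rfl fun k hk => ?_
      rw [hcd]
      exact if_neg (mem_erase.1 hk).1
    rw [h1]
    have h2 : c 0 = - bt b := if_pos rfl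
    rw [h2, neg_add_cancel]
  have ha := hab.sum
  -- the exponents of two words
  have hex : ∀ σ τ : Equiv.Perm (Fin (r + 1)), ex σ a c - ex τ a c =
      cf (Dl σ τ) a b - bt b * A (Dl σ τ) a 0 := by
    intro σ τ
    have h1 : ∀ k, pre σ a k - pre τ a k = A (Dl σ τ) a k := by
      intro k
      unfold pre A
      rw [← sum_sub_distrib]
      refine sum_congr rfl fun j _ => ?_
      unfold Dl
      push_cast
      ring
    have h2 : ex σ a c - ex τ a c = ∑ k, c k * A (Dl σ τ) a k := by
      unfold ex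
      rw [← sum_sub_distrib]
      refine sum_congr rfl fun k _ => ?_
      rw [← h1]
      ring
    rw [h2, ← add_sum_erase _ _ (mem_univ 0)]
    have h3 : ∑ k ∈ univ.erase 0, c k * A (Dl σ τ) a k = cf (Dl σ τ) a b := by
      unfold cf
      refine sum_congr rfl fun k hk => ?_
      congr 1
      exact if_neg (mem_erase.1 hk).1
    rw [h3]
    have h4 : c 0 = - bt b := if_pos rfl
    rw [h4]
    ring
  have hclass : ∀ σ τ : Equiv.Perm (Fin (r + 1)), ex τ a c = ex σ a c →
      ∃ s : Fin (r + 1), τ = σ * (finRotate (r + 1)) ^ (s : ℕ) := by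
    intro σ τ h
    apply cyc_of_form
    have h1 : cf (Dl σ τ) a b - bt b * A (Dl σ τ) a 0 = 0 := by
      rw [← hex, h, sub_self]
    have h2 := hab.e7 (some (σ, τ)) none none (by
      unfold E7 nu de
      linear_combination 2 * h1)
    intro a' b' ha'
    have h3 := h2 a' b' ha'
    simp only [E7, nu, de] at h3
    linarith
  -- the value is not zero
  set e : K := ∑ σ, α σ * ψ (ex σ a c) with he
  have he0 : e ≠ 0 := by
    intro he0
    apply hc
    intro σ
    set ψ' : AddChar (ZMod l) (AlgebraicClosure K) :=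
      (algebraMap K (AlgebraicClosure K)).toMonoidHom.compAddChar ψ with hψ'
    have hψ'1 : ψ' ≠ 1 := by
      intro h
      have h1 : ψ' 1 = 1 := by rw [h]; rfl
      have h2 : algebraMap K (AlgebraicClosure K) (ψ 1) = algebraMap K (AlgebraicClosure K) 1 := by
        rw [(algebraMap K (AlgebraicClosure K)).map_one]; exact h1
      exact hψ1 ((algebraMap K (AlgebraicClosure K)).injective h2)
    have h1 := hg ψ' hψ'1 univ (fun σ => ex σ a c) (by
      have h2 : ∀ w, algebraMap K (AlgebraicClosure K) (α w) * ψ' (ex w a c) =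
          algebraMap K (AlgebraicClosure K) (α w * ψ (ex w a c)) := by
        intro w
        rw [map_mul]
        rfl
      simp only [h2]
      rw [← map_sum, ← he, he0, map_zero]) (ex σ a c)
    rw [← h1]
    symm
    refine sum_bij' (i := fun τ hτ => Classical.choose (hclass σ τ (mem_filter.1 hτ).2))
      (j := fun s _ => σ * (finRotate (r + 1)) ^ (s : ℕ)) ?_ ?_ ?_ ?_ ?_
    · intro τ hτ
      exact mem_univ _
    · intro s _
      exact mem_filter.2 ⟨mem_univ _, ex_rot σ s a c ha hcs⟩
    · intro τ hτ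
      exact (Classical.choose_spec (hclass σ τ (mem_filter.1 hτ).2)).symm
    · intro s hs
      apply rot_injective σ
      exact (Classical.choose_spec (hclass σ _ (ex_rot σ s a c ha hcs))).symm
    · intro τ hτ
      rw [← Classical.choose_spec (hclass σ τ (mem_filter.1 hτ).2)]
  exact he0

/-- A nonzero character sum gives all scalar matrices. -/
theorem scal_of {K : Type*} [Field K] {l : ℕ} [NeZero l] (α : Equiv.Perm (Fin (r + 1)) → K)
    (a c : Fin (r + 1) → ZMod l) (ha : ∑ k, a k = 0) (hcs : ∑ k, c k = 0)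
    (ψ : AddChar (ZMod l) K) (hne : ∑ σ, α σ * ψ (ex σ a c) ≠ 0) (c' : K) :
    ∃ A : Fin (r + 1) → Matrix (Fin l) (Fin l) K, P5e96.mval α A = c' • 1 := by
  classical
  set e : K := ∑ σ, α σ * ψ (ex σ a c) with he
  have he0 : e ≠ 0 := hne
  set W : Fin (r + 1) → ZMod l → K := fun k i => (if k = 0 then c' / e else 1) * ψ (c k * i) with hW
  have hPsi : ∀ i, Psi α a W i = c' := by
    intro i
    unfold Psi
    have h1 : ∀ σ : Equiv.Perm (Fin (r + 1)), ∏ k, W k (i + pre σ a k) =
        c' / e * ψ (ex σ a c) := by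
      intro σ
      rw [hW]
      simp only
      rw [prod_mul_distrib, Finset.prod_ite_eq' univ (0 : Fin (r + 1)) (fun _ => c' / e),
        if_pos (mem_univ _), ← addChar_sum]
      congr 2
      unfold ex
      simp only [mul_add, sum_add_distrib]
      rw [← sum_mul, hcs, zero_mul, zero_add]
    simp only [h1]
    have h2 : ∀ σ, α σ * (c' / e * ψ (ex σ a c)) = c' / e * (α σ * ψ (ex σ a c)) := by
      intro σ; ring
    simp only [h2]
    rw [← mul_sum, ← he, div_mul_cancel₀ _ he0]
  set Φ : Matrix (ZMod l) (ZMod l) K →ₐ[K] Matrix (Fin l) (Fin l) K :=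
    (Matrix.reindexAlgEquiv K K (ZMod.finEquiv l).symm.toEquiv).toAlgHom with hΦ
  refine ⟨fun k => Φ (ws (a k) (W k)), ?_⟩
  rw [mval_algHom_scal, mval_ws, ha]
  have h3 : ws 0 (Psi α a W) = c' • (1 : Matrix (ZMod l) (ZMod l) K) := by
    ext i j
    rw [Matrix.smul_apply, Matrix.one_apply, smul_eq_mul]
    unfold ws
    rw [add_zero, hPsi]
    by_cases h : i = j
    · rw [if_pos h.symm, if_pos h, mul_one]
    · rw [if_neg (fun h' => h h'.symm), if_neg h, mul_zero]
  rw [h3, map_smul, map_one]

end Pool.Agent.P5q
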