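import Pool.Agent.Lib.P5q.Desc

/-!
# From large characteristic to characteristic zero

A family of fields whose characteristics tend to infinity maps to a field of characteristic zero.
-/

open Finset

namespace Pool.Agent.P5q

open Pool.Agent.P5m Pool.Agent.P5m.CorStrongAux

universe u

/-- The elements of the product which vanish for all large indices. -/
def finI (Kf : ℕ → Type u) [∀ N, Field (Kf N)] : Ideal (∀ N, Kf N) where
  carrier := {x | ∃ B, ∀ N ≥ B, x N = 0}
  add_mem' := by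
    rintro x y ⟨B, hB⟩ ⟨C, hC⟩
    refine ⟨max B C, fun N hN => ?_⟩
    rw [Pi.add_apply, hB N (le_trans (le_max_left _ _) hN), hC N (le_trans (le_max_right _ _) hN),
      add_zero]
  zero_mem' := ⟨0, fun _ _ => rfl⟩
  smul_mem' := by
    rintro c x ⟨B, hB⟩
    refine ⟨B, fun N hN => ?_⟩
    rw [smul_eq_mul, Pi.mul_apply, hB N hN, mul_zero]

theorem mem_finI {Kf : ℕ → Type u} [∀ N, Field (Kf N)] {x : ∀ N, Kf N} :
    x ∈ finI Kf ↔ ∃ B, ∀ N ≥ B, x N = 0 := Iff.rfl

theorem prod_hom (Kf : ℕ → Type u) [∀ N, Field (Kf N)]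
    (h : ∀ N n : ℕ, 0 < n → n ≤ N → (n : Kf N) ≠ 0) :
    ∃ (F : Type u) (_ : Field F) (_ : CharZero F), Nonempty ((∀ N, Kf N) →+* F) := by
  have hI : finI Kf ≠ ⊤ := by
    rw [Ne, Ideal.eq_top_iff_one, mem_finI]
    rintro ⟨B, hB⟩
    exact one_ne_zero (hB B le_rfl)
  obtain ⟨M, hM, hIM⟩ := Ideal.exists_le_maximal _ hI
  letI := Ideal.Quotient.field M
  refine ⟨(∀ N, Kf N) ⧸ M, Ideal.Quotient.field M, ?_, ⟨Ideal.Quotient.mk M⟩⟩
  apply charZero_of_inj_zero
  intro n hn
  by_contra hn0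
  have h1 : (n : ∀ N, Kf N) ∈ M := by
    rw [← Ideal.Quotient.eq_zero_iff_mem, map_natCast]
    exact hn
  let y : ∀ N, Kf N := fun N => (n : Kf N)⁻¹
  have h2 : (n : ∀ N, Kf N) * y - 1 ∈ finI Kf := by
    refine ⟨n, fun N hN => ?_⟩
    rw [Pi.sub_apply, Pi.mul_apply, Pi.one_apply, Pi.natCast_apply,
      mul_inv_cancel₀ (h N n (Nat.pos_of_ne_zero hn0) hN), sub_self]
  have h3 : (1 : ∀ N, Kf N) ∈ M := by
    have h4 := M.sub_mem (M.mul_mem_right y h1) (hIM h2)
    have h5 : (n : ∀ N, Kf N) * y - ((n : ∀ N, Kf N) * y - 1) = 1 := by ring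
    rwa [h5] at h4
  exact hM.ne_top ((Ideal.eq_top_iff_one M).2 h3)

/-- The bordered determinant over a commutative ring. -/
noncomputable def cR {r : ℕ} {R G : Type*} [CommRing R] [CommRing G] [DecidableEq G] [Fintype G]
    (α : Equiv.Perm (Fin (r + 1)) → R) (a : Fin (r + 1) → G) (u : G → R) :
    MvPolynomial ((Fin (r + 1) × G) ⊕ G) R :=
  (cm (fun σ => MvPolynomial.C (α σ)) a (fun k g => MvPolynomial.X (Sum.inl (k, g))) +
      Matrix.vecMulVec (fun i => MvPolynomial.C (u i)) (fun i => MvPolynomial.X (Sum.inr i))).det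

theorem cR_map {r : ℕ} {R S G : Type*} [CommRing R] [CommRing S] [CommRing G] [DecidableEq G]
    [Fintype G] (φ : R →+* S) (α : Equiv.Perm (Fin (r + 1)) → R) (a : Fin (r + 1) → G)
    (u : G → R) : MvPolynomial.map φ (cR α a u) = cR (fun σ => φ (α σ)) a (fun i => φ (u i)) := by
  unfold cR
  rw [cm_det]
  simp only [MvPolynomial.map_C, MvPolynomial.map_X]

theorem cR_eq {r : ℕ} {K G : Type*} [Field K] [CommRing G] [DecidableEq G]
    [Fintype G] (α : Equiv.Perm (Fin (r + 1)) → K) (a : Fin (r + 1) → G)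
    (u : G → K) : cR α a u = cF α a u := rfl

/-- Vanishing in every factor of a product gives vanishing in every image of the product. -/
theorem cR_prod {r : ℕ} {G : Type*} [CommRing G] [DecidableEq G] [Fintype G]
    (Kf : ℕ → Type u) [∀ N, Field (Kf N)] {F : Type u} [Field F] (π : (∀ N, Kf N) →+* F)
    (α : Equiv.Perm (Fin (r + 1)) → ∀ N, Kf N) (a : Fin (r + 1) → G) (u : G → ∀ N, Kf N)
    (h : ∀ N, cF (fun σ => α σ N) a (fun i => u i N) = 0) :
    cF (fun σ => π (α σ)) a (fun i => π (u i)) = 0 := by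
  rw [← cR_eq, ← cR_map π α a u]
  have h1 : cR α a u = 0 := by
    refine MvPolynomial.ext _ _ fun s => funext fun N => ?_
    have h2 := congrArg (MvPolynomial.coeff s) (cR_map (Pi.evalRingHom Kf N) α a u)
    rw [MvPolynomial.coeff_map] at h2
    exact h2.trans ((congrArg (MvPolynomial.coeff s) (h N)).trans (MvPolynomial.coeff_zero s))
  rw [h1, map_zero]

end Pool.Agent.P5q
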