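import Pool.Agent.Lib.P5q.Hyp
import Pool.Agent.Lib.P5q.Trans
import Pool.Agent.Lib.P5q.Scal2
import Pool.Agent.Lib.P5m.Count

/-!
# Good block sizes, and the reasons for not being one

`Bs α a b`: `n` is a good block size for `α` with the parameters `a, b : Fin (r + 1) → ZMod n`.
-/

open Finset Matrix

namespace Pool.Agent.P5q

open Pool.Agent.P5m Pool.Agent.P5m.CorStrongAux

universe u

variable {r : ℕ} {K : Type*} [Field K]

/-- A good block size. -/
structure Bs {n : ℕ} [NeZero n] (α : Equiv.Perm (Fin (r + 1)) → K) (a b : Fin (r + 1) → ZMod n) :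
    Prop where
  hy : Hy α a b
  hn : ¬ Cs α → Hn α a
  sn : ¬ Cs α → IsAlgClosed K → ∃ (ψ : AddChar (ZMod n) K) (c : Fin (r + 1) → ZMod n),
    ∑ k, c k = 0 ∧ ∑ σ, α σ * ψ (ex σ a c) ≠ 0

/-- The functional `c y_i - c' y_j`. -/
def uu {n : ℕ} {R : Type*} [CommRing R] (i j : ZMod n) (c c' : R) (k : ZMod n) : R :=
  if k = i then c else if k = j then - c' else 0

theorem uu_sum {n : ℕ} [NeZero n] (i j : ZMod n) (hij : i ≠ j) (c c' : K) (y : ZMod n → K) :
    ∑ k, y k * uu i j c c' k = c * y i - c' * y j := by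
  rw [← Finset.add_sum_erase univ _ (mem_univ i),
    ← Finset.add_sum_erase (univ.erase i) _ (mem_erase.2 ⟨hij.symm, mem_univ j⟩)]
  rw [Finset.sum_eq_zero]
  · simp only [uu, if_true, if_neg hij.symm]
    ring
  · intro k hk
    rw [mem_erase, mem_erase] at hk
    simp only [uu, if_neg hk.1, if_neg hk.2.1, mul_zero]

theorem single_sum {n : ℕ} [NeZero n] (i : ZMod n) (y : ZMod n → K) :
    ∑ k, y k * (Pi.single i 1 : ZMod n → K) k = y i := by
  rw [Finset.sum_eq_single i]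
  · rw [Pi.single_eq_same, mul_one]
  · intro j _ hj
    rw [Pi.single_eq_of_ne hj, mul_zero]
  · intro hn
    exact absurd (mem_univ i) hn

theorem gn_of_cF [Infinite K] {n : ℕ} [NeZero n] (α : Equiv.Perm (Fin (r + 1)) → K)
    (a : Fin (r + 1) → ZMod n) (u : ZMod n → K) (hD : cF α a u ≠ 0) :
    Gn fun w : Fin (r + 1) → ZMod n → K => ∀ y, LK α a w y → ∑ i, y i * u i = 0 → y = 0 := by
  classical
  obtain ⟨p, hp⟩ : ∃ p, MvPolynomial.eval p (cF α a u) ≠ 0 := by
    by_contra hcon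
    push Not at hcon
    exact hD (MvPolynomial.funext fun z => by rw [hcon z, map_zero])
  rw [cF_map α a u (MvPolynomial.eval p) α (fun k g => p (Sum.inl (k, g))) u
    (fun i => p (Sum.inr i)) (by simp) (by simp) (by simp) (by simp)] at hp
  refine ⟨cE α a u (fun i => p (Sum.inr i)), ?_, ?_⟩
  · intro h0
    have h1 := cE_eval α a u (fun i => p (Sum.inr i)) (fun k g => p (Sum.inl (k, g)))
    rw [h0, map_zero] at h1
    exact hp h1.symm
  · intro w hw y hy hu
    rw [cE_eval] at hw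
    exact ker_u _ _ _ hw y ((lk_iff _ _ _ _).1 hy) hu

theorem cF_of_ex {n : ℕ} [NeZero n] (α : Equiv.Perm (Fin (r + 1)) → K)
    (a : Fin (r + 1) → ZMod n) (u : ZMod n → K) (w : Fin (r + 1) → ZMod n → K)
    (hw : ∀ y, LK α a w y → ∑ i, y i * u i = 0 → y = 0) : cF α a u ≠ 0 := by
  classical
  obtain ⟨v, hv⟩ := dir_u (cm α a w) u (fun y hy hu => hw y ((lk_iff _ _ _ _).2 hy) hu)
  intro h0
  have h1 := cF_map α a u (MvPolynomial.eval
    (Sum.elim (fun p : Fin (r + 1) × ZMod n => w p.1 p.2) v)) α w u v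
    (by simp) (by simp) (by simp) (by simp)
  rw [h0, map_zero] at h1
  exact hv h1.symm

/-- The reasons. -/
abbrev Rt (r l : ℕ) := ZMod l ⊕ (Equiv.Perm (Fin (r + 1)) × ZMod l × ZMod l) ⊕
  Equiv.Perm (Fin (r + 1))

/-- The reason `ρ` holds for `α`. -/
def Rsn {l : ℕ} [NeZero l] (α : Equiv.Perm (Fin (r + 1)) → K) (a b : Fin (r + 1) → ZMod l)
    (c c' ζ : K) : Rt r l → Prop
  | Sum.inl i => cF α a (Pi.single i 1) = 0
  | Sum.inr (Sum.inl (σ, i, j)) => ∑ s : Fin (r + 1), α (σ * (finRotate (r + 1)) ^ (s : ℕ)) ≠ 0 ∧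
      i ≠ j ∧ c ≠ 0 ∧ c' ≠ 0 ∧ cF α a (uu i j c c') = 0
  | Sum.inr (Sum.inr σ) => ∑ s : Fin (r + 1), α (σ * (finRotate (r + 1)) ^ (s : ℕ)) ≠ 0 ∧
      ζ ^ l = 1 ∧ ζ ≠ 1 ∧ ∑ τ, α τ * ζ ^ (ex τ a (bs b)).val = 0

theorem exists_rsn [Infinite K] {l : ℕ} [NeZero l] (hl : l.Prime) (hlK : (l : K) ≠ 0)
    (α : Equiv.Perm (Fin (r + 1)) → K) (a b : Fin (r + 1) → ZMod l) (hab : Gpt l a b)
    (h : ¬ Bs α a b) : ∃ (c c' ζ : K) (ρ : Rt r l), Rsn α a b c c' ζ ρ := by
  classical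
  by_contra hcon
  push Not at hcon
  have hy : Hy α a b := by
    refine ⟨hab, Gn.all fun i => ?_⟩
    refine (gn_of_cF α a (Pi.single i 1) (hcon 0 0 0 (Sum.inl i))).mono fun w hw y hy hyi => ?_
    exact hw y hy (by rw [single_sum]; exact hyi)
  have hcs : ¬ Cs α → ∃ σ, ∑ s : Fin (r + 1), α (σ * (finRotate (r + 1)) ^ (s : ℕ)) ≠ 0 := by
    intro hc
    unfold Cs at hc
    push Not at hc
    exact hc
  apply h
  refine ⟨hy, fun hc => ?_, fun hc hA => ?_⟩
  · obtain ⟨σ, hσ⟩ := hcs hc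
    intro i j hij c c' h0 h0'
    have h1 := hcon c c' 0 (Sum.inr (Sum.inl (σ, i, j)))
    have h2 : cF α a (uu i j c c') ≠ 0 := fun h3 => h1 ⟨hσ, hij, h0, h0', h3⟩
    refine (gn_of_cF α a (uu i j c c') h2).mono fun w hw y hy hyi => ?_
    exact hw y hy (by rw [uu_sum i j hij, hyi, sub_self])
  · obtain ⟨σ, hσ⟩ := hcs hc
    have : NeZero ((l : ℕ) : K) := ⟨hlK⟩
    obtain ⟨ζ, hζ⟩ := HasEnoughRootsOfUnity.exists_primitiveRoot K l
    have h1 := hcon 0 0 ζ (Sum.inr (Sum.inr σ))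
    refine ⟨AddChar.zmodChar l hζ.pow_eq_one, bs b, bs_sum b, fun h2 => h1 ⟨hσ, hζ.pow_eq_one,
      hζ.ne_one hl.one_lt, ?_⟩⟩
    rw [← h2]
    exact Finset.sum_congr rfl fun τ _ => by rw [AddChar.zmodChar_apply]

/-- In characteristic zero there is no reason for a good prime. -/
theorem no_rsn [CharZero K] {l : ℕ} [NeZero l] (hl : l.Prime)
    (α : Equiv.Perm (Fin (r + 1)) → K) (hα : ∃ σ, α σ ≠ 0) (hg : Good l α)
    (a b : Fin (r + 1) → ZMod l) (hab : Gpt l a b) (c c' ζ : K) (ρ : Rt r l) :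
    ¬ Rsn α a b c c' ζ ρ := by
  classical
  have hcs : ∀ σ, ∑ s : Fin (r + 1), α (σ * (finRotate (r + 1)) ^ (s : ℕ)) ≠ 0 → ¬ Cs α :=
    fun σ hσ hc => hσ (hc σ)
  rcases ρ with i | ⟨σ, i, j⟩ | σ
  · have h1 : Gn fun w : Fin (r + 1) → ZMod l → K =>
        ∀ y : ZMod l → K, LK α a w y → ∀ i, y i = 0 → y = 0 := cor_strong hl α hα hg a b hab
    obtain ⟨w, hw⟩ := h1.exists
    intro h
    refine cF_of_ex α a (Pi.single i 1) w (fun y hy hyi => hw y hy i ?_) h
    rw [single_sum] at hyi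
    exact hyi
  · rintro ⟨hσ, hij, h0, h0', h⟩
    have h1 : Gn fun w : Fin (r + 1) → ZMod l → K =>
        ∀ y : ZMod l → K, LK α a w y → c * y i = c' * y j → y = 0 :=
      nonconst hl α hα hg (hcs σ hσ) a b hab i j hij c c' h0 h0'
    obtain ⟨w, hw⟩ := h1.exists
    refine cF_of_ex α a (uu i j c c') w (fun y hy hyi => hw y hy ?_) h
    rw [uu_sum i j hij] at hyi
    exact sub_eq_zero.1 hyi
  · rintro ⟨hσ, hζ, hζ1, h⟩
    refine e_ne α hg (hcs σ hσ) a b hab (AddChar.zmodChar l hζ) ?_ ?_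
    · have h1 : (AddChar.zmodChar l hζ) 1 = ζ := by
        have := AddChar.zmodChar_apply' hζ 1
        rwa [Nat.cast_one, pow_one] at this
      rw [h1]
      exact hζ1
    · rw [← h]
      exact Finset.sum_congr rfl fun τ _ => by rw [AddChar.zmodChar_apply]

/-- Coordinatewise nonzero elements of a product of fields have nonzero images. -/
theorem map_ne {Kf : ℕ → Type u} [∀ N, Field (Kf N)] {F : Type u} [Field F]
    (π : (∀ N, Kf N) →+* F) (x : ∀ N, Kf N) (hx : ∀ N, x N ≠ 0) : π x ≠ 0 := by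
  have h : x * (fun N => (x N)⁻¹) = 1 := by
    funext N
    exact mul_inv_cancel₀ (hx N)
  intro h0
  have h1 := congrArg π h
  rw [map_mul, h0, zero_mul, map_one] at h1
  exact zero_ne_one h1

theorem rsn_map {l : ℕ} [NeZero l] {Kf : ℕ → Type u} [∀ N, Field (Kf N)] {F : Type u} [Field F]
    (π : (∀ N, Kf N) →+* F) (α : Equiv.Perm (Fin (r + 1)) → ∀ N, Kf N)
    (a b : Fin (r + 1) → ZMod l) (c c' ζ : ∀ N, Kf N) (ρ : Rt r l)
    (h : ∀ N, Rsn (fun σ => α σ N) a b (c N) (c' N) (ζ N) ρ) :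
    Rsn (fun σ => π (α σ)) a b (π c) (π c') (π ζ) ρ := by
  rcases ρ with i | ⟨σ, i, j⟩ | σ
  · have h1 := cR_prod Kf π α a (Pi.single i 1 : ZMod l → ∀ N, Kf N) (fun N => by
      have h2 := h N
      change cF (fun σ => α σ N) a (Pi.single i 1) = 0 at h2
      convert h2 using 2
      funext k
      by_cases hk : k = i
      · subst hk
        rw [Pi.single_eq_same, Pi.single_eq_same, Pi.one_apply]
      · rw [Pi.single_eq_of_ne hk, Pi.single_eq_of_ne hk, Pi.zero_apply])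
    change cF (fun σ => π (α σ)) a (Pi.single i 1) = 0
    convert h1 using 2
    funext k
    by_cases hk : k = i
    · subst hk
      rw [Pi.single_eq_same, Pi.single_eq_same, map_one]
    · rw [Pi.single_eq_of_ne hk, Pi.single_eq_of_ne hk, map_zero]
  · refine ⟨?_, (h 0).2.1, map_ne π c fun N => (h N).2.2.1, map_ne π c' fun N => (h N).2.2.2.1, ?_⟩
    · have h1 := map_ne π (∑ s : Fin (r + 1), α (σ * (finRotate (r + 1)) ^ (s : ℕ))) (fun N => by
        rw [Finset.sum_apply]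
        exact (h N).1)
      rw [map_sum] at h1
      exact h1
    · have h1 := cR_prod Kf π α a (uu i j c c') (fun N => by
        have h2 := (h N).2.2.2.2
        convert h2 using 2
        funext k
        unfold uu
        split_ifs <;> rfl)
      convert h1 using 2
      funext k
      unfold uu
      split_ifs
      · rfl
      · rw [map_neg]
      · rw [map_zero]
  · refine ⟨?_, ?_, ?_, ?_⟩
    · have h1 := map_ne π (∑ s : Fin (r + 1), α (σ * (finRotate (r + 1)) ^ (s : ℕ))) (fun N => by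
        rw [Finset.sum_apply]
        exact (h N).1)
      rw [map_sum] at h1
      exact h1
    · have h1 : ζ ^ l = 1 := funext fun N => (h N).2.1
      rw [← map_pow, h1, map_one]
    · have h1 := map_ne π (ζ - 1) (fun N => sub_ne_zero.2 (h N).2.2.1)
      rw [map_sub, map_one] at h1
      exact sub_ne_zero.1 h1
    · have h1 : ∑ τ, α τ * ζ ^ (ex τ a (bs b)).val = 0 := by
        funext N
        rw [Finset.sum_apply]
        exact (h N).2.2.2
      have h2 := congrArg π h1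
      rw [map_sum, map_zero] at h2
      rw [← h2]
      exact Finset.sum_congr rfl fun τ _ => by rw [map_mul, map_pow]

end Pool.Agent.P5q
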