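import Pool.Agent.Lib.P5q.Points2
import Pool.Agent.Lib.P5q.AttFree2
import Pool.Agent.Lib.P5m.AttDouble

/-!
# The coupling is effective; non-constant diagonal matrices of size `2 l` (any infinite field)
-/

open Finset

namespace Pool.Agent.P5q

open Pool.Agent.P5m

variable {r : ℕ} {K : Type*} [Field K] {l : ℕ}

open ContrAux in
theorem contr2 [NeZero l] {κ : K} (hκ : κ ≠ 0) (hκ1 : κ ≠ 1)
    (α : Equiv.Perm (Fin (r + 1)) → K)
    (a b : Fin (r + 1) → ZMod l) (hab : Gpt l a b) (hr : Fin.last r ≠ 0)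
    (w v : Fin (r + 1) → ZMod l → K) (Y y : ZMod l → K) (h : Ptc κ α a w v Y y) :
    ∃ v' ξ i₀, Pt2 α a w v' Y y ξ i₀ := by
  by_contra hcon
  push Not at hcon
  -- the negation for `v`
  have n1 : ∀ ξ i, T21 α a w v ξ = Pi.single i 1 → ∀ j,
      G1 α a w v Y ξ j * y i + G2 α a w v y ξ j * Y i = 0 := by
    intro ξ i hξ j
    by_contra hj
    exact hcon v ξ i ⟨h.yw, h.yv, h.nw, h.nv, h.sw, h.sv, h.i3, h.gw, h.gv, hξ, j, hj⟩
  have n2 : ∀ ξ i, T21 α a w (scl κ v) ξ = Pi.single i 1 → ∀ j,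
      G1 α a w v Y ξ j * y i + G2 α a w v y ξ j * Y i = 0 := by
    intro ξ i hξ j
    by_contra hj
    refine hcon (scl κ v) ξ i ⟨h.yw, (LK_scl hκ α a v hr y).2 h.yv, h.nw, h.nv, h.sw,
      fun y' hy' => h.sv y' ((LK_scl hκ α a v hr y').1 hy'), h.i4, h.gw, fun i => ?_, hξ, j, ?_⟩
    · rw [gvec_scl κ α a v hr i]
      exact mul_ne_zero hκ (h.gv i)
    · rw [G1_scl, G2_scl]
      exact hj
  obtain ⟨c, hc⟩ := key (mkLin (T21 α a w v) (T21_lin α a w v))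
    (mkLin (T21 α a w (scl κ v)) (T21_lin α a w (scl κ v)))
    (mkLin (G1 α a w v Y) (G1_lin α a w v hr Y)) (mkLin (G2 α a w v y) (G2_lin α a w v hr y))
    h.i1 h.i2 h.i5 Y y h.nv h.ne (fun ξ i hh => hh.elim (n1 ξ i) (n2 ξ i))
  have hc' : ∀ ξ i, T21 α a w (scl κ v) ξ i = c i * T21 α a w v ξ i := hc
  have hsup : ∀ ξ i, (1 - c i) * T0 α a w v ξ i = 0 ∧ (c i - κ) * Tq α a w v ξ i = 0 := by
    intro ξ i
    refine supp_disj α a b hab w v hr i (1 - c i) (c i - κ) (fun ξ => ?_) ξ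
    have h1 := hc' ξ i
    rw [T21_scl κ α a w v hr, T21_split] at h1
    linear_combination h1
  have hci : ∀ i, c i = 1 := by
    intro i
    have h1 := (hsup (Pi.single i 1) i).1
    rw [T0_diag α a b hab w v hr] at h1
    rcases mul_eq_zero.1 h1 with h2 | h2
    · exact (sub_eq_zero.1 h2).symm
    · exact absurd h2 (h.gw _)
  have hTq : ∀ ξ i, Tq α a w v ξ i = 0 := by
    intro ξ i
    have h1 := (hsup ξ i).2
    rw [hci i] at h1
    rcases mul_eq_zero.1 h1 with h2 | h2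
    · exact absurd (sub_eq_zero.1 h2).symm hκ1
    · exact h2
  have hno : ∀ σ, σ.symm (Fin.last r) < σ.symm 0 → α σ = 0 := by
    intro σ hσ
    by_contra hα
    obtain ⟨ξ, i, hne⟩ := h.hq ⟨σ, hα, hσ⟩
    exact hne (hTq ξ i)
  have hG1 : ∀ ξ j, G1 α a w v Y ξ j = 0 := by
    intro ξ j
    unfold G1
    refine Finset.sum_eq_zero fun σ _ => ?_
    split_ifs with hσ
    · rw [hno σ hσ]
      ring
    · rfl
  obtain ⟨ξ, hξ⟩ := (LinearMap.injective_iff_surjective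
    (f := mkLin (T21 α a w v) (T21_lin α a w v))).1 h.i1 (Pi.single 0 1)
  have hξ' : T21 α a w v ξ = Pi.single 0 1 := hξ
  have hG2 : G2 α a w v y ξ = G2 α a w v y 0 := by
    ext j
    have h1 := n1 ξ 0 hξ' j
    rw [hG1, zero_mul, zero_add] at h1
    have h2 : mkLin (G2 α a w v y) (G2_lin α a w v hr y) 0 = 0 := map_zero _
    have h3 : G2 α a w v y 0 = 0 := h2
    rw [h3]
    rcases mul_eq_zero.1 h1 with h4 | h4
    · exact h4
    · exact absurd h4 (h.nw 0)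
  have hξ0 : ξ = 0 := h.i5 hG2
  have h1 := congrFun hξ' 0
  have h2 : mkLin (T21 α a w v) (T21_lin α a w v) 0 = 0 := map_zero _
  have h3 : T21 α a w v 0 = 0 := h2
  rw [hξ0, h3] at h1
  simp at h1

theorem att_two2 [Infinite K] [NeZero l] (α : Equiv.Perm (Fin (r + 1)) → K) (hα : α 1 ≠ 0)
    (a b : Fin (r + 1) → ZMod l) (H : Hy α a b) (hN : Hn α a) (hr : Fin.last r ≠ 0)
    (D : Fin (2 * l) → K) (hD : ∃ p q, D p ≠ D q) : Att α (2 * l) D := by
  by_cases hS : ∀ w : Fin (r + 1) → ZMod l → K, ∃ y, LK α a w y ∧ y ≠ 0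
  · obtain ⟨κ, hκ⟩ := Set.Infinite.nonempty ((Set.toFinite ({0, 1} : Set K)).infinite_compl)
    have hκ0 : κ ≠ 0 := fun h => hκ (Or.inl h)
    have hκ1 : κ ≠ 1 := fun h => hκ (Or.inr h)
    obtain ⟨w, v, Y, y, h⟩ := points2 hκ0 α hα a b H hN hr hS
    obtain ⟨v', ξ, i₀, h'⟩ := contr2 hκ0 hκ1 α a b H.gpt hr w v Y y h
    obtain ⟨e, he⟩ := exists_split D hD i₀
    exact att_pt2 α a H.gpt.sum hr w v' Y y ξ i₀ h' D e he
  · push Not at hS
    have h1 := att_free2 α hα a b H.gpt hS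
    have h2 : ∀ D : Fin (l + l) → K, Att α (l + l) D := fun D => att_add α D (h1 _) (h1 _)
    have h3 : ∀ m : ℕ, m = l + l → ∀ D : Fin m → K, Att α m D := by
      rintro m rfl
      exact h2
    exact h3 (2 * l) (two_mul l) D

end Pool.Agent.P5q
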