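import Pool.Agent.Lib.P5q.Pert2
import Pool.Agent.Lib.P5m.CorOne

/-!
# Weights for which no kernel vector is orthogonal to a given vector

Generalization of `P5m.CorOne` to every modulus `n` which is invertible in `K`; the two
combinatorial properties of the set of zeros are hypotheses.
-/

open Finset

namespace Pool.Agent.P5q

open Pool.Agent.P5m

variable {r : ℕ}

open CorOneAux in
theorem cor_u {K : Type*} [Field K] {n : ℕ} [NeZero n]
    (hn0 : (n : AlgebraicClosure K) ≠ 0) (α : Equiv.Perm (Fin (r + 1)) → K)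
    (ψ : AddChar (ZMod n) (AlgebraicClosure K)) (hψ : ψ.IsPrimitive)
    (a b : Fin (r + 1) → ZMod n)
    (hsd : ∀ z₁ z₂ z₃ z₄ : ZMod n, IsZ α ψ a b z₁ → IsZ α ψ a b z₂ → IsZ α ψ a b z₃ →
      IsZ α ψ a b z₄ → z₁ + z₂ = z₃ + z₄ → (z₁ = z₃ ∧ z₂ = z₄) ∨ (z₁ = z₄ ∧ z₂ = z₃))
    (htot : ∀ z z' : ZMod n, IsZ α ψ a b z → IsZ α ψ a b z' → z ≠ z' →
      ∃ s : Fin (r + 1), s ≠ 0 ∧
        (E (ac α) ψ a (Function.update (Function.update b 0 z) s (b s + (z' - z))) ≠ 0 ∨
          E (ac α) ψ a (Function.update (Function.update b 0 z') s (b s + (z - z'))) ≠ 0))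
    (u : ZMod n → AlgebraicClosure K)
    (hu : ∀ β, IsZ α ψ a b β → ∑ i, u i * ψ (-((β + bt b) * i)) ≠ 0) :
    ∃ w : Fin (r + 1) → ZMod n → AlgebraicClosure K,
      ∀ y : ZMod n → AlgebraicClosure K, LK (ac α) a w y → ∑ i, y i * u i = 0 → y = 0 := by
  classical
  -- the path
  obtain ⟨N, f, hf1, hf2, hf3, hf4⟩ := path (univ.filter fun β => IsZ α ψ a b β)
    (fun z z' => z ≠ z' ∧ ∃ s : Fin (r + 1), s ≠ 0 ∧
      E (ac α) ψ a (Function.update (Function.update b 0 z) s (b s + (z' - z))) ≠ 0) (by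
    intro z hz z' hz' hne
    rw [mem_filter] at hz hz'
    obtain ⟨s, hs, h⟩ := htot z z' hz.2 hz'.2 hne
    rcases h with h | h
    · exact Or.inl ⟨hne, s, hs, h⟩
    · exact Or.inr ⟨hne.symm, s, hs, h⟩)
  have hfZ : ∀ i < N, IsZ α ψ a b (f i) := fun i hi => (mem_filter.1 (hf1 i hi)).2
  -- the shifted letters
  have hex : ∀ k : ℕ, ∃ s : Fin (r + 1), k + 1 < N → s ≠ 0 ∧
      E (ac α) ψ a (Function.update (Function.update b 0 (f k)) s
        (b s + (f (k + 1) - f k))) ≠ 0 := by
    intro k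
    by_cases h : k + 1 < N
    · obtain ⟨_, s, hs⟩ := hf4 k h
      exact ⟨s, fun _ => hs⟩
    · exact ⟨0, fun h' => absurd h' h⟩
  choose sk hsk using hex
  set D : Fin (r + 1) → Finset (ZMod n) := fun s =>
    ((range (N - 1)).filter fun k => sk k = s).image fun k => f (k + 1) - f k with hD
  have hDmem : ∀ s d, d ∈ D s ↔ ∃ k, k + 1 < N ∧ sk k = s ∧ f (k + 1) - f k = d := by
    intro s d
    rw [hD]
    simp only [mem_image, mem_filter, mem_range]
    constructor
    · rintro ⟨k, ⟨h1, h2⟩, h3⟩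
      exact ⟨k, by omega, h2, h3⟩
    · rintro ⟨k, h1, h2, h3⟩
      exact ⟨k, ⟨by omega, h2⟩, h3⟩
  -- the Sidon property
  have hsid : ∀ k m k', k + 1 < N → m < N → k' + 1 < N →
      f m + (f (k' + 1) - f k') = f (k + 1) → k' = k ∧ m = k := by
    intro k m k' hk hm hk' h
    have h1 : f (k + 1) + f k' = f (k' + 1) + f m := by
      linear_combination -h
    rcases hsd _ _ _ _ (hfZ (k + 1) hk) (hfZ k' (by omega))
      (hfZ (k' + 1) hk') (hfZ m hm) h1 with h2 | h2
    · have h3 := hf3 _ hk _ hk' h2.1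
      have h4 := hf3 _ (by omega) _ hm h2.2
      omega
    · have h4 := hf3 k' (by omega) (k' + 1) hk' h2.2
      omega
  set M := MM ψ (ac α) a b (fun s j => ∑ d ∈ D s, ψ ((b s + d) * j)) (bt b) with hM
  have hpert := pert2 M (fun i j hij => by rw [hM, MM_coeff0 hψ, if_neg hij]) N f (by
      intro i
      rw [hM, MM_coeff0 hψ, if_pos rfl]
      constructor
      · intro h
        have h1 : IsZ α ψ a b i := (mul_eq_zero.1 h).resolve_left hn0
        obtain ⟨k, hk, hk2⟩ := hf2 i (mem_filter.2 ⟨mem_univ _, h1⟩)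
        exact ⟨k, hk, hk2⟩
      · rintro ⟨k, hk, rfl⟩
        have h1 : E (ac α) ψ a (Function.update b 0 (f k)) = 0 := hfZ k hk
        rw [h1, mul_zero])
    hf3
    (by
      intro k hk
      rw [hM, MM_coeff1 hψ]
      have hsk1 := hsk k hk
      rw [sum_eq_single (sk k), sum_eq_single (f (k + 1) - f k), if_pos (by ring)]
      · exact mul_ne_zero hn0 hsk1.2
      · intro d _ hd
        rw [if_neg]
        intro h
        apply hd
        linear_combination h
      · intro h
        exact absurd ((hDmem _ _).2 ⟨k, hk, rfl, rfl⟩) h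
      · intro s _ hs
        refine sum_eq_zero fun d hd => ?_
        rw [if_neg]
        intro h
        obtain ⟨k', hk', h1, h2⟩ := (hDmem _ _).1 hd
        rw [← h2] at h
        obtain ⟨h3, _⟩ := hsid k k k' hk (by omega) hk' h
        rw [h3] at h1
        exact hs h1.symm
      · intro h
        exact absurd (mem_erase.2 ⟨hsk1.1, mem_univ _⟩) h)
    (by
      intro k m hk hm hmk
      rw [hM, MM_coeff1 hψ]
      refine sum_eq_zero fun s _ => sum_eq_zero fun d hd => ?_
      rw [if_neg]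
      intro h
      obtain ⟨k', hk', h1, h2⟩ := (hDmem _ _).1 hd
      rw [← h2] at h
      exact hmk (hsid k m k' hk hm hk' h).2)
    (by
      intro m hm
      rw [hM, MM_coeff1 hψ]
      refine sum_eq_zero fun s _ => sum_eq_zero fun d hd => ?_
      rw [if_neg]
      intro h
      obtain ⟨k', hk', h1, h2⟩ := (hDmem _ _).1 hd
      rw [← h2] at h
      have h3 : f 0 + f k' = f (k' + 1) + f m := by
        linear_combination -h
      rcases hsd _ _ _ _ (hfZ 0 (by omega)) (hfZ k' (by omega)) (hfZ (k' + 1) hk') (hfZ m hm)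
        h3 with h4 | h4
      · have h5 := hf3 _ (by omega) _ hk' h4.1
        omega
      · have h5 := hf3 _ (by omega) _ hk' h4.2
        omega)
    (fun β => ∑ i, ψ (-((β + bt b) * i)) * u i)
    (fun hN => by
      have h1 := hu (f 0) (hfZ 0 hN)
      intro h2
      apply h1
      rw [← h2]
      exact sum_congr rfl fun i _ => mul_comm _ _)
  obtain ⟨ε, hε⟩ := hpert.exists_notMem
  refine ⟨fun k j => ψ (b k * j) + ε * ∑ d ∈ D k, ψ ((b k + d) * j), fun y hy hyu => ?_⟩
  have hY := MM_ker hψ hn0 (ac α) a b (fun s j => ∑ d ∈ D s, ψ ((b s + d) * j)) (bt b) ε y hy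
  rw [← hM] at hY
  have h1 : FT ψ (bt b) y = 0 := by
    by_contra h2
    refine hε ⟨FT ψ (bt b) y, hY, ?_, h2⟩
    rw [← hyu]
    have h3 : ∀ β : ZMod n, FT ψ (bt b) y β * ∑ i, ψ (-((β + bt b) * i)) * u i =
        ∑ i, (FT ψ (bt b) y β * ψ (-((β + bt b) * i))) * u i := by
      intro β
      rw [mul_sum]
      exact sum_congr rfl fun i _ => by ring
    rw [sum_congr rfl fun β _ => h3 β, sum_comm]
    refine sum_congr rfl fun i _ => ?_
    rw [← sum_mul, FT_inv hψ hn0]
  funext i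
  rw [← FT_inv hψ hn0 (bt b) y i, h1]
  simp

end Pool.Agent.P5q
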