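import Pool.Agent.Lib.P5m.CycSum
import Pool.Agent.Lib.P5m.Scal

/-!
# Vanishing cyclic sums: the polynomial is a sum of commutators (any characteristic)
-/

open Finset Matrix

namespace Pool.Agent.P5q

open Pool.Agent.P5m

variable {r : ℕ} {K : Type*} [Field K]

/-- Sum over all words by rotation classes. -/
theorem sum_rot {M : Type*} [AddCommMonoid M] (F : Equiv.Perm (Fin (r + 1)) → M) :
    ∑ σ, F σ = ∑ ρ : {ρ : Equiv.Perm (Fin (r + 1)) // ρ 0 = 0}, ∑ s : Fin (r + 1),
      F (ρ * (finRotate (r + 1)) ^ (s : ℕ)) := by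
  classical
  have h1 : Function.Bijective (fun p : {ρ : Equiv.Perm (Fin (r + 1)) // ρ 0 = 0} × Fin (r + 1) =>
      (p.1 : Equiv.Perm (Fin (r + 1))) * (finRotate (r + 1)) ^ (p.2 : ℕ)) := by
    constructor
    · rintro ⟨⟨ρ, hρ⟩, s⟩ ⟨⟨ρ', hρ'⟩, s'⟩ h
      simp only at h
      have h2 : s = s' := by
        have e1 : (ρ * (finRotate (r + 1)) ^ (s : ℕ)).symm 0 =
            (ρ' * (finRotate (r + 1)) ^ (s' : ℕ)).symm 0 := by rw [h]
        have e2 := rot_symm ρ s 0
        have e3 := rot_symm ρ' s' 0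
        rw [hρ] at e2
        rw [hρ'] at e3
        rw [e2, e3] at e1
        have := sub_right_injective e1
        exact this
      subst h2
      have h3 := mul_right_cancel h
      subst h3
      rfl
    · intro σ
      refine ⟨(⟨σ * (finRotate (r + 1)) ^ ((σ.symm 0 : Fin (r + 1)) : ℕ), ?_⟩, -(σ.symm 0)), ?_⟩
      · rw [Equiv.Perm.mul_apply, rot_pow_apply, zero_add, Equiv.apply_symm_apply]
      · simp only
        ext i
        rw [Equiv.Perm.mul_apply, rot_pow_apply, Equiv.Perm.mul_apply, rot_pow_apply]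
        rw [add_assoc, neg_add_cancel, add_zero]
  rw [← Fintype.sum_prod_type', ← (Equiv.ofBijective _ h1).sum_comp]
  rfl

theorem trace_of_cs2 {ι : Type*} [Fintype ι] [DecidableEq ι]
    (α : Equiv.Perm (Fin (r + 1)) → K) (h : Cs α) (A : Fin (r + 1) → Matrix ι ι K) :
    (P5e96.mval α A).trace = 0 := by
  have h0 : (P5e96.mval α A).trace =
      ∑ σ, α σ * (List.ofFn fun i => A (σ i)).prod.trace := by
    rw [P5e96.mval, Matrix.trace_sum]
    refine Finset.sum_congr rfl fun σ _ => ?_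
    rw [Matrix.trace_smul, smul_eq_mul]
  rw [h0, sum_rot]
  refine Finset.sum_eq_zero fun ρ _ => ?_
  have h1 : ∀ s : Fin (r + 1), α (ρ * (finRotate (r + 1)) ^ (s : ℕ)) *
      (List.ofFn fun i => A ((ρ * (finRotate (r + 1)) ^ (s : ℕ) :
        Equiv.Perm (Fin (r + 1))) i)).prod.trace =
      α (ρ * (finRotate (r + 1)) ^ (s : ℕ)) *
        (List.ofFn fun i => A ((ρ : Equiv.Perm (Fin (r + 1))) i)).prod.trace := by
    intro s
    rw [trace_rot_pow]
  rw [Finset.sum_congr rfl fun s _ => h1 s, ← Finset.sum_mul, h ρ, zero_mul]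

end Pool.Agent.P5q
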