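import Pool.Agent.Lib.P5m.CorStrong
import Pool.Agent.Lib.P5m.Gn

/-!
# Descent from the algebraic closure to generic weights over `K`
-/

open Finset

namespace Pool.Agent.P5q

open Pool.Agent.P5m Pool.Agent.P5m.CorStrongAux

variable {r : ℕ}

/-- If no left kernel vector of `M` is orthogonal to `u` then some rank one change `M + u v` is
invertible. -/
theorem dir_u {G F : Type*} [DecidableEq G] [Fintype G] [Field F] (M : Matrix G G F) (u : G → F)
    (hM : ∀ y : G → F, Matrix.vecMul y M = 0 → dotProduct y u = 0 → y = 0) :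
    ∃ v : G → F, (M + Matrix.vecMulVec u v).det ≠ 0 := by
  by_cases hd : M.det = 0
  · obtain ⟨x, hx0, hx⟩ := Matrix.exists_mulVec_eq_zero_iff.2 hd
    obtain ⟨j, hj⟩ := Function.ne_iff.1 hx0
    rw [Pi.zero_apply] at hj
    refine ⟨Pi.single j 1, ?_⟩
    intro hdet
    obtain ⟨z, hz0, hz⟩ := Matrix.exists_vecMul_eq_zero_iff.2 hdet
    rw [Matrix.vecMul_add, Matrix.vecMul_vecMulVec] at hz
    have h2 := congrArg (fun t => dotProduct t x) hz
    simp only [add_dotProduct, zero_dotProduct, smul_dotProduct] at h2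
    rw [← Matrix.dotProduct_mulVec, hx, dotProduct_zero, zero_add] at h2
    have h3 : dotProduct (Pi.single j (1 : F)) x = x j := by simp
    rw [h3, smul_eq_mul] at h2
    have hzi : dotProduct z u = 0 := (mul_eq_zero.1 h2).resolve_right hj
    rw [hzi, zero_smul, add_zero] at hz
    exact hz0 (hM z hz hzi)
  · exact ⟨0, by simpa using hd⟩

theorem ker_u {G F : Type*} [DecidableEq G] [Fintype G] [Field F] (M : Matrix G G F) (u v : G → F)
    (h : (M + Matrix.vecMulVec u v).det ≠ 0) (y : G → F) (hy : Matrix.vecMul y M = 0)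
    (hu : dotProduct y u = 0) : y = 0 := by
  apply Matrix.eq_zero_of_vecMul_eq_zero h
  rw [Matrix.vecMul_add, Matrix.vecMul_vecMulVec, hy, hu, zero_smul, zero_add]

/-- The bordered determinant as a polynomial in the weights and the direction. -/
noncomputable def cF {K G : Type*} [Field K] [CommRing G] [DecidableEq G] [Fintype G]
    (α : Equiv.Perm (Fin (r + 1)) → K) (a : Fin (r + 1) → G) (u : G → K) :
    MvPolynomial ((Fin (r + 1) × G) ⊕ G) K :=
  (cm (fun σ => MvPolynomial.C (α σ)) a (fun k g => MvPolynomial.X (Sum.inl (k, g))) +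
      Matrix.vecMulVec (fun i => MvPolynomial.C (u i)) (fun i => MvPolynomial.X (Sum.inr i))).det

theorem cF_map {K G S : Type*} [Field K] [CommRing G] [DecidableEq G] [Fintype G]
    [CommRing S] (α : Equiv.Perm (Fin (r + 1)) → K) (a : Fin (r + 1) → G) (u : G → K)
    (φ : MvPolynomial ((Fin (r + 1) × G) ⊕ G) K →+* S)
    (β : Equiv.Perm (Fin (r + 1)) → S) (w : Fin (r + 1) → G → S) (u' v : G → S)
    (h1 : ∀ σ, φ (MvPolynomial.C (α σ)) = β σ)
    (h2 : ∀ k g, φ (MvPolynomial.X (Sum.inl (k, g))) = w k g)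
    (h3 : ∀ i, φ (MvPolynomial.C (u i)) = u' i)
    (h4 : ∀ i, φ (MvPolynomial.X (Sum.inr i)) = v i) :
    φ (cF α a u) = (cm β a w + Matrix.vecMulVec u' v).det := by
  unfold cF
  rw [cm_det]
  simp only [h1, h2, h3, h4]

theorem desc {K : Type*} [Field K] [Infinite K] {n : ℕ} [NeZero n]
    (α : Equiv.Perm (Fin (r + 1)) → K) (a : Fin (r + 1) → ZMod n) (u : ZMod n → K)
    (h : ∃ w : Fin (r + 1) → ZMod n → AlgebraicClosure K, ∀ y : ZMod n → AlgebraicClosure K,
      LK (ac α) a w y → ∑ i, y i * algebraMap K (AlgebraicClosure K) (u i) = 0 → y = 0) :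
    Gn fun w : Fin (r + 1) → ZMod n → K => ∀ y, LK α a w y → ∑ i, y i * u i = 0 → y = 0 := by
  classical
  obtain ⟨w₀, hw₀⟩ := h
  obtain ⟨v₀, hv₀⟩ := dir_u (cm (ac α) a w₀)
    (fun i => algebraMap K (AlgebraicClosure K) (u i))
    (fun y hy hu => hw₀ y ((lk_iff _ _ _ _).2 hy) hu)
  have hD : cF α a u ≠ 0 := by
    intro h0
    have h1 := cF_map α a u (MvPolynomial.eval₂Hom (algebraMap K (AlgebraicClosure K))
      (Sum.elim (fun p : Fin (r + 1) × ZMod n => w₀ p.1 p.2) v₀)) (ac α) w₀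
      (fun i => algebraMap K (AlgebraicClosure K) (u i)) v₀
      (by intro σ; simp [ac]) (by simp) (by simp) (by simp)
    rw [h0, map_zero] at h1
    exact hv₀ h1.symm
  obtain ⟨p, hp⟩ : ∃ p, MvPolynomial.eval p (cF α a u) ≠ 0 := by
    by_contra hcon
    push Not at hcon
    exact hD (MvPolynomial.funext fun z => by rw [hcon z, map_zero])
  rw [cF_map α a u (MvPolynomial.eval p) α (fun k g => p (Sum.inl (k, g))) u
    (fun i => p (Sum.inr i)) (by simp) (by simp) (by simp) (by simp)] at hp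
  refine ⟨cE α a u (fun i => p (Sum.inr i)), ?_, ?_⟩
  · intro h0
    have h1 := cE_eval α a u (fun i => p (Sum.inr i)) (fun k g => p (Sum.inl (k, g)))
    rw [h0, map_zero] at h1
    exact hp h1.symm
  · intro w hw y hy hu
    rw [cE_eval] at hw
    exact ker_u _ _ _ hw y ((lk_iff _ _ _ _).1 hy) hu

end Pool.Agent.P5q
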