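import Pool.Agent.Lib.P5q.Two3
import Pool.Agent.Lib.P5q.Contr2
import Pool.Agent.Lib.P5q.Cyc2
import Pool.Agent.Lib.P5q.BaseTwo
import Pool.Agent.Lib.P5m.NFinal

/-!
# Images of multilinear polynomials over infinite fields: assembly
-/

open Finset Matrix

namespace Pool.Agent.P5q

open Pool.Agent.P5m

universe u

variable {r : ℕ} {K : Type u} [Field K]

/-- All non-scalar trace zero endomorphisms of spaces of dimension `n` have a decomposition. -/
def TDec (α : Equiv.Perm (Fin (r + 1)) → K) (n : ℕ) : Prop :=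
  ∀ (V : Type u) [AddCommGroup V] [Module K V] [FiniteDimensional K V],
    Module.finrank K V = n → ∀ T : V →ₗ[K] V, (∀ μ : K, T ≠ μ • LinearMap.id) →
      LinearMap.trace K V T = 0 → Dec α T

theorem tDec_base [Infinite K] (α : Equiv.Perm (Fin (r + 1)) → K) (s : ℕ) (hs : 5 ≤ s)
    (hodd : Odd s) (ha : ∀ D : Fin s → K, ∑ i, D i = 0 → Att α s D) : TDec α (2 * s) := by
  intro V _ _ _ hV T hT hT0
  have h1 : ∃ D : Fin 2 → Fin s → K, Blk T (fun _ => s) D ∧ ∑ i, D 0 i = 0 := by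
    by_cases h2 : (2 : K) = 0
    · exact base_two h2 T hT hT0 s hV hs hodd
    · exact two_trace2 h2 T hT s hV 0
  obtain ⟨D, hD, hD0⟩ := h1
  refine dec_of_blk α T _ D hD ?_
  have h1 := trace_blk T _ D hD
  rw [hT0, Fin.sum_univ_two, hD0, zero_add] at h1
  intro a
  fin_cases a
  · exact ha _ hD0
  · exact ha _ h1.symm

theorem tDec_step (α : Equiv.Perm (Fin (r + 1)) → K) (n s : ℕ) (hs : 1 ≤ s)
    (hn : 2 * s + 2 ≤ n) (ha : ∀ D : Fin s → K, ∑ i, D i = 0 → Att α s D)
    (ih : TDec α n) : TDec α (n + s) := by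
  intro V _ _ _ hV T hT hT0
  obtain ⟨μ, hμ⟩ := peel T hT s hs (by omega)
  obtain ⟨v, W, T', hv, hW, h1, h2, hT'⟩ := hμ (-(((s : K) - 1) * μ))
  have h3 : ∑ i, pd s (-(((s : K) - 1) * μ)) μ i = 0 := by
    rw [sum_pd s hs]; ring
  refine dec_peel α T _ μ v W T' hv hW h1 h2 (ha _ h3) ?_
  refine ih W (finrank_compl v W hv hW hV) T' hT' ?_
  have h4 := trace_peel T _ μ v W T' hv hW h1 h2
  rw [hT0, h3, zero_add] at h4
  exact h4.symm

theorem tDec_all [Infinite K] (α : Equiv.Perm (Fin (r + 1)) → K) (l l' : ℕ) (hl' : 5 ≤ l')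
    (hll : l' < l) (hodd : Odd l) (ha : ∀ D : Fin l → K, ∑ i, D i = 0 → Att α l D)
    (ha' : ∀ D : Fin l' → K, ∑ i, D i = 0 → Att α l' D) (x y : ℕ) (hy : 1 ≤ y) :
    TDec α (2 * l + (x * l + y * l')) := by
  have h1 : ∀ y : ℕ, TDec α (2 * l + y * l') := by
    intro y
    induction y with
    | zero => simpa using tDec_base α l (by omega) hodd ha
    | succ y ih =>
      have := tDec_step α (2 * l + y * l') l' (by omega) (by
        have := Nat.zero_le (y * l'); omega) ha' ih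
      rw [show 2 * l + (y + 1) * l' = 2 * l + y * l' + l' by ring]
      exact this
  induction x with
  | zero => simpa using h1 y
  | succ x ih =>
    have h2 : l' ≤ y * l' := Nat.le_mul_of_pos_left l' (by omega)
    have := tDec_step α (2 * l + (x * l + y * l')) l (by omega) (by
      have := Nat.zero_le (x * l); omega) ha ih
    rw [show 2 * l + ((x + 1) * l + y * l') = 2 * l + (x * l + y * l') + l by ring]
    exact this

/-- Trace-vanishing multilinear polynomials attain every non-scalar matrix of trace zero. -/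
theorem value_trace2 (r : ℕ) : ∃ N : ℕ, ∀ n ≥ N, ∀ (K : Type u) [Field K] [Infinite K]
    (α : Equiv.Perm (Fin (r + 1)) → K), α ≠ 0 →
    (∀ A : Fin (r + 1) → Matrix (Fin n) (Fin n) K, (P5e96.mval α A).trace = 0) →
    ∀ T : Matrix (Fin n) (Fin n) K, (∀ μ : K, T ≠ μ • 1) → T.trace = 0 →
      ∃ A : Fin (r + 1) → Matrix (Fin n) (Fin n) K, P5e96.mval α A = T := by
  obtain ⟨M, hM⟩ := two_blocks.{u} r
  refine ⟨3 * M + M * M, fun n hn K _ _ α hα htr T hTs hT => ?_⟩
  obtain ⟨σ₀, hσ₀⟩ := Function.ne_iff.1 hα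
  set α' : Equiv.Perm (Fin (r + 1)) → K := fun τ => α (σ₀ * τ) with hα'
  have hα1 : α' 1 ≠ 0 := by simpa [hα'] using hσ₀
  obtain ⟨l, l', hll, hlM, h5, hcop, hodd, hodd', ⟨i1, a, b, hb⟩, i2, a', b', hb'⟩ := hM K α' hα1
  have htr' : ∀ A : Fin (r + 1) → Matrix (Fin n) (Fin n) K, (P5e96.mval α' A).trace = 0 := by
    intro A
    rw [hα', ← mval_shift α σ₀ A]
    exact htr _
  have h1 : l * l' ≤ M * M := Nat.mul_le_mul hlM (by omega)
  obtain ⟨x, y, hy, hxy⟩ := frob l l' (n - 2 * l) hcop (by omega) (by omega) (by omega)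
  have hn' : n = 2 * l + (x * l + y * l') := by omega
  have ha : ∀ D : Fin l → K, ∑ i, D i = 0 → Att α' l D := fun D hD =>
    att_trace2 α' hα1 a b hb.hy (fun A => trace_small α' (by omega) htr' A) D hD
  have ha' : ∀ D : Fin l' → K, ∑ i, D i = 0 → Att α' l' D := fun D hD =>
    att_trace2 α' hα1 a' b' hb'.hy (fun A => trace_small α' (by omega) htr' A) D hD
  have h2 := tDec_all α' l l' h5 hll hodd ha ha' x y hy
  rw [← hn'] at h2
  obtain ⟨A, hA⟩ := value_of_dec α' T (h2 (Fin n → K) (by simp) (Matrix.toLin' T) (by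
      intro μ h
      refine hTs μ (Matrix.toLin'.injective ?_)
      rw [h, map_smul, Matrix.toLin'_one]) (by
    rw [Matrix.trace_toLin'_eq]; exact hT))
  exact ⟨fun q => A (σ₀.symm q), by rw [mval_shift]; exact hA⟩

theorem nDec_base2 [Infinite K] (α : Equiv.Perm (Fin (r + 1)) → K) (s : ℕ) (hs : 2 ≤ s)
    (ha : ∀ D : Fin s → K, (∃ p q, D p ≠ D q) → Att α s D) : NDec α (2 * s) := by
  intro V _ _ _ hV T hT
  obtain ⟨D, hD, hD0⟩ := two_ne2 T hT s hV hs
  exact dec_of_blk α T _ D hD fun a => ha _ (hD0 a)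

theorem nDec_step2 (α : Equiv.Perm (Fin (r + 1)) → K) (n s : ℕ) (hs : 1 ≤ s)
    (hn : 2 * s + 2 ≤ n) (ha : ∀ μ : K, ∃ d : K, Att α s (pd s d μ))
    (ih : NDec α n) : NDec α (n + s) := by
  intro V _ _ _ hV T hT
  obtain ⟨μ, hμ⟩ := peel T hT s hs (by omega)
  obtain ⟨d, hd⟩ := ha μ
  obtain ⟨v, W, T', hv, hW, h1, h2, h3⟩ := hμ d
  exact dec_peel α T _ μ v W T' hv hW h1 h2 hd (ih W (finrank_compl v W hv hW hV) T' h3)

theorem nDec_all2 [Infinite K] (α : Equiv.Perm (Fin (r + 1)) → K) (l l' : ℕ) (hl' : 1 ≤ l')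
    (hll : l' < l) (ha : ∀ D : Fin (2 * l) → K, (∃ p q, D p ≠ D q) → Att α (2 * l) D)
    (ha' : ∀ D : Fin (2 * l') → K, (∃ p q, D p ≠ D q) → Att α (2 * l') D)
    (h1 : ∃ u : Fin l → K, (∃ i, u i ≠ 0) ∧ ∀ D : Fin l → K, ∑ i, u i * D i = 0 → Att α l D)
    (x y : ℕ) (hy : 1 ≤ y) :
    NDec α (2 * (2 * l) + (x * (2 * l) + y * (2 * l'))) ∧
      NDec α (2 * (2 * l) + (x * (2 * l) + y * (2 * l')) + l) := by
  have e1 : ∀ y : ℕ, NDec α (2 * (2 * l) + y * (2 * l')) := by
    intro y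
    induction y with
    | zero => simpa using nDec_base2 α (2 * l) (by omega) ha
    | succ y ih =>
      have := nDec_step2 α (2 * (2 * l) + y * (2 * l')) (2 * l') (by omega) (by
        have := Nat.zero_le (y * (2 * l')); omega) (pd_of_ne α _ (by omega) ha') ih
      rw [show 2 * (2 * l) + (y + 1) * (2 * l') = 2 * (2 * l) + y * (2 * l') + 2 * l' by ring]
      exact this
  have e2 : ∀ x : ℕ, NDec α (2 * (2 * l) + (x * (2 * l) + y * (2 * l'))) := by
    intro x
    induction x with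
    | zero => simpa using e1 y
    | succ x ih =>
      have h2 : 2 * l' ≤ y * (2 * l') := Nat.le_mul_of_pos_left _ (by omega)
      have := nDec_step2 α (2 * (2 * l) + (x * (2 * l) + y * (2 * l'))) (2 * l) (by omega) (by
        have := Nat.zero_le (x * (2 * l)); omega) (pd_of_ne α _ (by omega) ha) ih
      rw [show 2 * (2 * l) + ((x + 1) * (2 * l) + y * (2 * l')) =
        2 * (2 * l) + (x * (2 * l) + y * (2 * l')) + 2 * l by ring]
      exact this
  exact ⟨e2 x, nDec_step2 α _ l (by omega) (by omega) (pd_of_one α l (by omega) h1) (e2 x)⟩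

theorem scal_all2 (α : Equiv.Perm (Fin (r + 1)) → K) (c : K)
    (l l' : ℕ) (h : ∃ A : Fin (r + 1) → Matrix (Fin l) (Fin l) K, P5e96.mval α A = c • 1)
    (h' : ∃ A : Fin (r + 1) → Matrix (Fin l') (Fin l') K, P5e96.mval α A = c • 1) (x y : ℕ)
    (hy : 1 ≤ y) : ∃ A : Fin (r + 1) → Matrix (Fin (x * l + y * l')) (Fin (x * l + y * l')) K,
      P5e96.mval α A = c • 1 := by
  have hcast : ∀ {m m' : ℕ}, m = m' →
      (∃ A : Fin (r + 1) → Matrix (Fin m) (Fin m) K, P5e96.mval α A = c • 1) →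
      ∃ A : Fin (r + 1) → Matrix (Fin m') (Fin m') K, P5e96.mval α A = c • 1 := by
    rintro m m' rfl h
    exact h
  have h1 : ∀ y : ℕ, 1 ≤ y →
      ∃ A : Fin (r + 1) → Matrix (Fin (y * l')) (Fin (y * l')) K, P5e96.mval α A = c • 1 := by
    intro y hy
    induction y, hy using Nat.le_induction with
    | base => exact hcast (by ring) h'
    | succ y _ ih => exact hcast (by ring) (val_add α c ih h')
  induction x with
  | zero => exact hcast (by ring) (h1 y hy)
  | succ x ih => exact hcast (by ring) (val_add α c ih h)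

/-- A multilinear polynomial with a value of nonzero trace attains every non-scalar matrix, and
over algebraically closed fields every matrix. -/
theorem value_all2 (r : ℕ) (hr : 1 ≤ r) : ∃ N : ℕ, ∀ n ≥ N, ∀ (K : Type u) [Field K] [Infinite K]
    (α : Equiv.Perm (Fin (r + 1)) → K),
    (∃ A : Fin (r + 1) → Matrix (Fin n) (Fin n) K, (P5e96.mval α A).trace ≠ 0) →
    (∀ T : Matrix (Fin n) (Fin n) K, (∀ μ : K, T ≠ μ • 1) →
      ∃ A : Fin (r + 1) → Matrix (Fin n) (Fin n) K, P5e96.mval α A = T) ∧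
    (IsAlgClosed K → ∀ c : K,
      ∃ A : Fin (r + 1) → Matrix (Fin n) (Fin n) K, P5e96.mval α A = c • 1) := by
  obtain ⟨M, hM⟩ := two_blocks.{u} r
  refine ⟨5 * M + 2 * (M * M + M) + 2, fun n hn K _ _ α htr => ?_⟩
  have hcs : ¬ Cs α := by
    obtain ⟨A, hA⟩ := htr
    exact fun h => hA (trace_of_cs2 α h A)
  have hα : α ≠ 0 := by
    rintro rfl
    exact hcs fun σ => by simp
  have hlast : Fin.last r ≠ 0 := by
    intro h
    have := congrArg Fin.val h
    simp at this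
    omega
  obtain ⟨σ₀, hσ₀⟩ := Function.ne_iff.1 hα
  set α' : Equiv.Perm (Fin (r + 1)) → K := fun τ => α (σ₀ * τ) with hα'
  have hα1 : α' 1 ≠ 0 := by simpa [hα'] using hσ₀
  have hcs' : ¬ Cs α' := fun h => hcs (cs_of_shift α σ₀ h)
  obtain ⟨l, l', hll, hlM, h5, hcop, hodd, hodd', ⟨i1, a, b, hb⟩, i2, a', b', hb'⟩ := hM K α' hα1
  have h1 : l * l' ≤ M * M := Nat.mul_le_mul hlM (by omega)
  have key : NDec α' n := by
    have hodd2 : l % 2 = 1 := Nat.odd_iff.1 hodd
    rcases Nat.even_or_odd' n with ⟨k, hk | hk⟩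
    · obtain ⟨x, y, hy, hxy⟩ := frob l l' (k - 2 * l) hcop (by omega) (by omega) (by omega)
      have h2 := (nDec_all2 α' l l' (by omega) hll
        (att_two2 α' hα1 a b hb.hy (hb.hn hcs') hlast)
        (att_two2 α' hα1 a' b' hb'.hy (hb'.hn hcs') hlast) (att_one2 α' hα1 a b hb.hy) x y hy).1
      have h3 : n = 2 * (2 * l) + (x * (2 * l) + y * (2 * l')) := by
        have : x * (2 * l) + y * (2 * l') = 2 * (x * l + y * l') := by ring
        omega
      rw [h3]
      exact h2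
    · obtain ⟨x, y, hy, hxy⟩ := frob l l' ((n - l) / 2 - 2 * l) hcop (by omega) (by omega)
        (by omega)
      have h2 := (nDec_all2 α' l l' (by omega) hll
        (att_two2 α' hα1 a b hb.hy (hb.hn hcs') hlast)
        (att_two2 α' hα1 a' b' hb'.hy (hb'.hn hcs') hlast) (att_one2 α' hα1 a b hb.hy) x y hy).2
      have h3 : n = 2 * (2 * l) + (x * (2 * l) + y * (2 * l')) + l := by
        have : x * (2 * l) + y * (2 * l') = 2 * (x * l + y * l') := by ring
        omega
      rw [h3]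
      exact h2
  refine ⟨fun T hT => ?_, fun hA c => ?_⟩
  · obtain ⟨A, hA⟩ := value_of_dec α' T (key (Fin n → K) (by simp) (Matrix.toLin' T) (by
      intro μ h
      refine hT μ (Matrix.toLin'.injective ?_)
      rw [h, map_smul, Matrix.toLin'_one]))
    exact ⟨fun q => A (σ₀.symm q), by rw [mval_shift]; exact hA⟩
  · obtain ⟨x, y, hy, hxy⟩ := frob l l' n hcop (by omega) (by omega) (by omega)
    obtain ⟨ψ, e, he, he0⟩ := hb.sn hcs' hA
    obtain ⟨ψ', e', he', he0'⟩ := hb'.sn hcs' hA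
    obtain ⟨A, hA⟩ := scal_all2 α' c l l' (scal_of α' a e hb.hy.gpt.sum he ψ he0 c)
      (scal_of α' a' e' hb'.hy.gpt.sum he' ψ' he0' c) x y hy
    subst hxy
    exact ⟨fun q => A (σ₀.symm q), by rw [mval_shift]; exact hA⟩

end Pool.Agent.P5q
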