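import Pool.Agent.Lib.P5m.Defs

/-!
# Integer parameters that are generic modulo every large prime

The proof is that of `P5m.Gen` (`exists_gpt`), with the integer point kept; the naturality lemmas
`nt_A`, `nt_cf`, ... for ring homomorphisms are public here.
-/

open Finset

namespace Pool.Agent.P5q

open Pool.Agent.P5m

section nat

variable {r : ℕ} {R S : Type*} [CommRing R] [CommRing S] (φ : R →+* S)

theorem nt_A (Q : Fin (r + 1) → Fin (r + 1) → ℤ) (a : Fin (r + 1) → R)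
    (k : Fin (r + 1)) : A Q (fun j => φ (a j)) k = φ (A Q a k) := by
  unfold A
  rw [map_sum]
  refine Finset.sum_congr rfl fun j _ => ?_
  rw [map_mul, map_intCast]

theorem nt_cf (Q : Fin (r + 1) → Fin (r + 1) → ℤ) (a b : Fin (r + 1) → R) :
    cf Q (fun j => φ (a j)) (fun j => φ (b j)) = φ (cf Q a b) := by
  unfold cf
  simp only [nt_A, map_sum, map_mul]

theorem nt_bt (b : Fin (r + 1) → R) :
    bt (fun j => φ (b j)) = φ (bt b) := by
  unfold bt
  simp only [map_sum]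

theorem nt_E3 (Q₀ Q : Fin (r + 1) → Fin (r + 1) → ℤ) (a b : Fin (r + 1) → R) :
    E3 Q₀ Q (fun j => φ (a j)) (fun j => φ (b j)) = φ (E3 Q₀ Q a b) := by
  unfold E3
  simp only [nt_A, nt_cf, map_sub, map_mul]

theorem nt_E4 (P Q : Fin (r + 1) → Fin (r + 1) → ℤ) (s : Fin (r + 1))
    (a b : Fin (r + 1) → R) :
    E4 P Q s (fun j => φ (a j)) (fun j => φ (b j)) = φ (E4 P Q s a b) := by
  unfold E4
  simp only [nt_A, map_sum, map_sub, map_mul]

theorem nt_E5 (P P' Q : Fin (r + 1) → Fin (r + 1) → ℤ) (s : Fin (r + 1))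
    (a b : Fin (r + 1) → R) :
    E5 P P' Q s (fun j => φ (a j)) (fun j => φ (b j)) = φ (E5 P P' Q s a b) := by
  unfold E5
  simp only [nt_A, map_sum, map_sub, map_mul]

theorem nt_nu (F : Option (Equiv.Perm (Fin (r + 1)) × Equiv.Perm (Fin (r + 1))))
    (a b : Fin (r + 1) → R) :
    nu F (fun j => φ (a j)) (fun j => φ (b j)) = φ (nu F a b) := by
  cases F with
  | none => exact nt_bt φ b
  | some p => exact nt_cf φ (Dl p.1 p.2) a b

theorem nt_de (F : Option (Equiv.Perm (Fin (r + 1)) × Equiv.Perm (Fin (r + 1))))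
    (a : Fin (r + 1) → R) : de F (fun j => φ (a j)) = φ (de F a) := by
  cases F with
  | none => exact (map_one φ).symm
  | some p => exact nt_A φ (Dl p.1 p.2) a 0

theorem nt_E6 (F₁ F₂ F₃ F₄ : Option (Equiv.Perm (Fin (r + 1)) ×
    Equiv.Perm (Fin (r + 1)))) (a b : Fin (r + 1) → R) :
    E6 F₁ F₂ F₃ F₄ (fun j => φ (a j)) (fun j => φ (b j)) = φ (E6 F₁ F₂ F₃ F₄ a b) := by
  unfold E6
  simp only [nt_nu, nt_de, map_sub, map_add, map_mul]

theorem nt_E7 (F₁ F₃ F₄ : Option (Equiv.Perm (Fin (r + 1)) ×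
    Equiv.Perm (Fin (r + 1)))) (a b : Fin (r + 1) → R) :
    E7 F₁ F₃ F₄ (fun j => φ (a j)) (fun j => φ (b j)) = φ (E7 F₁ F₃ F₄ a b) := by
  unfold E7
  simp only [nt_nu, nt_de, map_sub, map_mul, map_ofNat]

end nat

/-- universal parameters `a` -/
private noncomputable def gA (r : ℕ) (k : Fin (r + 1)) : MvPolynomial (Bool × Fin (r + 1)) ℤ :=
  if k = 0 then - ∑ k' ∈ univ.erase 0, MvPolynomial.X (true, k') else MvPolynomial.X (true, k)

/-- universal parameters `b` -/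
private noncomputable def gB (r : ℕ) (k : Fin (r + 1)) : MvPolynomial (Bool × Fin (r + 1)) ℤ :=
  MvPolynomial.X (false, k)

private theorem gA_sum (r : ℕ) : ∑ k, gA r k = 0 := by
  rw [← Finset.add_sum_erase _ _ (Finset.mem_univ 0)]
  have h : ∑ k ∈ univ.erase 0, gA r k =
      ∑ k ∈ univ.erase (0 : Fin (r + 1)), MvPolynomial.X (R := ℤ) (true, k) := by
    refine Finset.sum_congr rfl fun k hk => ?_
    unfold gA
    rw [if_neg (Finset.mem_erase.1 hk).1]
  rw [h]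
  unfold gA
  rw [if_pos rfl, neg_add_cancel]

/-- the specialisation to rational parameters -/
private noncomputable def gS {r : ℕ} (a b : Fin (r + 1) → ℚ) :
    MvPolynomial (Bool × Fin (r + 1)) ℤ →+* ℚ :=
  MvPolynomial.eval₂Hom (Int.castRingHom ℚ) fun p => if p.1 then a p.2 else b p.2

private theorem gS_A {r : ℕ} (a b : Fin (r + 1) → ℚ) (ha : ∑ j, a j = 0) :
    (fun j => gS a b (gA r j)) = a := by
  funext k
  unfold gA gS
  by_cases hk : k = 0
  · rw [if_pos hk, map_neg, map_sum]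
    simp only [MvPolynomial.coe_eval₂Hom, MvPolynomial.eval₂_X, if_true]
    rw [← Finset.add_sum_erase _ _ (Finset.mem_univ 0)] at ha
    rw [hk]
    linarith
  · rw [if_neg hk]
    simp only [MvPolynomial.coe_eval₂Hom, MvPolynomial.eval₂_X, if_true]

private theorem gS_B {r : ℕ} (a b : Fin (r + 1) → ℚ) :
    (fun j => gS a b (gB r j)) = b := by
  funext k
  unfold gB gS
  simp

/-- the indices of the family -/
private abbrev GP (r : ℕ) := Equiv.Perm (Fin (r + 1))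

private abbrev GI (r : ℕ) := (GP r × GP r × Fin (r + 1)) ⊕ (GP r × GP r) ⊕
  (GP r × GP r × GP r × GP r) ⊕ (GP r × GP r × GP r × GP r × Fin (r + 1)) ⊕
  (GP r × GP r × GP r × GP r × GP r × GP r × Fin (r + 1)) ⊕
  (Option (GP r × GP r) × Option (GP r × GP r) × Option (GP r × GP r) × Option (GP r × GP r)) ⊕
  (Option (GP r × GP r) × Option (GP r × GP r) × Option (GP r × GP r)) ⊕
  (Finset (Fin (r + 1)) × Finset (Fin (r + 1)))

private theorem fin_sum {X Y : Type} (_ : Finite X) (_ : Finite Y) : Finite (X ⊕ Y) :=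
  inferInstance

private theorem GI_fin (r : ℕ) : Finite (GI r) :=
  fin_sum inferInstance (fin_sum inferInstance (fin_sum inferInstance (fin_sum inferInstance
    (fin_sum inferInstance (fin_sum inferInstance (fin_sum inferInstance inferInstance))))))

/-- the family of polynomials -/
private noncomputable def gF {r : ℕ} : GI r → MvPolynomial (Bool × Fin (r + 1)) ℤ
  | .inl (σ, τ, k) => A (Dl σ τ) (gA r) k
  | .inr (.inl (σ, τ)) => cf (Dl σ τ) (gA r) (gB r)
  | .inr (.inr (.inl (σ₀, τ₀, σ, τ))) => E3 (Dl σ₀ τ₀) (Dl σ τ) (gA r) (gB r)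
  | .inr (.inr (.inr (.inl (σ₀, τ₀, σ, τ, s)))) => E4 (Dl σ₀ τ₀) (Dl σ τ) s (gA r) (gB r)
  | .inr (.inr (.inr (.inr (.inl (σ₀, τ₀, σ₁, τ₁, σ, τ, s))))) =>
      E5 (Dl σ₀ τ₀) (Dl σ₁ τ₁) (Dl σ τ) s (gA r) (gB r)
  | .inr (.inr (.inr (.inr (.inr (.inl (F₁, F₂, F₃, F₄)))))) => E6 F₁ F₂ F₃ F₄ (gA r) (gB r)
  | .inr (.inr (.inr (.inr (.inr (.inr (.inl (F₁, F₃, F₄))))))) => E7 F₁ F₃ F₄ (gA r) (gB r)
  | .inr (.inr (.inr (.inr (.inr (.inr (.inr (S, T))))))) => ∑ j ∈ S, gA r j - ∑ j ∈ T, gA r j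

private theorem gen_pt {σ ι : Type*} [Finite ι] (F : ι → MvPolynomial σ ℤ) :
    ∃ z : σ → ℤ, ∃ L : ℕ, ∀ l : ℕ, l.Prime → L < l → ∀ i,
      ((MvPolynomial.eval z (F i) : ℤ) : ZMod l) = 0 → F i = 0 := by
  classical
  have := Fintype.ofFinite ι
  set P : MvPolynomial σ ℤ := ∏ i, if F i = 0 then 1 else F i with hP
  have hP0 : P ≠ 0 := by
    rw [hP, Finset.prod_ne_zero_iff]
    intro i _
    split_ifs with h
    · exact one_ne_zero
    · exact h
  obtain ⟨z, hz⟩ : ∃ z, MvPolynomial.eval z P ≠ 0 := by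
    by_contra hcon
    push Not at hcon
    exact hP0 (MvPolynomial.funext fun z => by rw [hcon z, map_zero])
  refine ⟨z, (MvPolynomial.eval z P).natAbs, fun l hl hL i hi => ?_⟩
  by_contra hF
  have h1 : MvPolynomial.eval z (F i) ∣ MvPolynomial.eval z P := by
    rw [hP, map_prod]
    have h2 := Finset.dvd_prod_of_mem
      (fun i => MvPolynomial.eval z (if F i = 0 then 1 else F i)) (Finset.mem_univ i)
    rwa [if_neg hF] at h2
  have h3 : (l : ℤ) ∣ MvPolynomial.eval z P :=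
    ((ZMod.intCast_zmod_eq_zero_iff_dvd _ l).1 hi).trans h1
  have h4 := Int.natAbs_dvd_natAbs.2 h3
  rw [Int.natAbs_natCast] at h4
  have h5 := Nat.le_of_dvd (Int.natAbs_pos.2 hz) h4
  omega

theorem exists_gptZ (r : ℕ) : ∃ (a₀ b₀ : Fin (r + 1) → ℤ) (L : ℕ), ∑ j, a₀ j = 0 ∧
    ∀ l : ℕ, l.Prime → L < l →
      Gpt l (fun j => (a₀ j : ZMod l)) (fun j => (b₀ j : ZMod l)) := by
  classical
  have := GI_fin r
  obtain ⟨z, L, hL⟩ := gen_pt (gF (r := r))
  refine ⟨fun j => MvPolynomial.eval z (gA r j), fun j => MvPolynomial.eval z (gB r j), L, ?_,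
    fun l hl hLl => ?_⟩
  · rw [← map_sum, gA_sum, map_zero]
  have key := hL l hl hLl
  let φ : MvPolynomial (Bool × Fin (r + 1)) ℤ →+* ZMod l :=
    (Int.castRingHom (ZMod l)).comp (MvPolynomial.eval z)
  have hφ : ∀ i, φ (gF i) = 0 → gF i = 0 := fun i hi => key i hi
  change Gpt l (fun j => φ (gA r j)) (fun j => φ (gB r j))
  constructor
  · rw [← map_sum, gA_sum, map_zero]
  · intro S T hS hT h
    have h1 : φ (gF (r := r) (.inr (.inr (.inr (.inr (.inr (.inr (.inr (S, T))))))))) = 0 := by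
      change φ (∑ j ∈ S, gA r j - ∑ j ∈ T, gA r j) = 0
      rw [map_sub, map_sum, map_sum, h, sub_self]
    have h2 : ∑ j ∈ S, gA r j - ∑ j ∈ T, gA r j = 0 := hφ _ h1
    ext k
    by_cases hk : k = 0
    · subst hk
      exact iff_of_false hS hT
    · have h3 := congrArg (MvPolynomial.eval fun p : Bool × Fin (r + 1) =>
        if p.2 = k then (1 : ℤ) else 0) h2
      have h4 : ∀ U : Finset (Fin (r + 1)), 0 ∉ U →
          MvPolynomial.eval (fun p : Bool × Fin (r + 1) => if p.2 = k then (1 : ℤ) else 0)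
            (∑ j ∈ U, gA r j) = if k ∈ U then 1 else 0 := by
        intro U hU
        rw [map_sum]
        have h5 : ∀ j ∈ U, MvPolynomial.eval
            (fun p : Bool × Fin (r + 1) => if p.2 = k then (1 : ℤ) else 0) (gA r j) =
              if j = k then 1 else 0 := by
          intro j hj
          have hj0 : j ≠ 0 := by
            rintro rfl
            exact hU hj
          unfold gA
          rw [if_neg hj0, MvPolynomial.eval_X]
        rw [Finset.sum_congr rfl h5, Finset.sum_ite_eq']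
      rw [map_sub, h4 S hS, h4 T hT, map_zero] at h3
      by_cases h5 : k ∈ S <;> by_cases h6 : k ∈ T
      · exact iff_of_true h5 h6
      · rw [if_pos h5, if_neg h6] at h3
        omega
      · rw [if_neg h5, if_pos h6] at h3
        omega
      · exact iff_of_false h5 h6
  · intro σ τ k h a' b' ha'
    rw [nt_A] at h
    have h1 := hφ (.inl (σ, τ, k)) h
    have h2 := nt_A (gS a' b') (Dl σ τ) (gA r) k
    rw [gS_A a' b' ha', show A (Dl σ τ) (gA r) k = 0 from h1, map_zero] at h2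
    exact h2
  · intro σ τ h a' b' ha'
    rw [nt_cf] at h
    have h1 := hφ (.inr (.inl (σ, τ))) h
    have h2 := nt_cf (gS a' b') (Dl σ τ) (gA r) (gB r)
    rw [gS_A a' b' ha', gS_B, show cf (Dl σ τ) (gA r) (gB r) = 0 from h1, map_zero] at h2
    exact h2
  · intro σ₀ τ₀ σ τ h a' b' ha'
    rw [nt_E3] at h
    have h1 := hφ (.inr (.inr (.inl (σ₀, τ₀, σ, τ)))) h
    have h2 := nt_E3 (gS a' b') (Dl σ₀ τ₀) (Dl σ τ) (gA r) (gB r)
    rw [gS_A a' b' ha', gS_B, show E3 (Dl σ₀ τ₀) (Dl σ τ) (gA r) (gB r) = 0 from h1,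
      map_zero] at h2
    exact h2
  · intro σ₀ τ₀ σ τ s h a' b' ha'
    rw [nt_E4] at h
    have h1 := hφ (.inr (.inr (.inr (.inl (σ₀, τ₀, σ, τ, s))))) h
    have h2 := nt_E4 (gS a' b') (Dl σ₀ τ₀) (Dl σ τ) s (gA r) (gB r)
    rw [gS_A a' b' ha', gS_B, show E4 (Dl σ₀ τ₀) (Dl σ τ) s (gA r) (gB r) = 0 from h1,
      map_zero] at h2
    exact h2
  · intro σ₀ τ₀ σ₁ τ₁ σ τ s h a' b' ha'
    rw [nt_E5] at h
    have h1 := hφ (.inr (.inr (.inr (.inr (.inl (σ₀, τ₀, σ₁, τ₁, σ, τ, s)))))) h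
    have h2 := nt_E5 (gS a' b') (Dl σ₀ τ₀) (Dl σ₁ τ₁) (Dl σ τ) s (gA r) (gB r)
    rw [gS_A a' b' ha', gS_B,
      show E5 (Dl σ₀ τ₀) (Dl σ₁ τ₁) (Dl σ τ) s (gA r) (gB r) = 0 from h1, map_zero] at h2
    exact h2
  · intro F₁ F₂ F₃ F₄ h a' b' ha'
    rw [nt_E6] at h
    have h1 := hφ (.inr (.inr (.inr (.inr (.inr (.inl (F₁, F₂, F₃, F₄))))))) h
    have h2 := nt_E6 (gS a' b') F₁ F₂ F₃ F₄ (gA r) (gB r)
    rw [gS_A a' b' ha', gS_B, show E6 F₁ F₂ F₃ F₄ (gA r) (gB r) = 0 from h1, map_zero] at h2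
    exact h2
  · intro F₁ F₃ F₄ h a' b' ha'
    rw [nt_E7] at h
    have h1 := hφ (.inr (.inr (.inr (.inr (.inr (.inr (.inl (F₁, F₃, F₄)))))))) h
    have h2 := nt_E7 (gS a' b') F₁ F₃ F₄ (gA r) (gB r)
    rw [gS_A a' b' ha', gS_B, show E7 F₁ F₃ F₄ (gA r) (gB r) = 0 from h1, map_zero] at h2
    exact h2

end Pool.Agent.P5q
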