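import Pool.Agent.Lib.P5q.Zer2
import Pool.Agent.Lib.P5q.CorU
import Pool.Agent.Lib.P5q.Desc

/-!
# Generic kernel vectors: no zero entry, no constant quotient of two entries
-/

open Finset

namespace Pool.Agent.P5q

open Pool.Agent.P5m Pool.Agent.P5m.ZerosAux

variable {r : ℕ} {K : Type*} [Field K]

section scale

variable {R : Type*} [CommRing R] (t : R)

theorem cf_smul (Q : Fin (r + 1) → Fin (r + 1) → ℤ) (a b : Fin (r + 1) → R) :
    cf Q a (fun j => t * b j) = t * cf Q a b := by
  unfold cf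
  rw [mul_sum]
  exact sum_congr rfl fun k _ => by ring

theorem bt_smul (b : Fin (r + 1) → R) : bt (fun j => t * b j) = t * bt b := by
  unfold bt
  rw [mul_sum]

theorem nu_smul (F : Option (Equiv.Perm (Fin (r + 1)) × Equiv.Perm (Fin (r + 1))))
    (a b : Fin (r + 1) → R) : nu F a (fun j => t * b j) = t * nu F a b := by
  cases F with
  | none => exact bt_smul t b
  | some p => exact cf_smul t (Dl p.1 p.2) a b

end scale

theorem gpt_smul {l : ℕ} [Fact l.Prime] {a b : Fin (r + 1) → ZMod l} (h : Gpt l a b)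
    {t : ZMod l} (ht : t ≠ 0) : Gpt l a (fun j => t * b j) := by
  constructor
  · exact h.sum
  · exact h.sub
  · exact h.e1
  · intro σ τ h1
    rw [cf_smul] at h1
    exact h.e2 σ τ ((mul_eq_zero.1 h1).resolve_left ht)
  · intro σ₀ τ₀ σ τ h1
    refine h.e3 σ₀ τ₀ σ τ ((mul_eq_zero.1 (?_ : t * _ = 0)).resolve_left ht)
    rw [← h1]
    unfold E3
    rw [cf_smul, cf_smul]
    ring
  · intro σ₀ τ₀ σ τ s h1
    refine h.e4 σ₀ τ₀ σ τ s ((mul_eq_zero.1 (?_ : t * _ = 0)).resolve_left ht)
    rw [← h1]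
    unfold E4
    rw [mul_sum]
    exact sum_congr rfl fun k _ => by ring
  · intro σ₀ τ₀ σ₁ τ₁ σ τ s h1
    refine h.e5 σ₀ τ₀ σ₁ τ₁ σ τ s ((mul_eq_zero.1 (?_ : t * _ = 0)).resolve_left ht)
    rw [← h1]
    unfold E5
    rw [mul_sum]
    exact sum_congr rfl fun k _ => by ring
  · intro F₁ F₂ F₃ F₄ h1
    refine h.e6 F₁ F₂ F₃ F₄ ((mul_eq_zero.1 (?_ : t * _ = 0)).resolve_left ht)
    rw [← h1]
    unfold E6
    rw [nu_smul, nu_smul, nu_smul, nu_smul]
    ring
  · intro F₁ F₃ F₄ h1
    refine h.e7 F₁ F₃ F₄ ((mul_eq_zero.1 (?_ : t * _ = 0)).resolve_left ht)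
    rw [← h1]
    unfold E7
    rw [nu_smul, nu_smul, nu_smul]
    ring

/-- The data: modulus, character, parameters. -/
structure Dt {l n : ℕ} [NeZero n] (h : l ∣ n) (α : Equiv.Perm (Fin (r + 1)) → K)
    (ψ : AddChar (ZMod n) (AlgebraicClosure K)) (a b : Fin (r + 1) → ZMod n) : Prop where
  prime : l.Prime
  lu : Lu h
  nz : (n : AlgebraicClosure K) ≠ 0
  prim : ψ.IsPrimitive
  supp : ∃ σ, α σ ≠ 0
  sum : ∑ j, a j = 0
  gd : Gd h α ψ a
  gpt : Gpt l (fun j => ZMod.castHom h (ZMod l) (a j)) (fun j => ZMod.castHom h (ZMod l) (b j))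

theorem dt_u {l n : ℕ} [NeZero n] {h : l ∣ n} {α : Equiv.Perm (Fin (r + 1)) → K}
    {ψ : AddChar (ZMod n) (AlgebraicClosure K)} {a b : Fin (r + 1) → ZMod n}
    (D : Dt h α ψ a b) (u : ZMod n → AlgebraicClosure K)
    (hu : ∀ β, IsZ α ψ a b β → ∑ i, u i * ψ (-((β + bt b) * i)) ≠ 0) :
    ∃ w : Fin (r + 1) → ZMod n → AlgebraicClosure K,
      ∀ y : ZMod n → AlgebraicClosure K, LK (ac α) a w y → ∑ i, y i * u i = 0 → y = 0 :=
  cor_u D.nz α ψ D.prim a b
    (fun z₁ z₂ z₃ z₄ => sidon2 D.prime h D.lu D.supp D.sum D.gd D.gpt z₁ z₂ z₃ z₄)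
    (fun z z' => total2 D.prime h D.lu D.supp D.sum D.gd D.gpt z z') u hu

theorem gd_strong [Infinite K] {l n : ℕ} [NeZero n] {h : l ∣ n}
    {α : Equiv.Perm (Fin (r + 1)) → K}
    {ψ : AddChar (ZMod n) (AlgebraicClosure K)} {a b : Fin (r + 1) → ZMod n}
    (D : Dt h α ψ a b) :
    Gn fun w : Fin (r + 1) → ZMod n → K => ∀ i, ∀ y, LK α a w y → y i = 0 → y = 0 := by
  classical
  refine Gn.all fun i => ?_
  have h1 : ∃ w : Fin (r + 1) → ZMod n → AlgebraicClosure K, ∀ y : ZMod n → AlgebraicClosure K,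
      LK (ac α) a w y → ∑ j, y j * algebraMap K (AlgebraicClosure K)
        ((Pi.single i 1 : ZMod n → K) j) = 0 → y = 0 := by
    refine dt_u D _ fun β _ => ?_
    rw [Finset.sum_eq_single i]
    · rw [Pi.single_eq_same, map_one, one_mul]
      exact psi_ne ψ _
    · intro j _ hj
      rw [Pi.single_eq_of_ne hj, map_zero, zero_mul]
    · intro hn
      exact absurd (mem_univ i) hn
  refine (desc α a _ h1).mono fun w hw y hy hyi => hw y hy ?_
  rw [Finset.sum_eq_single i]
  · rw [hyi, zero_mul]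
  · intro j _ hj
    rw [Pi.single_eq_of_ne hj, mul_zero]
  · intro hn
    exact absurd (mem_univ i) hn

theorem gd_nonconst [Infinite K] {l n : ℕ} [NeZero n] {h : l ∣ n}
    {α : Equiv.Perm (Fin (r + 1)) → K}
    {ψ : AddChar (ZMod n) (AlgebraicClosure K)} {a b : Fin (r + 1) → ZMod n}
    (D : Dt h α ψ a b) (hc : ¬ Cs α)
    (hl : Fintype.card (Equiv.Perm (Fin (r + 1)) × Equiv.Perm (Fin (r + 1))) + 1 < l)
    (i j : ZMod n) (hij : i ≠ j) (c c' : K) (hc0 : c ≠ 0) (hc0' : c' ≠ 0) :
    Gn fun w : Fin (r + 1) → ZMod n → K => ∀ y, LK α a w y → c * y i = c' * y j → y = 0 := by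
  classical
  have : Fact l.Prime := ⟨D.prime⟩
  set L := AlgebraicClosure K with hL
  set φ := ZMod.castHom h (ZMod l) with hφ
  set u : ZMod n → K := fun k => if k = i then c else if k = j then -c' else 0 with hu
  -- a bad scale for a pair
  let bad : ℕ → Equiv.Perm (Fin (r + 1)) × Equiv.Perm (Fin (r + 1)) → Prop := fun t p =>
    ∃ g : ZMod n, IsUnit (A (Dl p.1 p.2) a 0) ∧ IsUnit g ∧
      (g - (t : ZMod n) * bt b) * A (Dl p.1 p.2) a 0 + (t : ZMod n) * cf (Dl p.1 p.2) a b = 0 ∧
      algebraMap K L c * ψ (-(g * i)) = algebraMap K L c' * ψ (-(g * j))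
  have hinj : ∀ p, ∀ t t' : ℕ, 0 < t → t < l → 0 < t' → t' < l → bad t p → bad t' p → t = t' := by
    intro p t t' ht htl ht' htl' hb hb'
    obtain ⟨g, hA, hgu, hg, hgc⟩ := hb
    obtain ⟨g', -, -, hg', hgc'⟩ := hb'
    have e1 : (t' : ZMod n) * g = t * g' := by
      have h1 : ((t' : ZMod n) * g - t * g') * A (Dl p.1 p.2) a 0 = 0 := by
        linear_combination (t' : ZMod n) * hg - (t : ZMod n) * hg'
      exact sub_eq_zero.1 ((IsUnit.mul_left_eq_zero hA).1 h1)
    have hLc : algebraMap K L c ≠ 0 := (map_ne_zero _).2 hc0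
    have e2 : ψ (-(g * i) + g * j) = algebraMap K L c' / algebraMap K L c := by
      rw [AddChar.map_add_eq_mul, eq_div_iff hLc]
      have h2 : ψ (-(g * j)) * ψ (g * j) = 1 := by
        rw [← AddChar.map_add_eq_mul, neg_add_cancel, AddChar.map_zero_eq_one]
      linear_combination ψ (g * j) * hgc + algebraMap K L c' * h2
    have e3 : ψ (-(g' * i) + g' * j) = algebraMap K L c' / algebraMap K L c := by
      rw [AddChar.map_add_eq_mul, eq_div_iff hLc]
      have h2 : ψ (-(g' * j)) * ψ (g' * j) = 1 := by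
        rw [← AddChar.map_add_eq_mul, neg_add_cancel, AddChar.map_zero_eq_one]
      linear_combination ψ (g' * j) * hgc' + algebraMap K L c' * h2
    have e4 : ψ ((g - g') * (j - i)) = 1 := by
      have h3 : (-(g * i) + g * j) = (g - g') * (j - i) + (-(g' * i) + g' * j) := by ring
      rw [h3, AddChar.map_add_eq_mul, e3] at e2
      have h4 : algebraMap K L c' / algebraMap K L c ≠ 0 :=
        div_ne_zero ((map_ne_zero _).2 hc0') hLc
      exact mul_right_cancel₀ h4 (by rw [e2, one_mul])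
    have e5 : (g - g') * (j - i) = 0 := by
      by_contra hne
      exact D.prim.zmod_char_eq_one_iff n _ |>.1 e4 |> hne
    have htu : IsUnit (t : ZMod n) := by
      apply D.lu
      rw [map_natCast]
      intro h0
      exact absurd (Nat.le_of_dvd ht ((ZMod.natCast_eq_zero_iff t l).1 h0)) (by omega)
    by_contra hne
    have hdu : IsUnit ((t : ZMod n) - t') := by
      apply D.lu
      rw [map_sub, map_natCast, map_natCast]
      intro h0
      have h1 := (ZMod.natCast_eq_natCast_iff' t t' l).1 (sub_eq_zero.1 h0)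
      rw [Nat.mod_eq_of_lt htl, Nat.mod_eq_of_lt htl'] at h1
      exact hne h1
    have e6 : ((t : ZMod n) - t') * g * (j - i) = 0 := by
      linear_combination (t : ZMod n) * e5 - (j - i) * e1
    rw [mul_assoc] at e6
    have e7 := (IsUnit.mul_right_eq_zero hdu).1 e6
    have e8 := (IsUnit.mul_right_eq_zero hgu).1 e7
    exact hij (sub_eq_zero.1 e8).symm
  -- a good scale
  obtain ⟨t, ht0, htl, htg⟩ : ∃ t : ℕ, 0 < t ∧ t < l ∧ ∀ p, ¬ bad t p := by
    by_contra hcon
    push Not at hcon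
    choose p hp using hcon
    let f : Fin (l - 1) → Equiv.Perm (Fin (r + 1)) × Equiv.Perm (Fin (r + 1)) := fun k =>
      p (k + 1) (Nat.succ_pos _) (by omega)
    have hf : Function.Injective f := by
      intro k k' hkk
      have h1 := hp (k + 1) (Nat.succ_pos _) (by omega)
      have h2 := hp (k' + 1) (Nat.succ_pos _) (by omega)
      change bad _ (f k) at h1
      change bad _ (f k') at h2
      rw [hkk] at h1
      have h3 := hinj _ _ _ (Nat.succ_pos _) (by omega) (Nat.succ_pos _) (by omega) h1 h2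
      exact Fin.ext (by omega)
    have h1 := Fintype.card_le_of_injective f hf
    rw [Fintype.card_fin] at h1
    omega
  have htl0 : φ (t : ZMod n) ≠ 0 := by
    rw [map_natCast]
    intro h0
    exact absurd (Nat.le_of_dvd ht0 ((ZMod.natCast_eq_zero_iff t l).1 h0)) (by omega)
  -- the data with scaled b
  set b' : Fin (r + 1) → ZMod n := fun j => (t : ZMod n) * b j with hb'
  have D' : Dt h α ψ a b' := by
    refine ⟨D.prime, D.lu, D.nz, D.prim, D.supp, D.sum, D.gd, ?_⟩
    have h1 := gpt_smul D.gpt htl0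
    have h2 : (fun j => ZMod.castHom h (ZMod l) (b' j)) =
        fun j => φ (t : ZMod n) * ZMod.castHom h (ZMod l) (b j) := by
      funext j
      rw [hb', map_mul]
    rw [h2]
    exact h1
  have h1 : ∃ w : Fin (r + 1) → ZMod n → L, ∀ y : ZMod n → L,
      LK (ac α) a w y → ∑ k, y k * algebraMap K L (u k) = 0 → y = 0 := by
    refine dt_u D' _ fun β hβ => ?_
    have hsum : ∑ k, algebraMap K L (u k) * ψ (-((β + bt b') * k)) =
        algebraMap K L c * ψ (-((β + bt b') * i)) -
          algebraMap K L c' * ψ (-((β + bt b') * j)) := by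
      rw [← Finset.add_sum_erase univ _ (mem_univ i),
        ← Finset.add_sum_erase (univ.erase i) _ (mem_erase.2 ⟨hij.symm, mem_univ j⟩)]
      rw [Finset.sum_eq_zero]
      · simp only [hu, if_true, if_neg hij.symm, map_neg]
        ring
      · intro k hk
        rw [mem_erase, mem_erase] at hk
        simp only [hu, if_neg hk.1, if_neg hk.2.1, map_zero, zero_mul]
    rw [hsum]
    intro h0
    obtain ⟨F, hF⟩ := par_rep D'.prime α D'.supp _ _ D'.gpt _ (par_zero h D'.gd β hβ)
    have hnsp : ZMod.castHom h (ZMod l) β +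
        bt (fun j => ZMod.castHom h (ZMod l) (b' j)) ≠ 0 := fun h2 =>
      hc (sol_none D'.prime h D'.supp D'.sum D'.gd D'.gpt β hβ h2).2
    rcases F with _ | ⟨σ, τ⟩
    · apply hnsp
      have := hF.2.2
      simp only [de, nu, mul_one] at this
      exact this
    · have e1 := sol_some D'.prime h D'.supp D'.gd D'.gpt β hβ σ τ hF
      refine htg (σ, τ) ⟨β + bt b', ?_, ?_, ?_, sub_eq_zero.1 h0⟩
      · apply D.lu
        rw [← nt_A]
        exact hF.2.1
      · apply D.lu
        rw [map_add, ← nt_bt]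
        exact hnsp
      · rw [hb', bt_smul]
        rw [hb', cf_smul] at e1
        linear_combination e1
  refine (desc α a u h1).mono fun w hw y hy hyi => hw y hy ?_
  rw [← Finset.add_sum_erase univ _ (mem_univ i),
    ← Finset.add_sum_erase (univ.erase i) _ (mem_erase.2 ⟨hij.symm, mem_univ j⟩)]
  rw [Finset.sum_eq_zero]
  · simp only [hu, if_true, if_neg hij.symm]
    linear_combination hyi
  · intro k hk
    rw [mem_erase, mem_erase] at hk
    simp only [hu, if_neg hk.1, if_neg hk.2.1, mul_zero]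

end Pool.Agent.P5q
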