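import Pool.Agent.Lib.P5q.HSN
import Pool.Agent.Lib.P5m.AttOne
import Pool.Agent.Lib.P5m.Points

/-!
# The hypotheses on a block size, and the first consequences

`Hy α a b`: the parameters are generic and the generic left kernel vectors have no zero entries.
-/

open Finset Matrix

namespace Pool.Agent.P5q

open Pool.Agent.P5m

variable {r : ℕ} {K : Type*} [Field K]

/-- Genericity modulo `l` gives genericity modulo `n`. -/
theorem gpt_lift {l n : ℕ} (h : l ∣ n) {a b : Fin (r + 1) → ZMod n} (ha : ∑ j, a j = 0)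
    (hab : Gpt l (fun j => ZMod.castHom h (ZMod l) (a j))
      (fun j => ZMod.castHom h (ZMod l) (b j))) : Gpt n a b := by
  set φ := ZMod.castHom h (ZMod l) with hφ
  constructor
  · exact ha
  · intro S T hS hT he
    refine hab.sub S T hS hT ?_
    rw [← map_sum, ← map_sum, he]
  · intro σ τ k h1
    exact hab.e1 σ τ k (by rw [nt_A, h1, map_zero])
  · intro σ τ h1
    exact hab.e2 σ τ (by rw [nt_cf, h1, map_zero])
  · intro σ₀ τ₀ σ τ h1
    exact hab.e3 σ₀ τ₀ σ τ (by rw [nt_E3, h1, map_zero])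
  · intro σ₀ τ₀ σ τ s h1
    exact hab.e4 σ₀ τ₀ σ τ s (by rw [nt_E4, h1, map_zero])
  · intro σ₀ τ₀ σ₁ τ₁ σ τ s h1
    exact hab.e5 σ₀ τ₀ σ₁ τ₁ σ τ s (by rw [nt_E5, h1, map_zero])
  · intro F₁ F₂ F₃ F₄ h1
    exact hab.e6 F₁ F₂ F₃ F₄ (by rw [nt_E6, h1, map_zero])
  · intro F₁ F₃ F₄ h1
    exact hab.e7 F₁ F₃ F₄ (by rw [nt_E7, h1, map_zero])

/-- The hypotheses on a block size `n`. -/
structure Hy {n : ℕ} [NeZero n] (α : Equiv.Perm (Fin (r + 1)) → K) (a b : Fin (r + 1) → ZMod n) :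
    Prop where
  gpt : Gpt n a b
  hs : Gn fun w : Fin (r + 1) → ZMod n → K => ∀ i, ∀ y, LK α a w y → y i = 0 → y = 0

/-- The additional hypothesis when `α` is not a sum of commutators. -/
def Hn {n : ℕ} [NeZero n] (α : Equiv.Perm (Fin (r + 1)) → K) (a : Fin (r + 1) → ZMod n) : Prop :=
  ∀ i j : ZMod n, i ≠ j → ∀ c c' : K, c ≠ 0 → c' ≠ 0 →
    Gn fun w : Fin (r + 1) → ZMod n → K => ∀ y, LK α a w y → c * y i = c' * y j → y = 0

theorem hy_of_dt [Infinite K] {l n : ℕ} [NeZero n] {h : l ∣ n}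
    {α : Equiv.Perm (Fin (r + 1)) → K}
    {ψ : AddChar (ZMod n) (AlgebraicClosure K)} {a b : Fin (r + 1) → ZMod n}
    (D : Dt h α ψ a b) : Hy α a b :=
  ⟨gpt_lift h D.sum D.gpt, gd_strong D⟩

theorem hn_of_dt [Infinite K] {l n : ℕ} [NeZero n] {h : l ∣ n}
    {α : Equiv.Perm (Fin (r + 1)) → K}
    {ψ : AddChar (ZMod n) (AlgebraicClosure K)} {a b : Fin (r + 1) → ZMod n}
    (D : Dt h α ψ a b) (hc : ¬ Cs α)
    (hl : Fintype.card (Equiv.Perm (Fin (r + 1)) × Equiv.Perm (Fin (r + 1))) + 1 < l) :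
    Hn α a := fun i j hij c c' h0 h0' => gd_nonconst D hc hl i j hij c c' h0 h0'

theorem att_one2 [Infinite K] {n : ℕ} [NeZero n] (α : Equiv.Perm (Fin (r + 1)) → K)
    (hα : α 1 ≠ 0) (a b : Fin (r + 1) → ZMod n) (H : Hy α a b) :
    ∃ u : Fin n → K, (∃ i, u i ≠ 0) ∧ ∀ D : Fin n → K, ∑ i, u i * D i = 0 → Att α n D := by
  have g2 : Gn fun w : Fin (r + 1) → ZMod n → K => ∀ i, gvec α a w i ≠ 0 :=
    gvec_poly α hα a b H.gpt
  obtain ⟨w, hw1, hw2⟩ := (H.hs.and g2).exists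
  set e : ZMod n ≃ Fin n := (ZMod.finEquiv n).symm.toEquiv with he
  by_cases h : ∀ y', LK α a w y' → y' = 0
  · refine ⟨fun _ => 1, ⟨e 0, one_ne_zero⟩, fun D _ => ?_⟩
    obtain ⟨x, hx⟩ := solve_zero α a w h (fun i => D (e i))
    exact att_of_x α a H.gpt.sum w hw2 x e D hx
  · push Not at h
    obtain ⟨Y, hY, hY0⟩ := h
    have hYi : ∀ i, Y i ≠ 0 := fun i hi => hY0 (hw1 i Y hY hi)
    refine ⟨fun i => Y (e.symm i), ⟨e 0, hYi _⟩, fun D hD => ?_⟩
    obtain ⟨x, hx⟩ := solve_LK α a w Y hYi (fun y' hy' i j =>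
      PointsAux.LK_prop α a w (fun y hy i hi => hw1 i y hy hi) Y hY y' hy' i j)
      (fun i => D (e i)) (by
      rw [← hD, ← Equiv.sum_comp e]
      refine sum_congr rfl fun i _ => ?_
      show Y i * D (e i) = Y (e.symm (e i)) * D (e i)
      rw [Equiv.symm_apply_apply])
    exact att_of_x α a H.gpt.sum w hw2 x e D hx

theorem att_trace2 [Infinite K] {n : ℕ} [NeZero n] (α : Equiv.Perm (Fin (r + 1)) → K)
    (hα : α 1 ≠ 0) (a b : Fin (r + 1) → ZMod n) (H : Hy α a b)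
    (hT : ∀ A : Fin (r + 1) → Matrix (Fin n) (Fin n) K, (P5e96.mval α A).trace = 0)
    (D : Fin n → K) (hD : ∑ i, D i = 0) : Att α n D := by
  classical
  have g2 : Gn fun w : Fin (r + 1) → ZMod n → K => ∀ i, gvec α a w i ≠ 0 :=
    gvec_poly α hα a b H.gpt
  obtain ⟨w, hw1, hw2⟩ := (H.hs.and g2).exists
  set e : ZMod n ≃ Fin n := (ZMod.finEquiv n).symm.toEquiv with he
  set Ψ : Matrix (ZMod n) (ZMod n) K →ₐ[K] Matrix (Fin n) (Fin n) K :=
    (Matrix.reindexAlgEquiv K K e).toAlgHom with hΨ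
  have hΨapp : ∀ M : Matrix (ZMod n) (ZMod n) K, ∀ i j, Ψ M i j = M (e.symm i) (e.symm j) := by
    intro M i j
    rfl
  have htr : ∀ M : Matrix (ZMod n) (ZMod n) K, (Ψ M).trace = M.trace := by
    intro M
    simp only [Matrix.trace, Matrix.diag_apply, hΨapp]
    exact Equiv.sum_comp e.symm fun i => M i i
  have hone : LK α a w fun _ => 1 := by
    intro x
    have h3 := hT fun k => Ψ (ws (a k) (Function.update w 0 x k))
    rw [P5e96.mval_algHom α Ψ (fun k => ws (a k) (Function.update w 0 x k)), htr, mval_ws,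
      H.gpt.sum] at h3
    rw [Matrix.trace] at h3
    simpa [ws, Matrix.diag] using h3
  obtain ⟨x, hx⟩ := solve_LK α a w (fun _ => 1) (fun _ => one_ne_zero) (fun y' hy' i j =>
      PointsAux.LK_prop α a w (fun y hy i hi => hw1 i y hy hi) _ hone y' hy' i j)
      (fun i => D (e i)) (by
      rw [← hD, ← Equiv.sum_comp e]
      simp)
  exact att_of_x α a H.gpt.sum w hw2 x e D hx

end Pool.Agent.P5q
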