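import Pool.Agent.Lib.P5q.Blk2

/-!
# Good block sizes in characteristic zero and in large characteristic
-/

open Finset Matrix

namespace Pool.Agent.P5q

open Pool.Agent.P5m

universe u

variable {r : ℕ}

theorem large_rsn (P : Finset ℕ)
    (hP : ∀ l ∈ P, l.Prime ∧ Fintype.card (Equiv.Perm (Fin (r + 1))) < l)
    (a₀ b₀ : Fin (r + 1) → ℤ)
    (hG : ∀ l ∈ P, Gpt l (fun j => (a₀ j : ZMod l)) (fun j => (b₀ j : ZMod l)))
    (hcard : Fintype.card (Equiv.Perm (Fin (r + 1))) < P.card)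
    [hne : ∀ l : P, NeZero (l : ℕ)] (ρ : ∀ l : P, Rt r (l : ℕ)) :
    ∃ B : ℕ, ∀ (K : Type u) [Field K], (∀ n : ℕ, 0 < n → n ≤ B → (n : K) ≠ 0) →
      ∀ (α : Equiv.Perm (Fin (r + 1)) → K), α 1 ≠ 0 → ∀ c c' ζ : P → K,
        ¬ ∀ l : P, Rsn α (fun j => (a₀ j : ZMod l)) (fun j => (b₀ j : ZMod l)) (c l) (c' l) (ζ l)
          (ρ l) := by
  classical
  by_contra hcon
  push Not at hcon
  choose Kf inst hch α hα c c' ζ h using hcon
  obtain ⟨F, hF, hF0, ⟨π⟩⟩ := prod_hom Kf hch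
  set β : Equiv.Perm (Fin (r + 1)) → F := fun σ => π fun N => α N σ with hβ
  have hβ1 : β 1 ≠ 0 := map_ne π _ hα
  have h1 : (P.filter fun p => ¬ Good p β).card ≤
      Fintype.card (Equiv.Perm (Fin (r + 1))) := by
    refine count_bad β _ fun p hp => ?_
    rw [Finset.mem_filter] at hp
    exact ⟨(hP p hp.1).1, (hP p hp.1).2, hp.2⟩
  have h2 := Finset.card_filter_add_card_filter_not (s := P) (fun p => Good p β)
  have h3 : 0 < (P.filter fun p => Good p β).card := by omega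
  obtain ⟨l, hl⟩ := Finset.card_pos.1 h3
  rw [Finset.mem_filter] at hl
  haveI : NeZero l := hne ⟨l, hl.1⟩
  refine no_rsn (hP l hl.1).1 β ⟨1, hβ1⟩ hl.2 _ _ (hG l hl.1)
    (π fun N => c N ⟨l, hl.1⟩) (π fun N => c' N ⟨l, hl.1⟩) (π fun N => ζ N ⟨l, hl.1⟩)
    (ρ ⟨l, hl.1⟩) ?_
  exact rsn_map π (fun σ N => α N σ) _ _ _ _ _ (ρ ⟨l, hl.1⟩) fun N => h N ⟨l, hl.1⟩

theorem large (P : Finset ℕ)
    (hP : ∀ l ∈ P, l.Prime ∧ Fintype.card (Equiv.Perm (Fin (r + 1))) < l)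
    (a₀ b₀ : Fin (r + 1) → ℤ)
    (hG : ∀ l ∈ P, Gpt l (fun j => (a₀ j : ZMod l)) (fun j => (b₀ j : ZMod l)))
    (hcard : Fintype.card (Equiv.Perm (Fin (r + 1))) < P.card) :
    ∃ B : ℕ, ∀ (K : Type u) [Field K] [Infinite K],
      (∀ n : ℕ, 0 < n → n ≤ B → (n : K) ≠ 0) →
      ∀ (α : Equiv.Perm (Fin (r + 1)) → K), α 1 ≠ 0 → ∃ l ∈ P, ∃ _ : NeZero l,
        Bs α (fun j => (a₀ j : ZMod l)) (fun j => (b₀ j : ZMod l)) := by
  classical
  haveI hne : ∀ l : P, NeZero (l : ℕ) := fun l => ⟨(hP l l.2).1.ne_zero⟩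
  haveI : ∀ l : P, Fintype (Rt r (l : ℕ)) := fun l => inferInstance
  choose B hB using fun ρ => large_rsn.{u} P hP a₀ b₀ hG hcard ρ
  refine ⟨max (P.sup id) (univ.sup B), fun K _ _ hch α hα => ?_⟩
  by_contra hcon
  push Not at hcon
  have h1 : ∀ l : P, ∃ (c c' ζ : K) (ρ : Rt r (l : ℕ)),
      Rsn α (fun j => (a₀ j : ZMod l)) (fun j => (b₀ j : ZMod l)) c c' ζ ρ := by
    intro l
    refine exists_rsn (hP l l.2).1 (hch l (hP l l.2).1.pos ?_) α _ _ (hG l l.2)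
      (hcon l l.2 (hne l))
    exact le_trans (Finset.le_sup (f := id) l.2) (le_max_left _ _)
  choose c c' ζ ρ h using h1
  refine hB ρ K (fun n hn hnB => hch n hn (le_trans hnB ?_)) α hα c c' ζ h
  exact le_trans (Finset.le_sup (f := B) (mem_univ ρ)) (le_max_right _ _)

/-- Two good block sizes. -/
theorem large_two (P : Finset ℕ)
    (hP : ∀ l ∈ P, l.Prime ∧ Fintype.card (Equiv.Perm (Fin (r + 1))) < l)
    (a₀ b₀ : Fin (r + 1) → ℤ)
    (hG : ∀ l ∈ P, Gpt l (fun j => (a₀ j : ZMod l)) (fun j => (b₀ j : ZMod l)))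
    (hcard : Fintype.card (Equiv.Perm (Fin (r + 1))) + 1 < P.card) :
    ∃ B : ℕ, ∀ (K : Type u) [Field K] [Infinite K],
      (∀ n : ℕ, 0 < n → n ≤ B → (n : K) ≠ 0) →
      ∀ (α : Equiv.Perm (Fin (r + 1)) → K), α 1 ≠ 0 → ∃ l ∈ P, ∃ l' ∈ P, l' < l ∧
        (∃ _ : NeZero l, Bs α (fun j => (a₀ j : ZMod l)) (fun j => (b₀ j : ZMod l))) ∧
        ∃ _ : NeZero l', Bs α (fun j => (a₀ j : ZMod l')) (fun j => (b₀ j : ZMod l')) := by
  classical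
  have h1 : ∀ p : P, ∃ B : ℕ, ∀ (K : Type u) [Field K] [Infinite K],
      (∀ n : ℕ, 0 < n → n ≤ B → (n : K) ≠ 0) →
      ∀ (α : Equiv.Perm (Fin (r + 1)) → K), α 1 ≠ 0 → ∃ l ∈ P.erase p, ∃ _ : NeZero l,
        Bs α (fun j => (a₀ j : ZMod l)) (fun j => (b₀ j : ZMod l)) := by
    intro p
    refine large (P.erase p) (fun l hl => hP l (mem_of_mem_erase hl)) a₀ b₀
      (fun l hl => hG l (mem_of_mem_erase hl)) ?_
    rw [Finset.card_erase_of_mem p.2]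
    omega
  choose B hB using h1
  refine ⟨univ.sup B, fun K _ _ hch α hα => ?_⟩
  have hle : ∀ p : P, B p ≤ univ.sup B := fun p => Finset.le_sup (f := B) (mem_univ p)
  obtain ⟨p₀, hp₀⟩ : P.Nonempty := Finset.card_pos.1 (by omega)
  obtain ⟨l, hl, hl2⟩ := hB ⟨p₀, hp₀⟩ K (fun n hn hnB => hch n hn (le_trans hnB (hle _))) α hα
  have hlP := mem_of_mem_erase hl
  obtain ⟨l', hl', hl2'⟩ := hB ⟨l, hlP⟩ K (fun n hn hnB => hch n hn (le_trans hnB (hle _))) α hα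
  have hlP' := mem_of_mem_erase hl'
  rcases lt_or_gt_of_ne (ne_of_mem_erase hl') with h | h
  · exact ⟨l, hlP, l', hlP', h, hl2, hl2'⟩
  · exact ⟨l', hlP', l, hlP, h, hl2', hl2⟩

end Pool.Agent.P5q
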