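import Pool.Agent.Lib.P5m.Oper

/-!
# Scaling the weights of the coupling letter (any characteristic)
-/

open Finset

namespace Pool.Agent.P5q

open Pool.Agent.P5m

variable {r : ℕ} {K : Type*} [Field K] {l : ℕ}

/-- Multiply the weights of the letter `t` by `c`. -/
def scl (c : K) (v : Fin (r + 1) → ZMod l → K) (k : Fin (r + 1)) (i : ZMod l) : K :=
  if k = Fin.last r then c * v k i else v k i

theorem T21_scl (c : K) (α : Equiv.Perm (Fin (r + 1)) → K) (a : Fin (r + 1) → ZMod l)
    (w v : Fin (r + 1) → ZMod l → K) (hr : Fin.last r ≠ 0) (ξ : ZMod l → K) (i : ZMod l) :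
    T21 α a w (scl c v) ξ i = T0 α a w v ξ i + c * Tq α a w v ξ i := by
  unfold T21 T0 Tq PsiG
  rw [Finset.mul_sum, ← Finset.sum_add_distrib]
  refine Finset.sum_congr rfl fun σ _ => ?_
  have h : ∀ v' : Fin (r + 1) → ZMod l → K, ∏ k, W21 w v' ξ σ k (i + pre σ a k) =
      (if σ.symm (Fin.last r) < σ.symm 0 then v' (Fin.last r) else w (Fin.last r))
        (i + pre σ a (Fin.last r)) * ∏ k ∈ univ.erase (Fin.last r),
          W21 w v' ξ σ k (i + pre σ a k) := by
    intro v'
    rw [← Finset.mul_prod_erase univ _ (Finset.mem_univ (Fin.last r))]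
    congr 1
    simp only [W21, if_neg hr]
  have h2 : ∏ k ∈ univ.erase (Fin.last r), W21 w (scl c v) ξ σ k (i + pre σ a k) =
      ∏ k ∈ univ.erase (Fin.last r), W21 w v ξ σ k (i + pre σ a k) := by
    refine Finset.prod_congr rfl fun k hk => ?_
    have : scl c v k = v k := by
      funext j
      unfold scl
      rw [if_neg (Finset.ne_of_mem_erase hk)]
    simp only [W21, this]
  rw [h, h v, h2]
  by_cases ht : σ.symm (Fin.last r) < σ.symm 0
  · simp only [if_pos ht, scl, if_true]
    ring
  · simp only [if_neg ht]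
    ring

theorem G1_scl (c : K) (α : Equiv.Perm (Fin (r + 1)) → K) (a : Fin (r + 1) → ZMod l)
    (w v : Fin (r + 1) → ZMod l → K) : G1 α a w (scl c v) = G1 α a w v := by
  funext Y ξ j
  unfold G1
  refine Finset.sum_congr rfl fun σ _ => ?_
  by_cases h : σ.symm (Fin.last r) < σ.symm 0
  · rw [if_pos h, if_pos h]
    congr 1
    refine Finset.prod_congr rfl fun k hk => ?_
    have : scl c v k = v k := by
      funext j
      unfold scl
      rw [if_neg (Finset.ne_of_mem_erase hk)]
    simp only [W11, this]
  · rw [if_neg h, if_neg h]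

theorem G2_scl (c : K) (α : Equiv.Perm (Fin (r + 1)) → K) (a : Fin (r + 1) → ZMod l)
    (w v : Fin (r + 1) → ZMod l → K) : G2 α a w (scl c v) = G2 α a w v := by
  funext Y ξ j
  unfold G2
  refine Finset.sum_congr rfl fun σ _ => ?_
  by_cases h : σ.symm 0 < σ.symm (Fin.last r)
  · rw [if_pos h, if_pos h]
    congr 1
    refine Finset.prod_congr rfl fun k hk => ?_
    have : scl c v k = v k := by
      funext j
      unfold scl
      rw [if_neg (Finset.ne_of_mem_erase hk)]
    simp only [W22, this]
  · rw [if_neg h, if_neg h]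

theorem LK_scl [NeZero l] {c : K} (hc : c ≠ 0) (α : Equiv.Perm (Fin (r + 1)) → K)
    (a : Fin (r + 1) → ZMod l) (v : Fin (r + 1) → ZMod l → K) (hr : Fin.last r ≠ 0)
    (y : ZMod l → K) : LK α a (scl c v) y ↔ LK α a v y := by
  have h : ∀ (x : ZMod l → K) (i : ZMod l), Psi α a (Function.update (scl c v) 0 x) i =
      c * Psi α a (Function.update v 0 x) i := by
    intro x i
    unfold Psi
    rw [Finset.mul_sum]
    refine Finset.sum_congr rfl fun σ _ => ?_
    rw [← Finset.mul_prod_erase univ _ (Finset.mem_univ (Fin.last r)),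
      ← Finset.mul_prod_erase univ (fun k => Function.update v 0 x k (i + pre σ a k))
        (Finset.mem_univ (Fin.last r))]
    have h2 : ∏ k ∈ univ.erase (Fin.last r), Function.update (scl c v) 0 x k (i + pre σ a k) =
        ∏ k ∈ univ.erase (Fin.last r), Function.update v 0 x k (i + pre σ a k) := by
      refine Finset.prod_congr rfl fun k hk => ?_
      by_cases hk0 : k = 0
      · subst hk0
        rw [Function.update_self, Function.update_self]
      · rw [Function.update_of_ne hk0, Function.update_of_ne hk0]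
        unfold scl
        rw [if_neg (Finset.ne_of_mem_erase hk)]
    rw [h2, Function.update_of_ne hr, Function.update_of_ne hr]
    simp only [scl, if_true]
    ring
  unfold LK
  refine forall_congr' fun x => ?_
  have h3 : ∑ i, y i * Psi α a (Function.update (scl c v) 0 x) i =
      c * ∑ i, y i * Psi α a (Function.update v 0 x) i := by
    rw [Finset.mul_sum]
    refine Finset.sum_congr rfl fun i _ => ?_
    rw [h]
    ring
  rw [h3, mul_eq_zero]
  exact ⟨fun h => h.resolve_left hc, fun h => Or.inr h⟩

theorem gvec_scl (c : K) (α : Equiv.Perm (Fin (r + 1)) → K) (a : Fin (r + 1) → ZMod l)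
    (v : Fin (r + 1) → ZMod l → K) (hr : Fin.last r ≠ 0) (i : ZMod l) :
    gvec α a (scl c v) i = c * gvec α a v i := by
  unfold gvec
  rw [Finset.mul_sum]
  refine Finset.sum_congr rfl fun σ _ => ?_
  by_cases h : σ 0 = 0
  · rw [if_pos h, if_pos h]
    have ht : Fin.last r ∈ (univ.erase 0 : Finset (Fin (r + 1))) :=
      Finset.mem_erase.2 ⟨hr, Finset.mem_univ _⟩
    rw [← Finset.mul_prod_erase _ _ ht,
      ← Finset.mul_prod_erase _ (fun k => v k (i - a 0 + pre σ a k)) ht]
    have h2 : ∏ k ∈ (univ.erase 0 : Finset (Fin (r + 1))).erase (Fin.last r),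
        scl c v k (i - a 0 + pre σ a k) =
        ∏ k ∈ (univ.erase 0 : Finset (Fin (r + 1))).erase (Fin.last r),
          v k (i - a 0 + pre σ a k) := by
      refine Finset.prod_congr rfl fun k hk => ?_
      unfold scl
      rw [if_neg (Finset.ne_of_mem_erase hk)]
    rw [h2]
    simp only [scl, if_true]
    ring
  · rw [if_neg h, if_neg h, mul_zero]


end Pool.Agent.P5q
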