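import Pool.Agent.Lib.P5m.Zeros

/-!
# Zeros described by partners of words

Version of `P5m.Zeros` without characters: `Par α a c` says that every word of the support of `α`
has another word of the support with the same exponent at the parameter point `c`.
-/

open Finset

namespace Pool.Agent.P5q

open Pool.Agent.P5m Pool.Agent.P5m.ZerosAux

variable {r : ℕ} {K : Type*} [Field K]

/-- Every word of the support has a partner with the same exponent. -/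
def Par {l : ℕ} (α : Equiv.Perm (Fin (r + 1)) → K) (a c : Fin (r + 1) → ZMod l) : Prop :=
  ∀ σ, α σ ≠ 0 → ∃ τ, α τ ≠ 0 ∧ σ ≠ τ ∧ ex σ a c = ex τ a c

theorem par_rep {l : ℕ} (hl : l.Prime) (α : Equiv.Perm (Fin (r + 1)) → K)
    (hα : ∃ σ, α σ ≠ 0)
    (a b : Fin (r + 1) → ZMod l) (hab : Gpt l a b) (β : ZMod l) (hβ : Par α a (Function.update b 0 β)) :
    ∃ F : Option (Equiv.Perm (Fin (r + 1)) × Equiv.Perm (Fin (r + 1))), Rep α a b F β := by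
  haveI : Fact l.Prime := ⟨hl⟩
  obtain ⟨σ₀, hσ₀⟩ := hα
  obtain ⟨τ₀, hτ₀, hne₀, he₀⟩ := hβ σ₀ hσ₀
  obtain ⟨hz₀, hA₀⟩ := matched hab hne₀ he₀
  by_cases htp : Tp (Dl σ₀ τ₀)
  · refine ⟨none, ?_, ?_, ?_⟩
    · intro σ τ h
      exact absurd h (by simp)
    · change (1 : ZMod l) ≠ 0
      exact one_ne_zero
    · change β * 1 + bt b = 0
      have h1 : cf (Dl σ₀ τ₀) a b = bt b * A (Dl σ₀ τ₀) a 0 := by
        unfold cf bt
        rw [sum_mul]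
        exact sum_congr rfl fun k _ => by rw [tp_ring htp a hab.sum k]
      rw [h1, ← add_mul] at hz₀
      rcases mul_eq_zero.1 hz₀ with h2 | h2
      · rw [mul_one, add_comm]
        exact h2
      · exact absurd h2 hA₀
  · have hnt : Nt (Dl σ₀ τ₀) := by
      refine ⟨Dl_sm σ₀ τ₀, ?_, htp⟩
      by_contra hcon
      push Not at hcon
      apply hA₀
      unfold A
      exact sum_eq_zero fun j _ => by rw [hcon j]; simp
    refine ⟨some (σ₀, τ₀), ?_, hA₀, ?_⟩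
    · intro σ τ h
      have h' : (σ₀, τ₀) = (σ, τ) := Option.some.inj h
      have h1 : σ₀ = σ := congrArg Prod.fst h'
      have h2 : τ₀ = τ := congrArg Prod.snd h'
      subst h1
      subst h2
      refine ⟨hnt, Dl_sm σ₀ τ₀, Dl_ne hne₀, ?_⟩
      intro σ hσ
      obtain ⟨τ, hτ, hne, he⟩ := hβ σ hσ
      obtain ⟨hz, hA⟩ := matched hab hne he
      refine ⟨τ, hτ, ?_⟩
      have h3 : E3 (Dl σ₀ τ₀) (Dl σ τ) a b = 0 := by
        unfold E3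
        have e1 : cf (Dl σ τ) a b = - (β * A (Dl σ τ) a 0) := by
          exact eq_neg_of_add_eq_zero_left hz
        have e2 : cf (Dl σ₀ τ₀) a b = - (β * A (Dl σ₀ τ₀) a 0) := by
          exact eq_neg_of_add_eq_zero_left hz₀
        rw [e1, e2]
        ring
      exact zero_pair hnt (Dl_sm σ τ) (Dl_ne hne) (hab.e3 σ₀ τ₀ σ τ h3)
    · change β * A (Dl σ₀ τ₀) a 0 + cf (Dl σ₀ τ₀) a b = 0
      rw [add_comm]
      exact hz₀

theorem par_caseN {l : ℕ} (α : Equiv.Perm (Fin (r + 1)) → K)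
    (hα : ∃ σ, α σ ≠ 0)
    (a b : Fin (r + 1) → ZMod l) (hab : Gpt l a b) (z z' : ZMod l)
    (h : Rep α a b none z)
    (q : Equiv.Perm (Fin (r + 1)) × Equiv.Perm (Fin (r + 1))) (h' : Rep α a b (some q) z') :
    ∃ s : Fin (r + 1), s ≠ 0 ∧
      ¬ Par α a (Function.update (Function.update b 0 z) s (b s + (z' - z))) := by
  obtain ⟨σ₁, τ₁⟩ := q
  obtain ⟨hnt, hflip⟩ := h'.1 σ₁ τ₁ rfl
  obtain ⟨s, hs, hlam⟩ := nt_lam hnt
  refine ⟨s, hs, fun h0 => ?_⟩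
  have e1 : z * 1 + bt b = 0 := h.2.2
  have e2 : z' * A (Dl σ₁ τ₁) a 0 + cf (Dl σ₁ τ₁) a b = 0 := h'.2.2
  refine n1_flip α hα hflip hnt s hlam fun σ hσ => ?_
  obtain ⟨τ, hτ, hne, he⟩ := h0 σ hσ
  refine ⟨τ, hτ, hne, ?_⟩
  have h3 := ex_sub σ τ a (Function.update (Function.update b 0 z) s (b s + (z' - z)))
  rw [he, sub_self, sum_upd2 b z (z' - z) s hs] at h3
  refine n1_alg hnt (Dl_sm σ τ) (Dl_ne hne) s hs (hab.e4 σ₁ τ₁ σ τ s ?_)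
  have h4 : E4 (Dl σ₁ τ₁) (Dl σ τ) s a b =
      A (Dl σ₁ τ₁) a 0 * (cf (Dl σ τ) a b - bt b * A (Dl σ τ) a 0) -
        A (Dl σ τ) a s * (cf (Dl σ₁ τ₁) a b - bt b * A (Dl σ₁ τ₁) a 0) := by
    unfold E4 cf bt
    simp only [mul_sum, sum_mul, mul_sub, sum_sub_distrib]
    have t1 : ∀ x ∈ univ.erase (0 : Fin (r + 1)), b x * (A (Dl σ₁ τ₁) a 0 * A (Dl σ τ) a x) =
        A (Dl σ₁ τ₁) a 0 * (b x * A (Dl σ τ) a x) := fun x _ => by ring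
    have t2 : ∀ x ∈ univ.erase (0 : Fin (r + 1)), b x * (A (Dl σ₁ τ₁) a 0 * A (Dl σ τ) a 0) =
        A (Dl σ₁ τ₁) a 0 * (b x * A (Dl σ τ) a 0) := fun x _ => by ring
    have t3 : ∀ x ∈ univ.erase (0 : Fin (r + 1)), b x * (A (Dl σ τ) a s * A (Dl σ₁ τ₁) a x) =
        A (Dl σ τ) a s * (b x * A (Dl σ₁ τ₁) a x) := fun x _ => by ring
    have t4 : ∀ x ∈ univ.erase (0 : Fin (r + 1)), b x * (A (Dl σ τ) a s * A (Dl σ₁ τ₁) a 0) =
        A (Dl σ τ) a s * (b x * A (Dl σ₁ τ₁) a 0) := fun x _ => by ring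
    rw [sum_congr rfl t1, sum_congr rfl t2, sum_congr rfl t3, sum_congr rfl t4]
  rw [h4]
  have h5 : z * A (Dl σ τ) a 0 + cf (Dl σ τ) a b + (z' - z) * A (Dl σ τ) a s = 0 := h3.symm
  have hbt : bt b = - z := by linear_combination e1
  rw [hbt]
  linear_combination A (Dl σ₁ τ₁) a 0 * h5 - A (Dl σ τ) a s * e2

theorem par_caseS {l : ℕ} (α : Equiv.Perm (Fin (r + 1)) → K)
    (hα : ∃ σ, α σ ≠ 0)
    (a b : Fin (r + 1) → ZMod l) (hab : Gpt l a b) (z z' : ZMod l)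
    (σ₀ τ₀ σ₁ τ₁ : Equiv.Perm (Fin (r + 1)))
    (h : Rep α a b (some (σ₀, τ₀)) z) (h' : Rep α a b (some (σ₁, τ₁)) z')
    (hd : ∀ j k, Dl σ₁ τ₁ j k = 0 ∨ Dl σ₀ τ₀ j k = 0) (s : Fin (r + 1)) (hs : s ≠ 0)
    (hU : ∃ a : Fin (r + 1) → ℚ, ∑ j, a j = 0 ∧ A (Dl σ₁ τ₁) a s ≠ A (Dl σ₁ τ₁) a 0)
    (hV : ∃ a : Fin (r + 1) → ℚ, ∑ j, a j = 0 ∧ A (Dl σ₀ τ₀) a s ≠ 0) :
    ¬ Par α a (Function.update (Function.update b 0 z) s (b s + (z' - z))) := by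
  intro h0
  obtain ⟨hnt, hflip⟩ := h.1 σ₀ τ₀ rfl
  obtain ⟨hnt', hflip'⟩ := h'.1 σ₁ τ₁ rfl
  have e1 : z * A (Dl σ₀ τ₀) a 0 + cf (Dl σ₀ τ₀) a b = 0 := h.2.2
  have e2 : z' * A (Dl σ₁ τ₁) a 0 + cf (Dl σ₁ τ₁) a b = 0 := h'.2.2
  refine n2_flip α hα hflip' hflip hd s hU hV fun σ hσ => ?_
  obtain ⟨τ, hτ, hne, he⟩ := h0 σ hσ
  refine ⟨τ, hτ, hne, ?_⟩
  have h3 := ex_sub σ τ a (Function.update (Function.update b 0 z) s (b s + (z' - z)))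
  rw [he, sub_self, sum_upd2 b z (z' - z) s hs] at h3
  refine n2_alg hnt' hnt hd (Dl_sm σ τ) s hs (hab.e5 σ₁ τ₁ σ₀ τ₀ σ τ s ?_)
  have h4 : E5 (Dl σ₁ τ₁) (Dl σ₀ τ₀) (Dl σ τ) s a b =
      A (Dl σ₁ τ₁) a 0 * A (Dl σ₀ τ₀) a 0 * cf (Dl σ τ) a b -
        A (Dl σ τ) a s * A (Dl σ₀ τ₀) a 0 * cf (Dl σ₁ τ₁) a b -
        A (Dl σ₁ τ₁) a 0 * (A (Dl σ τ) a 0 - A (Dl σ τ) a s) * cf (Dl σ₀ τ₀) a b := by
    unfold E5 cf
    rw [mul_sum, mul_sum, mul_sum, ← sum_sub_distrib, ← sum_sub_distrib]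
    exact sum_congr rfl fun k _ => by ring
  rw [h4]
  have h5 : z * A (Dl σ τ) a 0 + cf (Dl σ τ) a b + (z' - z) * A (Dl σ τ) a s = 0 := h3.symm
  linear_combination A (Dl σ₁ τ₁) a 0 * A (Dl σ₀ τ₀) a 0 * h5 -
    A (Dl σ τ) a s * A (Dl σ₀ τ₀) a 0 * e2 -
    A (Dl σ₁ τ₁) a 0 * (A (Dl σ τ) a 0 - A (Dl σ τ) a s) * e1

theorem par_sidon {l : ℕ} (hl : l.Prime) (α : Equiv.Perm (Fin (r + 1)) → K)
    (hα : ∃ σ, α σ ≠ 0)
    (a b : Fin (r + 1) → ZMod l) (hab : Gpt l a b) (z₁ z₂ z₃ z₄ : ZMod l)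
    (h₁ : Par α a (Function.update b 0 z₁)) (h₂ : Par α a (Function.update b 0 z₂)) (h₃ : Par α a (Function.update b 0 z₃)) (h₄ : Par α a (Function.update b 0 z₄))
    (h : z₁ + z₂ = z₃ + z₄) : (z₁ = z₃ ∧ z₂ = z₄) ∨ (z₁ = z₄ ∧ z₂ = z₃) := by
  haveI : Fact l.Prime := ⟨hl⟩
  by_cases h13 : z₁ = z₃
  · left
    refine ⟨h13, ?_⟩
    rw [h13] at h
    exact add_left_cancel h
  by_cases h14 : z₁ = z₄
  · right
    refine ⟨h14, ?_⟩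
    rw [h14, add_comm z₃ z₄] at h
    exact add_left_cancel h
  exfalso
  have h24 : z₂ ≠ z₄ := by
    intro h24
    rw [h24] at h
    exact h13 (add_right_cancel h)
  have h23 : z₂ ≠ z₃ := by
    intro h23
    rw [h23, add_comm z₃ z₄] at h
    exact h14 (add_right_cancel h)
  obtain ⟨F₁, r₁⟩ := par_rep hl α hα a b hab z₁ h₁
  obtain ⟨F₂, r₂⟩ := par_rep hl α hα a b hab z₂ h₂
  obtain ⟨F₃, r₃⟩ := par_rep hl α hα a b hab z₃ h₃
  obtain ⟨F₄, r₄⟩ := par_rep hl α hα a b hab z₄ h₄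
  rcases F₁ with _ | q
  · rcases F₂ with _ | q
    · have h12 := ZerosAux.eq_of_none r₁ r₂
      rcases F₃ with _ | q
      · exact h13 (ZerosAux.eq_of_none r₁ r₃)
      · exact ZerosAux.core hα hab r₃ r₄ r₁ r₂ (Ne.symm h13) (Ne.symm h23) h.symm
    · exact ZerosAux.core hα hab r₂ r₁ r₃ r₄ h23 h24 (by rw [add_comm]; exact h)
  · exact ZerosAux.core hα hab r₁ r₂ r₃ r₄ h13 h14 h

theorem par_total {l : ℕ} (hl : l.Prime) (α : Equiv.Perm (Fin (r + 1)) → K)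
    (hα : ∃ σ, α σ ≠ 0)
    (a b : Fin (r + 1) → ZMod l) (hab : Gpt l a b) (z z' : ZMod l)
    (h : Par α a (Function.update b 0 z)) (h' : Par α a (Function.update b 0 z')) (hz : z ≠ z') :
    ∃ s : Fin (r + 1), s ≠ 0 ∧
      (¬ Par α a (Function.update (Function.update b 0 z) s (b s + (z' - z))) ∨
        ¬ Par α a (Function.update (Function.update b 0 z') s (b s + (z - z')))) := by
  haveI : Fact l.Prime := ⟨hl⟩
  obtain ⟨F, r₁⟩ := par_rep hl α hα a b hab z h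
  obtain ⟨F', r₂⟩ := par_rep hl α hα a b hab z' h'
  rcases F with _ | ⟨σ₀, τ₀⟩
  · rcases F' with _ | q
    · exact absurd (ZerosAux.eq_of_none r₁ r₂) hz
    · obtain ⟨s, hs, hE⟩ := par_caseN α hα a b hab z z' r₁ q r₂
      exact ⟨s, hs, Or.inl hE⟩
  · rcases F' with _ | ⟨σ₁, τ₁⟩
    · obtain ⟨s, hs, hE⟩ := par_caseN α hα a b hab z' z r₂ _ r₁
      exact ⟨s, hs, Or.inr hE⟩
    · have hdj := (ZerosAux.dj_of_ne hα r₁ r₂ hz σ₁ τ₁ rfl).2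
      obtain ⟨s, hs, hcase⟩ := semi (r₁.1 σ₀ τ₀ rfl).1 (r₂.1 σ₁ τ₁ rfl).1
      refine ⟨s, hs, ?_⟩
      rcases hcase with ⟨hU, hV⟩ | ⟨hU, hV⟩
      · right
        exact par_caseS α hα a b hab z' z σ₁ τ₁ σ₀ τ₀ r₂ r₁ hdj s hs hU hV
      · left
        exact par_caseS α hα a b hab z z' σ₀ τ₀ σ₁ τ₁ r₁ r₂
          (fun j k => (hdj j k).symm) s hs hU hV

end Pool.Agent.P5q
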