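import Pool.Agent.Lib.P5m.Pert

/-!
# The perturbation lemma with a functional
-/

open Polynomial

namespace Pool.Agent.P5q

open Pool.Agent.P5m

/-- The hypotheses are those of `pert`, and in addition the first order coefficients at
`(f 0, f l)` vanish. If `U (f 0) ≠ 0` then for all but finitely many `ε` every left kernel vector
`y` of `M(ε)` with `∑ y i * U i = 0` is zero. -/
theorem pert2 {ι : Type*} [Fintype ι] [DecidableEq ι] {L : Type*} [Field L]
    (M : Matrix ι ι L[X]) (h0 : ∀ i j, i ≠ j → (M i j).coeff 0 = 0) (n : ℕ) (f : ℕ → ι)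
    (hf : ∀ i, (M i i).coeff 0 = 0 ↔ ∃ k < n, f k = i)
    (hinj : ∀ i < n, ∀ j < n, f i = f j → i = j)
    (h1 : ∀ k, k + 1 < n → (M (f (k + 1)) (f k)).coeff 1 ≠ 0)
    (h2 : ∀ k l, k + 1 < n → l < n → l ≠ k → (M (f (k + 1)) (f l)).coeff 1 = 0)
    (h3 : ∀ l, l < n → (M (f 0) (f l)).coeff 1 = 0) (U : ι → L) (hU : 0 < n → U (f 0) ≠ 0) :
    {ε : L | ∃ y : ι → L, (∀ j, ∑ i, y i * (M i j).eval ε = 0) ∧ ∑ i, y i * U i = 0 ∧
      y ≠ 0}.Finite := by
  classical
  rcases Nat.eq_zero_or_pos n with rfl | hn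
  · refine (pert M h0 0 f hf hinj h1 h2).subset ?_
    rintro ε ⟨y, hy, -, hy0⟩
    exact ⟨y, hy, fun h => absurd h (lt_irrefl 0), hy0⟩
  · have hU0 := hU hn
    have hrow : ∀ j, (M (f 0) j).coeff 0 = 0 := by
      intro j
      by_cases hj : f 0 = j
      · rw [← hj]
        exact (hf (f 0)).2 ⟨0, hn, rfl⟩
      · exact h0 _ _ hj
    set M' : Matrix ι ι L[X] := fun i j =>
      if i = f 0 then M i j else M i j - C (U i / U (f 0)) * M (f 0) j with hM'
    have hne : ∀ i j, i ≠ f 0 → M' i j = M i j - C (U i / U (f 0)) * M (f 0) j := by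
      intro i j hi
      rw [hM']
      simp only [if_neg hi]
    have heq : ∀ j, M' (f 0) j = M (f 0) j := by
      intro j
      rw [hM']
      simp only [if_true]
    have hc0 : ∀ i j, (M' i j).coeff 0 = (M i j).coeff 0 := by
      intro i j
      by_cases hi : i = f 0
      · rw [hi, heq]
      · rw [hne i j hi, coeff_sub, coeff_C_mul, hrow j, mul_zero, sub_zero]
    have hc1 : ∀ k l, k + 1 < n → l < n → (M' (f (k + 1)) (f l)).coeff 1 =
        (M (f (k + 1)) (f l)).coeff 1 := by
      intro k l hk hl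
      have hi : f (k + 1) ≠ f 0 := fun h => absurd (hinj _ hk _ hn h) (by omega)
      rw [hne _ _ hi, coeff_sub, coeff_C_mul, h3 l hl, mul_zero, sub_zero]
    refine (pert M' (fun i j hij => by rw [hc0, h0 i j hij]) n f (fun i => by rw [hc0, hf i])
      hinj (fun k hk => by rw [hc1 k k hk (by omega)]; exact h1 k hk)
      (fun k l hk hl hlk => by rw [hc1 k l hk hl]; exact h2 k l hk hl hlk)).subset ?_
    rintro ε ⟨y, hy, hyU, hy0⟩
    have hsplit : ∀ g : ι → L, ∑ i, g i = g (f 0) + ∑ i ∈ Finset.univ.erase (f 0), g i :=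
      fun g => (Finset.add_sum_erase Finset.univ g (Finset.mem_univ (f 0))).symm
    have hyf : y (f 0) = - ∑ i ∈ Finset.univ.erase (f 0), y i * (U i / U (f 0)) := by
      rw [hsplit] at hyU
      have h4 : ∑ i ∈ Finset.univ.erase (f 0), y i * U i =
          U (f 0) * ∑ i ∈ Finset.univ.erase (f 0), y i * (U i / U (f 0)) := by
        rw [Finset.mul_sum]
        refine Finset.sum_congr rfl fun i _ => ?_
        field_simp
      rw [h4, mul_comm (y (f 0)), ← mul_add] at hyU
      exact eq_neg_of_add_eq_zero_left ((mul_eq_zero.1 hyU).resolve_left hU0)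
    refine ⟨fun i => if i = f 0 then 0 else y i, fun j => ?_, fun _ => by simp, ?_⟩
    · rw [hsplit]
      simp only [if_true, zero_mul, zero_add]
      have h5 := hy j
      rw [hsplit] at h5
      have h6 : ∑ i ∈ Finset.univ.erase (f 0), (if i = f 0 then 0 else y i) * (M' i j).eval ε =
          ∑ i ∈ Finset.univ.erase (f 0), y i * (M i j).eval ε +
            y (f 0) * (M (f 0) j).eval ε := by
        rw [hyf, neg_mul, Finset.sum_mul, ← sub_eq_add_neg, ← Finset.sum_sub_distrib]
        refine Finset.sum_congr rfl fun i hi => ?_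
        rw [if_neg (Finset.ne_of_mem_erase hi), hne i j (Finset.ne_of_mem_erase hi), eval_sub,
          eval_mul, eval_C]
        ring
      rw [h6, add_comm]
      exact h5
    · intro h
      apply hy0
      have h7 : ∀ i, i ≠ f 0 → y i = 0 := by
        intro i hi
        have := congrFun h i
        simpa [hi] using this
      funext i
      by_cases hi : i = f 0
      · rw [hi, hyf, Finset.sum_eq_zero, neg_zero]
        · rfl
        · intro k hk
          rw [h7 k (Finset.ne_of_mem_erase hk), zero_mul]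
      · exact h7 i hi

end Pool.Agent.P5q
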