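import Pool.Agent.Lib.P5q.Hyp
import Pool.Agent.Lib.P5q.Oper2

/-!
# Generic pairs of weights in the singular case (any infinite field)
-/

open Finset

namespace Pool.Agent.P5q

open Pool.Agent.P5m Pool.Agent.P5m.ScaleAux

variable {r : ℕ} {K : Type*} [Field K] {l : ℕ}

theorem scl_smul (c : K) (v : Fin (r + 1) → ZMod l → K) (τ : K) :
    scl c (τ • v) = τ • scl c v := by
  funext k i
  unfold scl
  simp only [Pi.smul_apply, smul_eq_mul]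
  split_ifs
  · ring
  · rfl

theorem bad_tau2 [NeZero l] {c : K} (hc : c ≠ 0) (α : Equiv.Perm (Fin (r + 1)) → K)
    (a : Fin (r + 1) → ZMod l) (ha : ∑ k, a k = 0) (hr : Fin.last r ≠ 0)
    (w v : Fin (r + 1) → ZMod l → K) (y : ZMod l → K)
    (hw : ∀ i, gvec α a w i ≠ 0) (hv : ∀ i, gvec α a v i ≠ 0) (hg : ∀ i, gtv α a w i ≠ 0)
    (hy : ∀ i, y i ≠ 0) :
    {τ : K | ¬ (Function.Injective (T21 α a w (τ • v)) ∧
      Function.Injective (T21 α a w (scl c (τ • v))) ∧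
      Function.Injective (T21 α a (τ • v) w) ∧
      Function.Injective (T21 α a (scl c (τ • v)) w) ∧
      Function.Injective (G2 α a w (τ • v) y))}.Finite := by
  have h1 := fin21 α a w v hw
  have h2 := fin21 α a w (scl c v) hw
  have h3 := fin12 α a w v hv
  have h4 := fin12 α a w (scl c v) (fun i => by
    rw [gvec_scl c α a v hr]
    exact mul_ne_zero hc (hv i))
  have h5 := finG2 α a ha hr w v y hg hy
  refine ((((h1.union h2).union h3).union h4).union h5).subset ?_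
  intro τ hτ
  rw [Set.mem_ofPred_eq] at hτ
  by_contra hcon
  simp only [Set.mem_union, not_or, Set.mem_ofPred_eq, not_not] at hcon
  obtain ⟨⟨⟨⟨g1, g2⟩, g3⟩, g4⟩, g5⟩ := hcon
  apply hτ
  rw [scl_smul]
  exact ⟨g1, g2, g3, g4, g5⟩

/-- A generic pair of weights. -/
structure Ptc [NeZero l] (c : K) (α : Equiv.Perm (Fin (r + 1)) → K) (a : Fin (r + 1) → ZMod l)
    (w v : Fin (r + 1) → ZMod l → K) (Y y : ZMod l → K) : Prop where
  yw : LK α a w Y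
  yv : LK α a v y
  nw : ∀ i, Y i ≠ 0
  nv : ∀ i, y i ≠ 0
  sw : ∀ y', LK α a w y' → ∀ i j, Y i * y' j = Y j * y' i
  sv : ∀ y', LK α a v y' → ∀ i j, y i * y' j = y j * y' i
  ne : ∀ i j, i ≠ j → Y j * y i ≠ Y i * y j
  i1 : Function.Injective (T21 α a w v)
  i2 : Function.Injective (T21 α a w (scl c v))
  i3 : Function.Injective (T21 α a v w)
  i4 : Function.Injective (T21 α a (scl c v) w)
  i5 : Function.Injective (G2 α a w v y)
  gw : ∀ i, gvec α a w i ≠ 0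
  gv : ∀ i, gvec α a v i ≠ 0
  hq : (∃ σ, α σ ≠ 0 ∧ σ.symm (Fin.last r) < σ.symm 0) → ∃ ξ i, Tq α a w v ξ i ≠ 0

open PointsAux

theorem points2 [Infinite K] [NeZero l] {c : K} (hc : c ≠ 0) (α : Equiv.Perm (Fin (r + 1)) → K)
    (hα : α 1 ≠ 0) (a b : Fin (r + 1) → ZMod l) (H : Hy α a b) (hN : Hn α a)
    (hr : Fin.last r ≠ 0) (hS : ∀ w : Fin (r + 1) → ZMod l → K, ∃ y, LK α a w y ∧ y ≠ 0) :
    ∃ w v Y y, Ptc c α a w v Y y := by
  classical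
  have hab := H.gpt
  have gA : Gn fun w : Fin (r + 1) → ZMod l → K =>
      ∀ y : ZMod l → K, LK α a w y → ∀ i, y i = 0 → y = 0 :=
    H.hs.mono fun w hw y hy i hi => hw i y hy hi
  have gG : Gn fun w : Fin (r + 1) → ZMod l → K => ∀ i, gvec α a w i ≠ 0 :=
    gn_of (gvec_poly α hα a b hab)
  have gT : Gn fun w : Fin (r + 1) → ZMod l → K => ∀ j, gtv α a w j ≠ 0 :=
    gtv_gn α hα a b hab hr
  -- the common part for `w`
  have hw : ∃ w : Fin (r + 1) → ZMod l → K,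
      ((∀ y : ZMod l → K, LK α a w y → ∀ i, y i = 0 → y = 0) ∧ (∀ i, gvec α a w i ≠ 0) ∧
        ∀ j, gtv α a w j ≠ 0) ∧
      ((∃ σ, α σ ≠ 0 ∧ σ.symm (Fin.last r) < σ.symm 0) →
        ∃ (v : Fin (r + 1) → ZMod l → K) (ξ : ZMod l → K) (i : ZMod l), Tq α a w v ξ i ≠ 0) := by
    by_cases h : ∃ σ, α σ ≠ 0 ∧ σ.symm (Fin.last r) < σ.symm 0
    · obtain ⟨σ, h1, h2⟩ := h
      obtain ⟨w₁, v₁, ξ, i, h3⟩ := Tq_pt α a b hab σ h1 h2
      obtain ⟨w, h4, h5⟩ := ((gA.and (gG.and gT)).and ((Tq_pl_w α a v₁ ξ i).gn h3)).exists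
      exact ⟨w, h4, fun _ => ⟨v₁, ξ, i, h5⟩⟩
    · obtain ⟨w, h4⟩ := (gA.and (gG.and gT)).exists
      exact ⟨w, h4, fun h' => absurd h' h⟩
  obtain ⟨w, ⟨wA, wG, wT⟩, wq⟩ := hw
  obtain ⟨Y, hY, hY0⟩ := hS w
  have nw : ∀ i, Y i ≠ 0 := fun i hi => hY0 (wA Y hY i hi)
  have gN : Gn fun v : Fin (r + 1) → ZMod l → K =>
      ∀ q : {q : ZMod l × ZMod l // q.1 ≠ q.2},
        ∀ y : ZMod l → K, LK α a v y → Y q.1.2 * y q.1.1 = Y q.1.1 * y q.1.2 → y = 0 :=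
    Gn.all fun q => hN q.1.1 q.1.2 q.2 (Y q.1.2) (Y q.1.1) (nw _) (nw _)
  have hv : ∃ v : Fin (r + 1) → ZMod l → K,
      ((∀ y : ZMod l → K, LK α a v y → ∀ i, y i = 0 → y = 0) ∧ (∀ i, gvec α a v i ≠ 0) ∧
        ∀ q : {q : ZMod l × ZMod l // q.1 ≠ q.2},
          ∀ y : ZMod l → K, LK α a v y → Y q.1.2 * y q.1.1 = Y q.1.1 * y q.1.2 → y = 0) ∧
      ((∃ σ, α σ ≠ 0 ∧ σ.symm (Fin.last r) < σ.symm 0) →
        ∃ (ξ : ZMod l → K) (i : ZMod l), Tq α a w v ξ i ≠ 0) := by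
    by_cases h : ∃ σ, α σ ≠ 0 ∧ σ.symm (Fin.last r) < σ.symm 0
    · obtain ⟨v₁, ξ, i, h3⟩ := wq h
      obtain ⟨v, h4, h5⟩ := ((gA.and (gG.and gN)).and ((Tq_pl_v α a w ξ i).gn h3)).exists
      exact ⟨v, h4, fun _ => ⟨ξ, i, h5⟩⟩
    · obtain ⟨v, h4⟩ := (gA.and (gG.and gN)).exists
      exact ⟨v, h4, fun h' => absurd h' h⟩
  obtain ⟨v, ⟨vA, vG, vN⟩, vq⟩ := hv
  obtain ⟨y, hy, hy0⟩ := hS v
  have nv : ∀ i, y i ≠ 0 := fun i hi => hy0 (vA y hy i hi)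
  have hb1 := bad_tau2 hc α a hab.sum hr w v y wG vG wT nv
  have hb2 : ∃ S : Set K, S.Finite ∧ ∀ τ : K, τ ∉ S → τ ≠ 0 ∧
      ((∃ σ, α σ ≠ 0 ∧ σ.symm (Fin.last r) < σ.symm 0) →
        ∃ (ξ : ZMod l → K) (i : ZMod l), Tq α a w (τ • v) ξ i ≠ 0) := by
    by_cases h : ∃ σ, α σ ≠ 0 ∧ σ.symm (Fin.last r) < σ.symm 0
    · obtain ⟨ξ, i, h3⟩ := vq h
      refine ⟨{0} ∪ {τ : K | Tq α a w (τ • v) ξ i = 0},
        (Set.finite_singleton 0).union (bad_Tq α a w v ξ i h3), fun τ hτ => ⟨?_, fun _ =>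
          ⟨ξ, i, ?_⟩⟩⟩
      · intro h4
        exact hτ (Or.inl h4)
      · intro h4
        exact hτ (Or.inr h4)
    · exact ⟨{0}, Set.finite_singleton 0, fun τ hτ => ⟨fun h4 => hτ h4, fun h' => absurd h' h⟩⟩
  obtain ⟨S, hSf, hSτ⟩ := hb2
  obtain ⟨τ, hτ⟩ := (hb1.union hSf).infinite_compl.nonempty
  have hτ1 : ¬ ¬ (Function.Injective (T21 α a w (τ • v)) ∧
      Function.Injective (T21 α a w (scl c (τ • v))) ∧
      Function.Injective (T21 α a (τ • v) w) ∧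
      Function.Injective (T21 α a (scl c (τ • v)) w) ∧
      Function.Injective (G2 α a w (τ • v) y)) := fun h => hτ (Or.inl h)
  obtain ⟨i1, i2, i3, i4, i5⟩ := not_not.1 hτ1
  obtain ⟨hτ0, hτq⟩ := hSτ τ (fun h => hτ (Or.inr h))
  refine ⟨w, τ • v, Y, y, ?_⟩
  refine
    { yw := hY
      yv := (LK_smul α a v τ hτ0 y).2 hy
      nw := nw
      nv := nv
      sw := fun y' hy' i j => LK_prop α a w wA Y hY y' hy' i j
      sv := fun y' hy' i j => LK_prop α a v vA y hy y' ((LK_smul α a v τ hτ0 y').1 hy') i j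
      ne := fun i j hij h => hy0 (vN ⟨(i, j), hij⟩ y hy h)
      i1 := i1
      i2 := i2
      i3 := i3
      i4 := i4
      i5 := i5
      gw := wG
      gv := fun i => ?_
      hq := hτq }
  rw [gvec_smul]
  exact mul_ne_zero (pow_ne_zero _ hτ0) (vG i)

end Pool.Agent.P5q
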