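import Mathlib

/-!
# The degree of a cyclotomic extension in characteristic `p`

GOAL: `deg_adjoin` : in characteristic `p`, if `ζ` is a primitive `n`-th root of unity and `p` does not divide
the multiplicative order of `p` modulo `n`, then `p` does not divide the degree of `K(ζ)` over `K`; and the
degree is at most `n`.

PROOF (complete).  Write `L = K(ζ) = IntermediateField.adjoin K {ζ}` inside `Ω = AlgebraicClosure K`,
`m = orderOf (p : ZMod n)`.
(0) `p` and `n` are coprime because `Ω` has characteristic `p` and a primitive `n`-th root of unity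
(`IsPrimitiveRoot.neZero'`-type lemmas, or: if `p ∣ n` then `(ζ ^ (n / p)) ^ p = 1`, so `ζ ^ (n / p) = 1` by
injectivity of Frobenius).  So `(p : ZMod n)` is a unit and `m > 0`.
(1) The degree is at most `n` (even `φ n`): `ζ` is a root of `X ^ n - 1`; use
`IntermediateField.adjoin.finrank` and `minpoly.min` / `Polynomial.natDegree_le_of_dvd`.
(2) `L / K` is a Galois extension: it is a cyclotomic extension
(`IsPrimitiveRoot.intermediateField_adjoin_isCyclotomicExtension` or a similar name,
`IsCyclotomicExtension.isGalois`), so `Nat.card (L ≃ₐ[K] L) = Module.finrank K L`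
(`IsGalois.card_aut_eq_finrank`).  Let `ζ' : L` be the generator (a primitive `n`-th root of unity in `L`).
`IsPrimitiveRoot.autToPow K hζ' : (L ≃ₐ[K] L) →* (ZMod n)ˣ` is injective
(`IsPrimitiveRoot.autToPow_injective`).
(3) CLAIM: for `g : L ≃ₐ[K] L` there is `i` with `g ζ' = ζ' ^ (p ^ i)`.  Consider
`Q = ∏ i ∈ range m, (X - C (ζ' ^ (p ^ i)))` in `L[X]`.  The Frobenius `x ↦ x ^ p` maps the `i`-th root to the
next one and the last to the first, since `p ^ m ≡ 1` modulo `n`; so `Q.map (frobenius L p) = Q`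
(reindex the product, `Finset.prod_range_succ'`...), i.e. every coefficient `x` of `Q` satisfies
`x ^ p = x`.  The `p` elements `(k : L)`, `k < p`, are distinct roots of `X ^ p - X`, so they are all its
roots (this is in Mathlib, e.g. `ZMod.pow_card`, `Polynomial.card_roots'`,
`FiniteField.X_pow_card_sub_X_natDegree_eq`, or `mem_bot_of_pow_eq`-type lemmas); hence every
coefficient of `Q` is a natural number in `L` and is fixed by `g`.  So `Q.map g = Q`, and
`0 = g (Q(ζ')) = Q(g ζ')`, so `g ζ'` is one of the `ζ' ^ (p ^ i)`.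
(4) So the image of `autToPow` lies in the subgroup generated by the unit `p`, of order `m`; by injectivity
`Module.finrank K L = Nat.card (L ≃ₐ[K] L)` divides `m` (Lagrange, `Subgroup.card_dvd_of_le` or
`Subgroup.card_dvd_of_injective`).  If `p` divided the degree it would divide `m`.
-/

open IntermediateField

namespace Pool.Agent.P5q

namespace ScEAux

/-- the conjugates of an element of finite order in characteristic `p` under any ring endomorphism
are its Frobenius powers -/
theorem frob_conj {L : Type*} [Field L] (p : ℕ) [Fact p.Prime] [CharP L p] (n : ℕ) (hn : 0 < n)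
    (μ : L) (hμ : μ ^ n = 1) (g : L →+* L) : ∃ i : ℕ, g μ = μ ^ (p ^ i) := by
  letI : Algebra (ZMod p) L := ZMod.algebra L p
  let g' : L →ₐ[ZMod p] L := { g with
    commutes' := fun r => by
      have h1 : (algebraMap (ZMod p) L) r = ((r.val : ℕ) : L) := by
        conv_lhs => rw [← ZMod.natCast_zmod_val r]
        rw [map_natCast]
      show g (algebraMap (ZMod p) L r) = algebraMap (ZMod p) L r
      rw [h1, map_natCast] }
  have hint : IsIntegral (ZMod p) μ := by
    refine ⟨Polynomial.X ^ n - 1, ?_, ?_⟩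
    · exact Polynomial.monic_X_pow_sub_C (1 : ZMod p) hn.ne'
    · simp [hμ]
  set E := IntermediateField.adjoin (ZMod p) {μ} with hE
  have : FiniteDimensional (ZMod p) E := IntermediateField.adjoin.finiteDimensional hint
  have : Finite E := Module.finite_of_finite (ZMod p)
  have hmem : μ ∈ E := IntermediateField.mem_adjoin_simple_self (ZMod p) μ
  have h1 := g'.restrictNormal_commutes E ⟨μ, hmem⟩
  obtain ⟨k, hk⟩ := (FiniteField.bijective_frobeniusAlgHom_pow (ZMod p) E).2 (g'.restrictNormal E)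
  refine ⟨k, ?_⟩
  rw [← hk] at h1
  simp only at h1
  rw [AlgHom.coe_pow, FiniteField.coe_frobeniusAlgHom, pow_iterate, ZMod.card] at h1
  have h2 : algebraMap E L ((⟨μ, hmem⟩ : E) ^ (p ^ (k : ℕ))) = μ ^ (p ^ (k : ℕ)) := by
    rw [map_pow]
    rfl
  rw [h2] at h1
  exact h1.symm

theorem pow_modEq {L : Type*} [Field L] {n : ℕ} (hn : 0 < n) {μ : L} (hμ : IsPrimitiveRoot μ n)
    {a b : ℕ} (h : μ ^ a = μ ^ b) : a ≡ b [MOD n] := by
  have h1 : ∀ c : ℕ, μ ^ (c % n) = μ ^ c := by
    intro c
    have h2 := pow_mod_orderOf μ c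
    rwa [← hμ.eq_orderOf] at h2
  exact hμ.pow_inj (Nat.mod_lt _ hn) (Nat.mod_lt _ hn) (by rw [h1, h1, h])

end ScEAux

open ScEAux in
theorem deg_adjoin {K : Type*} [Field K] (p : ℕ) [Fact p.Prime] [CharP K p] (n : ℕ) [NeZero n]
    (ζ : AlgebraicClosure K) (hζ : IsPrimitiveRoot ζ n) (h : ¬ p ∣ orderOf (p : ZMod n)) :
    FiniteDimensional K K⟮ζ⟯ ∧ ¬ p ∣ Module.finrank K K⟮ζ⟯ ∧ Module.finrank K K⟮ζ⟯ ≤ n := by
  have : IsCyclotomicExtension {n} K K⟮ζ⟯ :=
    hζ.intermediateField_adjoin_isCyclotomicExtension K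
  have : IsGalois K K⟮ζ⟯ := IsCyclotomicExtension.isGalois {n} K K⟮ζ⟯
  have hfd : FiniteDimensional K K⟮ζ⟯ :=
    IntermediateField.adjoin.finiteDimensional (Algebra.IsIntegral.isIntegral ζ)
  have hn : 0 < n := Nat.pos_of_ne_zero (NeZero.ne n)
  have : CharP K⟮ζ⟯ p := charP_of_injective_algebraMap (algebraMap K K⟮ζ⟯).injective p
  have : CharP (AlgebraicClosure K) p :=
    charP_of_injective_algebraMap (algebraMap K (AlgebraicClosure K)).injective p
  have hpn : Nat.Coprime p n := by
    rw [(Fact.out : p.Prime).coprime_iff_not_dvd]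
    intro hdvd
    have := hζ.neZero'
    exact (NeZero.ne ((n : ℕ) : AlgebraicClosure K)) ((CharP.cast_eq_zero_iff _ p n).2 hdvd)
  have hμ : IsPrimitiveRoot (AdjoinSimple.gen K ζ) n := by
    have h1 : IsPrimitiveRoot (algebraMap K⟮ζ⟯ (AlgebraicClosure K) (AdjoinSimple.gen K ζ)) n := by
      rw [AdjoinSimple.algebraMap_gen]
      exact hζ
    exact IsPrimitiveRoot.of_map_of_injective h1 (algebraMap K⟮ζ⟯ (AlgebraicClosure K)).injective
  have hinj := IsPrimitiveRoot.autToPow_injective K hμ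
  set u : (ZMod n)ˣ := ZMod.unitOfCoprime p hpn with hu
  have huo : orderOf u = orderOf (p : ZMod n) := by
    rw [← orderOf_units, hu, ZMod.coe_unitOfCoprime]
  have hrange : (hμ.autToPow K).range ≤ Subgroup.zpowers u := by
    rintro _ ⟨g, rfl⟩
    obtain ⟨i, hi⟩ := frob_conj p n hn (AdjoinSimple.gen K ζ) hμ.pow_eq_one
      ((g : K⟮ζ⟯ ≃ₐ[K] K⟮ζ⟯) : K⟮ζ⟯ →+* K⟮ζ⟯)
    rw [Subgroup.mem_zpowers_iff]
    refine ⟨i, ?_⟩
    apply Units.ext
    rw [zpow_natCast, Units.val_pow_eq_pow_val, hu, ZMod.coe_unitOfCoprime]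
    have h1 := hμ.autToPow_spec K g
    have h2 : (AdjoinSimple.gen K ζ) ^ (hμ.autToPow K g : ZMod n).val =
        (AdjoinSimple.gen K ζ) ^ (p ^ i) := h1.trans hi
    have h3 : (hμ.autToPow K g : ZMod n).val ≡ p ^ i [MOD n] := pow_modEq hn hμ h2
    have h4 := (ZMod.natCast_eq_natCast_iff _ _ _).2 h3
    rw [ZMod.natCast_zmod_val] at h4
    rw [h4]
    push_cast
    rfl
  have hcard : Module.finrank K K⟮ζ⟯ ∣ orderOf (p : ZMod n) := by
    have h1 : Nat.card (K⟮ζ⟯ ≃ₐ[K] K⟮ζ⟯) = Nat.card (hμ.autToPow K).range :=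
      Nat.card_congr (Equiv.ofInjective _ hinj)
    rw [← IsGalois.card_aut_eq_finrank, h1, ← huo, ← Nat.card_zpowers]
    exact Subgroup.card_dvd_of_le hrange
  refine ⟨hfd, fun hdvd => h (hdvd.trans hcard), ?_⟩
  have hm : orderOf (p : ZMod n) ≤ n := by
    rw [← huo]
    refine le_trans (orderOf_le_card_univ) ?_
    rw [ZMod.card_units_eq_totient]
    exact Nat.totient_le n
  have hm0 : 0 < orderOf (p : ZMod n) := by
    rw [← huo]
    exact orderOf_pos u
  exact (Nat.le_of_dvd hm0 hcard).trans hm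

end Pool.Agent.P5q
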