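import Mathlib

/-!
# Vanishing sums with roots of unity of order `l ^ s` in characteristic `p`

PROOF. Let `Ω` be algebraically closed of characteristic `p`, `k₀ = v_l (p ^ (l - 1) - 1) ≥ 1`
(Fermat; `l ≠ p`), `S = k₀ + w + 1`. Choose a primitive root `η` of order `l ^ S`
(`HasEnoughRootsOfUnity`, or `IsAlgClosed` and separability of `X ^ (l ^ S) - 1`), put
`ζ j = η ^ (l ^ (S - j))`, a primitive root of order `l ^ j`, `ζ (j + 1) ^ l = ζ j`, and let
`E j = IntermediateField.adjoin (ZMod p) {ζ j}` or `Subfield.closure {ζ j}` (a subfield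
of `Ω`), `E j ≤ E (j + 1)`.

(1) For `k₀ ≤ j < S` the root `ζ (j + 1)` is not in `E j`. Let `t = (l - 1) * l ^ (j - k₀)`. By
lifting the exponent (`Nat.emultiplicity_pow_sub_pow`, `padicValNat.pow_sub_pow`, `l` odd,
`l ∣ p ^ (l - 1) - 1`) `v_l (p ^ t - 1) = k₀ + (j - k₀) = j`. So the ring endomorphism
`x ↦ x ^ (p ^ t)` (`iterateFrobenius Ω p t`) fixes `ζ j` (its order `l ^ j` divides `p ^ t - 1`),
hence all elements of `E j`, but it does not fix `ζ (j + 1)` (`l ^ (j + 1)` does not divide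
`p ^ t - 1`).

(2) For `k₀ ≤ j < S` the powers `1, ζ, ..., ζ ^ (l - 1)` of `ζ = ζ (j + 1)` are linearly independent
over `E j`: the polynomial `X ^ l - ζ j` is irreducible over `E j` (`X_pow_sub_C_irreducible_of_prime`:
otherwise `ζ j = y ^ l` with `y ∈ E j`; as `j ≥ 1`, `y` has order exactly `l ^ (j + 1)`
(`y ^ (l ^ (j + 1)) = 1`, `y ^ (l ^ j) = ζ j ^ (l ^ (j - 1)) ≠ 1`), so
`ζ (j + 1)` is a power of `y` (`IsPrimitiveRoot.eq_pow_of_pow_eq_one`), in `E j`, against (1)); so it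
is the minimal polynomial of `ζ`, and no nonzero polynomial of degree `< l` over `E j` kills `ζ`.

(3) Let `d j` be the largest size of a set `B ⊆ W` such that the family `(α b)_{b ∈ B}` is linearly
independent over `E j`. Families independent over `E (j + 1)` are independent over `E j`, so
`d (j + 1) ≤ d j ≤ w`. So among `j = k₀, ..., k₀ + w` there is one with `d (j + 1) = d j`
(otherwise `d` would drop `w + 1` times). Take this `j`, `s = j + 1 ≤ S`, `s ≥ 1`, `ζ = ζ s`. Let `B` be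
independent over `E (j + 1)` of size `d (j + 1) = d j`. It is independent over `E j` and maximal, so
every `α τ` is a combination `α τ = ∑_{b ∈ B} c τ b * α b` with `c τ b ∈ E j`.

(4) Let `∑ σ, α σ * ζ ^ x σ = 0`. Then `∑_{b ∈ B} (∑ σ, ζ ^ x σ * c σ b) * α b = 0` with coefficients
in `E (j + 1)`, so `∑ σ, ζ ^ x σ * c σ b = 0` for every `b`. Write
`ζ ^ x σ = ζ ^ (x σ % l) * (ζ j) ^ (x σ / l)`. So `∑_{e < l} ζ ^ e * (∑_{σ : x σ % l = e} (ζ j) ^ (x σ / l) * c σ b) = 0`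
with inner sums in `E j`; by (2) every inner sum is zero. Multiply by `ζ ^ e * α b` and sum over `b`:
`∑_{σ : x σ % l = e} ζ ^ x σ * α σ = 0`. (For `e ≥ l` the sum is empty.)
-/

open Finset

namespace Pool.Agent.P5q

universe u

namespace TowAux

private lemma val_pow {p l : ℕ} (hp : p.Prime) (hl : l.Prime) (hl2 : 2 < l) (hpl : p ≠ l) :
    1 ≤ padicValNat l (p ^ (l - 1) - 1) ∧ ∀ i : ℕ,
    padicValNat l (p ^ ((l - 1) * l ^ i) - 1) = padicValNat l (p ^ (l - 1) - 1) + i := by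
  have := Fact.mk hl
  have hodd : Odd l := hl.odd_of_ne_two (by omega)
  have h1 : 1 < p ^ (l - 1) := Nat.one_lt_pow (by omega) hp.one_lt
  have hcop : Nat.Coprime p l := (Nat.coprime_primes hp hl).2 hpl
  have hmod := Nat.ModEq.pow_totient hcop
  rw [Nat.totient_prime hl] at hmod
  have hdvd : l ∣ p ^ (l - 1) - 1 := (Nat.modEq_iff_dvd' h1.le).1 hmod.symm
  have hnd : ¬ l ∣ p ^ (l - 1) := by
    intro h
    have := hl.dvd_of_dvd_pow h
    exact hpl ((Nat.prime_dvd_prime_iff_eq hl hp).1 this).symm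
  refine ⟨one_le_padicValNat_of_dvd (by omega) hdvd, fun i => ?_⟩
  have h2 := padicValNat.pow_sub_pow (p := l) hodd (y := 1) (x := p ^ (l - 1)) h1 hdvd hnd
    (n := l ^ i) (pow_ne_zero _ hl.ne_zero)
  rw [one_pow, ← pow_mul] at h2
  rw [h2, padicValNat.prime_pow]

private lemma not_mem {p l : ℕ} (hp : p.Prime) (hl : l.Prime) (hl2 : 2 < l) (hpl : p ≠ l)
    {Ω : Type u} [Field Ω] [CharP Ω p] {j : ℕ} (hj : padicValNat l (p ^ (l - 1) - 1) ≤ j)
    {ζ ζ' : Ω} (hζ : IsPrimitiveRoot ζ (l ^ j)) (hζ' : IsPrimitiveRoot ζ' (l ^ (j + 1))) :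
    ζ' ∉ Subfield.closure {ζ} := by
  have := Fact.mk hl
  have : ExpChar Ω p := ExpChar.prime hp
  obtain ⟨-, hv⟩ := val_pow hp hl hl2 hpl
  obtain ⟨t, ht⟩ : ∃ t, padicValNat l (p ^ t - 1) = j ∧ 1 < p ^ t := by
    refine ⟨(l - 1) * l ^ (j - padicValNat l (p ^ (l - 1) - 1)), ?_, ?_⟩
    · rw [hv]; omega
    · refine Nat.one_lt_pow ?_ hp.one_lt
      exact Nat.mul_ne_zero (by omega) (pow_ne_zero _ hl.ne_zero)
  intro hmem
  have hle : Subfield.closure {ζ} ≤ (iterateFrobenius Ω p t).eqLocusField (RingHom.id Ω) := by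
    rw [Subfield.closure_le]
    intro y hy
    rw [Set.mem_singleton_iff] at hy
    subst hy
    show iterateFrobenius Ω p t y = y
    rw [iterateFrobenius_def]
    have hd : l ^ j ∣ p ^ t - 1 := by
      rw [padicValNat_dvd_iff_le (by omega), ht.1]
    have h1 : y ^ (p ^ t - 1) = 1 := (hζ.pow_eq_one_iff_dvd _).2 hd
    calc y ^ p ^ t = y ^ (p ^ t - 1 + 1) := by congr 1; omega
      _ = y := by rw [pow_succ, h1, one_mul]
  have h2 : iterateFrobenius Ω p t ζ' = ζ' := hle hmem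
  rw [iterateFrobenius_def] at h2
  have hne : ζ' ≠ 0 := hζ'.ne_zero (pow_ne_zero _ hl.ne_zero)
  have h3 : ζ' ^ (p ^ t - 1) = 1 := by
    have h4 : ζ' ^ (p ^ t - 1) * ζ' = 1 * ζ' := by
      rw [← pow_succ, one_mul]
      calc ζ' ^ (p ^ t - 1 + 1) = ζ' ^ p ^ t := by congr 1; omega
        _ = ζ' := h2
    exact mul_right_cancel₀ hne h4
  have h5 := hζ'.dvd_of_pow_eq_one _ h3
  rw [padicValNat_dvd_iff_le (by omega), ht.1] at h5
  omega

private lemma indep_pow {p l : ℕ} (hp : p.Prime) (hl : l.Prime) (hl2 : 2 < l) (hpl : p ≠ l)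
    {Ω : Type u} [Field Ω] [CharP Ω p] {j : ℕ} (hj : padicValNat l (p ^ (l - 1) - 1) ≤ j)
    {ζ ζ' : Ω} (hζ : IsPrimitiveRoot ζ (l ^ j)) (hζ' : IsPrimitiveRoot ζ' (l ^ (j + 1)))
    (hζζ : ζ' ^ l = ζ) (c : ℕ → Ω) (hc : ∀ e, c e ∈ Subfield.closure {ζ})
    (h0 : ∑ e ∈ range l, ζ' ^ e * c e = 0) : ∀ e < l, c e = 0 := by
  have := Fact.mk hl
  have hj1 : 1 ≤ j := (val_pow hp hl hl2 hpl).1.trans hj
  have hnm := not_mem hp hl hl2 hpl hj hζ hζ'
  let K := Subfield.closure {ζ}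
  let a : K := ⟨ζ, Subfield.subset_closure (Set.mem_singleton ζ)⟩
  have hirr : Irreducible (Polynomial.X ^ l - Polynomial.C a : Polynomial K) := by
    refine X_pow_sub_C_irreducible_of_prime hl fun b hb => ?_
    have hb' : (b : Ω) ^ l = ζ := by
      have := congrArg (fun z : K => (z : Ω)) hb
      simpa using this
    have h1 : (b : Ω) ^ l ^ (j + 1) = 1 := by
      rw [pow_succ', pow_mul, hb']
      exact hζ.pow_eq_one
    have h2 : ¬ (b : Ω) ^ l ^ j = 1 := by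
      intro h
      obtain ⟨i, rfl⟩ : ∃ i, j = i + 1 := ⟨j - 1, by omega⟩
      rw [pow_succ', pow_mul, hb'] at h
      have := hζ.dvd_of_pow_eq_one _ h
      have h3 := (Nat.pow_dvd_pow_iff_le_right hl.one_lt).1 this
      omega
    have h3 : orderOf (b : Ω) = l ^ (j + 1) := orderOf_eq_prime_pow h2 h1
    have h4 : IsPrimitiveRoot (b : Ω) (l ^ (j + 1)) := h3 ▸ IsPrimitiveRoot.orderOf (b : Ω)
    have : NeZero (l ^ (j + 1)) := ⟨pow_ne_zero _ hl.ne_zero⟩
    obtain ⟨i, -, hi⟩ := h4.eq_pow_of_pow_eq_one hζ'.pow_eq_one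
    exact hnm (hi ▸ pow_mem b.2 i)
  have hmin : (Polynomial.X ^ l - Polynomial.C a : Polynomial K) = minpoly K ζ' := by
    refine minpoly.eq_of_irreducible_of_monic hirr ?_
      (Polynomial.monic_X_pow_sub_C a hl.ne_zero)
    simp only [map_sub, map_pow, Polynomial.aeval_X, Polynomial.aeval_C]
    rw [hζζ, sub_eq_zero]
    rfl
  let P : Polynomial K := ∑ e ∈ range l, Polynomial.C (⟨c e, hc e⟩ : K) * Polynomial.X ^ e
  have hP0 : Polynomial.aeval ζ' P = 0 := by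
    rw [map_sum, ← h0]
    refine sum_congr rfl fun e _ => ?_
    rw [map_mul, map_pow, Polynomial.aeval_X, Polynomial.aeval_C, mul_comm]
    rfl
  have hPdeg : P.degree < l := by
    refine lt_of_le_of_lt (Polynomial.degree_sum_le _ _) ?_
    rw [Finset.sup_lt_iff (by exact_mod_cast WithBot.bot_lt_coe l)]
    intro e he
    refine lt_of_le_of_lt (Polynomial.degree_C_mul_X_pow_le _ _) ?_
    exact_mod_cast mem_range.1 he
  have hPz : P = 0 := by
    by_contra hne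
    have h1 := minpoly.degree_le_of_ne_zero K ζ' hne hP0
    rw [← hmin, Polynomial.degree_X_pow_sub_C hl.pos] at h1
    exact absurd (lt_of_le_of_lt h1 hPdeg) (lt_irrefl _)
  intro e he
  have h1 : P.coeff e = 0 := by rw [hPz, Polynomial.coeff_zero]
  have h2 : P.coeff e = (⟨c e, hc e⟩ : K) := by
    simp only [P, Polynomial.finsetSum_coeff, Polynomial.coeff_C_mul_X_pow]
    rw [Finset.sum_ite_eq (range l) e, if_pos (mem_range.2 he)]
  rw [h2] at h1
  exact congrArg (fun z : K => (z : Ω)) h1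

/-- independence over a set of coefficients -/
private def Ind {Ω : Type u} [Field Ω] {W : Type} (E : Subfield Ω) (α : W → Ω) (B : Finset W) :
    Prop :=
  ∀ g : W → Ω, (∀ b, g b ∈ E) → ∑ b ∈ B, g b * α b = 0 → ∀ b ∈ B, g b = 0

private lemma Ind.mono {Ω : Type u} [Field Ω] {W : Type} {E E' : Subfield Ω} {α : W → Ω}
    {B : Finset W} (h : Ind E' α B) (hE : E ≤ E') : Ind E α B :=
  fun g hg h0 => h g (fun b => hE (hg b)) h0

private lemma pigeon (d : ℕ → ℕ) (k w : ℕ) (hd : ∀ j, d j ≤ w)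
    (hanti : ∀ j, k ≤ j → j ≤ k + w → d (j + 1) ≤ d j) :
    ∃ j, k ≤ j ∧ j ≤ k + w ∧ d (j + 1) = d j := by
  by_contra hcon
  push Not at hcon
  have key : ∀ i, i ≤ w + 1 → d (k + i) + i ≤ d k := by
    intro i
    induction i with
    | zero => intro _; simp
    | succ i ih =>
      intro hi
      have h1 := ih (by omega)
      have h2 := hanti (k + i) (by omega) (by omega)
      have h3 := hcon (k + i) (by omega) (by omega)
      have e : k + (i + 1) = k + i + 1 := by omega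
      rw [e]
      omega
  have := key (w + 1) le_rfl
  have := hd k
  omega

private lemma span_of_max {Ω : Type u} [Field Ω] {W : Type} [Fintype W] [DecidableEq W]
    {E : Subfield Ω} {α : W → Ω} {B : Finset W} (hB : Ind E α B)
    (hmax : ∀ B' : Finset W, Ind E α B' → B'.card ≤ B.card) (τ : W) :
    ∃ c : W → Ω, (∀ b, c b ∈ E) ∧ α τ = ∑ b ∈ B, c b * α b := by
  by_cases hτ : τ ∈ B
  · refine ⟨fun b => if b = τ then 1 else 0, fun b => ?_, ?_⟩
    · show (if b = τ then (1 : Ω) else 0) ∈ E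
      split_ifs
      · exact one_mem E
      · exact zero_mem E
    · simp only [ite_mul, one_mul, zero_mul]
      rw [Finset.sum_ite_eq' B τ, if_pos hτ]
  · have hnot : ¬ Ind E α (insert τ B) := by
      intro h
      have := hmax _ h
      rw [card_insert_of_notMem hτ] at this
      omega
    unfold Ind at hnot
    push Not at hnot
    obtain ⟨g, hg, hg0, b0, hb0, hb0'⟩ := hnot
    rw [sum_insert hτ] at hg0
    have hgτ : g τ ≠ 0 := by
      intro h
      rw [h, zero_mul, zero_add] at hg0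
      have := hB g hg hg0
      rcases mem_insert.1 hb0 with h1 | h1
      · rw [h1] at hb0'; exact hb0' h
      · exact hb0' (this b0 h1)
    refine ⟨fun b => -(g b / g τ), fun b => neg_mem (div_mem (hg b) (hg τ)), ?_⟩
    have h1 : g τ * α τ = -∑ b ∈ B, g b * α b := eq_neg_of_add_eq_zero_left hg0
    have h2 : ∑ b ∈ B, -(g b / g τ) * α b = (g τ)⁻¹ * (-∑ b ∈ B, g b * α b) := by
      rw [← sum_neg_distrib, mul_sum]
      exact sum_congr rfl fun b _ => by field_simp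
    show α τ = ∑ b ∈ B, -(g b / g τ) * α b
    rw [h2, ← h1, inv_mul_cancel_left₀ hgτ]

end TowAux

open TowAux

theorem tower_sub (p l w : ℕ) (hp : p.Prime) (hl : l.Prime) (hl2 : 2 < l) (hpl : p ≠ l) :
    ∃ S : ℕ, ∀ (Ω : Type u) [Field Ω] [CharP Ω p] [IsAlgClosed Ω] (W : Type) [Fintype W],
      Fintype.card W ≤ w → ∀ α : W → Ω, ∃ (s : ℕ) (ζ : Ω), 1 ≤ s ∧ s ≤ S ∧
        IsPrimitiveRoot ζ (l ^ s) ∧ ∀ (S : Finset W) (x : W → ℕ), ∑ σ ∈ S, α σ * ζ ^ x σ = 0 →
          ∀ e, ∑ σ ∈ S with x σ % l = e, α σ * ζ ^ x σ = 0 := by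
  classical
  have := Fact.mk hl
  have := Fact.mk hp
  obtain ⟨k0, hk0⟩ : ∃ k0, padicValNat l (p ^ (l - 1) - 1) = k0 := ⟨_, rfl⟩
  refine ⟨k0 + w + 1, ?_⟩
  intro Ω _ _ _ W _ hW α
  have : NeZero (l : Ω) := ⟨by
    intro h
    have := (CharP.cast_eq_zero_iff Ω p l).1 h
    exact hpl ((Nat.prime_dvd_prime_iff_eq hp hl).1 this)⟩
  obtain ⟨η, hη⟩ : ∃ η : Ω, IsPrimitiveRoot η (l ^ (k0 + w + 1)) :=
    HasEnoughRootsOfUnity.exists_primitiveRoot Ω (l ^ (k0 + w + 1))
  let ζ : ℕ → Ω := fun j => η ^ (l ^ (k0 + w + 1 - j))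
  have hζ : ∀ j ≤ k0 + w + 1, IsPrimitiveRoot (ζ j) (l ^ j) := by
    intro j hj
    refine hη.pow (pow_pos hl.pos _) ?_
    rw [← pow_add]; congr 1; omega
  have hζs : ∀ j, j < k0 + w + 1 → ζ (j + 1) ^ l = ζ j := by
    intro j hj
    show (η ^ (l ^ (k0 + w + 1 - (j + 1)))) ^ l = η ^ (l ^ (k0 + w + 1 - j))
    rw [← pow_mul, ← pow_succ]
    congr 2; omega
  let E : ℕ → Subfield Ω := fun j => Subfield.closure {ζ j}
  have hE : ∀ j, j < k0 + w + 1 → E j ≤ E (j + 1) := by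
    intro j hj
    show Subfield.closure {ζ j} ≤ _
    rw [Subfield.closure_le]
    intro y hy
    rw [Set.mem_singleton_iff] at hy
    rw [hy, ← hζs j hj]
    exact pow_mem (Subfield.subset_closure (Set.mem_singleton _)) l
  let F : ℕ → Finset (Finset W) := fun j => univ.filter (fun B => Ind (E j) α B)
  have hFne : ∀ j, (F j).Nonempty := by
    intro j
    refine ⟨∅, ?_⟩
    rw [mem_filter]
    refine ⟨mem_univ _, ?_⟩
    intro g _ _ b hb
    exact absurd hb (notMem_empty b)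
  let d : ℕ → ℕ := fun j => (F j).sup card
  have hd : ∀ j, d j ≤ w := by
    intro j
    refine Finset.sup_le fun B _ => ?_
    exact (card_le_univ B).trans hW
  have hanti : ∀ j, k0 ≤ j → j ≤ k0 + w → d (j + 1) ≤ d j := by
    intro j _ hj
    refine Finset.sup_mono ?_
    intro B hB
    rw [mem_filter] at hB ⊢
    exact ⟨mem_univ _, hB.2.mono (hE j (by omega))⟩
  obtain ⟨j, hj1, hj2, hj3⟩ := pigeon d k0 w hd hanti
  obtain ⟨B, hBF, hBd⟩ := Finset.exists_mem_eq_sup (F (j + 1)) (hFne _) card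
  have hB1 : Ind (E (j + 1)) α B := (mem_filter.1 hBF).2
  have hB0 : Ind (E j) α B := hB1.mono (hE j (by omega))
  have hmax : ∀ B' : Finset W, Ind (E j) α B' → B'.card ≤ B.card := by
    intro B' hB'
    have h1 : B'.card ≤ d j := Finset.le_sup (f := card) (mem_filter.2 ⟨mem_univ _, hB'⟩)
    have h2 : d (j + 1) = B.card := hBd
    omega
  choose c hc hcα using fun τ => span_of_max hB0 hmax τ
  have hp1 := hζ j (by omega)
  have hp2 := hζ (j + 1) (by omega)
  have hp3 := hζs j (by omega)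
  refine ⟨j + 1, ζ (j + 1), by omega, by omega, hp2, ?_⟩
  intro Sσ x hx e
  have hsplit : ∀ m : ℕ, ζ (j + 1) ^ m = ζ (j + 1) ^ (m % l) * ζ j ^ (m / l) := by
    intro m
    calc ζ (j + 1) ^ m = ζ (j + 1) ^ (m % l + l * (m / l)) := by rw [Nat.mod_add_div]
      _ = ζ (j + 1) ^ (m % l) * (ζ (j + 1) ^ l) ^ (m / l) := by rw [pow_add, pow_mul]
      _ = _ := by rw [hp3]
  -- step 4
  have h4 : ∀ b ∈ B, ∑ σ ∈ Sσ, ζ (j + 1) ^ x σ * c σ b = 0 := by
    refine hB1 (fun b => ∑ σ ∈ Sσ, ζ (j + 1) ^ x σ * c σ b) (fun b => ?_) ?_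
    · refine sum_mem fun σ _ => mul_mem (pow_mem (Subfield.subset_closure
        (Set.mem_singleton _)) _) (hE j (by omega) (hc σ b))
    · rw [← hx]
      simp only [sum_mul]
      rw [sum_comm]
      refine sum_congr rfl fun σ _ => ?_
      rw [hcα σ, sum_mul]
      exact sum_congr rfl fun b _ => by ring
  have h5 : ∀ b ∈ B, ∀ e < l, ∑ σ ∈ Sσ with x σ % l = e, ζ j ^ (x σ / l) * c σ b = 0 := by
    intro b hb
    refine indep_pow hp hl hl2 hpl (hk0 ▸ hj1) hp1 hp2 hp3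
      (fun e => ∑ σ ∈ Sσ with x σ % l = e, ζ j ^ (x σ / l) * c σ b) (fun e => ?_) ?_
    · refine sum_mem fun σ _ => mul_mem (pow_mem (Subfield.subset_closure
        (Set.mem_singleton _)) _) (hc σ b)
    · rw [← h4 b hb, ← sum_fiberwise_of_maps_to (s := Sσ) (t := range l)
        (g := fun σ => x σ % l) (fun σ _ => mem_range.2 (Nat.mod_lt _ hl.pos))]
      refine sum_congr rfl fun e' _ => ?_
      rw [mul_sum]
      refine sum_congr rfl fun σ hσ => ?_
      rw [hsplit (x σ), (mem_filter.1 hσ).2, mul_assoc]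
  by_cases he : e < l
  · have h6 : ∑ σ ∈ Sσ with x σ % l = e, α σ * ζ (j + 1) ^ x σ
        = ∑ b ∈ B, (α b * ζ (j + 1) ^ e) * ∑ σ ∈ Sσ with x σ % l = e, ζ j ^ (x σ / l) * c σ b := by
      simp only [mul_sum]
      rw [sum_comm]
      refine sum_congr rfl fun σ hσ => ?_
      rw [hsplit (x σ), (mem_filter.1 hσ).2]
      conv_lhs => rw [hcα σ]
      rw [sum_mul]
      exact sum_congr rfl fun b _ => by ring
    rw [h6]
    refine sum_eq_zero fun b hb => ?_
    rw [h5 b hb e he, mul_zero]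
  · refine sum_eq_zero fun σ hσ => ?_
    have := (mem_filter.1 hσ).2
    have := Nat.mod_lt (x σ) hl.pos
    omega

theorem tower (p l w : ℕ) (hp : p.Prime) (hl : l.Prime) (hl2 : 2 < l) (hpl : p ≠ l) :
    ∃ S : ℕ, ∀ (Ω : Type u) [Field Ω] [CharP Ω p] [IsAlgClosed Ω] (W : Type) [Fintype W],
      Fintype.card W ≤ w → ∀ α : W → Ω, ∃ (s : ℕ) (ζ : Ω), 1 ≤ s ∧ s ≤ S ∧
        IsPrimitiveRoot ζ (l ^ s) ∧ ∀ x : W → ℕ, ∑ σ, α σ * ζ ^ x σ = 0 →
          ∀ e, ∑ σ with x σ % l = e, α σ * ζ ^ x σ = 0 := by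
  obtain ⟨S, hS⟩ := tower_sub.{u} p l w hp hl hl2 hpl
  refine ⟨S, fun Ω _ _ _ W _ hW α => ?_⟩
  obtain ⟨s, ζ, h1, h2, h3, h4⟩ := hS Ω W hW α
  exact ⟨s, ζ, h1, h2, h3, fun x => h4 univ x⟩

end Pool.Agent.P5q
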