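import Pool.Agent.Lib.P5q.Blk2
import Pool.Agent.Lib.P5q.Tow

/-!
# The words with a given letter before the letter `0`

If all character sums over the words in which a letter stands before the letter `0` vanish at the special
frequency, then `α = 0`.
-/

open Finset Matrix

namespace Pool.Agent.P5q

open Pool.Agent.P5m Pool.Agent.P5m.NonConstAux Pool.Agent.P5m.ZerosAux

variable {r : ℕ} {K : Type*} [Field K]

/-- The letter at the position `t` of `σ` stands before the letter `0` in the word read from the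
position `s` on. -/
theorem rt_lt (σ : Equiv.Perm (Fin (r + 1))) (hσ : σ 0 = 0) (s k : Fin (r + 1)) :
    (rt σ s).symm k < (rt σ s).symm 0 ↔ 0 < s ∧ s ≤ σ.symm k := by
  have h0 : σ.symm 0 = 0 := by rw [Equiv.symm_apply_eq, hσ]
  rw [rt_symm, rt_symm, h0]
  generalize σ.symm k = t
  have ht := t.2
  have hs := s.2
  rcases Nat.eq_zero_or_pos (s : ℕ) with hs0 | hs0
  · have : s = 0 := Fin.ext hs0
    subst this
    simp
  · have e2 : ((0 - s : Fin (r + 1)) : ℕ) = r + 1 - s := by
      rw [Fin.coe_sub_iff_lt.2 (show (0 : Fin (r + 1)) < s from hs0)]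
      simp
    have e1 : ((t - s : Fin (r + 1)) : ℕ) = if t < s then (t : ℕ) + (r + 1) - s else (t : ℕ) - s := by
      split_ifs with h
      · rw [Fin.coe_sub_iff_lt.2 h]
        omega
      · rw [Fin.coe_sub_iff_le.2 (not_lt.1 h)]
    rw [Fin.lt_def, e1, e2]
    constructor
    · intro h
      refine ⟨hs0, ?_⟩
      by_contra hcon
      rw [not_le] at hcon
      rw [if_pos hcon] at h
      omega
    · rintro ⟨-, h⟩
      rw [if_neg (not_lt.2 h)]
      rw [Fin.le_def] at h
      omega

/-- Initial sums vanish, so all terms vanish. -/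
theorem terms_zero {M : Type*} [AddCommGroup M] (f : Fin (r + 1) → M)
    (h : ∀ t : Fin (r + 1), ∑ s with 0 < s ∧ s ≤ t, f s = 0) (s : Fin (r + 1)) (hs : 0 < s) :
    f s = 0 := by
  obtain ⟨n, hn⟩ := s
  have hn0 : 0 < n := hs
  have h1 := h ⟨n, hn⟩
  have h2 := h ⟨n - 1, by omega⟩
  have h3 : (univ.filter fun s : Fin (r + 1) => 0 < s ∧ s ≤ ⟨n, hn⟩) =
      insert ⟨n, hn⟩ (univ.filter fun s : Fin (r + 1) => 0 < s ∧ s ≤ ⟨n - 1, by omega⟩) := by
    ext u
    simp only [mem_filter, mem_univ, true_and, mem_insert, Fin.ext_iff, Fin.le_def, Fin.lt_def,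
      Fin.val_zero]
    omega
  rw [h3, sum_insert (by
    simp only [mem_filter, mem_univ, true_and, Fin.le_def, Fin.lt_def, Fin.val_zero]
    omega), h2, add_zero] at h1
  exact h1

theorem fk_ne {l n : ℕ} [NeZero n] (hl : l.Prime) (h : l ∣ n)
    {α : Equiv.Perm (Fin (r + 1)) → K} (hα : ∃ σ, α σ ≠ 0)
    {ψ : AddChar (ZMod n) (AlgebraicClosure K)} {a b : Fin (r + 1) → ZMod n} (ha : ∑ j, a j = 0)
    (hab : Gpt l (fun j => ZMod.castHom h (ZMod l) (a j)) (fun j => ZMod.castHom h (ZMod l) (b j)))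
    (hS : ∀ S : Finset (Equiv.Perm (Fin (r + 1))), ∑ σ ∈ S, ac α σ * ψ (ex σ a (bs b)) = 0 →
      ∀ e : ZMod l, ∑ σ ∈ S with ZMod.castHom h (ZMod l) (ex σ a (bs b)) = e,
        ac α σ * ψ (ex σ a (bs b)) = 0)
    (hE : ∑ σ, ac α σ * ψ (ex σ a (bs b)) = 0) :
    ∃ k, k ≠ 0 ∧ ∑ σ : Equiv.Perm (Fin (r + 1)) with σ.symm k < σ.symm 0,
      ac α σ * ψ (ex σ a (bs b)) ≠ 0 := by
  classical
  have : Fact l.Prime := ⟨hl⟩
  by_contra hcon
  push Not at hcon
  set φ := ZMod.castHom h (ZMod l) with hφ
  set c := bs b with hc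
  have hcs : ∑ k, c k = 0 := bs_sum b
  have hcb : ∀ j, φ (c j) = bs (fun j => φ (b j)) j := by
    intro j
    rw [hc, bs, bs]
    by_cases hj : j = 0
    · subst hj
      rw [Function.update_self, Function.update_self, map_neg, ← nt_bt]
    · rw [Function.update_of_ne hj, Function.update_of_ne hj]
  have hcl : ∀ σ υ : Equiv.Perm (Fin (r + 1)), φ (ex υ a c) = φ (ex σ a c) ↔
      ∃ s : Fin (r + 1), υ = rt σ s := by
    intro σ υ
    constructor
    · intro he
      apply cyc_of_form
      have h1 := ex_sub σ υ (fun j => φ (a j)) (Function.update (fun j => φ (b j)) 0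
        (φ (c 0)))
      have hupd : Function.update (fun j => φ (b j)) 0 (φ (c 0)) = fun j => φ (c j) := by
        funext j
        by_cases hj : j = 0
        · subst hj
          rw [Function.update_self]
        · rw [Function.update_of_ne hj, hc, bs, Function.update_of_ne hj]
      rw [ZerosAux.sum_upd, hupd, nt_ex, nt_ex, he, sub_self] at h1
      have h0 : φ (c 0) = -bt (fun j => φ (b j)) := by
        rw [hcb, bs, Function.update_self]
      rw [h0] at h1
      have h3 := hab.e7 (some (σ, υ)) none none (by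
        unfold E7 nu de cf
        linear_combination -2 * h1)
      intro a' b' ha'
      have h4 := h3 a' b' ha'
      simp only [E7, nu, de] at h4
      linarith
    · rintro ⟨s, rfl⟩
      show φ (ex (σ * (finRotate (r + 1)) ^ (s : ℕ)) a c) = _
      rw [ex_rot σ s a c ha hcs]
  -- class sums over the words with `k` before `0`
  have hcls : ∀ (S : Finset (Equiv.Perm (Fin (r + 1)))),
      ∑ σ ∈ S, ac α σ * ψ (ex σ a c) = 0 → ∀ σ : Equiv.Perm (Fin (r + 1)),
        ∑ s : Fin (r + 1) with rt σ s ∈ S, ac α (rt σ s) = 0 := by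
    intro S hS0 σ
    have h1 := hS S hS0 (φ (ex σ a c))
    have h2 : (S.filter fun υ => φ (ex υ a c) = φ (ex σ a c)) =
        (univ.filter fun s : Fin (r + 1) => rt σ s ∈ S).image (rt σ) := by
      ext υ
      simp only [mem_filter, mem_univ, true_and, mem_image]
      rw [hcl]
      constructor
      · rintro ⟨h3, s, rfl⟩
        exact ⟨s, h3, rfl⟩
      · rintro ⟨s, h3, rfl⟩
        exact ⟨h3, s, rfl⟩
    have hinj : Function.Injective (rt σ) := rot_injective σ
    rw [h2, sum_image fun s _ t _ hst => hinj hst] at h1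
    have h3 : ∀ s : Fin (r + 1), ac α (rt σ s) * ψ (ex (rt σ s) a c) =
        ac α (rt σ s) * ψ (ex σ a c) := by
      intro s
      show _ * ψ (ex (σ * (finRotate (r + 1)) ^ (s : ℕ)) a c) = _
      rw [ex_rot σ s a c ha hcs]
    rw [sum_congr rfl fun s _ => h3 s, ← sum_mul] at h1
    exact (mul_eq_zero.1 h1).resolve_right (psi_ne ψ _)
  -- every class with representative beginning with `0` vanishes
  have hrep : ∀ σ : Equiv.Perm (Fin (r + 1)), σ 0 = 0 → ∀ s, ac α (rt σ s) = 0 := by
    intro σ hσ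
    have h1 : ∀ t : Fin (r + 1), ∑ s with 0 < s ∧ s ≤ t, ac α (rt σ s) = 0 := by
      intro t
      by_cases ht : t = 0
      · rw [filter_eq_empty_iff.2, sum_empty]
        intro s _ hs
        rw [ht] at hs
        exact absurd hs.2 (not_le.2 hs.1)
      · have h2 := hcls _ (hcon (σ t) (fun h0 => ht (σ.injective (by rw [h0, hσ])))) σ
        rw [← h2]
        refine sum_congr ?_ fun _ _ => rfl
        ext s
        simp only [mem_filter, mem_univ, true_and]
        rw [rt_lt σ hσ, Equiv.symm_apply_apply]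
    have h2 := terms_zero (fun s => ac α (rt σ s)) h1
    intro s
    rcases Nat.eq_zero_or_pos (s : ℕ) with hs0 | hs0
    · have h3 := hcls univ hE σ
      rw [filter_true_of_mem (fun _ _ => mem_univ _), sum_eq_single 0] at h3
      · have : s = 0 := Fin.ext hs0
        rw [this]
        exact h3
      · intro s' _ hs'
        exact h2 s' (Fin.pos_iff_ne_zero.2 hs')
      · intro hn
        exact absurd (mem_univ _) hn
    · exact h2 s hs0
  obtain ⟨σ, hσ⟩ := hα
  have h1 := hrep (rt σ (σ.symm 0)) (by rw [rt_zero, Equiv.apply_symm_apply]) (-(σ.symm 0))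
  have h2 : rt (rt σ (σ.symm 0)) (-(σ.symm 0)) = σ := by
    ext u
    rw [rt_apply, rt_apply, neg_add_cancel_right]
  rw [h2] at h1
  exact hσ ((map_eq_zero _).1 h1)

end Pool.Agent.P5q
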