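import Mathlib

/-!
# Primes modulo which `p` has order prime to `p`

GOAL: `exists_prime_ord` : for every prime `p` and every bound `L` there is a prime `l > L` such that `p` does not
divide the order of `p` modulo `l ^ s`, for all `s ≥ 1`.

PROOF (complete).  Choose a prime `f > max L p` (`Nat.exists_infinite_primes`).  Let
`N = ∑ i ∈ range f, p ^ i`, so `N * (p - 1) = p ^ f - 1` and `N > 1` (`f ≥ 2`).  Let `l = N.minFac`, a prime
dividing `N`.
(1) `l ≠ p`, because `N ≡ 1` modulo `p`.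
(2) `p ^ f ≡ 1` modulo `l`, so `orderOf (p : ZMod l) ∣ f` and it is `1` or `f`.
(3) It is not `1`: otherwise `p ≡ 1` modulo `l`, so `N ≡ f` modulo `l` and `l ∣ f`, so `l = f`, and `f ∣ p - 1`,
so `f ≤ p - 1 < p < f` (note `p - 1 ≥ 1`), a contradiction.
(4) So `orderOf (p : ZMod l) = f`, and `f ∣ l - 1` (`ZMod.orderOf_dvd_card_sub_one` or Fermat), so
`l > f > L`.
(5) Let `s ≥ 1`.  Then `p ^ (f * l ^ (s - 1)) ≡ 1` modulo `l ^ s` : induction on `s` from
`x ≡ 1 (mod l ^ s) → x ^ l ≡ 1 (mod l ^ (s + 1))` (in Mathlib: `Int.ModEq.pow_prime`... or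
`dvd_sub_pow_of_dvd_sub`, e.g. `dvd_sub_pow_of_dvd_sub : p ∣ a - b → p ^ (k + 1) ∣ a ^ p ^ k - b ^ p ^ k`).  So
`orderOf (p : ZMod (l ^ s))` divides `f * l ^ (s - 1)`.  If `p` divided it then `p ∣ f` or `p ∣ l`, so
`p = f` or `p = l`, contradiction to `f > p` and (1).
-/

namespace Pool.Agent.P5q

theorem exists_prime_ord (p : ℕ) (hp : p.Prime) (L : ℕ) :
    ∃ l : ℕ, l.Prime ∧ L < l ∧ l ≠ p ∧ ∀ s, 1 ≤ s → ¬ p ∣ orderOf (p : ZMod (l ^ s)) := by
  obtain ⟨f, hf1, hf⟩ := Nat.exists_infinite_primes (max L p + 1)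
  have hfL : L < f := by omega
  have hfp : p < f := by omega
  have hp2 := hp.two_le
  have hf2 := hf.two_le
  obtain ⟨N, hN⟩ : ∃ N, N = ∑ i ∈ Finset.range f, p ^ i := ⟨_, rfl⟩
  have hN2 : 2 ≤ N := by
    have : p ^ 1 ≤ N := by
      rw [hN]
      exact Finset.single_le_sum (f := fun i => p ^ i) (fun i _ => Nat.zero_le _)
        (Finset.mem_range.mpr (by omega))
    rw [pow_one] at this
    omega
  obtain ⟨l, hl_eq⟩ : ∃ l, l = N.minFac := ⟨_, rfl⟩
  have hl : l.Prime := by rw [hl_eq]; exact Nat.minFac_prime (by omega)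
  have hlN : l ∣ N := by rw [hl_eq]; exact Nat.minFac_dvd N
  have hlp : l ≠ p := by
    intro h
    rw [h] at hlN
    obtain ⟨g, hg⟩ : ∃ g, f = g + 1 := ⟨f - 1, by omega⟩
    rw [hN, hg, Finset.sum_range_succ', pow_zero] at hlN
    have h1 : p ∣ ∑ i ∈ Finset.range g, p ^ (i + 1) :=
      Finset.dvd_sum fun i _ => dvd_pow_self p (Nat.succ_ne_zero i)
    have h2 : p ∣ 1 := (Nat.dvd_add_right h1).mp hlN
    have h3 := Nat.le_of_dvd one_pos h2
    omega
  have : Fact l.Prime := ⟨hl⟩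
  have : Fact f.Prime := ⟨hf⟩
  have hN0 : (∑ i ∈ Finset.range f, (p : ZMod l) ^ i) = 0 := by
    have h1 : ((N : ℕ) : ZMod l) = 0 := (ZMod.natCast_eq_zero_iff N l).mpr hlN
    rw [hN] at h1
    push_cast at h1
    exact h1
  have hpf : (p : ZMod l) ^ f = 1 := by
    have h1 := geom_sum_mul (p : ZMod l) f
    rw [hN0, zero_mul] at h1
    exact (sub_eq_zero.mp h1.symm)
  have hp1 : (p : ZMod l) ≠ 1 := by
    intro h
    rw [h] at hN0
    simp only [one_pow, Finset.sum_const, Finset.card_range, nsmul_eq_mul, mul_one] at hN0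
    have h1 : l ∣ f := (ZMod.natCast_eq_zero_iff f l).mp hN0
    have h2 : l = f := (Nat.prime_dvd_prime_iff_eq hl hf).mp h1
    have h3 : ((p : ℕ) : ZMod l) = ((1 : ℕ) : ZMod l) := by rw [h, Nat.cast_one]
    have h4 : p ≡ 1 [MOD l] := (ZMod.natCast_eq_natCast_iff p 1 l).mp h3
    have h5 : p = 1 := h4.eq_of_lt_of_lt (by omega) (by omega)
    omega
  have hord : orderOf (p : ZMod l) = f := orderOf_eq_prime hpf hp1
  have hp0 : (p : ZMod l) ≠ 0 := by
    intro h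
    rw [h, zero_pow (by omega)] at hpf
    exact zero_ne_one hpf
  have hfl : f < l := by
    have h1 := ZMod.orderOf_dvd_card_sub_one hp0
    rw [hord] at h1
    have h2 := Nat.le_of_dvd (by have := hl.two_le; omega) h1
    have := hl.two_le
    omega
  refine ⟨l, hl, by omega, hlp, fun s hs hdvd => ?_⟩
  obtain ⟨k, rfl⟩ : ∃ k, s = k + 1 := ⟨s - 1, by omega⟩
  have h1 : (l : ℤ) ∣ (p : ℤ) ^ f - 1 := by
    have h2 : (((p : ℤ) ^ f - 1 : ℤ) : ZMod l) = 0 := by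
      push_cast
      rw [hpf, sub_self]
    exact (ZMod.intCast_zmod_eq_zero_iff_dvd _ l).mp h2
  have h2 : (l : ℤ) ^ (k + 1) ∣ ((p : ℤ) ^ f) ^ l ^ k - 1 ^ l ^ k :=
    dvd_sub_pow_of_dvd_sub h1 k
  have h3 : (p : ZMod (l ^ (k + 1))) ^ (f * l ^ k) = 1 := by
    rw [one_pow, ← pow_mul] at h2
    have h4 : (((p : ℤ) ^ (f * l ^ k) - 1 : ℤ) : ZMod (l ^ (k + 1))) = 0 := by
      rw [ZMod.intCast_zmod_eq_zero_iff_dvd]
      push_cast
      exact h2
    push_cast at h4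
    exact sub_eq_zero.mp h4
  have h5 : p ∣ f * l ^ k := hdvd.trans (orderOf_dvd_of_pow_eq_one h3)
  rcases (Nat.Prime.dvd_mul hp).mp h5 with h6 | h6
  · have := (Nat.prime_dvd_prime_iff_eq hp hf).mp h6
    omega
  · have h7 := (Nat.prime_dvd_prime_iff_eq hp hl).mp (hp.dvd_of_dvd_pow h6)
    exact hlp h7.symm

end Pool.Agent.P5q
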