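import Pool.Agent.Lib.P5q.Scal2

/-!
# Restriction of scalars for scalar values

GOAL: `scal_res`.

PROOF (complete).  Let `e = Module.finrank K L`, let `b` be a `K`-basis of `L` indexed by `Fin e`
(`Module.finBasis`), and `φ = Algebra.leftMulMatrix b : L →ₐ[K] Matrix (Fin e) (Fin e) K`.  Then
`φ.mapMatrix : Matrix (Fin n) (Fin n) L →ₐ[K] Matrix (Fin n) (Fin n) (Matrix (Fin e) (Fin e) K)`, followed by
`Matrix.compAlgEquiv` (to `Matrix (Fin n × Fin e) (Fin n × Fin e) K`) and by `Matrix.reindexAlgEquiv` along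
`finProdFinEquiv : Fin n × Fin e ≃ Fin (n * e)`, is a `K`-algebra homomorphism
`Φ : Matrix (Fin n) (Fin n) L →ₐ[K] Matrix (Fin (n * e)) (Fin (n * e)) K`.
For `A` with `mval (algebraMap ∘ α) A = algebraMap K L c • 1` the matrices `Φ (A k)` do it:
`mval α (Φ ∘ A) = ∑ σ, α σ • (List.ofFn fun i => Φ (A (σ i))).prod = Φ (∑ σ, α σ • (List.ofFn ..).prod)`, where
`α σ •` is the action of `K` on matrices over `L`, which equals the action of `algebraMap K L (α σ)`
(`algebraMap_smul`, entrywise); and `Φ (algebraMap K L c • 1) = Φ (c • 1) = c • 1`.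
-/

open Finset Matrix

namespace Pool.Agent.P5q

open Pool.Agent.P5m

namespace ScRAux

variable {K L : Type*} [Field K] [Field L] [Algebra K L] [FiniteDimensional K L]

/-- the homomorphism of matrix algebras -/
noncomputable def res (K L : Type*) [Field K] [Field L] [Algebra K L] [FiniteDimensional K L]
    (n : ℕ) : Matrix (Fin n) (Fin n) L →ₐ[K]
      Matrix (Fin (n * Module.finrank K L)) (Fin (n * Module.finrank K L)) K :=
  ((Matrix.reindexAlgEquiv K K finProdFinEquiv).toAlgHom.comp
    (Matrix.compAlgEquiv (Fin n) (Fin (Module.finrank K L)) K K).toAlgHom).comp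
    (Algebra.leftMulMatrix (Module.finBasis K L)).mapMatrix

end ScRAux

open ScRAux

theorem scal_res {r : ℕ} {K L : Type*} [Field K] [Field L] [Algebra K L] [FiniteDimensional K L]
    (α : Equiv.Perm (Fin (r + 1)) → K) (n : ℕ) (c : K)
    (h : ∃ A : Fin (r + 1) → Matrix (Fin n) (Fin n) L,
      P5e96.mval (fun σ => algebraMap K L (α σ)) A = algebraMap K L c • 1) :
    ∃ A : Fin (r + 1) → Matrix (Fin (n * Module.finrank K L)) (Fin (n * Module.finrank K L)) K,
      P5e96.mval α A = c • 1 := by
  obtain ⟨A, hA⟩ := h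
  refine ⟨fun k => res K L n (A k), ?_⟩
  have h1 : P5e96.mval α (fun k => res K L n (A k)) =
      res K L n (P5e96.mval (fun σ => algebraMap K L (α σ)) A) := by
    unfold P5e96.mval
    rw [map_sum]
    refine Finset.sum_congr rfl fun σ _ => ?_
    have h2 : (List.ofFn fun i => res K L n (A (σ i))).prod =
        res K L n (List.ofFn fun i => A (σ i)).prod := by
      rw [map_list_prod, List.map_ofFn]
      rfl
    rw [h2, ← map_smul]
    congr 1
    exact (algebraMap_smul L (α σ) _).symm
  rw [h1, hA, algebraMap_smul, map_smul, map_one]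

end Pool.Agent.P5q
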