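import Pool.Agent.Lib.P5q.Scal2
import Pool.Agent.Lib.P5m.Wsm

/-!
# Scalar matrices of size `p * n` in characteristic `p`

GOAL: `scal_mix`.  Here `σ.symm k < σ.symm 0` says that the letter `k` stands before the letter `0`
in the word `σ`.

PROOF (complete).
(1) There are `D, t : Matrix (Fin p) (Fin p) L` with `D * t = t * D + 1` : `D i j = if j = i + 1 then (j : L)`
else `0` (values of `Fin p`), `t i j = if i = j + 1 then 1 else 0` (as natural numbers, no wrap around):
`(D * t) i i = i + 1` for `i < p - 1` and `0` for `i = p - 1`; `(t * D) i i = i`; and `p = 0` in `L`.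
Alternatively on `ZMod p`: `t = ws (-1) 1`-type cyclic shift and `D = ws 1` with weights; any
realisation is fine.
(2) Let `M k = D`, `M 0 = t`, `M j = 1` for the other letters.  For every `σ` the product
`(List.ofFn fun i => M (σ i)).prod` is `D * t` if `k` stands before `0` in `σ`, and `t * D` otherwise.
(A product of a list all of whose entries but two are `1`.  One can split `List.ofFn` at the two positions,
or use a general lemma: `List.prod` of a list is unchanged if the ones are removed.)
(3) Use the block weighted shifts `wsM (a j) (U j)` of `Pool/Agent/Lib/P5m/Wsm.lean` with block index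
`β = Fin p` and `U j i = ψ (c j * i) • M j`, except `U 0 i = (c' / F) • ψ (c 0 * i) • M 0`, where
`F = ∑ σ with σ.symm k < σ.symm 0, α σ * ψ (ex σ a c)`.
By `mval_wsM` the value is `wsM (∑ a) (PsiM α a U) = wsM 0 (PsiM α a U)` and
`PsiM α a U i = ∑ σ, α σ • (List.ofFn fun t => U (σ t) (i + pre σ a (σ t))).prod`
`= (c' / F) • ∑ σ, (α σ * ∏ k, ψ (c k * (i + pre σ a k))) • (D * t or t * D)`.
Since `∑ k, c k = 0`, `∏ k, ψ (c k * (i + pre σ a k)) = ψ (ex σ a c)` (see `scal_of` in Scal2.lean, `hPsi`).
With `E = ∑ σ, α σ * ψ (ex σ a c) = 0` : the sum is `F • (D * t) + (E - F) • (t * D) = F • 1`.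
So `PsiM α a U i = c' • 1` for every `i` and `wsM 0 (fun _ => c' • 1) = c' • 1`.
(4) Reindex `Fin p × ZMod n ≃ Fin (p * n)` (`Fintype.equivFinOfCardEq`, or `finProdFinEquiv` and
`ZMod.finEquiv`) with `Matrix.reindexAlgEquiv`, as in the end of the proof of `scal_of`
(`P5e96.mval_algHom` in `Pool/Agent/Lib/P5e96/Cyc.lean`).
-/

open Finset Matrix

namespace Pool.Agent.P5q

open Pool.Agent.P5m

variable {r : ℕ} {L : Type*} [Field L]

namespace ScXAux

theorem prod_one {G : Type*} [Monoid G] : ∀ (n : ℕ) (g : Fin n → G) (t : Fin n),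
    (∀ i, i ≠ t → g i = 1) → (List.ofFn g).prod = g t := by
  intro n
  induction n with
  | zero => intro g t; exact t.elim0
  | succ n ih =>
    intro g t h
    rw [List.ofFn_succ, List.prod_cons]
    induction t using Fin.cases with
    | zero =>
      have h1 : (fun i : Fin n => g i.succ) = fun _ => 1 := by
        funext i
        exact h _ (Fin.succ_ne_zero i)
      rw [h1, List.ofFn_const, List.prod_replicate, one_pow, mul_one]
    | succ t =>
      rw [h 0 (Fin.succ_ne_zero t).symm, one_mul]
      exact ih (fun i => g i.succ) t fun i hi => h _ fun h' => hi (Fin.succ_injective _ h')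

theorem prod_two {G : Type*} [Monoid G] : ∀ (n : ℕ) (g : Fin n → G) (s t : Fin n), s < t →
    (∀ i, i ≠ s → i ≠ t → g i = 1) → (List.ofFn g).prod = g s * g t := by
  intro n
  induction n with
  | zero => intro g s; exact s.elim0
  | succ n ih =>
    intro g s t hst h
    rw [List.ofFn_succ, List.prod_cons]
    induction t using Fin.cases with
    | zero => exact absurd hst (Fin.not_lt_zero s)
    | succ t =>
      induction s using Fin.cases with
      | zero =>
        rw [prod_one n (fun i => g i.succ) t fun i hi =>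
          h _ (Fin.succ_ne_zero i) fun h' => hi (Fin.succ_injective _ h')]
      | succ s =>
        rw [h 0 (Fin.succ_ne_zero s).symm (Fin.succ_ne_zero t).symm, one_mul]
        exact ih (fun i => g i.succ) s t (Fin.succ_lt_succ_iff.1 hst) fun i hi hi' =>
          h _ (fun h' => hi (Fin.succ_injective _ h')) fun h' => hi' (Fin.succ_injective _ h')

theorem prod_smul {L : Type*} [Field L] {β : Type*} [Fintype β] [DecidableEq β] :
    ∀ (n : ℕ) (w : Fin n → L) (N : Fin n → Matrix β β L),
    (List.ofFn fun t => w t • N t).prod = (∏ t, w t) • (List.ofFn N).prod := by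
  intro n
  induction n with
  | zero => intro w N; simp
  | succ n ih =>
    intro w N
    rw [List.ofFn_succ, List.prod_cons, ih, List.ofFn_succ, List.prod_cons, Fin.prod_univ_succ,
      smul_mul_smul_comm]

/-- the derivation -/
def Dm (p : ℕ) (L : Type*) [Field L] : Matrix (Fin p) (Fin p) L :=
  fun i j => if (j : ℕ) = i + 1 then ((j : ℕ) : L) else 0

/-- the shift -/
def tm (p : ℕ) (L : Type*) [Field L] : Matrix (Fin p) (Fin p) L :=
  fun i j => if (i : ℕ) = j + 1 then 1 else 0

theorem Dm_mul (p : ℕ) [Fact p.Prime] (L : Type*) [Field L] [CharP L p] :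
    Dm p L * tm p L = tm p L * Dm p L + 1 := by
  have h1 : ∀ i l : Fin p, (Dm p L * tm p L) i l =
      if i = l then (((i : ℕ) : L) + 1) else 0 := by
    intro i l
    rw [Matrix.mul_apply]
    by_cases hi : (i : ℕ) + 1 < p
    · rw [Finset.sum_eq_single (⟨i + 1, hi⟩ : Fin p)]
      · unfold Dm tm
        simp only [if_true]
        by_cases h : i = l
        · subst h; simp
        · rw [if_neg h, if_neg (fun h' => h (Fin.ext (by simpa using h'))), mul_zero]
      · intro j _ hj
        have : Dm p L i j = 0 := by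
          unfold Dm
          rw [if_neg (fun h' => hj (Fin.ext h'))]
        rw [this, zero_mul]
      · intro h; exact absurd (Finset.mem_univ _) h
    · have hz : (((i : ℕ) : L) + 1) = 0 := by
        have h2 : (i : ℕ) + 1 = p := by have := i.2; omega
        have h3 : (((i : ℕ) + 1 : ℕ) : L) = 0 := by rw [h2]; exact CharP.cast_eq_zero L p
        rw [← h3]; push_cast; ring
      rw [hz, ite_self]
      refine Finset.sum_eq_zero fun j _ => ?_
      have : Dm p L i j = 0 := by
        unfold Dm
        rw [if_neg (fun h' => by have := j.2; omega)]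
      rw [this, zero_mul]
  have h2 : ∀ i l : Fin p, (tm p L * Dm p L) i l =
      if i = l then ((i : ℕ) : L) else 0 := by
    intro i l
    rw [Matrix.mul_apply]
    rcases Nat.eq_zero_or_pos (i : ℕ) with hi | hi
    · rw [hi, Nat.cast_zero, ite_self]
      refine Finset.sum_eq_zero fun j _ => ?_
      have : tm p L i j = 0 := by
        unfold tm
        rw [if_neg (by omega)]
      rw [this, zero_mul]
    · have hlt : (i : ℕ) - 1 < p := by have := i.2; omega
      rw [Finset.sum_eq_single (⟨i - 1, hlt⟩ : Fin p)]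
      · unfold Dm tm
        have e1 : (i : ℕ) - 1 + 1 = i := by omega
        simp only [e1, if_true, one_mul]
        by_cases h : i = l
        · subst h; simp
        · rw [if_neg h, if_neg (fun h' => h (Fin.ext h'.symm))]
      · intro j _ hj
        have : tm p L i j = 0 := by
          unfold tm
          rw [if_neg (fun h' => hj (Fin.ext (by simp only; omega)))]
        rw [this, zero_mul]
      · intro h; exact absurd (Finset.mem_univ _) h
  ext i l
  rw [Matrix.add_apply, h1, h2, Matrix.one_apply]
  by_cases h : i = l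
  · simp [h]
  · simp [h]

theorem addChar_sum {B M ι : Type*} [AddCommMonoid B] [CommMonoid M] (ψ : AddChar B M)
    (s : Finset ι) (f : ι → B) : ψ (∑ i ∈ s, f i) = ∏ i ∈ s, ψ (f i) := by
  classical
  induction s using Finset.induction_on with
  | empty => simp
  | insert i s hi ih => rw [sum_insert hi, prod_insert hi, AddChar.map_add_eq_mul, ih]

theorem mval_algHom' {K : Type*} [Field K] {ι ι' : Type*} [Fintype ι] [DecidableEq ι]
    [Fintype ι'] [DecidableEq ι']
    {m : ℕ} (α : Equiv.Perm (Fin m) → K) (Ψ : Matrix ι ι K →ₐ[K] Matrix ι' ι' K)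
    (A : Fin m → Matrix ι ι K) : P5e96.mval α (fun q => Ψ (A q)) = Ψ (P5e96.mval α A) := by
  rw [P5e96.mval, P5e96.mval, map_sum]
  refine Finset.sum_congr rfl fun σ _ => ?_
  rw [map_smul, map_list_prod, List.map_ofFn]
  rfl

end ScXAux

theorem scal_mix (p : ℕ) [Fact p.Prime] [CharP L p] {n : ℕ} [NeZero n]
    (α : Equiv.Perm (Fin (r + 1)) → L) (a c : Fin (r + 1) → ZMod n) (ha : ∑ k, a k = 0)
    (hc : ∑ k, c k = 0) (ψ : AddChar (ZMod n) L) (hE : ∑ σ, α σ * ψ (ex σ a c) = 0)
    (k : Fin (r + 1)) (hk : k ≠ 0)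
    (hF : ∑ σ : Equiv.Perm (Fin (r + 1)) with σ.symm k < σ.symm 0, α σ * ψ (ex σ a c) ≠ 0)
    (c' : L) :
    ∃ A : Fin (r + 1) → Matrix (Fin (p * n)) (Fin (p * n)) L, P5e96.mval α A = c' • 1 := by
  classical
  have : NeZero p := ⟨(Fact.out : p.Prime).ne_zero⟩
  set D := ScXAux.Dm p L with hD
  set t := ScXAux.tm p L with ht
  have hDt : D * t = t * D + 1 := ScXAux.Dm_mul p L
  set M : Fin (r + 1) → Matrix (Fin p) (Fin p) L := fun j => if j = k then D else
    if j = 0 then t else 1 with hM
  have hMk : M k = D := if_pos rfl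
  have hM0 : M 0 = t := by
    change (if (0 : Fin (r + 1)) = k then D else if (0 : Fin (r + 1)) = 0 then t else 1) = t
    rw [if_neg (Ne.symm hk), if_pos rfl]
  have hM1 : ∀ j, j ≠ k → j ≠ 0 → M j = 1 := by
    intro j h1 h2
    change (if j = k then D else if j = 0 then t else 1) = 1
    rw [if_neg h1, if_neg h2]
  have hprod : ∀ σ : Equiv.Perm (Fin (r + 1)), (List.ofFn fun i => M (σ i)).prod =
      if σ.symm k < σ.symm 0 then D * t else t * D := by
    intro σ
    split_ifs with h
    · rw [ScXAux.prod_two _ (fun i => M (σ i)) (σ.symm k) (σ.symm 0) h ?_]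
      · rw [Equiv.apply_symm_apply, Equiv.apply_symm_apply, hMk, hM0]
      · intro i h1 h2
        exact hM1 _ (fun h' => h1 (by rw [← h', Equiv.symm_apply_apply]))
          (fun h' => h2 (by rw [← h', Equiv.symm_apply_apply]))
    · have h3 : σ.symm 0 < σ.symm k := by
        refine lt_of_le_of_ne (not_lt.1 h) fun h' => hk ?_
        exact (σ.symm.injective h').symm
      rw [ScXAux.prod_two _ (fun i => M (σ i)) (σ.symm 0) (σ.symm k) h3 ?_]
      · rw [Equiv.apply_symm_apply, Equiv.apply_symm_apply, hMk, hM0]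
      · intro i h1 h2
        exact hM1 _ (fun h' => h2 (by rw [← h', Equiv.symm_apply_apply]))
          (fun h' => h1 (by rw [← h', Equiv.symm_apply_apply]))
  set F : L := ∑ σ : Equiv.Perm (Fin (r + 1)) with σ.symm k < σ.symm 0, α σ * ψ (ex σ a c) with hFd
  set w : Fin (r + 1) → ZMod n → L := fun j i => (if j = 0 then c' / F else 1) * ψ (c j * i)
    with hw
  set U : Fin (r + 1) → ZMod n → Matrix (Fin p) (Fin p) L := fun j i => w j i • M j with hU
  have hwprod : ∀ (i : ZMod n) (σ : Equiv.Perm (Fin (r + 1))), ∏ j, w j (i + pre σ a j) =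
      c' / F * ψ (ex σ a c) := by
    intro i σ
    rw [hw]
    simp only
    rw [prod_mul_distrib, Finset.prod_ite_eq' univ (0 : Fin (r + 1)) (fun _ => c' / F),
      if_pos (mem_univ _), ← ScXAux.addChar_sum]
    congr 2
    unfold ex
    simp only [mul_add, sum_add_distrib]
    rw [← sum_mul, hc, zero_mul, zero_add]
  have hPsi : ∀ i, PsiM α a U i = c' • 1 := by
    intro i
    unfold PsiM
    have h1 : ∀ σ : Equiv.Perm (Fin (r + 1)),
        (List.ofFn fun s => U (σ s) (i + pre σ a (σ s))).prod =
        (c' / F * ψ (ex σ a c)) • (if σ.symm k < σ.symm 0 then D * t else t * D) := by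
      intro σ
      rw [← hprod σ, ← hwprod i σ, ← Equiv.prod_comp σ]
      exact ScXAux.prod_smul _ (fun s => w (σ s) (i + pre σ a (σ s))) (fun s => M (σ s))
    simp only [h1]
    have h2 : ∀ σ : Equiv.Perm (Fin (r + 1)),
        α σ • (c' / F * ψ (ex σ a c)) • (if σ.symm k < σ.symm 0 then D * t else t * D) =
        (c' / F) • ((α σ * ψ (ex σ a c)) • (t * D) +
          (if σ.symm k < σ.symm 0 then α σ * ψ (ex σ a c) else 0) • (1 : Matrix (Fin p) (Fin p) L)) := by
      intro σ
      rw [hDt]
      split_ifs with h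
      · rw [← smul_add, smul_smul, smul_smul]
        congr 1
        ring
      · rw [zero_smul, add_zero, smul_smul, smul_smul]
        congr 1
        ring
    simp only [h2]
    rw [← smul_sum, sum_add_distrib, ← sum_smul, hE, zero_smul, zero_add, ← sum_smul,
      ← Finset.sum_filter, ← hFd, smul_smul, div_mul_cancel₀ _ hF]
  have hcard : Fintype.card (Fin p × ZMod n) = p * n := by
    rw [Fintype.card_prod, Fintype.card_fin, ZMod.card]
  set Φ : Matrix (Fin p × ZMod n) (Fin p × ZMod n) L →ₐ[L] Matrix (Fin (p * n)) (Fin (p * n)) L :=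
    (Matrix.reindexAlgEquiv L L (Fintype.equivFinOfCardEq hcard)).toAlgHom with hΦ
  refine ⟨fun j => Φ (wsM (a j) (U j)), ?_⟩
  rw [ScXAux.mval_algHom', mval_wsM, ha]
  have h3 : wsM 0 (PsiM α a U) = c' • (1 : Matrix (Fin p × ZMod n) (Fin p × ZMod n) L) := by
    ext x y
    rw [Matrix.smul_apply, Matrix.one_apply, smul_eq_mul]
    unfold wsM
    rw [add_zero, hPsi, Matrix.smul_apply, Matrix.one_apply, smul_eq_mul]
    by_cases h : x = y
    · subst h; simp
    · rw [if_neg h, mul_zero]
      split_ifs with h4 h5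
      · exact absurd (Prod.ext h5 h4.symm) h
      · rw [mul_zero]
      · rfl
  rw [h3, map_smul, map_one]

end Pool.Agent.P5q
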