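import Pool.Agent.Lib.P5q.ScQ
import Pool.Agent.Lib.P5q.ScX
import Pool.Agent.Lib.P5q.ScR
import Pool.Agent.Lib.P5q.ScE
import Pool.Agent.Lib.P5q.ScP
import Pool.Agent.Lib.P5q.ScF
import Pool.Agent.Lib.P5q.Final2

/-!
# Scalar matrices in characteristic `p`, any field
-/

open Finset Matrix IntermediateField

namespace Pool.Agent.P5q

open Pool.Agent.P5m

universe u

variable {r : ℕ}

/-- All scalar matrices of size `n` are values. -/
def Sv {K : Type*} [Field K] (α : Equiv.Perm (Fin (r + 1)) → K) (n : ℕ) : Prop :=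
  ∀ c : K, ∃ A : Fin (r + 1) → Matrix (Fin n) (Fin n) K, P5e96.mval α A = c • 1

theorem sv_comb {K : Type*} [Field K] (α : Equiv.Perm (Fin (r + 1)) → K) {l l' : ℕ} (h : Sv α l)
    (h' : Sv α l') (x y : ℕ) (hy : 1 ≤ y) : Sv α (x * l + y * l') := fun c =>
  scal_all2 α c l l' (h c) (h' c) x y hy

/-- One size `p * u` with `u` prime to `p`, bounded in terms of `p` and `r`. -/
theorem sv_small (r : ℕ) (p : ℕ) (hp : p.Prime) : ∃ M : ℕ, ∀ (K : Type u) [Field K] [CharP K p]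
    (α : Equiv.Perm (Fin (r + 1)) → K), (∃ σ, α σ ≠ 0) → ∃ v : ℕ, 1 ≤ v ∧ v ≤ M ∧ ¬ p ∣ v ∧
      Sv α (p * v) := by
  classical
  have := Fact.mk hp
  obtain ⟨a₀, b₀, L, ha, hG⟩ := exists_gptZ r
  obtain ⟨l, hl, hlL, hlp, hord⟩ := exists_prime_ord p hp (max L 2)
  have hl2 : 2 < l := lt_of_le_of_lt (le_max_right _ _) hlL
  obtain ⟨S, hS⟩ := tower_sub.{u} p l (Fintype.card (Equiv.Perm (Fin (r + 1)))) hp hl hl2
    (Ne.symm hlp)
  refine ⟨l ^ S * l ^ S, fun K _ _ α hα => ?_⟩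
  haveI : CharP (AlgebraicClosure K) p :=
    charP_of_injective_algebraMap (algebraMap K (AlgebraicClosure K)).injective p
  obtain ⟨s, ζ, hs1, hsS, hζ, ht⟩ := hS (AlgebraicClosure K) (Equiv.Perm (Fin (r + 1))) le_rfl
    (ac α)
  have hne : NeZero (l ^ s) := ⟨pow_ne_zero _ hl.ne_zero⟩
  have : NeZero l := ⟨hl.ne_zero⟩
  obtain ⟨hfd, hdeg, hdegle⟩ := deg_adjoin (K := K) p (l ^ s) ζ hζ (hord s hs1)
  set F := K⟮ζ⟯ with hF
  set e := Module.finrank K F with he
  -- the root of unity in the small field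
  set ζ' : F := IntermediateField.AdjoinSimple.gen K ζ with hζ'
  have hζ'c : algebraMap F (AlgebraicClosure K) ζ' = ζ :=
    IntermediateField.AdjoinSimple.algebraMap_gen K ζ
  have hζ'1 : ζ' ^ (l ^ s) = 1 := by
    apply (algebraMap F (AlgebraicClosure K)).injective
    rw [map_pow, hζ'c, hζ.pow_eq_one, map_one]
  haveI : CharP F p := charP_of_injective_algebraMap (algebraMap K F).injective p
  set ψ := AddChar.zmodChar (l ^ s) hζ.pow_eq_one with hψ
  set ψ' := AddChar.zmodChar (l ^ s) hζ'1 with hψ'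
  have hψψ : ∀ x, algebraMap F (AlgebraicClosure K) (ψ' x) = ψ x := by
    intro x
    rw [hψ, hψ', AddChar.zmodChar_apply, AddChar.zmodChar_apply, map_pow, hζ'c]
  set a : Fin (r + 1) → ZMod (l ^ s) := fun j => (a₀ j : ZMod (l ^ s)) with hadef
  set b : Fin (r + 1) → ZMod (l ^ s) := fun j => (b₀ j : ZMod (l ^ s)) with hbdef
  have hasum : ∑ j, a j = 0 := by
    rw [hadef]
    show ∑ j, ((a₀ j : ℤ) : ZMod (l ^ s)) = 0
    rw [← Int.cast_sum, ha, Int.cast_zero]
  have hdvd : l ∣ l ^ s := dvd_pow_self l (by omega)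
  have hgpt : Gpt l (fun j => ZMod.castHom hdvd (ZMod l) (a j))
      (fun j => ZMod.castHom hdvd (ZMod l) (b j)) := by
    simp only [hadef, hbdef, map_intCast]
    exact hG l hl (lt_of_le_of_lt (le_max_left _ _) hlL)
  have hsub : ∀ T : Finset (Equiv.Perm (Fin (r + 1))), ∑ σ ∈ T, ac α σ * ψ (ex σ a (bs b)) = 0 →
      ∀ e : ZMod l, ∑ σ ∈ T with ZMod.castHom hdvd (ZMod l) (ex σ a (bs b)) = e,
        ac α σ * ψ (ex σ a (bs b)) = 0 := by
    intro T hT e
    have h1 := ht T (fun σ => (ex σ a (bs b)).val) (by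
      rw [← hT]
      exact sum_congr rfl fun σ _ => by rw [hψ, AddChar.zmodChar_apply]) e.val
    rw [← h1]
    refine sum_congr ?_ fun σ _ => by rw [hψ, AddChar.zmodChar_apply]
    ext σ
    simp only [mem_filter]
    exact and_congr_right fun _ => cast_iff _ _ _
  set αF : Equiv.Perm (Fin (r + 1)) → F := fun σ => algebraMap K F (α σ) with hαF
  have hac : ∀ σ, algebraMap F (AlgebraicClosure K) (αF σ) = ac α σ := by
    intro σ
    rw [hαF]
    exact (IsScalarTower.algebraMap_apply K F (AlgebraicClosure K) (α σ)).symm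
  have hsum : ∀ T : Finset (Equiv.Perm (Fin (r + 1))),
      algebraMap F (AlgebraicClosure K) (∑ σ ∈ T, αF σ * ψ' (ex σ a (bs b))) =
        ∑ σ ∈ T, ac α σ * ψ (ex σ a (bs b)) := by
    intro T
    rw [map_sum]
    exact sum_congr rfl fun σ _ => by rw [map_mul, hac, hψψ]
  have hep : 0 < e := Module.finrank_pos
  have hls : 0 < l ^ s := pow_pos hl.pos s
  have hpl : ¬ p ∣ l ^ s * e := by
    intro h
    rcases (Nat.Prime.dvd_mul hp).1 h with h1 | h1
    · exact hlp ((Nat.prime_dvd_prime_iff_eq hp hl).1 (hp.dvd_of_dvd_pow h1)).symm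
    · exact hdeg h1
  have hbound : l ^ s * e ≤ l ^ S * l ^ S :=
    Nat.mul_le_mul (Nat.pow_le_pow_right hl.pos hsS)
      (le_trans hdegle (Nat.pow_le_pow_right hl.pos hsS))
  refine ⟨l ^ s * e, Nat.mul_pos hls hep, hbound, hpl, ?_⟩
  by_cases hE : ∑ σ, ac α σ * ψ (ex σ a (bs b)) = 0
  · obtain ⟨k, hk, hk0⟩ := fk_ne hl hdvd hα hasum hgpt hsub hE
    have hE' : ∑ σ, αF σ * ψ' (ex σ a (bs b)) = 0 := by
      apply (algebraMap F (AlgebraicClosure K)).injective
      rw [hsum, map_zero]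
      exact hE
    have hF' : ∑ σ : Equiv.Perm (Fin (r + 1)) with σ.symm k < σ.symm 0,
        αF σ * ψ' (ex σ a (bs b)) ≠ 0 := by
      intro h0
      apply hk0
      rw [← hsum, h0, map_zero]
    intro c
    obtain ⟨A, hA⟩ := scal_mix p αF a (bs b) hasum (bs_sum b) ψ' hE' k hk hF' (algebraMap K F c)
    have h1 := scal_res (K := K) (L := F) α (p * l ^ s) c ⟨A, hA⟩
    rw [mul_assoc] at h1
    exact h1
  · have hE' : ∑ σ, αF σ * ψ' (ex σ a (bs b)) ≠ 0 := by
      intro h0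
      apply hE
      rw [← hsum, h0, map_zero]
    have h1 : Sv α (l ^ s * e) := fun c =>
      scal_res (K := K) (L := F) α (l ^ s) c
        (scal_of αF a (bs b) hasum (bs_sum b) ψ' hE' (algebraMap K F c))
    have h2 := sv_comb α h1 h1 0 p hp.one_le
    rw [zero_mul, zero_add] at h2
    exact h2

/-- Scalar matrices of large size `n` with `n = 0` in `K` are values, for every field `K`. -/
theorem scal_final (r : ℕ) : ∃ N : ℕ, ∀ n ≥ N, ∀ (K : Type u) [Field K]
    (α : Equiv.Perm (Fin (r + 1)) → K), α ≠ 0 → (n : K) = 0 → ∀ c : K,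
      ∃ A : Fin (r + 1) → Matrix (Fin n) (Fin n) K, P5e96.mval α A = c • 1 := by
  classical
  set C := 2 ^ (r + 2) with hC
  have hsm : ∀ p : {p : ℕ // p.Prime ∧ p ≤ C}, ∃ M : ℕ, ∀ (K : Type u) [Field K] [CharP K p]
      (α : Equiv.Perm (Fin (r + 1)) → K), (∃ σ, α σ ≠ 0) → ∃ v : ℕ, 1 ≤ v ∧ v ≤ M ∧
        ¬ (p : ℕ) ∣ v ∧ Sv α (p * v) := fun p => sv_small r p p.2.1
  haveI : Finite {p : ℕ // p.Prime ∧ p ≤ C} :=
    Set.Finite.to_subtype ((Set.finite_le_nat C).subset fun p hp => hp.2)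
  haveI := Fintype.ofFinite {p : ℕ // p.Prime ∧ p ≤ C}
  choose Mp hMp using hsm
  set M := univ.sup Mp with hM
  refine ⟨C * (C ^ (r + 3) * M + M + 1) + 1, fun n hn K _ α hα hn0 c => ?_⟩
  obtain ⟨σ₀, hσ₀⟩ := Function.ne_iff.1 hα
  have hex : ∃ σ, α σ ≠ 0 := ⟨σ₀, hσ₀⟩
  obtain ⟨p, hp⟩ := CharP.exists K
  have hpn : p ∣ n := (CharP.cast_eq_zero_iff K p n).1 hn0
  have hp0 : p ≠ 0 := by
    rintro rfl
    have := Nat.eq_zero_of_zero_dvd hpn
    omega
  have hpp : p.Prime := (CharP.char_is_prime_or_zero K p).resolve_right hp0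
  have := Fact.mk hpp
  obtain ⟨m, rfl⟩ := hpn
  have hm : 1 ≤ m := by
    rcases Nat.eq_zero_or_pos m with rfl | h
    · omega
    · exact h
  have hcast : ∀ {n n' : ℕ}, n = n' → Sv α n → Sv α n' := by
    rintro n n' rfl h
    exact h
  by_cases hpC : p ≤ C
  · obtain ⟨v, hv1, hvM, hpv, hv⟩ := hMp ⟨p, hpp, hpC⟩ K α hex
    have hvM' : v ≤ M := le_trans hvM (Finset.le_sup (f := Mp) (mem_univ _))
    have hq : Sv α (p ^ (r + 3)) := fun c => scal_q p (r + 3) (by
      calc 2 ^ (r + 2) < 2 ^ (r + 3) := Nat.pow_lt_pow_right (by omega) (by omega)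
        _ ≤ p ^ (r + 3) := Nat.pow_le_pow_left hpp.two_le _) α hex c
    have hcop : Nat.Coprime (p ^ (r + 2)) v :=
      Nat.Coprime.pow_left _ ((Nat.Prime.coprime_iff_not_dvd hpp).2 hpv)
    have hpr : p ^ (r + 2) ≤ C ^ (r + 3) :=
      le_trans (Nat.pow_le_pow_left hpC _) (Nat.pow_le_pow_right (by
        rw [hC]; exact Nat.pos_of_ne_zero (by positivity)) (by omega))
    have hbig : p ^ (r + 2) * v + v ≤ m := by
      have h1 : p ^ (r + 2) * v ≤ C ^ (r + 3) * M := Nat.mul_le_mul hpr hvM'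
      by_contra hcon
      rw [not_le] at hcon
      have h2 : m ≤ C ^ (r + 3) * M + M + 1 := by omega
      have h3 : p * m ≤ C * (C ^ (r + 3) * M + M + 1) := Nat.mul_le_mul hpC h2
      omega
    obtain ⟨x, y, hy, hxy⟩ := frob (p ^ (r + 2)) v m hcop (pow_pos hpp.pos _) (by omega) hbig
    have h3 := sv_comb α hq hv x y hy
    refine hcast ?_ h3 c
    rw [hxy]
    ring
  · have hq : Sv α (p ^ 1) := fun c => scal_q p 1 (by rw [pow_one]; omega) α hex c
    have h3 := sv_comb α hq hq 0 m hm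
    exact hcast (by ring) h3 c

end Pool.Agent.P5q
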