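import Pool.Agent.Lib.P5q.Scal2

/-!
# Scalar matrices of size `p ^ j` in characteristic `p`

GOAL: `scal_q` : if `p ^ j` is larger than `2 ^ (r + 2)` then every scalar matrix of size `p ^ j` is a
value of every nonzero multilinear polynomial (any field of characteristic `p`, any `α ≠ 0`).

PROOF (complete).  Put `q = p ^ j`, `G = ZMod q`.
Shifts: `a k = 2 ^ k` for `k ≠ 0` and `a 0 = - ∑ k ≠ 0, 2 ^ k`, so that `∑ k, a k = 0`.
`pre σ a k` is the sum of the shifts of the letters standing before `k` in the word `σ`.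

STEP 1: if `pre σ a k = pre τ a k` for all `k` then `σ = τ`.  Let `S` (and `T`) be the set of letters
before `k` in `σ` (in `τ`).  We show `S = T`; as this holds for all `k`, `O σ = O τ`, so `σ.symm j < σ.symm k`
iff `τ.symm j < τ.symm k` for all `j, k`, and `σ = τ` (an order isomorphism of `Fin (r + 1)` is the
identity).  Let `u(S) = ∑ j ∈ S \ {0}, 2 ^ j`, a natural number `< 2 ^ (r + 1)`, with `u(S) = u(T)` iff
`S \ {0} = T \ {0}` (binary digits; in Mathlib: `Finset.geomSum_injective` or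
`Nat.sum_two_pow` type lemmas, or `Finset.equivBitIndices`, or a direct induction).
 If `0 ∉ S` the sum of the shifts is `u(S)`, if `0 ∈ S` it is `- u(Sᶜ)` (total sum `0`).
 * `0 ∉ S, 0 ∉ T`: `u(S) = u(T)` in `ZMod q`, both `< q`, so equal.
 * `0 ∈ S, 0 ∈ T`: `u(Sᶜ) = u(Tᶜ)` in `ZMod q`: the same.
 * `0 ∈ S, 0 ∉ T`: `u(Sᶜ) + u(T) = 0` in `ZMod q`, and `u(Sᶜ) + u(T) < 2 ^ (r + 2) < q`, so
   `u(Sᶜ) = 0`.  But `k ∈ Sᶜ`, and `k ≠ 0` because `0 ∈ S` stands before `k`; so `u(Sᶜ) ≥ 2 ^ k > 0`.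

STEP 2: binomial coefficients modulo `p`.  For `e < q` the number `(n.choose e : K)` depends only on
`n` modulo `q` : by `(1 + X) ^ (n + q) = (1 + X) ^ n * (1 + X ^ q)` in `K[X]` (Frobenius,
`add_pow_char_pow`) and comparison of the coefficients of `X ^ e`, `e < q`.  Put
`C e x = ((x.val).choose e : K)` for `x : ZMod q`.  Vandermonde (`Nat.add_choose_eq`) and the periodicity
give `C e (x + y) = ∑ (i, j) ∈ antidiagonal e, C i x * C j y` for `e < q`.

STEP 3: for `f : Fin (r + 1) → ℕ` put `κ f = ∑ σ, α σ * ∏ k, C (f k) (pre σ a k)`.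
CLAIM: `κ f ≠ 0` for some `f` with `f k < q` for all `k`.
For `y : ZMod q` one has for all `x : ZMod q`:
`∑ e ∈ range q, (-1) ^ (e + y.val) * (e.choose y.val) * C e x = if x = y then 1 else 0`
(from `choose x e * choose e y = choose x y * choose (x - y) (e - y)` (`Nat.choose_mul`) and
`∑ i, (-1) ^ i * choose n i = if n = 0 then 1 else 0`).  So with `L e y = (-1) ^ (e + y.val) * e.choose y.val`:
if all `κ f` vanish then for every `τ`, using `Finset.prod_univ_sum`,
`0 = ∑ f ∈ Fintype.piFinset (fun _ => range q), (∏ k, L (f k) (pre τ a k)) * κ f`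
`  = ∑ σ, α σ * ∏ k, ∑ e ∈ range q, L e (pre τ a k) * C e (pre σ a k)`
`  = ∑ σ, α σ * ∏ k, (if pre σ a k = pre τ a k then 1 else 0) = α τ` by step 1; contradiction to `hα`.
(Any other proof of the claim is fine, for instance: the functions `C e`, `e < q`, form a basis of the
functions on `ZMod q`.)

STEP 4: choose `f` with `f k < q`, `κ f ≠ 0` and `∑ k, f k` minimal (`Nat.find` or well-foundedness).  Take
the weights `W k i = (if k = 0 then c / κ f else 1) * C (f k) i`.  Then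
`Psi α a W i = (c / κ f) * ∑ σ, α σ * ∏ k, C (f k) (i + pre σ a k)`
`  = (c / κ f) * ∑ g ≤ f, (∏ k, C (g k) i) * κ (f - g)` (Vandermonde in every factor, then expand the
product of sums), and `κ (f - g) = 0` for `g ≠ 0` by minimality of the total degree; so
`Psi α a W i = (c / κ f) * κ f = c` for all `i`.

STEP 5: by `mval_ws` the value at the matrices `ws (a k) (W k)` is `ws 0 (Psi α a W) = c • 1` on
`Matrix (ZMod q) (ZMod q) K`; reindex along `ZMod.finEquiv q` : see the end of the proof of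
`scal_of` in `Pool/Agent/Lib/P5q/Scal2.lean`, which can be copied.
-/

open Finset Matrix

namespace Pool.Agent.P5q

open Pool.Agent.P5m

variable {r : ℕ} {K : Type*} [Field K]

namespace ScQAux

/-! ### step 1 -/

/-- the letters before `k` -/
def bef (σ : Equiv.Perm (Fin (r + 1))) (k : Fin (r + 1)) : Finset (Fin (r + 1)) :=
  univ.filter fun j => σ.symm j < σ.symm k

/-- the binary sum -/
def uu (S : Finset (Fin (r + 1))) : ℕ := ∑ j ∈ S, 2 ^ (j : ℕ)

theorem uu_eq (S : Finset (Fin (r + 1))) : uu S = ∑ i ∈ S.map Fin.valEmbedding, 2 ^ i := by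
  rw [sum_map]; rfl

theorem uu_lt (S : Finset (Fin (r + 1))) : uu S < 2 ^ (r + 1) := by
  rw [uu_eq]
  apply Nat.geomSum_lt le_rfl
  intro k hk
  obtain ⟨i, -, rfl⟩ := mem_map.1 hk
  exact i.2

theorem uu_inj {S T : Finset (Fin (r + 1))} (h : uu S = uu T) : S = T := by
  rw [uu_eq, uu_eq] at h
  exact map_injective _ (Finset.geomSum_injective le_rfl h)

/-- the shifts -/
def sf (q r : ℕ) (k : Fin (r + 1)) : ZMod q :=
  if k = 0 then - ∑ j ∈ univ.erase (0 : Fin (r + 1)), (2 : ZMod q) ^ (j : ℕ) else 2 ^ (k : ℕ)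

theorem sf_sum (q r : ℕ) : ∑ k, sf q r k = 0 := by
  rw [← add_sum_erase _ _ (mem_univ (0 : Fin (r + 1)))]
  have h1 : ∑ k ∈ univ.erase (0 : Fin (r + 1)), sf q r k =
      ∑ j ∈ univ.erase (0 : Fin (r + 1)), (2 : ZMod q) ^ (j : ℕ) := by
    refine sum_congr rfl fun k hk => ?_
    rw [sf, if_neg (ne_of_mem_erase hk)]
  rw [h1, sf, if_pos rfl, neg_add_cancel]

theorem sf_sum_not (q : ℕ) {S : Finset (Fin (r + 1))} (h : (0 : Fin (r + 1)) ∉ S) :
    ∑ j ∈ S, sf q r j = (uu S : ZMod q) := by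
  unfold uu
  push_cast
  refine sum_congr rfl fun k hk => ?_
  have hk0 : k ≠ 0 := by
    rintro rfl
    exact h hk
  rw [sf, if_neg hk0]

theorem pre_bef (q : ℕ) (σ : Equiv.Perm (Fin (r + 1))) (k : Fin (r + 1)) :
    pre σ (sf q r) k = ∑ j ∈ bef σ k, sf q r j := by
  unfold pre bef O
  rw [sum_filter]
  refine sum_congr rfl fun j _ => ?_
  split_ifs <;> simp

theorem pre_in (q : ℕ) (σ : Equiv.Perm (Fin (r + 1))) (k : Fin (r + 1))
    (h : (0 : Fin (r + 1)) ∈ bef σ k) : pre σ (sf q r) k = - (uu (bef σ k)ᶜ : ZMod q) := by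
  rw [pre_bef, ← sf_sum_not q (S := (bef σ k)ᶜ) (by rw [mem_compl, not_not]; exact h)]
  have h1 := sum_add_sum_compl (bef σ k) (sf q r)
  rw [sf_sum] at h1
  exact eq_neg_of_add_eq_zero_left h1

theorem cast_inj' {q m n : ℕ} (hm : m < q) (hn : n < q) (h : (m : ZMod q) = n) : m = n := by
  rw [ZMod.natCast_eq_natCast_iff'] at h
  rwa [Nat.mod_eq_of_lt hm, Nat.mod_eq_of_lt hn] at h

theorem no_mix {q : ℕ} (hq : 2 ^ (r + 2) < q) (σ τ : Equiv.Perm (Fin (r + 1))) (k : Fin (r + 1))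
    (h : pre σ (sf q r) k = pre τ (sf q r) k) (h1 : (0 : Fin (r + 1)) ∈ bef σ k)
    (h2 : (0 : Fin (r + 1)) ∉ bef τ k) : False := by
  rw [pre_in q σ k h1, pre_bef, sf_sum_not q h2] at h
  have h3 : ((uu (bef σ k)ᶜ + uu (bef τ k) : ℕ) : ZMod q) = 0 := by
    push_cast
    rw [← h, add_neg_cancel]
  rw [ZMod.natCast_eq_zero_iff] at h3
  have h4 := uu_lt (bef σ k)ᶜ
  have h5 := uu_lt (bef τ k)
  have h6 : uu (bef σ k)ᶜ + uu (bef τ k) < q := by
    have : 2 ^ (r + 2) = 2 ^ (r + 1) + 2 ^ (r + 1) := by ring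
    omega
  have h7 := Nat.eq_zero_of_dvd_of_lt h3 h6
  have h8 : k ∈ (bef σ k)ᶜ := by
    rw [mem_compl, bef, mem_filter]
    rintro ⟨-, h9⟩
    exact lt_irrefl _ h9
  have h9 : 2 ^ (k : ℕ) ≤ uu (bef σ k)ᶜ :=
    single_le_sum (f := fun j : Fin (r + 1) => 2 ^ (j : ℕ)) (fun _ _ => Nat.zero_le _) h8
  have h10 : 0 < 2 ^ (k : ℕ) := by positivity
  omega

theorem bef_eq {q : ℕ} (hq : 2 ^ (r + 2) < q) (σ τ : Equiv.Perm (Fin (r + 1))) (k : Fin (r + 1))
    (h : pre σ (sf q r) k = pre τ (sf q r) k) : bef σ k = bef τ k := by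
  have hlt : ∀ S : Finset (Fin (r + 1)), uu S < q := fun S => by
    have h4 := uu_lt S
    have : 2 ^ (r + 2) = 2 ^ (r + 1) + 2 ^ (r + 1) := by ring
    omega
  by_cases h1 : (0 : Fin (r + 1)) ∈ bef σ k
  · by_cases h2 : (0 : Fin (r + 1)) ∈ bef τ k
    · rw [pre_in q σ k h1, pre_in q τ k h2, neg_inj] at h
      exact compl_injective (uu_inj (cast_inj' (hlt _) (hlt _) h))
    · exact (no_mix hq σ τ k h h1 h2).elim
  · by_cases h2 : (0 : Fin (r + 1)) ∈ bef τ k
    · exact (no_mix hq τ σ k h.symm h2 h1).elim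
    · rw [pre_bef, pre_bef, sf_sum_not q h1, sf_sum_not q h2] at h
      exact uu_inj (cast_inj' (hlt _) (hlt _) h)

theorem mono_of {q : ℕ} (hq : 2 ^ (r + 2) < q) (σ τ : Equiv.Perm (Fin (r + 1)))
    (h : ∀ k, pre σ (sf q r) k = pre τ (sf q r) k) (i : Fin (r + 1)) : i ≤ τ.symm (σ i) := by
  have h1 : StrictMono (fun i => τ.symm (σ i)) := by
    intro i i' hi
    have h2 := bef_eq hq σ τ (σ i') (h (σ i'))
    have h3 : σ i ∈ bef σ (σ i') := by
      rw [bef, mem_filter]
      exact ⟨mem_univ _, by rwa [Equiv.symm_apply_apply, Equiv.symm_apply_apply]⟩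
    rw [h2, bef, mem_filter] at h3
    exact h3.2
  exact h1.le_apply

theorem perm_eq {q : ℕ} (hq : 2 ^ (r + 2) < q) (σ τ : Equiv.Perm (Fin (r + 1)))
    (h : ∀ k, pre σ (sf q r) k = pre τ (sf q r) k) : σ = τ := by
  have h1 := mono_of hq σ τ h
  have h2 := mono_of hq τ σ (fun k => (h k).symm)
  refine Equiv.ext fun i => ?_
  have h3 := h2 (τ.symm (σ i))
  rw [Equiv.apply_symm_apply, Equiv.symm_apply_apply] at h3
  have h4 := le_antisymm (h1 i) h3
  rw [Equiv.eq_symm_apply] at h4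
  exact h4.symm

/-! ### step 2 -/

/-- binomial coefficients -/
noncomputable def Cb (K : Type*) [Field K] {q : ℕ} (e : ℕ) (x : ZMod q) : K := (x.val.choose e : K)

theorem periodic (p : ℕ) [Fact p.Prime] [CharP K p] (j e : ℕ) (he : e < p ^ j) :
    Function.Periodic (fun n : ℕ => (n.choose e : K)) (p ^ j) := by
  intro n
  show ((n + p ^ j).choose e : K) = (n.choose e : K)
  rw [Nat.add_choose_eq]
  push_cast
  rw [sum_eq_single (e, 0)]
  · simp
  · rintro ⟨i, i'⟩ h1 h2
    have h1' : i + i' = e := HasAntidiagonal.mem_antidiagonal.1 h1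
    simp only
    have h3 : i' ≠ 0 := by
      rintro rfl
      apply h2
      rw [← h1', add_zero]
    have h4 : p ∣ (p ^ j).choose i' :=
      (Fact.out (p := p.Prime)).dvd_choose_pow h3 (by omega)
    rw [(CharP.cast_eq_zero_iff K p _).2 h4, mul_zero]
  · intro h
    exact (h (by simp)).elim

theorem Cb_add (p : ℕ) [Fact p.Prime] [CharP K p] (j e : ℕ) (he : e < p ^ j) (x y : ZMod (p ^ j)) :
    Cb K e (x + y) = ∑ i ∈ antidiagonal e, Cb K i.1 x * Cb K i.2 y := by
  have : NeZero (p ^ j) := ⟨pow_ne_zero _ (Fact.out (p := p.Prime)).ne_zero⟩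
  unfold Cb
  rw [ZMod.val_add]
  have h1 := (periodic (K := K) p j e he).map_mod_nat (x.val + y.val)
  have h1' : (((x.val + y.val) % p ^ j).choose e : K) = ((x.val + y.val).choose e : K) := h1
  rw [h1', Nat.add_choose_eq]
  push_cast
  rfl

/-! ### step 3 -/

theorem inv_sum (n m q : ℕ) (hn : n < q) :
    ∑ e ∈ range q, (-1 : ℤ) ^ (e + m) * (e.choose m) * (n.choose e) = if n = m then 1 else 0 := by
  by_cases hnm : n < m
  · rw [if_neg (by omega)]
    refine sum_eq_zero fun e _ => ?_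
    by_cases h1 : e < m
    · rw [Nat.choose_eq_zero_of_lt h1]; simp
    · rw [Nat.choose_eq_zero_of_lt (show n < e by omega)]; simp
  · push Not at hnm
    have h1 : ∑ e ∈ range q, (-1 : ℤ) ^ (e + m) * (e.choose m) * (n.choose e) =
        ∑ e ∈ Ico m (n + 1), (-1 : ℤ) ^ (e + m) * (e.choose m) * (n.choose e) := by
      symm
      apply sum_subset
      · intro e he
        rw [mem_Ico] at he
        rw [mem_range]
        omega
      · intro e _ he
        rw [mem_Ico] at he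
        by_cases h1 : e < m
        · rw [Nat.choose_eq_zero_of_lt h1]; simp
        · rw [Nat.choose_eq_zero_of_lt (show n < e by omega)]; simp
    rw [h1, sum_Ico_eq_sum_range]
    have h2 : ∀ i ∈ range (n + 1 - m), (-1 : ℤ) ^ (m + i + m) * ((m + i).choose m) * (n.choose (m + i)) =
        (n.choose m) * ((-1) ^ i * ((n - m).choose i)) := by
      intro i hi
      rw [mem_range] at hi
      have h3 : n.choose (m + i) * (m + i).choose m = n.choose m * (n - m).choose (m + i - m) :=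
        Nat.choose_mul (by omega)
      rw [Nat.add_sub_cancel_left] at h3
      have h4 : ((n.choose (m + i) : ℤ) * (m + i).choose m) = n.choose m * (n - m).choose i := by
        exact_mod_cast h3
      have h5 : (-1 : ℤ) ^ (m + i + m) = (-1) ^ i := by
        rw [show m + i + m = 2 * m + i by ring, pow_add, pow_mul]
        simp
      rw [h5]
      linear_combination ((-1) ^ i) * h4
    rw [sum_congr rfl h2, ← mul_sum, show n + 1 - m = (n - m) + 1 by omega,
      Int.alternating_sum_range_choose]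
    by_cases h6 : n = m
    · subst h6; simp
    · rw [if_neg (by omega), if_neg h6, mul_zero]

/-- coefficients of the indicator functions -/
noncomputable def Lc (K : Type*) [Field K] {q : ℕ} (e : ℕ) (y : ZMod q) : K :=
  (-1) ^ (e + y.val) * (e.choose y.val)

theorem ind_sum (q : ℕ) [NeZero q] (x y : ZMod q) :
    ∑ e ∈ range q, Lc K e y * Cb K e x = if x = y then 1 else 0 := by
  have h1 := congrArg (Int.cast : ℤ → K) (inv_sum x.val y.val q (ZMod.val_lt x))
  push_cast at h1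
  unfold Lc Cb
  rw [h1]
  by_cases h : x = y
  · rw [if_pos h, if_pos (congrArg _ h)]
  · rw [if_neg h, if_neg (fun h' => h (ZMod.val_injective q h'))]

/-- the coefficients -/
noncomputable def kap {q : ℕ} (α : Equiv.Perm (Fin (r + 1)) → K) (a : Fin (r + 1) → ZMod q)
    (f : Fin (r + 1) → ℕ) : K := ∑ σ, α σ * ∏ k, Cb K (f k) (pre σ a k)

theorem exists_kap {q : ℕ} [NeZero q] (hq : 2 ^ (r + 2) < q) (α : Equiv.Perm (Fin (r + 1)) → K)
    (hα : ∃ σ, α σ ≠ 0) : ∃ f : Fin (r + 1) → ℕ, (∀ k, f k < q) ∧ kap α (sf q r) f ≠ 0 := by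
  classical
  by_contra hc
  push Not at hc
  obtain ⟨τ, hτ⟩ := hα
  apply hτ
  have h1 : ∑ f ∈ Fintype.piFinset (fun _ : Fin (r + 1) => range q),
      (∏ k, Lc K (f k) (pre τ (sf q r) k)) * kap α (sf q r) f = 0 := by
    refine sum_eq_zero fun f hf => ?_
    rw [Fintype.mem_piFinset] at hf
    rw [hc f (fun k => mem_range.1 (hf k)), mul_zero]
  have h2 : ∑ f ∈ Fintype.piFinset (fun _ : Fin (r + 1) => range q),
      (∏ k, Lc K (f k) (pre τ (sf q r) k)) * kap α (sf q r) f =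
      ∑ σ, α σ * ∏ k, (if pre σ (sf q r) k = pre τ (sf q r) k then 1 else 0) := by
    unfold kap
    simp_rw [mul_sum]
    rw [sum_comm]
    refine sum_congr rfl fun σ _ => ?_
    have h3 : ∀ k, (if pre σ (sf q r) k = pre τ (sf q r) k then (1 : K) else 0) =
        ∑ e ∈ range q, Lc K e (pre τ (sf q r) k) * Cb K e (pre σ (sf q r) k) :=
      fun k => (ind_sum q _ _).symm
    simp_rw [h3]
    rw [Finset.prod_univ_sum, mul_sum]
    refine sum_congr rfl fun f _ => ?_
    rw [prod_mul_distrib]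
    ring
  rw [h2, sum_eq_single τ] at h1
  · simpa using h1
  · intro σ _ hσ
    have h3 : ∃ k, pre σ (sf q r) k ≠ pre τ (sf q r) k := by
      by_contra hh
      push Not at hh
      exact hσ (perm_eq hq σ τ hh)
    obtain ⟨k, hk⟩ := h3
    rw [prod_eq_zero (mem_univ k) (if_neg hk), mul_zero]
  · intro h; exact (h (mem_univ _)).elim

/-! ### step 4 -/

theorem psi_const (p : ℕ) [Fact p.Prime] [CharP K p] (j : ℕ) (α : Equiv.Perm (Fin (r + 1)) → K)
    (a : Fin (r + 1) → ZMod (p ^ j)) (f : Fin (r + 1) → ℕ) (hf : ∀ k, f k < p ^ j)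
    (hf0 : kap α a f ≠ 0)
    (hmin : ∀ g : Fin (r + 1) → ℕ, (∀ k, g k < p ^ j) → ∑ k, g k < ∑ k, f k → kap α a g = 0)
    (c : K) (i : ZMod (p ^ j)) :
    Psi α a (fun k i => (if k = 0 then c / kap α a f else 1) * Cb K (f k) i) i = c := by
  classical
  unfold Psi
  have h1 : ∀ σ : Equiv.Perm (Fin (r + 1)),
      ∏ k, ((if k = 0 then c / kap α a f else 1) * Cb K (f k) (i + pre σ a k)) =
      c / kap α a f * ∑ g ∈ Fintype.piFinset (fun k => antidiagonal (f k)),
        (∏ k, Cb K (g k).1 i) * ∏ k, Cb K (g k).2 (pre σ a k) := by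
    intro σ
    rw [prod_mul_distrib, Finset.prod_ite_eq' univ (0 : Fin (r + 1)) (fun _ => c / kap α a f),
      if_pos (mem_univ _)]
    congr 1
    have h2 : ∀ k, Cb K (f k) (i + pre σ a k) =
        ∑ g ∈ antidiagonal (f k), Cb K g.1 i * Cb K g.2 (pre σ a k) := fun k => Cb_add p j _ (hf k) _ _
    simp_rw [h2]
    rw [Finset.prod_univ_sum]
    refine sum_congr rfl fun g _ => prod_mul_distrib
  simp only [h1]
  have h3 : ∑ σ, α σ * (c / kap α a f * ∑ g ∈ Fintype.piFinset (fun k => antidiagonal (f k)),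
        (∏ k, Cb K (g k).1 i) * ∏ k, Cb K (g k).2 (pre σ a k)) =
      c / kap α a f * ∑ g ∈ Fintype.piFinset (fun k => antidiagonal (f k)),
        (∏ k, Cb K (g k).1 i) * kap α a (fun k => (g k).2) := by
    unfold kap
    simp_rw [mul_sum]
    rw [sum_comm]
    refine sum_congr rfl fun g _ => sum_congr rfl fun σ _ => ?_
    ring
  rw [h3, sum_eq_single (fun k => (0, f k))]
  · have h4 : ∏ k : Fin (r + 1), Cb K ((0, f k) : ℕ × ℕ).1 i = 1 := by
      refine prod_eq_one fun k _ => ?_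
      simp [Cb]
    rw [h4, one_mul]
    exact div_mul_cancel₀ c hf0
  · intro g hg hne
    rw [Fintype.mem_piFinset] at hg
    have hg' : ∀ k, (g k).1 + (g k).2 = f k := fun k => mem_antidiagonal.1 (hg k)
    have h5 : ∃ k, (g k).1 ≠ 0 := by
      by_contra hh
      push Not at hh
      apply hne
      funext k
      have := hg' k
      rw [hh k, zero_add] at this
      exact Prod.ext (hh k) this
    obtain ⟨k, hk⟩ := h5
    rw [hmin (fun k => (g k).2) (fun k => lt_of_le_of_lt (by have := hg' k; omega) (hf k)), mul_zero]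
    apply sum_lt_sum (fun k _ => by have := hg' k; omega)
    exact ⟨k, mem_univ _, by have := hg' k; omega⟩
  · intro h
    exfalso
    apply h
    rw [Fintype.mem_piFinset]
    intro k
    simp

/-! ### step 5 -/

theorem mval_algHom_scal {ι ι' : Type*} [Fintype ι] [DecidableEq ι]
    [Fintype ι'] [DecidableEq ι']
    {m : ℕ} (α : Equiv.Perm (Fin m) → K) (Ψ : Matrix ι ι K →ₐ[K] Matrix ι' ι' K)
    (A : Fin m → Matrix ι ι K) : P5e96.mval α (fun q => Ψ (A q)) = Ψ (P5e96.mval α A) := by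
  rw [P5e96.mval, P5e96.mval, map_sum]
  refine Finset.sum_congr rfl fun σ _ => ?_
  rw [map_smul, map_list_prod, List.map_ofFn]
  rfl

theorem of_psi {l : ℕ} [NeZero l] (α : Equiv.Perm (Fin (r + 1)) → K)
    (a : Fin (r + 1) → ZMod l) (ha : ∑ k, a k = 0) (W : Fin (r + 1) → ZMod l → K) (c : K)
    (hPsi : ∀ i, Psi α a W i = c) :
    ∃ A : Fin (r + 1) → Matrix (Fin l) (Fin l) K, P5e96.mval α A = c • 1 := by
  classical
  set Φ : Matrix (ZMod l) (ZMod l) K →ₐ[K] Matrix (Fin l) (Fin l) K :=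
    (Matrix.reindexAlgEquiv K K (ZMod.finEquiv l).symm.toEquiv).toAlgHom with hΦ
  refine ⟨fun k => Φ (ws (a k) (W k)), ?_⟩
  rw [mval_algHom_scal, mval_ws, ha]
  have h3 : ws 0 (Psi α a W) = c • (1 : Matrix (ZMod l) (ZMod l) K) := by
    ext i j
    rw [Matrix.smul_apply, Matrix.one_apply, smul_eq_mul]
    unfold ws
    rw [add_zero, hPsi]
    by_cases h : i = j
    · rw [if_pos h.symm, if_pos h, mul_one]
    · rw [if_neg (fun h' => h h'.symm), if_neg h, mul_zero]
  rw [h3, map_smul, map_one]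

end ScQAux

open ScQAux in
theorem scal_q (p : ℕ) [Fact p.Prime] [CharP K p] (j : ℕ) (hj : 2 ^ (r + 2) < p ^ j)
    (α : Equiv.Perm (Fin (r + 1)) → K) (hα : ∃ σ, α σ ≠ 0) (c : K) :
    ∃ A : Fin (r + 1) → Matrix (Fin (p ^ j)) (Fin (p ^ j)) K, P5e96.mval α A = c • 1 := by
  classical
  have : NeZero (p ^ j) := ⟨pow_ne_zero _ (Fact.out (p := p.Prime)).ne_zero⟩
  obtain ⟨f₀, hf₀, hk₀⟩ := exists_kap hj α hα
  obtain ⟨f, hf, hmin⟩ := exists_min_image
    ((Fintype.piFinset (fun _ : Fin (r + 1) => range (p ^ j))).filter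
      (fun f => kap α (sf (p ^ j) r) f ≠ 0)) (fun f => ∑ k, f k)
    ⟨f₀, mem_filter.2 ⟨Fintype.mem_piFinset.2 fun k => mem_range.2 (hf₀ k), hk₀⟩⟩
  rw [mem_filter, Fintype.mem_piFinset] at hf
  refine of_psi α (sf (p ^ j) r) (sf_sum _ _) _ c
    (psi_const p j α (sf (p ^ j) r) f (fun k => mem_range.1 (hf.1 k)) hf.2 ?_ c)
  intro g hg hlt
  by_contra hne
  have h1 := hmin g (mem_filter.2 ⟨Fintype.mem_piFinset.2 fun k => mem_range.2 (hg k), hne⟩)
  exact absurd hlt (not_lt.2 h1)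

end Pool.Agent.P5q
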