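import Pool.Agent.Lib.P5q.Blk2
import Pool.Agent.Lib.P5q.Bad
import Pool.Agent.Lib.P5q.Tow

/-!
# Good block sizes `l ^ s` in a fixed characteristic `p`
-/

open Finset Matrix

namespace Pool.Agent.P5q

open Pool.Agent.P5m

universe u

variable {r : ℕ} {K : Type*} [Field K]

/-- The coefficient conditions on the prime `l`. -/
structure Nb (α : Equiv.Perm (Fin (r + 1)) → K) (a₀ : Fin (r + 1) → ℤ) (l : ℕ) : Prop where
  c1 : ∀ σ τ, α σ ≠ 0 → ∀ (k : ℕ) (z : AlgebraicClosure K), z ^ l ^ k = 1 → z ≠ 1 →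
    ac α σ + ac α τ * z ≠ 0
  c2 : ∀ σ, (∃ s : Fin (r + 1), α (σ * (finRotate (r + 1)) ^ (s : ℕ)) ≠ 0) →
    ∀ (k : ℕ) (z : AlgebraicClosure K), z ^ l ^ k = 1 → z ≠ 1 →
    ∑ s : Fin (r + 1), ac α (σ * (finRotate (r + 1)) ^ (s : ℕ)) * z ^ (sh σ a₀ s) ≠ 0

theorem cast_iff {l n : ℕ} [NeZero l] [NeZero n] (h : l ∣ n) (x : ZMod n) (e : ZMod l) :
    ZMod.castHom h (ZMod l) x = e ↔ x.val % l = e.val := by
  have h1 : ZMod.castHom h (ZMod l) x = ((x.val : ℕ) : ZMod l) := by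
    rw [ZMod.castHom_apply, ZMod.cast_eq_val]
  rw [h1]
  constructor
  · intro h2
    rw [← h2, ZMod.val_natCast]
  · intro h2
    rw [← ZMod.natCast_zmod_val e, ← h2, ZMod.natCast_mod]

theorem lu_pow {l s : ℕ} (hl : l.Prime) (hs : 1 ≤ s) : Lu (dvd_pow_self l (by omega : s ≠ 0)) := by
  have : NeZero l := ⟨hl.ne_zero⟩
  have : NeZero (l ^ s) := ⟨pow_ne_zero _ hl.ne_zero⟩
  intro x hx
  have h1 : ¬ l ∣ x.val := by
    intro h2
    apply hx
    rw [cast_iff, ZMod.val_zero]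
    exact Nat.mod_eq_zero_of_dvd h2
  have h2 : Nat.Coprime x.val (l ^ s) :=
    Nat.Coprime.pow_right _ (Nat.Coprime.symm ((Nat.Prime.coprime_iff_not_dvd hl).2 h1))
  have h3 := (ZMod.isUnit_iff_coprime x.val (l ^ s)).2 h2
  rwa [ZMod.natCast_zmod_val] at h3

theorem sh_cast {n : ℕ} (σ : Equiv.Perm (Fin (r + 1))) (a₀ : Fin (r + 1) → ℤ) (s : Fin (r + 1)) :
    sh σ (fun j => (a₀ j : ZMod n)) s = ((sh σ a₀ s : ℤ) : ZMod n) := by
  unfold sh
  rw [Int.cast_sum]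
  refine sum_congr rfl fun p _ => ?_
  split_ifs
  · rfl
  · rw [Int.cast_zero]

theorem gd_of_tower {l s : ℕ} (hl : l.Prime) (hs : 1 ≤ s)
    (α : Equiv.Perm (Fin (r + 1)) → K) (a₀ : Fin (r + 1) → ℤ) (hN : Nb α a₀ l)
    [NeZero (l ^ s)] (ζ : AlgebraicClosure K) (hζ : IsPrimitiveRoot ζ (l ^ s))
    (htow : ∀ x : Equiv.Perm (Fin (r + 1)) → ℕ, ∑ σ, ac α σ * ζ ^ x σ = 0 →
      ∀ e, ∑ σ with x σ % l = e, ac α σ * ζ ^ x σ = 0) :
    Gd (dvd_pow_self l (by omega : s ≠ 0)) α (AddChar.zmodChar (l ^ s) hζ.pow_eq_one)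
      (fun j => (a₀ j : ZMod (l ^ s))) := by
  classical
  have : NeZero l := ⟨hl.ne_zero⟩
  set ψ := AddChar.zmodChar (l ^ s) hζ.pow_eq_one with hψ
  have hprim : ψ.IsPrimitive := AddChar.zmodChar_primitive_of_primitive_root (l ^ s) hζ
  have hψz : ∀ e, ψ e ^ l ^ s = 1 := by
    intro e
    rw [← AddChar.map_nsmul_eq_pow, nsmul_eq_mul, ZMod.natCast_self, zero_mul,
      AddChar.map_zero_eq_one]
  have hψ1 : ∀ e, ψ e = 1 → e = 0 := fun e he => (hprim.zmod_char_eq_one_iff (l ^ s) e).1 he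
  constructor
  · intro c hc e
    have h1 := htow (fun σ => (ex σ (fun j => (a₀ j : ZMod (l ^ s))) c).val) (by
      rw [← hc]
      unfold E
      exact sum_congr rfl fun σ _ => by rw [hψ, AddChar.zmodChar_apply]) e.val
    rw [← h1]
    refine sum_congr ?_ fun σ _ => by rw [hψ, AddChar.zmodChar_apply]
    ext σ
    simp only [mem_filter, mem_univ, true_and]
    exact cast_iff _ _ _
  · intro σ τ e hσ he
    by_contra hne
    exact hN.c1 σ τ hσ s (ψ e) (hψz e) (fun h1 => hne (hψ1 e h1)) he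
  · intro σ e he hsum
    by_contra hcon
    push Not at hcon
    refine hN.c2 σ hcon s (ψ e) (hψz e) (fun h1 => he (hψ1 e h1)) ?_
    rw [← hsum]
    refine sum_congr rfl fun t _ => ?_
    congr 1
    rw [sh_cast, mul_comm, ← zsmul_eq_mul, AddChar.map_zsmul_eq_zpow]

theorem bs_small [Infinite K] {l s : ℕ} (hl : l.Prime) (hs : 1 ≤ s) (hlK : (l : K) ≠ 0)
    (hcard : Fintype.card (Equiv.Perm (Fin (r + 1)) × Equiv.Perm (Fin (r + 1))) + 1 < l)
    (α : Equiv.Perm (Fin (r + 1)) → K) (hα : α 1 ≠ 0) (a₀ b₀ : Fin (r + 1) → ℤ)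
    (ha : ∑ j, a₀ j = 0) (hG : Gpt l (fun j => (a₀ j : ZMod l)) (fun j => (b₀ j : ZMod l)))
    (hN : Nb α a₀ l) [NeZero (l ^ s)] (ζ : AlgebraicClosure K) (hζ : IsPrimitiveRoot ζ (l ^ s))
    (htow : ∀ x : Equiv.Perm (Fin (r + 1)) → ℕ, ∑ σ, ac α σ * ζ ^ x σ = 0 →
      ∀ e, ∑ σ with x σ % l = e, ac α σ * ζ ^ x σ = 0) :
    Bs α (fun j => (a₀ j : ZMod (l ^ s))) (fun j => (b₀ j : ZMod (l ^ s))) := by
  classical
  have hnK : ((l ^ s : ℕ) : K) ≠ 0 := by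
    rw [Nat.cast_pow]
    exact pow_ne_zero _ hlK
  have D : Dt (dvd_pow_self l (by omega : s ≠ 0)) α (AddChar.zmodChar (l ^ s) hζ.pow_eq_one)
      (fun j => (a₀ j : ZMod (l ^ s))) (fun j => (b₀ j : ZMod (l ^ s))) := by
    refine ⟨hl, lu_pow hl hs, ?_, AddChar.zmodChar_primitive_of_primitive_root (l ^ s) hζ,
      ⟨1, hα⟩, ?_, gd_of_tower hl hs α a₀ hN ζ hζ htow, ?_⟩
    · rw [← map_natCast (algebraMap K (AlgebraicClosure K))]
      exact (map_ne_zero _).2 hnK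
    · rw [← Int.cast_sum, ha, Int.cast_zero]
    · simp only [map_intCast]
      exact hG
  refine ⟨hy_of_dt D, fun hc => hn_of_dt D hc hcard, fun hc hA => ?_⟩
  set ψ := AddChar.zmodChar (l ^ s) hζ.pow_eq_one with hψ
  have hbij : Function.Bijective (algebraMap K (AlgebraicClosure K)) :=
    IsAlgClosed.algebraMap_bijective_of_isIntegral
  set φ : AlgebraicClosure K ≃+* K := (RingEquiv.ofBijective _ hbij).symm with hφ
  have hφa : ∀ x, φ (algebraMap K (AlgebraicClosure K) x) = x := fun x =>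
    (RingEquiv.ofBijective _ hbij).symm_apply_apply x
  refine ⟨φ.toRingHom.toMonoidHom.compAddChar ψ, bs (fun j => (b₀ j : ZMod (l ^ s))),
    bs_sum _, ?_⟩
  intro h0
  apply hc
  refine (sol_none hl _ D.supp D.sum D.gd D.gpt (-bt fun j => (b₀ j : ZMod (l ^ s))) ?_ ?_).2
  · have h1 : φ (E (ac α) ψ (fun j => (a₀ j : ZMod (l ^ s)))
        (bs fun j => (b₀ j : ZMod (l ^ s)))) = 0 := by
      rw [← h0]
      unfold E
      rw [map_sum]
      refine sum_congr rfl fun σ _ => ?_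
      rw [map_mul]
      unfold ac
      rw [hφa]
      rfl
    exact (map_eq_zero φ).1 h1
  · rw [map_neg, ← nt_bt, neg_add_cancel]

end Pool.Agent.P5q
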