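import Pool.Agent.Lib.P5m.Two

/-!
# Two diagonal blocks of equal size, over any infinite field

The structure of the proof is that of `two_trace`, `two_ne` in `Pool.Agent.Lib.P5m.Two`; all helper
theorems there which do not assume `CharZero` are used as they are (`chains_two`, `num_exists`,
`blk_ch`, `dim_ch`, `cnt_pos`, namespace `TwoAux`). Only the choice of the diagonal entries is new.

PROOF of `pick` (induction on `c`). `c = 1`: the sum. `c = 2`: choose `x` outside of the finite set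
of all `x` with `x ∈ F`, `s - x ∈ F` or `2 * x = s` (finite by `h`: if `2 ≠ 0` at most one `x`, if
`2 = 0` none because then `s ≠ 0`). `c + 1 ≥ 3`: choose `x₀ ∉ F`, `x₀ ≠ s`, apply the induction
hypothesis to `c`, `s - x₀ ≠ 0`, `F ∪ {x₀}`, and use `Fin.cons`.

PROOF of `two_trace2`. Chains `d, t` with a chain `i₀` of length `d i₀ ≥ 2` (`chains_two`), the
numbering `E` (`num_exists`): two positions of the same chain with the same colour are never
adjacent, so a chain of length `2` has its two positions of different colours. For `i ≠ i₀` choose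
`δ i` with `∑ j, δ i j = t i` and such that `δ i` is injective if `d i ≠ 2` (`pick_fin`; `d i = 1`:
`δ = t i`; `d i = 2`: any values with this sum; `d i ≥ 3`: `pick`). For `i₀` let
`S₀ = τ - (sum of the δ i j over all positions with i ≠ i₀ and colour 0)`; both classes of positions
of `i₀` (colour `0`, colour `1`) are not empty (`cnt_pos`); choose injective families on the two
classes with sums `S₀` and `t i₀ - S₀` (`pick`, `h` holds because `2 ≠ 0`). Now `blk_ch` gives the
block form, and the sum over the positions of colour `0` is `τ`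
(`∑ p, δ (E.symm ⟨0, p⟩).1 (E.symm ⟨0, p⟩).2 = ∑ over all ⟨i, j⟩ with (E ⟨i, j⟩).1 = 0 of δ i j`, as in
the proof of `sum_zero`).

PROOF of `two_ne2`. The same for `i ≠ i₀`. Let `F` be the finite set of all values `δ i j`,
`i ≠ i₀`. For `i₀` choose `δ i₀` with sum `t i₀`, all values outside of `F`, and injective if
`d i₀ ≥ 3` (`pick`, the hypothesis `h` is only needed for `c = 2`; for `d i₀ = 2` choose `x ∉ F` with
`t i₀ - x ∉ F`, no injectivity). Then `D a` is not constant: some position `p` of colour `a` belongs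
to `i₀` (`cnt_pos`), and as `s ≥ 2` there is another position `q` of colour `a`; if `q` belongs to
`i₀` too then `d i₀ ≥ 3` and the values are different, otherwise the value at `q` is in `F` and the
value at `p` is not.
-/

open Finset

namespace Pool.Agent.P5q

open Pool.Agent.P5m

variable {K V : Type*} [Field K] [AddCommGroup V] [Module K V]

/-- Different values with a given sum, outside of a finite set. -/
theorem pick [Infinite K] (c : ℕ) (hc : 2 ≤ c) (s : K) (F : Finset K)
    (h : c = 2 → (2 : K) ≠ 0 ∨ s ≠ 0) :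
    ∃ x : Fin c → K, Function.Injective x ∧ ∑ i, x i = s ∧ ∀ i, x i ∉ F := by
  classical
  induction c, hc using Nat.le_induction generalizing s F with
  | base =>
    obtain ⟨x, hx⟩ := Infinite.exists_notMem_finset
      (F ∪ F.image (fun f => s - f) ∪ (if (2 : K) = 0 then ∅ else {s / 2}))
    simp only [Finset.mem_union, not_or] at hx
    obtain ⟨⟨h1, h2⟩, h3⟩ := hx
    have h4 : s - x ∉ F := by
      intro h5
      exact h2 (Finset.mem_image.2 ⟨s - x, h5, by ring⟩)
    have h5 : x ≠ s - x := by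
      intro h6
      by_cases h7 : (2 : K) = 0
      · rcases h rfl with h8 | h8
        · exact h8 h7
        · apply h8
          have : s = 2 * x := by linear_combination -h6
          rw [this, h7, zero_mul]
      · rw [if_neg h7, Finset.mem_singleton] at h3
        apply h3
        rw [eq_div_iff h7]
        linear_combination h6
    refine ⟨![x, s - x], ?_, ?_, ?_⟩
    · intro i j hij
      fin_cases i <;> fin_cases j
      · rfl
      · exact absurd hij h5
      · exact absurd hij.symm h5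
      · rfl
    · rw [Fin.sum_univ_two]
      change x + (s - x) = s
      ring
    · intro i
      fin_cases i
      · exact h1
      · exact h4
  | succ c hc ih =>
    obtain ⟨x0, hx0⟩ := Infinite.exists_notMem_finset (F ∪ {s})
    simp only [Finset.mem_union, Finset.mem_singleton, not_or] at hx0
    obtain ⟨x', h1, h2, h3⟩ := ih (s - x0) (F ∪ {x0}) (fun _ => Or.inr (sub_ne_zero.2
      (Ne.symm hx0.2)))
    refine ⟨Fin.cons x0 x', ?_, ?_, ?_⟩
    · rw [Fin.cons_injective_iff]
      refine ⟨?_, h1⟩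
      rintro ⟨i, hi⟩
      exact h3 i (Finset.mem_union_right _ (Finset.mem_singleton.2 hi))
    · rw [Fin.sum_univ_succ]
      simp only [Fin.cons_zero, Fin.cons_succ]
      rw [h2]
      ring
    · intro i
      refine Fin.cases ?_ (fun i => ?_) i
      · exact hx0.1
      · rw [Fin.cons_succ]
        exact fun h4 => h3 i (Finset.mem_union_left _ h4)

namespace Two2Aux

open TwoAux

/-- different values on a finite non-empty type -/
theorem pick_type [Infinite K] (h2 : (2 : K) ≠ 0) {ι : Type*} [Fintype ι] [Nonempty ι] (s : K) :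
    ∃ x : ι → K, Function.Injective x ∧ ∑ i, x i = s := by
  classical
  by_cases h : Fintype.card ι = 1
  · obtain ⟨i0, hi0⟩ := Fintype.card_eq_one_iff.1 h
    refine ⟨fun _ => s, fun i j _ => by rw [hi0 i, hi0 j], ?_⟩
    rw [Finset.sum_const, Finset.card_univ, h, one_smul]
  · have h3 : 2 ≤ Fintype.card ι := by
      have := Fintype.card_pos (α := ι)
      omega
    obtain ⟨x, h4, h5, -⟩ := pick (Fintype.card ι) h3 s ∅ (fun _ => Or.inl h2)
    refine ⟨fun i => x (Fintype.equivFin ι i), h4.comp (Fintype.equivFin ι).injective, ?_⟩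
    rw [← h5]
    exact Equiv.sum_comp (Fintype.equivFin ι) x

/-- the values in a chain -/
theorem pick_chain [Infinite K] {c : ℕ} (hc : 1 ≤ c) (s : K) :
    ∃ x : Fin c → K, (c ≠ 2 → Function.Injective x) ∧ ∑ i, x i = s := by
  classical
  by_cases h1 : c = 1
  · subst h1
    exact ⟨fun _ => s, fun _ i j _ => Subsingleton.elim i j, by simp⟩
  · by_cases h2 : c = 2
    · subst h2
      refine ⟨![s, 0], fun h => absurd rfl h, ?_⟩
      rw [Fin.sum_univ_two]
      change s + 0 = s
      ring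
    · obtain ⟨x, h4, h5, -⟩ := pick c (by omega) s ∅ (fun h => absurd h h2)
      exact ⟨x, fun _ => h4, h5⟩

/-- two positions of the same colour -/
theorem len_ne_two {k s : ℕ} {d : Fin k → ℕ} {E : (Σ i, Fin (d i)) ≃ Σ _ : Fin 2, Fin s}
    {β : Fin k → ℕ} (hE : ∀ i j, ((E ⟨i, j⟩).1 : ℕ) + 2 * ((E ⟨i, j⟩).2 : ℕ) = β i + j)
    {i : Fin k} {j j' : Fin (d i)} (hj : j ≠ j') (h : (E ⟨i, j⟩).1 = (E ⟨i, j'⟩).1) :
    d i ≠ 2 := by
  intro hd
  have h1 := hE i j
  have h2 := hE i j'
  rw [h] at h1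
  have h3 := j.2
  have h4 := j'.2
  have h5 : (j : ℕ) ≠ j' := fun e => hj (Fin.ext e)
  omega

/-- the sum over a colour -/
theorem sum_col {k s : ℕ} {d : Fin k → ℕ} (E : (Σ i, Fin (d i)) ≃ Σ _ : Fin 2, Fin s)
    (δ : (i : Fin k) → Fin (d i) → K) (a : Fin 2) :
    ∑ p, δ (E.symm ⟨a, p⟩).1 (E.symm ⟨a, p⟩).2 =
      ∑ i, ∑ j, if (E ⟨i, j⟩).1 = a then δ i j else 0 := by
  have h3 : ∑ p : Fin s, (fun w : Σ i, Fin (d i) => δ w.1 w.2) (E.symm ⟨a, p⟩) =
      ∑ y : (Σ _ : Fin 2, Fin s),
        if y.1 = a then (fun w : Σ i, Fin (d i) => δ w.1 w.2) (E.symm y) else 0 := by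
    rw [Fintype.sum_sigma, Finset.sum_eq_single a]
    · simp
    · intro b _ hb
      exact Finset.sum_eq_zero fun p _ => if_neg hb
    · intro h
      exact absurd (Finset.mem_univ _) h
  refine h3.trans ?_
  rw [← Equiv.sum_comp E, Fintype.sum_sigma]
  refine Finset.sum_congr rfl fun i _ => Finset.sum_congr rfl fun j _ => ?_
  rw [Equiv.symm_apply_apply]

/-- values in the special chain -/
theorem pick_two [Infinite K] (h2 : (2 : K) ≠ 0) {c : ℕ} (col : Fin c → Fin 2)
    (hcol : ∀ a, ∃ j, col j = a) (t σ : K) :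
    ∃ x : Fin c → K, (∀ j j', j ≠ j' → col j = col j' → x j ≠ x j') ∧ ∑ j, x j = t ∧
      ∑ j, (if col j = 0 then x j else 0) = σ := by
  classical
  have hn : ∀ a, Nonempty {j // col j = a} := fun a => by
    obtain ⟨j, hj⟩ := hcol a
    exact ⟨⟨j, hj⟩⟩
  have h : ∀ a, ∃ x : {j // col j = a} → K, Function.Injective x ∧
      ∑ i, x i = if a = 0 then σ else t - σ := fun a => by
    have := hn a
    exact pick_type h2 _
  choose x hx1 hx2 using h
  let y : Fin c → K := fun j => x (col j) ⟨j, rfl⟩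
  have hy : ∀ (a : Fin 2) (j : {j // col j = a}), y j = x a j := by
    rintro a ⟨j, rfl⟩
    rfl
  have hsum : ∀ a : Fin 2, ∑ j, (if col j = a then y j else 0) = if a = 0 then σ else t - σ := by
    intro a
    rw [← hx2 a, ← Finset.sum_filter, ← Finset.sum_subtype_eq_sum_filter]
    rw [Finset.subtype_univ]
    exact Finset.sum_congr rfl fun j _ => hy a j
  refine ⟨y, ?_, ?_, ?_⟩
  · intro j j' hj hc e
    have e1 := hy (col j) ⟨j, rfl⟩
    have e2 := hy (col j) ⟨j', hc.symm⟩
    simp only at e1 e2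
    rw [e1, e2] at e
    have := hx1 _ e
    exact hj (congrArg Subtype.val this)
  · have h0 := hsum 0
    have h1 := hsum 1
    rw [if_pos rfl] at h0
    rw [if_neg (by decide)] at h1
    have : ∑ j, y j = ∑ j, (if col j = 0 then y j else 0) + ∑ j, (if col j = 1 then y j else 0) := by
      rw [← Finset.sum_add_distrib]
      refine Finset.sum_congr rfl fun j _ => ?_
      rcases Fin.exists_fin_two.1 ⟨col j, rfl⟩ with e | e
      · rw [if_pos e, if_neg (by rw [e]; decide), add_zero]
      · rw [if_neg (by rw [e]; decide), if_pos e, zero_add]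
    rw [this, h0, h1]
    ring
  · rw [hsum 0, if_pos rfl]

end Two2Aux

open TwoAux Two2Aux

theorem two_trace2 [Infinite K] (h2 : (2 : K) ≠ 0) [FiniteDimensional K V] (T : V →ₗ[K] V)
    (hT : ∀ μ : K, T ≠ μ • LinearMap.id) (s : ℕ) (hs : Module.finrank K V = 2 * s) (τ : K) :
    ∃ D : Fin 2 → Fin s → K, Blk T (fun _ => s) D ∧ ∑ i, D 0 i = τ := by
  classical
  obtain ⟨k, d, t, hc, i₀, h₀⟩ := chains_two T hT
  obtain ⟨E, β, hE⟩ := num_exists d s (by rw [dim_ch hc, hs])
  choose δ' hδ1 hδ2 using fun i => pick_chain (K := K) (hc.1 i) (t i)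
  set R := ∑ i ∈ univ.erase i₀, ∑ j, if (E ⟨i, j⟩).1 = 0 then δ' i j else 0 with hR
  obtain ⟨x, hx1, hx2, hx3⟩ := pick_two h2 (fun j : Fin (d i₀) => (E ⟨i₀, j⟩).1)
    (fun a => cnt_pos hE h₀ a) (t i₀) (τ - R)
  set δ : (i : Fin k) → Fin (d i) → K := Function.update δ' i₀ x with hδ
  have e0 : δ i₀ = x := Function.update_self _ _ _
  have e1 : ∀ i, i ≠ i₀ → δ i = δ' i := fun i hi => Function.update_of_ne hi _ _
  refine ⟨_, blk_ch hc hE δ ?_ ?_, ?_⟩
  · intro i
    by_cases hi : i = i₀
    · subst hi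
      rw [e0, hx2]
    · rw [e1 i hi, hδ2]
  · intro i j j' hj hcj
    by_cases hi : i = i₀
    · subst hi
      rw [e0]
      exact hx1 j j' hj hcj
    · rw [e1 i hi]
      exact fun e => hj (hδ1 i (len_ne_two hE hj hcj) e)
  · rw [sum_col, ← Finset.add_sum_erase univ _ (Finset.mem_univ i₀), e0, hx3]
    have : ∑ i ∈ univ.erase i₀, ∑ j, (if (E ⟨i, j⟩).1 = 0 then δ i j else 0) = R := by
      rw [hR]
      refine Finset.sum_congr rfl fun i hi => ?_
      rw [e1 i (Finset.ne_of_mem_erase hi)]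
    rw [this]
    ring

theorem two_ne2 [Infinite K] [FiniteDimensional K V] (T : V →ₗ[K] V)
    (hT : ∀ μ : K, T ≠ μ • LinearMap.id) (s : ℕ) (hs : Module.finrank K V = 2 * s) (hs2 : 2 ≤ s) :
    ∃ D : Fin 2 → Fin s → K, Blk T (fun _ => s) D ∧ ∀ a, ∃ i j, D a i ≠ D a j := by
  classical
  obtain ⟨k, d, t, hc, i₀, h₀⟩ := chains_two T hT
  obtain ⟨E, β, hE⟩ := num_exists d s (by rw [dim_ch hc, hs])
  choose δ' hδ1 hδ2 using fun i => pick_chain (K := K) (hc.1 i) (t i)
  set F : Finset K := (univ : Finset (Σ i, Fin (d i))).image (fun w => δ' w.1 w.2) with hF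
  obtain ⟨x, hx1, hx2, hx3⟩ : ∃ x : Fin (d i₀) → K, (d i₀ ≠ 2 → Function.Injective x) ∧
      ∑ i, x i = t i₀ ∧ ∀ i, x i ∉ F := by
    by_cases hd : d i₀ = 2
    · obtain ⟨y, hy⟩ := Infinite.exists_notMem_finset (F ∪ F.image (fun f => t i₀ - f))
      simp only [Finset.mem_union, not_or] at hy
      have h4 : t i₀ - y ∉ F := by
        intro h5
        exact hy.2 (Finset.mem_image.2 ⟨t i₀ - y, h5, by ring⟩)
      have key : ∀ c : ℕ, c = 2 → ∃ x : Fin c → K, ∑ i, x i = t i₀ ∧ ∀ i, x i ∉ F := by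
        rintro c rfl
        refine ⟨![y, t i₀ - y], ?_, ?_⟩
        · rw [Fin.sum_univ_two]
          change y + (t i₀ - y) = t i₀
          ring
        · intro i
          fin_cases i
          · exact hy.1
          · exact h4
      obtain ⟨x, hx1, hx2⟩ := key (d i₀) hd
      exact ⟨x, fun h => absurd hd h, hx1, hx2⟩
    · obtain ⟨x, hx1, hx2, hx3⟩ := pick (d i₀) h₀ (t i₀) F (fun h => absurd h hd)
      exact ⟨x, fun _ => hx1, hx2, hx3⟩
  set δ : (i : Fin k) → Fin (d i) → K := Function.update δ' i₀ x with hδ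
  have e0 : δ i₀ = x := Function.update_self _ _ _
  have e1 : ∀ i, i ≠ i₀ → δ i = δ' i := fun i hi => Function.update_of_ne hi _ _
  refine ⟨_, blk_ch hc hE δ ?_ ?_, ?_⟩
  · intro i
    by_cases hi : i = i₀
    · subst hi
      rw [e0, hx2]
    · rw [e1 i hi, hδ2]
  · intro i j j' hj hcj
    by_cases hi : i = i₀
    · subst hi
      rw [e0]
      exact fun e => hj (hx1 (len_ne_two hE hj hcj) e)
    · rw [e1 i hi]
      exact fun e => hj (hδ1 i (len_ne_two hE hj hcj) e)
  · intro a
    obtain ⟨j, hj⟩ := cnt_pos hE h₀ a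
    obtain ⟨p, hp⟩ : ∃ p : Fin s, E ⟨i₀, j⟩ = ⟨a, p⟩ := by
      refine ⟨(E ⟨i₀, j⟩).2, ?_⟩
      rw [← hj]
    obtain ⟨q, hq⟩ : ∃ q : Fin s, q ≠ p := by
      by_cases h : (p : ℕ) = 0
      · exact ⟨⟨1, by omega⟩, fun e => by rw [← e] at h; simp at h⟩
      · exact ⟨⟨0, by omega⟩, fun e => by rw [← e] at h; simp at h⟩
    refine ⟨p, q, ?_⟩
    have hp' : E.symm ⟨a, p⟩ = ⟨i₀, j⟩ := by rw [← hp, Equiv.symm_apply_apply]
    obtain ⟨i', j', hq'⟩ : ∃ i' j', E.symm ⟨a, q⟩ = ⟨i', j'⟩ := ⟨_, _, rfl⟩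
    have hq2 : E ⟨i', j'⟩ = ⟨a, q⟩ := by rw [← hq', Equiv.apply_symm_apply]
    change δ (E.symm ⟨a, p⟩).1 (E.symm ⟨a, p⟩).2 ≠ δ (E.symm ⟨a, q⟩).1 (E.symm ⟨a, q⟩).2
    rw [hp', hq']
    by_cases hi : i' = i₀
    · subst hi
      have hjj : j ≠ j' := by
        rintro rfl
        rw [hp] at hq2
        exact hq (eq_of_heq (Sigma.mk.inj hq2).2).symm
      rw [e0]
      exact fun e => hjj (hx1 (len_ne_two hE hjj (by rw [hp, hq2])) e)
    · rw [e0, e1 i' hi]
      intro e
      apply hx3 j
      rw [e, hF]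
      exact Finset.mem_image.2 ⟨⟨i', j'⟩, Finset.mem_univ _, rfl⟩

end Pool.Agent.P5q
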