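import Pool.Agent.Lib.P5q.SmallP
import Pool.Agent.Lib.P5q.Large
import Pool.Agent.Lib.P5m.Small

/-!
# Two good block sizes over every infinite field
-/

open Finset Matrix

namespace Pool.Agent.P5q

open Pool.Agent.P5m

universe u

variable {r : ℕ}

theorem sh_inj {l : ℕ} (a₀ : Fin (r + 1) → ℤ) (ha : ∑ j, a₀ j = 0)
    (b : Fin (r + 1) → ZMod l) (hG : Gpt l (fun j => (a₀ j : ZMod l)) b)
    (σ : Equiv.Perm (Fin (r + 1))) : Function.Injective (sh σ a₀) := by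
  classical
  -- a nonempty set of letters, not all letters, has nonzero sum
  have key : ∀ U : Finset (Fin (r + 1)), U.Nonempty → Uᶜ.Nonempty → ∑ j ∈ U, a₀ j ≠ 0 := by
    intro U hU hU' h0
    have h1 : ∑ j ∈ Uᶜ, a₀ j = 0 := by
      have := Finset.sum_add_sum_compl U a₀
      rw [h0, zero_add, ha] at this
      exact this
    have h2 : ∀ T : Finset (Fin (r + 1)), ∑ j ∈ T, a₀ j = 0 → 0 ∉ T → T = ∅ := by
      intro T hT h0T
      refine hG.sub T ∅ h0T (by simp) ?_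
      rw [Finset.sum_empty, ← Int.cast_sum, hT, Int.cast_zero]
    by_cases h : (0 : Fin (r + 1)) ∈ U
    · exact hU'.ne_empty (h2 _ h1 (by simpa using h))
    · exact hU.ne_empty (h2 _ h0 h)
  have main : ∀ s t : Fin (r + 1), s < t → sh σ a₀ s ≠ sh σ a₀ t := by
    intro s t hst h
    have h1 : ∑ j ∈ univ.filter (fun j => s ≤ σ.symm j ∧ σ.symm j < t), a₀ j = 0 := by
      rw [Finset.sum_filter, ← Equiv.sum_comp σ]
      simp only [Equiv.symm_apply_apply]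
      have h2 : ∀ p : Fin (r + 1), (if s ≤ p ∧ p < t then a₀ (σ p) else 0) =
          (if p < t then a₀ (σ p) else 0) - (if p < s then a₀ (σ p) else 0) := by
        intro p
        by_cases h3 : p < s
        · rw [if_neg (fun h4 => absurd h4.1 (not_le.2 h3)), if_pos (h3.trans hst), if_pos h3,
            sub_self]
        · by_cases h4 : p < t
          · rw [if_pos ⟨not_lt.1 h3, h4⟩, if_pos h4, if_neg h3, sub_zero]
          · rw [if_neg (fun h5 => h4 h5.2), if_neg h4, if_neg h3, sub_zero]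
      rw [Finset.sum_congr rfl fun p _ => h2 p, Finset.sum_sub_distrib]
      change sh σ a₀ t - sh σ a₀ s = 0
      rw [h, sub_self]
    refine key _ ⟨σ s, ?_⟩ ⟨σ t, ?_⟩ h1
    · simp only [mem_filter, mem_univ, true_and, Equiv.symm_apply_apply]
      exact ⟨le_rfl, hst⟩
    · simp
  intro s t h
  rcases lt_trichotomy s t with h1 | h1 | h1
  · exact absurd h (main s t h1)
  · exact h1
  · exact absurd h.symm (main t s h1)

theorem sh_le (a₀ : Fin (r + 1) → ℤ) (σ : Equiv.Perm (Fin (r + 1))) (s : Fin (r + 1)) :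
    |sh σ a₀ s| ≤ ((∑ j, (a₀ j).natAbs : ℕ) : ℤ) := by
  unfold sh
  refine le_trans (Finset.abs_sum_le_sum_abs _ _) ?_
  have h1 : ((∑ j, (a₀ j).natAbs : ℕ) : ℤ) = ∑ p, |a₀ (σ p)| := by
    rw [← Equiv.sum_comp σ, Nat.cast_sum]
    exact Finset.sum_congr rfl fun p _ => Int.natCast_natAbs _
  rw [h1]
  refine Finset.sum_le_sum fun p _ => ?_
  by_cases h : p < s
  · rw [if_pos h]
  · rw [if_neg h, abs_zero]
    exact abs_nonneg _

theorem nb_count {K : Type u} [Field K] (α : Equiv.Perm (Fin (r + 1)) → K) (a₀ : Fin (r + 1) → ℤ)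
    (hinj : ∀ σ : Equiv.Perm (Fin (r + 1)), Function.Injective (sh σ a₀)) (P : Finset ℕ)
    (hP : ∀ l ∈ P, l.Prime) (hN : ∀ l ∈ P, ¬ Nb α a₀ l) :
    P.card ≤ Fintype.card (Equiv.Perm (Fin (r + 1)) × Equiv.Perm (Fin (r + 1))) +
      Fintype.card (Equiv.Perm (Fin (r + 1))) * (2 * ∑ j, (a₀ j).natAbs) := by
  classical
  set P1 : Equiv.Perm (Fin (r + 1)) × Equiv.Perm (Fin (r + 1)) → Finset ℕ := fun q =>
    P.filter fun l => α q.1 ≠ 0 ∧ ∃ (k : ℕ) (z : AlgebraicClosure K), z ^ l ^ k = 1 ∧ z ≠ 1 ∧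
      ac α q.1 + ac α q.2 * z = 0 with hP1
  set P2 : Equiv.Perm (Fin (r + 1)) → Finset ℕ := fun σ =>
    P.filter fun l => (∃ s : Fin (r + 1), α (σ * (finRotate (r + 1)) ^ (s : ℕ)) ≠ 0) ∧
      ∃ (k : ℕ) (z : AlgebraicClosure K), z ^ l ^ k = 1 ∧ z ≠ 1 ∧
      ∑ s : Fin (r + 1), ac α (σ * (finRotate (r + 1)) ^ (s : ℕ)) * z ^ (sh σ a₀ s) = 0 with hP2
  have h1 : ∀ q, (P1 q).card ≤ 1 := by
    intro q
    by_cases hq : α q.1 = 0
    · have : P1 q = ∅ := by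
        rw [hP1]
        refine Finset.filter_false_of_mem fun l _ h => h.1 hq
      rw [this, Finset.card_empty]
      exact Nat.zero_le _
    · refine bad_pair (ac α q.1) (ac α q.2) (ac_ne hq) _ fun l hl => ?_
      rw [hP1, mem_filter] at hl
      exact ⟨hP l hl.1, hl.2.2⟩
  have h2 : ∀ σ, (P2 σ).card ≤ 2 * ∑ j, (a₀ j).natAbs := by
    intro σ
    by_cases hq : ∃ s : Fin (r + 1), α (σ * (finRotate (r + 1)) ^ (s : ℕ)) ≠ 0
    · refine bad_poly (fun s : Fin (r + 1) => ac α (σ * (finRotate (r + 1)) ^ (s : ℕ)))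
        (sh σ a₀) (hinj σ) _ (sh_le a₀ σ) ?_ _ fun l hl => ?_
      · obtain ⟨s, hs⟩ := hq
        exact ⟨s, ac_ne hs⟩
      · rw [hP2, mem_filter] at hl
        exact ⟨hP l hl.1, hl.2.2⟩
    · have : P2 σ = ∅ := by
        rw [hP2]
        refine Finset.filter_false_of_mem fun l _ h => hq h.1
      rw [this, Finset.card_empty]
      exact Nat.zero_le _
  have h3 : P ⊆ univ.biUnion P1 ∪ univ.biUnion P2 := by
    intro l hl
    rw [mem_union, mem_biUnion, mem_biUnion]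
    by_contra hcon
    push Not at hcon
    apply hN l hl
    constructor
    · intro σ τ hσ k z hz hz1 h0
      refine hcon.1 (σ, τ) (mem_univ _) ?_
      rw [hP1, mem_filter]
      exact ⟨hl, hσ, k, z, hz, hz1, h0⟩
    · intro σ hσ k z hz hz1 h0
      refine hcon.2 σ (mem_univ _) ?_
      rw [hP2, mem_filter]
      exact ⟨hl, hσ, k, z, hz, hz1, h0⟩
  refine le_trans (Finset.card_le_card h3) (le_trans (Finset.card_union_le _ _) ?_)
  refine add_le_add ?_ ?_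
  · refine le_trans Finset.card_biUnion_le ?_
    refine le_trans (Finset.sum_le_sum fun q _ => h1 q) ?_
    rw [Finset.sum_const, Finset.card_univ, smul_eq_mul, mul_one]
  · refine le_trans Finset.card_biUnion_le ?_
    refine le_trans (Finset.sum_le_sum fun q _ => h2 q) ?_
    rw [Finset.sum_const, Finset.card_univ, smul_eq_mul]

/-- `n` is a good block size for `α`. -/
def Bz {K : Type u} [Field K] (α : Equiv.Perm (Fin (r + 1)) → K) (n : ℕ) : Prop :=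
  ∃ (_ : NeZero n) (a b : Fin (r + 1) → ZMod n), Bs α a b

theorem small_two (p : ℕ) (hp : p.Prime) (P : Finset ℕ)
    (hP : ∀ l ∈ P, l.Prime ∧ 2 < l ∧ l ≠ p ∧
      Fintype.card (Equiv.Perm (Fin (r + 1)) × Equiv.Perm (Fin (r + 1))) + 1 < l)
    (a₀ b₀ : Fin (r + 1) → ℤ) (ha : ∑ j, a₀ j = 0)
    (hG : ∀ l ∈ P, Gpt l (fun j => (a₀ j : ZMod l)) (fun j => (b₀ j : ZMod l)))
    (hcard : Fintype.card (Equiv.Perm (Fin (r + 1)) × Equiv.Perm (Fin (r + 1))) +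
      Fintype.card (Equiv.Perm (Fin (r + 1))) * (2 * ∑ j, (a₀ j).natAbs) + 1 < P.card) :
    ∃ M : ℕ, ∀ (K : Type u) [Field K] [Infinite K] [CharP K p]
      (α : Equiv.Perm (Fin (r + 1)) → K), α 1 ≠ 0 → ∃ l ∈ P, ∃ l' ∈ P, l ≠ l' ∧
        ∃ s s' : ℕ, 1 ≤ s ∧ 1 ≤ s' ∧ l ^ s ≤ M ∧ l' ^ s' ≤ M ∧ Bz α (l ^ s) ∧ Bz α (l' ^ s') := by
  classical
  have h1 : ∀ l : P, ∃ S : ℕ, ∀ (Ω : Type u) [Field Ω] [CharP Ω p] [IsAlgClosed Ω]
      (W : Type) [Fintype W], Fintype.card W ≤ Fintype.card (Equiv.Perm (Fin (r + 1))) →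
      ∀ α : W → Ω, ∃ (s : ℕ) (ζ : Ω), 1 ≤ s ∧ s ≤ S ∧
        IsPrimitiveRoot ζ ((l : ℕ) ^ s) ∧ ∀ x : W → ℕ, ∑ σ, α σ * ζ ^ x σ = 0 →
          ∀ e, ∑ σ with x σ % (l : ℕ) = e, α σ * ζ ^ x σ = 0 := fun l =>
    tower p l _ hp (hP l l.2).1 (hP l l.2).2.1 (Ne.symm (hP l l.2).2.2.1)
  choose S hS using h1
  refine ⟨univ.sup fun l : P => (l : ℕ) ^ S l, fun K _ _ _ α hα => ?_⟩
  have hinj : ∀ σ : Equiv.Perm (Fin (r + 1)), Function.Injective (sh σ a₀) := by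
    obtain ⟨l, hl⟩ : P.Nonempty := Finset.card_pos.1 (by omega)
    exact fun σ => sh_inj a₀ ha _ (hG l hl) σ
  have h2 := nb_count α a₀ hinj (P.filter fun l => ¬ Nb α a₀ l)
    (fun l hl => (hP l (mem_filter.1 hl).1).1) (fun l hl => (mem_filter.1 hl).2)
  have h3 := Finset.card_filter_add_card_filter_not (s := P) (fun l => Nb α a₀ l)
  have h4 : 1 < (P.filter fun l => Nb α a₀ l).card := by omega
  have h5 : ∀ l ∈ P, Nb α a₀ l → ∃ s, 1 ≤ s ∧
      l ^ s ≤ univ.sup (fun l : P => (l : ℕ) ^ S l) ∧ Bz α (l ^ s) := by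
    intro l hl hN
    haveI : CharP (AlgebraicClosure K) p :=
      charP_of_injective_algebraMap (algebraMap K (AlgebraicClosure K)).injective p
    obtain ⟨s, ζ, hs1, hs2, hζ, ht⟩ := hS ⟨l, hl⟩ (AlgebraicClosure K)
      (Equiv.Perm (Fin (r + 1))) le_rfl (ac α)
    have hne : NeZero (l ^ s) := ⟨pow_ne_zero _ (hP l hl).1.ne_zero⟩
    refine ⟨s, hs1, ?_, hne, _, _, bs_small (hP l hl).1 hs1 ?_ (hP l hl).2.2.2 α hα a₀ b₀ ha
      (hG l hl) hN ζ hζ ht⟩
    · refine le_trans (Nat.pow_le_pow_right (hP l hl).1.pos hs2) ?_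
      exact Finset.le_sup (f := fun l : P => (l : ℕ) ^ S l) (mem_univ (⟨l, hl⟩ : P))
    · intro h0
      rw [CharP.cast_eq_zero_iff K p] at h0
      exact (hP l hl).2.2.1 (((Nat.prime_dvd_prime_iff_eq hp (hP l hl).1).1 h0).symm)
  obtain ⟨l, hl, l', hl', hne⟩ := Finset.one_lt_card.1 h4
  rw [mem_filter] at hl hl'
  obtain ⟨s, hs1, hs2, hs3⟩ := h5 l hl.1 hl.2
  obtain ⟨s', hs1', hs2', hs3'⟩ := h5 l' hl'.1 hl'.2
  exact ⟨l, hl.1, l', hl'.1, hne, s, s', hs1, hs1', hs2, hs2', hs3, hs3'⟩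

/-- Two coprime odd good block sizes, bounded in terms of the degree. -/
theorem two_blocks (r : ℕ) : ∃ M : ℕ, ∀ (K : Type u) [Field K] [Infinite K]
    (α : Equiv.Perm (Fin (r + 1)) → K), α 1 ≠ 0 → ∃ n n' : ℕ, n' < n ∧ n ≤ M ∧ 5 ≤ n' ∧
      n.Coprime n' ∧ Odd n ∧ Odd n' ∧ Bz α n ∧ Bz α n' := by
  classical
  obtain ⟨a₀, b₀, L, ha, hG⟩ := exists_gptZ r
  set w := Fintype.card (Equiv.Perm (Fin (r + 1))) with hw
  set w2 := Fintype.card (Equiv.Perm (Fin (r + 1)) × Equiv.Perm (Fin (r + 1))) with hw2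
  have hww : w ≤ w2 := by
    rw [hw2, Fintype.card_prod]
    exact Nat.le_mul_of_pos_left _ Fintype.card_pos
  set B := ∑ j, (a₀ j).natAbs with hB
  obtain ⟨P, hP1, hP2⟩ := exists_primes (max L (w2 + 4)) (w2 + w * (2 * B) + 3)
  have hPL : ∀ l ∈ P, L < l := fun l hl => lt_of_le_of_lt (le_max_left _ _) (hP2 l hl).2
  have hPw : ∀ l ∈ P, w2 + 4 < l := fun l hl => lt_of_le_of_lt (le_max_right _ _) (hP2 l hl).2
  have hodd : ∀ l ∈ P, Odd l := fun l hl => (hP2 l hl).1.odd_of_ne_two (by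
    have := hPw l hl
    omega)
  obtain ⟨C, hC⟩ := large_two.{u} (r := r) P (fun l hl => ⟨(hP2 l hl).1, by
    have := hPw l hl
    omega⟩) a₀ b₀ (fun l hl => hG l (hP2 l hl).1 (hPL l hl)) (by omega)
  have hsm : ∀ p : {p : ℕ // p.Prime ∧ p ≤ C}, ∃ M : ℕ, ∀ (K : Type u) [Field K] [Infinite K]
      [CharP K p] (α : Equiv.Perm (Fin (r + 1)) → K), α 1 ≠ 0 → ∃ l ∈ P.erase p,
        ∃ l' ∈ P.erase p, l ≠ l' ∧ ∃ s s' : ℕ, 1 ≤ s ∧ 1 ≤ s' ∧ l ^ s ≤ M ∧ l' ^ s' ≤ M ∧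
          Bz α (l ^ s) ∧ Bz α (l' ^ s') := by
    intro p
    refine small_two p p.2.1 (P.erase p) (fun l hl => ?_) a₀ b₀ ha
      (fun l hl => hG l (hP2 l (mem_of_mem_erase hl)).1 (hPL l (mem_of_mem_erase hl))) ?_
    · have h1 := mem_of_mem_erase hl
      have h2 := hPw l h1
      exact ⟨(hP2 l h1).1, by omega, ne_of_mem_erase hl, by omega⟩
    · have h1 := Finset.pred_card_le_card_erase (s := P) (a := (p : ℕ))
      have h2 : w2 + w * (2 * B) + 1 < (P.erase p).card := by omega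
      exact h2
  haveI : Finite {p : ℕ // p.Prime ∧ p ≤ C} :=
    Set.Finite.to_subtype ((Set.finite_le_nat C).subset fun p hp => hp.2)
  haveI := Fintype.ofFinite {p : ℕ // p.Prime ∧ p ≤ C}
  choose Mp hMp using hsm
  refine ⟨max (P.sup id) (univ.sup Mp), fun K _ _ α hα => ?_⟩
  by_cases hbig : ∀ n : ℕ, 0 < n → n ≤ C → (n : K) ≠ 0
  · obtain ⟨l, hl, l', hl', hlt, ⟨i1, b1⟩, i2, b2⟩ := hC K hbig α hα
    refine ⟨l, l', hlt, le_trans (Finset.le_sup (f := id) hl) (le_max_left _ _), ?_,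
      (Nat.coprime_primes (hP2 l hl).1 (hP2 l' hl').1).2 (by omega), hodd l hl, hodd l' hl',
      ⟨i1, _, _, b1⟩, ⟨i2, _, _, b2⟩⟩
    have := hPw l' hl'
    omega
  · push Not at hbig
    obtain ⟨n, hn0, hnC, hn⟩ := hbig
    obtain ⟨p, hp⟩ := CharP.exists K
    have hpn : p ∣ n := (CharP.cast_eq_zero_iff K p n).1 hn
    have hp0 : p ≠ 0 := by
      rintro rfl
      exact hn0.ne' (Nat.eq_zero_of_zero_dvd hpn)
    have hpp : p.Prime := (CharP.char_is_prime_or_zero K p).resolve_right hp0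
    have hpC : p ≤ C := le_trans (Nat.le_of_dvd hn0 hpn) hnC
    obtain ⟨l, hl, l', hl', hne, s, s', hs, hs', hM, hM', b1, b2⟩ :=
      hMp ⟨p, hpp, hpC⟩ K α hα
    have hle : Mp ⟨p, hpp, hpC⟩ ≤ max (P.sup id) (univ.sup Mp) :=
      le_trans (Finset.le_sup (f := Mp) (mem_univ _)) (le_max_right _ _)
    have hlP := mem_of_mem_erase hl
    have hlP' := mem_of_mem_erase hl'
    have hcop : (l ^ s).Coprime (l' ^ s') :=
      Nat.Coprime.pow _ _ ((Nat.coprime_primes (hP2 l hlP).1 (hP2 l' hlP').1).2 hne)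
    have h3 : 5 ≤ l ^ s := by
      have h1 := hPw l hlP
      have h2 : l ^ 1 ≤ l ^ s := Nat.pow_le_pow_right (by omega) hs
      rw [pow_one] at h2
      omega
    have h3' : 5 ≤ l' ^ s' := by
      have h1 := hPw l' hlP'
      have h2 : l' ^ 1 ≤ l' ^ s' := Nat.pow_le_pow_right (by omega) hs'
      rw [pow_one] at h2
      omega
    rcases lt_trichotomy (l ^ s) (l' ^ s') with h | h | h
    · exact ⟨l' ^ s', l ^ s, h, le_trans hM' hle, h3, hcop.symm, (hodd l' hlP').pow,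
        (hodd l hlP).pow, b2, b1⟩
    · rw [h, Nat.coprime_self] at hcop
      omega
    · exact ⟨l ^ s, l' ^ s', h, le_trans hM hle, h3', hcop, (hodd l hlP).pow,
        (hodd l' hlP').pow, b1, b2⟩

end Pool.Agent.P5q
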