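import Pool.Agent.Lib.P5q.ParZ
import Pool.Agent.Lib.P5q.GenZ
import Pool.Agent.Lib.P5m.Scal

/-!
# Zeros of the character sum modulo `n`, where `l` divides `n` and residues modulo `l` are generic

The parameters `a, b` are elements of `ZMod n`, their residues modulo the prime `l` form a generic
pair, and the sums over the classes modulo `l` of the exponents vanish (`Gd.p0`). The zeros are
again given by rational expressions in `a, b`.
-/

open Finset

namespace Pool.Agent.P5q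

open Pool.Agent.P5m Pool.Agent.P5m.ZerosAux

variable {r : ℕ} {K : Type*} [Field K]

/-- The sum of the first `s` parameters of the word `σ`. -/
def sh {R : Type*} [CommRing R] (σ : Equiv.Perm (Fin (r + 1))) (a : Fin (r + 1) → R)
    (s : Fin (r + 1)) : R := ∑ p, if p < s then a (σ p) else 0

theorem pre_rot {R : Type*} [CommRing R] (σ : Equiv.Perm (Fin (r + 1))) (s : Fin (r + 1))
    (a : Fin (r + 1) → R) (ha : ∑ j, a j = 0) (q : Fin (r + 1)) :
    pre (σ * (finRotate (r + 1)) ^ (s : ℕ)) a (σ q) = pre σ a (σ q) - sh σ a s := by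
  unfold pre sh
  rw [← Equiv.sum_comp σ, ← Equiv.sum_comp σ (fun j => (O σ j (σ q) : R) * a j)]
  simp only [O_rot]
  have h1 : ∀ p, (((O σ (σ p) (σ q) - ((if p < s then 1 else 0) - (if q < s then 1 else 0)) : ℤ)
      : R)) * a (σ p) = (O σ (σ p) (σ q) : R) * a (σ p) - (if p < s then a (σ p) else 0) +
      (if q < s then 1 else 0) * a (σ p) := by
    intro p
    push_cast
    split_ifs <;> ring
  simp only [h1]
  rw [sum_add_distrib, sum_sub_distrib, ← mul_sum, Equiv.sum_comp σ a, ha, mul_zero, add_zero]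

theorem ex_rot_gen {R : Type*} [CommRing R] (σ : Equiv.Perm (Fin (r + 1))) (s : Fin (r + 1))
    (a c : Fin (r + 1) → R) (ha : ∑ j, a j = 0) :
    ex (σ * (finRotate (r + 1)) ^ (s : ℕ)) a c = ex σ a c - (∑ j, c j) * sh σ a s := by
  unfold ex
  rw [← Equiv.sum_comp σ, ← Equiv.sum_comp σ (fun k => c k * pre σ a k)]
  simp only [pre_rot σ s a ha, mul_sub, sum_sub_distrib]
  rw [← sum_mul, Equiv.sum_comp σ c]

theorem nt_pre {R S : Type*} [CommRing R] [CommRing S] (φ : R →+* S)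
    (σ : Equiv.Perm (Fin (r + 1))) (a : Fin (r + 1) → R) (k : Fin (r + 1)) :
    pre σ (fun j => φ (a j)) k = φ (pre σ a k) := by
  unfold pre
  rw [map_sum]
  refine sum_congr rfl fun j _ => ?_
  rw [map_mul, map_intCast]

theorem nt_ex {R S : Type*} [CommRing R] [CommRing S] (φ : R →+* S)
    (σ : Equiv.Perm (Fin (r + 1))) (a c : Fin (r + 1) → R) :
    ex σ (fun j => φ (a j)) (fun j => φ (c j)) = φ (ex σ a c) := by
  unfold ex
  simp only [nt_pre, map_sum, map_mul]

/-- The conditions on coefficients, character and parameters. -/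
structure Gd {l n : ℕ} (h : l ∣ n) (α : Equiv.Perm (Fin (r + 1)) → K)
    (ψ : AddChar (ZMod n) (AlgebraicClosure K)) (a : Fin (r + 1) → ZMod n) : Prop where
  p0 : ∀ c : Fin (r + 1) → ZMod n, E (ac α) ψ a c = 0 → ∀ e : ZMod l,
    ∑ σ with ZMod.castHom h (ZMod l) (ex σ a c) = e, ac α σ * ψ (ex σ a c) = 0
  c1 : ∀ σ τ e, α σ ≠ 0 → ac α σ + ac α τ * ψ e = 0 → e = 0
  c2 : ∀ σ e, e ≠ 0 → ∑ s : Fin (r + 1),
    ac α (σ * (finRotate (r + 1)) ^ (s : ℕ)) * ψ (e * sh σ a s) = 0 →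
    ∀ s : Fin (r + 1), α (σ * (finRotate (r + 1)) ^ (s : ℕ)) = 0

theorem ac_ne {α : Equiv.Perm (Fin (r + 1)) → K} {σ : Equiv.Perm (Fin (r + 1))} (h : α σ ≠ 0) :
    ac α σ ≠ 0 := by
  unfold ac
  exact (map_ne_zero _).2 h

theorem ac_eq {α : Equiv.Perm (Fin (r + 1)) → K} {σ : Equiv.Perm (Fin (r + 1))} (h : α σ = 0) :
    ac α σ = 0 := by
  unfold ac
  rw [h, map_zero]

theorem psi_ne {n : ℕ} [NeZero n] {L : Type*} [Field L] (ψ : AddChar (ZMod n) L) (x : ZMod n) :
    ψ x ≠ 0 := by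
  intro h
  have h1 : ψ (x + -x) = ψ x * ψ (-x) := AddChar.map_add_eq_mul ψ x (-x)
  rw [add_neg_cancel, AddChar.map_zero_eq_one, h, zero_mul] at h1
  exact one_ne_zero h1

theorem upd_cast {R S : Type*} (φ : R → S) (b : Fin (r + 1) → R) (s : Fin (r + 1)) (β : R) :
    (fun j => φ (Function.update b s β j)) = Function.update (fun j => φ (b j)) s (φ β) := by
  funext j
  by_cases h : j = s
  · subst h
    rw [Function.update_self, Function.update_self]
  · rw [Function.update_of_ne h, Function.update_of_ne h]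

theorem par_of_E {l n : ℕ} [NeZero n] (h : l ∣ n) {α : Equiv.Perm (Fin (r + 1)) → K}
    {ψ : AddChar (ZMod n) (AlgebraicClosure K)} {a : Fin (r + 1) → ZMod n}
    (hG : Gd h α ψ a) (c : Fin (r + 1) → ZMod n) (h0 : E (ac α) ψ a c = 0) :
    Par α (fun j => ZMod.castHom h (ZMod l) (a j)) (fun j => ZMod.castHom h (ZMod l) (c j)) := by
  intro σ hσ
  by_contra hcon
  push Not at hcon
  have h1 := hG.p0 c h0 (ZMod.castHom h (ZMod l) (ex σ a c))
  rw [Finset.sum_eq_single σ] at h1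
  · rcases mul_eq_zero.1 h1 with h2 | h2
    · exact ac_ne hσ h2
    · exact psi_ne ψ _ h2
  · intro τ hτ hne
    rw [mem_filter] at hτ
    by_cases hτ0 : α τ = 0
    · rw [ac_eq hτ0, zero_mul]
    · exact absurd (by rw [nt_ex, nt_ex, hτ.2]) (hcon τ hτ0 (Ne.symm hne))
  · intro hn
    exact absurd (by simp) hn

/-- Two words whose differences to a third word are opposite. -/
theorem Dl_opp {m : ℕ} (σ τ υ : Equiv.Perm (Fin m)) (h : ∀ j k, Dl σ τ j k = - Dl σ υ j k)
    (j k : Fin m) : Dl σ τ j k = 0 := by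
  have h1 := h j k
  unfold Dl O at *
  split_ifs at * <;> omega

/-- The class of a word at a zero which is not special has two elements. -/
theorem sol_some {l n : ℕ} [NeZero n] (hl : l.Prime) (h : l ∣ n)
    {α : Equiv.Perm (Fin (r + 1)) → K} (hα : ∃ σ, α σ ≠ 0)
    {ψ : AddChar (ZMod n) (AlgebraicClosure K)} {a b : Fin (r + 1) → ZMod n}
    (hG : Gd h α ψ a)
    (hab : Gpt l (fun j => ZMod.castHom h (ZMod l) (a j)) (fun j => ZMod.castHom h (ZMod l) (b j)))
    (β : ZMod n) (hβ : IsZ α ψ a b β) (σ₀ τ₀ : Equiv.Perm (Fin (r + 1)))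
    (hF : Rep α (fun j => ZMod.castHom h (ZMod l) (a j)) (fun j => ZMod.castHom h (ZMod l) (b j))
      (some (σ₀, τ₀)) (ZMod.castHom h (ZMod l) β)) :
    β * A (Dl σ₀ τ₀) a 0 + cf (Dl σ₀ τ₀) a b = 0 := by
  have : Fact l.Prime := ⟨hl⟩
  set φ := ZMod.castHom h (ZMod l) with hφ
  set ab := fun j => φ (a j) with hab1
  set bb := fun j => φ (b j) with hbb
  obtain ⟨σ, hσ⟩ := hα
  obtain ⟨hnt, hflip⟩ := hF.1 σ₀ τ₀ rfl
  obtain ⟨τ, hτ, hst⟩ := hflip.flip σ hσ
  have hz : φ β * A (Dl σ₀ τ₀) ab 0 + cf (Dl σ₀ τ₀) ab bb = 0 := hF.2.2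
  have hA0 : A (Dl σ₀ τ₀) ab 0 ≠ 0 := hF.2.1
  set c := Function.update b 0 β with hc
  have hcb : (fun j => φ (c j)) = Function.update bb 0 (φ β) := upd_cast φ b 0 β
  have hne : σ ≠ τ := by
    rintro rfl
    obtain ⟨j, k, hjk⟩ := hflip.ne
    have h0 : Dl σ σ j k = 0 := by unfold Dl; ring
    rcases hst with h1 | h1
    · have := h1 j k
      rw [h0] at this
      omega
    · have := h1 j k
      rw [h0] at this
      omega
  -- exponents modulo l
  have hcl : ∀ υ, ex υ ab (fun j => φ (c j)) = ex σ ab (fun j => φ (c j)) → σ ≠ υ → υ = τ := by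
    intro υ hυ hne'
    rw [hcb] at hυ
    obtain ⟨hz', -⟩ := matched hab hne' hυ.symm
    have h3 : E3 (Dl σ₀ τ₀) (Dl σ υ) ab bb = 0 := by
      unfold E3
      have e1 : cf (Dl σ υ) ab bb = - (φ β * A (Dl σ υ) ab 0) := eq_neg_of_add_eq_zero_left hz'
      have e2 : cf (Dl σ₀ τ₀) ab bb = - (φ β * A (Dl σ₀ τ₀) ab 0) := by
        rw [add_comm] at hz
        exact eq_neg_of_add_eq_zero_left hz
      rw [e1, e2]
      ring
    have h4 := zero_pair hnt (Dl_sm σ υ) (Dl_ne hne') (hab.e3 σ₀ τ₀ σ υ h3)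
    have h5 : (∀ j k, Dl σ υ j k = Dl σ τ j k) ∨ ∀ j k, Dl σ υ j k = - Dl σ τ j k := by
      rcases h4 with h4 | h4 <;> rcases hst with h5 | h5
      · left; intro j k; rw [h4, h5]
      · right; intro j k; rw [h4, h5, neg_neg]
      · right; intro j k; rw [h4, h5]
      · left; intro j k; rw [h4, h5]
    rcases h5 with h5 | h5
    · apply eq_of_Dl
      intro j k
      have := h5 j k
      unfold Dl at *
      omega
    · exact absurd (eq_of_Dl σ υ fun j k => Dl_opp σ υ τ h5 j k) hne'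
  have hexτ : φ (ex τ a c) = φ (ex σ a c) := by
    have h1 := ex_sub σ τ ab (Function.update bb 0 (φ β))
    rw [ZerosAux.sum_upd] at h1
    have h2 : φ β * A (Dl σ τ) ab 0 + ∑ k ∈ univ.erase 0, bb k * A (Dl σ τ) ab k = 0 := by
      change φ β * A (Dl σ τ) ab 0 + cf (Dl σ τ) ab bb = 0
      rcases hst with h3 | h3
      · rw [A_congr h3, cf_congr h3]
        exact hz
      · rw [A_neg h3, cf_neg h3]
        linear_combination -hz
    rw [h2, ← hcb, nt_ex, nt_ex] at h1
    exact (sub_eq_zero.1 h1).symm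
  -- the class sum
  have hsum := hG.p0 c hβ (φ (ex σ a c))
  have hpair : ∑ υ with φ (ex υ a c) = φ (ex σ a c), ac α υ * ψ (ex υ a c) =
      ac α σ * ψ (ex σ a c) + ac α τ * ψ (ex τ a c) := by
    have h1 : (univ.filter fun υ => φ (ex υ a c) = φ (ex σ a c)) = {σ, τ} := by
      ext υ
      simp only [mem_filter, mem_univ, true_and, mem_insert, mem_singleton]
      constructor
      · intro h2
        by_cases h3 : υ = σ
        · exact Or.inl h3
        · right
          exact hcl υ (by rw [nt_ex, nt_ex, h2]) (Ne.symm h3)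
      · rintro (rfl | rfl)
        · rfl
        · exact hexτ
    rw [h1, sum_pair hne]
  rw [hpair] at hsum
  have h6 : ac α σ + ac α τ * ψ (ex τ a c - ex σ a c) = 0 := by
    have h7 : ψ (ex τ a c) = ψ (ex τ a c - ex σ a c) * ψ (ex σ a c) := by
      rw [← AddChar.map_add_eq_mul, sub_add_cancel]
    rw [h7] at hsum
    apply mul_right_cancel₀ (psi_ne ψ (ex σ a c))
    rw [zero_mul]
    linear_combination hsum
  have h8 := hG.c1 σ τ _ hσ h6
  have h9 := ex_sub σ τ a c
  rw [← neg_sub, h8, neg_zero, hc, ZerosAux.sum_upd] at h9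
  have h10 : β * A (Dl σ τ) a 0 + cf (Dl σ τ) a b = 0 := h9.symm
  rcases hst with h3 | h3
  · rw [A_congr h3, cf_congr h3] at h10
    exact h10
  · rw [A_neg h3, cf_neg h3] at h10
    linear_combination -h10

theorem bt_upd {R : Type*} [CommRing R] (b : Fin (r + 1) → R) (β : R) :
    ∑ j, Function.update b 0 β j = β + bt b := by
  have := ZerosAux.sum_upd b β (fun _ => (1 : R))
  simp only [mul_one] at this
  exact this

/-- The special zero. -/
theorem sol_none {l n : ℕ} [NeZero n] (hl : l.Prime) (h : l ∣ n)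
    {α : Equiv.Perm (Fin (r + 1)) → K} (hα : ∃ σ, α σ ≠ 0)
    {ψ : AddChar (ZMod n) (AlgebraicClosure K)} {a b : Fin (r + 1) → ZMod n}
    (ha : ∑ j, a j = 0) (hG : Gd h α ψ a)
    (hab : Gpt l (fun j => ZMod.castHom h (ZMod l) (a j)) (fun j => ZMod.castHom h (ZMod l) (b j)))
    (β : ZMod n) (hβ : IsZ α ψ a b β)
    (hF : ZMod.castHom h (ZMod l) β + bt (fun j => ZMod.castHom h (ZMod l) (b j)) = 0) :
    β + bt b = 0 ∧ Cs α := by
  have : Fact l.Prime := ⟨hl⟩
  set φ := ZMod.castHom h (ZMod l) with hφ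
  set ab := fun j => φ (a j) with hab1
  set bb := fun j => φ (b j) with hbb
  set c := Function.update b 0 β with hc
  have hcb : (fun j => φ (c j)) = Function.update bb 0 (φ β) := upd_cast φ b 0 β
  have hcs : ∑ j, (fun j => φ (c j)) j = 0 := by
    rw [hcb, bt_upd]
    exact hF
  have hcl : ∀ σ υ : Equiv.Perm (Fin (r + 1)), φ (ex υ a c) = φ (ex σ a c) ↔
      ∃ s : Fin (r + 1), υ = σ * (finRotate (r + 1)) ^ (s : ℕ) := by
    intro σ υ
    constructor
    · intro he
      apply cyc_of_form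
      have h1 := ex_sub σ υ ab (Function.update bb 0 (φ β))
      rw [ZerosAux.sum_upd, ← hcb, nt_ex, nt_ex, he, sub_self] at h1
      have h2 : φ β * A (Dl σ υ) ab 0 + cf (Dl σ υ) ab bb = 0 := h1.symm
      have h3 := hab.e7 (some (σ, υ)) none none (by
        unfold E7 nu de
        linear_combination 2 * h2 - 2 * A (Dl σ υ) ab 0 * hF)
      intro a' b' ha'
      have h4 := h3 a' b' ha'
      simp only [E7, nu, de] at h4
      linarith
    · rintro ⟨s, rfl⟩
      rw [← nt_ex, ← nt_ex, ex_rot σ s _ _ (by rw [← map_sum, ha, map_zero]) hcs]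
  have hclass : ∀ σ : Equiv.Perm (Fin (r + 1)), ∑ s : Fin (r + 1),
      ac α (σ * (finRotate (r + 1)) ^ (s : ℕ)) * ψ (-(β + bt b) * sh σ a s) = 0 := by
    intro σ
    have h1 := hG.p0 c hβ (φ (ex σ a c))
    have h2 : (univ.filter fun υ => φ (ex υ a c) = φ (ex σ a c)) =
        univ.image fun s : Fin (r + 1) => σ * (finRotate (r + 1)) ^ (s : ℕ) := by
      ext υ
      simp only [mem_filter, mem_univ, true_and, mem_image]
      rw [hcl]
      exact exists_congr fun s => eq_comm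
    rw [h2, sum_image fun s _ t _ hst => rot_injective σ hst] at h1
    have h3 : ∀ s : Fin (r + 1), ac α (σ * (finRotate (r + 1)) ^ (s : ℕ)) *
        ψ (ex (σ * (finRotate (r + 1)) ^ (s : ℕ)) a c) =
        (ac α (σ * (finRotate (r + 1)) ^ (s : ℕ)) * ψ (-(β + bt b) * sh σ a s)) *
          ψ (ex σ a c) := by
      intro s
      rw [ex_rot_gen σ s a c ha, hc, bt_upd, mul_assoc, ← AddChar.map_add_eq_mul]
      congr 2
      ring
    rw [sum_congr rfl fun s _ => h3 s, ← sum_mul] at h1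
    exact (mul_eq_zero.1 h1).resolve_right (psi_ne ψ _)
  have h0 : β + bt b = 0 := by
    by_contra hne
    obtain ⟨σ, hσ⟩ := hα
    have h1 := hG.c2 σ (-(β + bt b)) (neg_ne_zero.2 hne) (hclass σ) 0
    apply hσ
    simpa using h1
  refine ⟨h0, fun σ => ?_⟩
  have h1 := hclass σ
  simp only [h0, neg_zero, zero_mul, AddChar.map_zero_eq_one, mul_one] at h1
  have h2 : algebraMap K (AlgebraicClosure K) (∑ s : Fin (r + 1),
      α (σ * (finRotate (r + 1)) ^ (s : ℕ))) = 0 := by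
    rw [map_sum]
    exact h1
  exact (map_eq_zero _).1 h2

theorem par_zero {l n : ℕ} [NeZero n] (h : l ∣ n) {α : Equiv.Perm (Fin (r + 1)) → K}
    {ψ : AddChar (ZMod n) (AlgebraicClosure K)} {a b : Fin (r + 1) → ZMod n}
    (hG : Gd h α ψ a) (β : ZMod n) (hβ : IsZ α ψ a b β) :
    Par α (fun j => ZMod.castHom h (ZMod l) (a j))
      (Function.update (fun j => ZMod.castHom h (ZMod l) (b j)) 0
        (ZMod.castHom h (ZMod l) β)) := by
  have h1 := par_of_E h hG _ hβ
  rw [upd_cast] at h1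
  exact h1

/-- The units are the elements with nonzero residue. -/
def Lu {l n : ℕ} (h : l ∣ n) : Prop := ∀ x : ZMod n, ZMod.castHom h (ZMod l) x ≠ 0 → IsUnit x

theorem zero_inj {l n : ℕ} [NeZero n] (hl : l.Prime) (h : l ∣ n) (hu : Lu h)
    {α : Equiv.Perm (Fin (r + 1)) → K} (hα : ∃ σ, α σ ≠ 0)
    {ψ : AddChar (ZMod n) (AlgebraicClosure K)} {a b : Fin (r + 1) → ZMod n}
    (ha : ∑ j, a j = 0) (hG : Gd h α ψ a)
    (hab : Gpt l (fun j => ZMod.castHom h (ZMod l) (a j)) (fun j => ZMod.castHom h (ZMod l) (b j)))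
    (β β' : ZMod n) (hβ : IsZ α ψ a b β) (hβ' : IsZ α ψ a b β')
    (he : ZMod.castHom h (ZMod l) β = ZMod.castHom h (ZMod l) β') : β = β' := by
  obtain ⟨F, hF⟩ := par_rep hl α hα _ _ hab _ (par_zero h hG β hβ)
  have hF' := hF
  rw [he] at hF'
  rcases F with _ | ⟨σ, τ⟩
  · have e1 := (sol_none hl h hα ha hG hab β hβ (by
      have := hF.2.2
      simp only [de, nu, mul_one] at this
      exact this)).1
    have e2 := (sol_none hl h hα ha hG hab β' hβ' (by
      have := hF'.2.2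
      simp only [de, nu, mul_one] at this
      exact this)).1
    linear_combination e1 - e2
  · have e1 := sol_some hl h hα hG hab β hβ σ τ hF
    have e2 := sol_some hl h hα hG hab β' hβ' σ τ hF'
    have h1 : IsUnit (A (Dl σ τ) a 0) := by
      apply hu
      rw [← nt_A]
      exact hF.2.1
    have h2 : (β - β') * A (Dl σ τ) a 0 = 0 := by linear_combination e1 - e2
    exact sub_eq_zero.1 ((IsUnit.mul_left_eq_zero h1).1 h2)

theorem sidon2 {l n : ℕ} [NeZero n] (hl : l.Prime) (h : l ∣ n) (hu : Lu h)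
    {α : Equiv.Perm (Fin (r + 1)) → K} (hα : ∃ σ, α σ ≠ 0)
    {ψ : AddChar (ZMod n) (AlgebraicClosure K)} {a b : Fin (r + 1) → ZMod n}
    (ha : ∑ j, a j = 0) (hG : Gd h α ψ a)
    (hab : Gpt l (fun j => ZMod.castHom h (ZMod l) (a j)) (fun j => ZMod.castHom h (ZMod l) (b j)))
    (z₁ z₂ z₃ z₄ : ZMod n)
    (h₁ : IsZ α ψ a b z₁) (h₂ : IsZ α ψ a b z₂) (h₃ : IsZ α ψ a b z₃) (h₄ : IsZ α ψ a b z₄)
    (he : z₁ + z₂ = z₃ + z₄) : (z₁ = z₃ ∧ z₂ = z₄) ∨ (z₁ = z₄ ∧ z₂ = z₃) := by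
  have h1 := par_sidon hl α hα _ _ hab _ _ _ _ (par_zero h hG z₁ h₁) (par_zero h hG z₂ h₂)
    (par_zero h hG z₃ h₃) (par_zero h hG z₄ h₄) (by rw [← map_add, ← map_add, he])
  have h2 := zero_inj hl h hu hα ha hG hab
  rcases h1 with h1 | h1
  · exact Or.inl ⟨h2 _ _ h₁ h₃ h1.1, h2 _ _ h₂ h₄ h1.2⟩
  · exact Or.inr ⟨h2 _ _ h₁ h₄ h1.1, h2 _ _ h₂ h₃ h1.2⟩

theorem total2 {l n : ℕ} [NeZero n] (hl : l.Prime) (h : l ∣ n) (hu : Lu h)
    {α : Equiv.Perm (Fin (r + 1)) → K} (hα : ∃ σ, α σ ≠ 0)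
    {ψ : AddChar (ZMod n) (AlgebraicClosure K)} {a b : Fin (r + 1) → ZMod n}
    (ha : ∑ j, a j = 0) (hG : Gd h α ψ a)
    (hab : Gpt l (fun j => ZMod.castHom h (ZMod l) (a j)) (fun j => ZMod.castHom h (ZMod l) (b j)))
    (z z' : ZMod n) (hz : IsZ α ψ a b z) (hz' : IsZ α ψ a b z') (hne : z ≠ z') :
    ∃ s : Fin (r + 1), s ≠ 0 ∧
      (E (ac α) ψ a (Function.update (Function.update b 0 z) s (b s + (z' - z))) ≠ 0 ∨
        E (ac α) ψ a (Function.update (Function.update b 0 z') s (b s + (z - z'))) ≠ 0) := by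
  obtain ⟨s, hs, h1⟩ := par_total hl α hα _ _ hab _ _ (par_zero h hG z hz) (par_zero h hG z' hz')
    (fun he => hne (zero_inj hl h hu hα ha hG hab _ _ hz hz' he))
  refine ⟨s, hs, ?_⟩
  rcases h1 with h1 | h1
  · left
    intro h2
    apply h1
    have h3 := par_of_E h hG _ h2
    rw [upd_cast, upd_cast, map_add, map_sub] at h3
    exact h3
  · right
    intro h2
    apply h1
    have h3 := par_of_E h hG _ h2
    rw [upd_cast, upd_cast, map_add, map_sub] at h3
    exact h3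

end Pool.Agent.P5q
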